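import Pool.Agent.MP_5d9b3c_ag.H22.Star

/-!
The functional equation as a formal identity, and its consequence for solutions of the twisted
system.
-/

namespace Pool.Agent.MP_5d9b3c_ag.H22

open Finset

variable {ν : Type} [Fintype ν] [DecidableEq ν]

/-- Polynomials in one more variable. -/
abbrev PP (ν : Type) : Type := Polynomial (MvPolynomial ν ℂ)

/-- Specialisation to the `m`-th power. -/
noncomputable def evm (f : MvPolynomial ν ℂ) (m : ℕ) : PP ν →ₗ[ℂ] MvPolynomial ν ℂ :=
  Polynomial.lsum (fun k => (m.descFactorial k : ℂ) • LinearMap.mulRight ℂ (f ^ (m - k)))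

/-- The monomial map, linear over the complex numbers. -/
noncomputable def mo (k : ℕ) : MvPolynomial ν ℂ →ₗ[ℂ] PP ν :=
  (Polynomial.monomial k).restrictScalars ℂ

/-- Multiplication by a variable. -/
noncomputable def dX (i : ν) : Module.End ℂ (PP ν) :=
  Polynomial.lsum (fun k => mo k ∘ₗ LinearMap.mulLeft ℂ (MvPolynomial.X i))

/-- The twisted derivative. -/
noncomputable def dP (f : MvPolynomial ν ℂ) (i : ν) : Module.End ℂ (PP ν) :=
  Polynomial.lsum (fun k => mo k ∘ₗ (MvPolynomial.pderiv i).toLinearMap +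
    mo (k + 1) ∘ₗ LinearMap.mulRight ℂ (MvPolynomial.pderiv i f))

/-- The operator that gives the exponent. -/
noncomputable def d0 (f : MvPolynomial ν ℂ) : Module.End ℂ (PP ν) :=
  Polynomial.lsum (fun k => (k : ℂ) • mo k + mo (k + 1) ∘ₗ LinearMap.mulRight ℂ f)

omit [Fintype ν] [DecidableEq ν] in
lemma lsum_mo {W : Type} [AddCommGroup W] [Module ℂ W] (F : ℕ → MvPolynomial ν ℂ →ₗ[ℂ] W) (k : ℕ)
    (g : MvPolynomial ν ℂ) : Polynomial.lsum F (mo k g) = F k g := by
  rw [Polynomial.lsum_apply]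
  exact Polynomial.sum_monomial_index g (fun n r => F n r) (map_zero _)

omit [Fintype ν] [DecidableEq ν] in
lemma PP_ext {W : Type} [AddCommGroup W] [Module ℂ W] {S T : PP ν →ₗ[ℂ] W}
    (h : ∀ k g, S (mo k g) = T (mo k g)) : S = T := by
  refine LinearMap.ext (fun e => ?_)
  induction e using Polynomial.induction_on' with
  | add p q hp hq => rw [map_add, map_add, hp, hq]
  | monomial k g => exact h k g

omit [Fintype ν] [DecidableEq ν] in
lemma PP_ext' {W : Type} [AddCommGroup W] [Module ℂ W] {S T : PP ν →ₗ[ℂ] W}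
    (h : ∀ k n, S (mo k (MvPolynomial.monomial n 1)) = T (mo k (MvPolynomial.monomial n 1))) :
    S = T := by
  refine PP_ext (fun k g => ?_)
  induction g using MvPolynomial.induction_on' with
  | monomial n a =>
    have : (MvPolynomial.monomial n a : MvPolynomial ν ℂ) = a • MvPolynomial.monomial n 1 := by
      rw [MvPolynomial.smul_monomial, smul_eq_mul, mul_one]
    rw [this, map_smul, map_smul, map_smul, h]
  | add p q hp hq => rw [map_add, map_add, map_add, hp, hq]

variable {f : MvPolynomial ν ℂ}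

omit [Fintype ν] [DecidableEq ν] in
lemma evm_mo (m k : ℕ) (g : MvPolynomial ν ℂ) :
    evm f m (mo k g) = (m.descFactorial k : ℂ) • (g * f ^ (m - k)) := by
  rw [evm, lsum_mo]
  rfl

omit [Fintype ν] [DecidableEq ν] in
lemma evm_dX (m : ℕ) (i : ν) :
    evm f m ∘ₗ dX i = LinearMap.mulLeft ℂ (MvPolynomial.X i) ∘ₗ evm f m := by
  refine PP_ext (fun k g => ?_)
  simp only [LinearMap.comp_apply, dX, lsum_mo, evm_mo, LinearMap.mulLeft_apply, mul_smul_comm,
    mul_assoc]

omit [Fintype ν] [DecidableEq ν] in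
lemma evm_dP (m : ℕ) (i : ν) :
    evm f m ∘ₗ dP f i = (MvPolynomial.pderiv i).toLinearMap ∘ₗ evm f m := by
  refine PP_ext (fun k g => ?_)
  simp only [LinearMap.comp_apply, dP, lsum_mo, LinearMap.add_apply, map_add, evm_mo,
    LinearMap.mulRight_apply, Derivation.coeFn_coe, Derivation.leibniz,
    Derivation.leibniz_pow, Nat.descFactorial_succ, smul_eq_mul, Nat.sub_add_eq,
    MvPolynomial.smul_eq_C_mul, nsmul_eq_mul, map_natCast, Nat.cast_mul, map_mul,
    Derivation.map_natCast]
  ring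

omit [Fintype ν] [DecidableEq ν] in
lemma evm_d0 (m : ℕ) (e : PP ν) : evm f m (d0 f e) = (m : ℂ) • evm f m e := by
  have : evm f m ∘ₗ d0 f = (m : ℂ) • evm f m := by
    refine PP_ext (fun k g => ?_)
    simp only [LinearMap.comp_apply, d0, lsum_mo, LinearMap.add_apply, map_add, evm_mo,
      LinearMap.mulRight_apply, map_smul, LinearMap.smul_apply, Nat.descFactorial_succ,
      MvPolynomial.smul_eq_C_mul, map_natCast, Nat.cast_mul, map_mul]
    rcases lt_trichotomy k m with h | h | h
    · obtain ⟨r, rfl⟩ := Nat.exists_eq_add_of_lt h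
      have e1 : k + r + 1 - k = r + 1 := by omega
      have e2 : k + r + 1 - (k + 1) = r := by omega
      rw [e1, e2]
      push_cast
      ring
    · subst h
      simp
    · simp [Nat.descFactorial_of_lt h]
  exact LinearMap.congr_fun this e

omit [Fintype ν] [DecidableEq ν] in
lemma evm_inj {e : PP ν} (h : ∀ m, evm f m e = 0) : e = 0 := by
  ext1 k
  rw [Polynomial.coeff_zero]
  induction k using Nat.strong_induction_on with
  | _ k ih =>
    have h1 := h k
    rw [evm, Polynomial.lsum_apply, Polynomial.sum, sum_eq_single k] at h1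
    · simp only [LinearMap.smul_apply, LinearMap.mulRight_apply, Nat.sub_self, pow_zero, mul_one,
        Nat.descFactorial_self, smul_eq_zero, Nat.cast_eq_zero] at h1
      exact h1.resolve_left (Nat.factorial_ne_zero k)
    · intro j _ hj
      rcases lt_or_gt_of_ne hj with h2 | h2
      · rw [ih j h2, map_zero]
      · simp [Nat.descFactorial_of_lt h2]
    · intro hk
      rw [Polynomial.notMem_support_iff.1 hk, map_zero]

lemma map_aeval_of_mul {M W : Type} [AddCommGroup M] [Module ℂ M] [CommRing W] [Algebra ℂ W]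
    (Λ : M →ₗ[ℂ] W) (T : Module.End ℂ M) (a : W) (h : ∀ e, Λ (T e) = a * Λ e) (b : Polynomial ℂ)
    (e : M) : Λ (Polynomial.aeval T b e) = Polynomial.aeval a b * Λ e := by
  have hp : ∀ (n : ℕ) e, Λ ((T ^ n) e) = a ^ n * Λ e := by
    intro n
    induction n with
    | zero => simp
    | succ n ih => intro e; rw [pow_succ, Module.End.mul_apply, ih, h, pow_succ, mul_assoc]
  induction b using Polynomial.induction_on' with
  | add p q hp hq => rw [map_add, map_add, LinearMap.add_apply, map_add, hp, hq, add_mul]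
  | monomial n r =>
    rw [Polynomial.aeval_monomial, Polynomial.aeval_monomial, ← Algebra.smul_def,
      ← Algebra.smul_def, LinearMap.smul_apply, map_smul, hp, smul_mul_assoc]

/-- The Weyl algebra. -/
noncomputable abbrev WW (ν : Type) : Subalgebra ℂ (Module.End ℂ (MvPolynomial ν ℂ)) :=
  Algebra.adjoin ℂ
    (Set.range (fun i : ν => LinearMap.mulLeft ℂ (MvPolynomial.X i : MvPolynomial ν ℂ)) ∪
      Set.range (fun i : ν => (MvPolynomial.pderiv i :
        Derivation ℂ (MvPolynomial ν ℂ) (MvPolynomial ν ℂ)).toLinearMap))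

omit [Fintype ν] [DecidableEq ν] in
lemma formal {W : Type} [AddCommGroup W] [Module ℂ W] (𝒞 : Submodule ℂ (PP ν →ₗ[ℂ] W))
    (h1 : ∀ Λ ∈ 𝒞, ∀ i, Λ ∘ₗ dX i ∈ 𝒞) (h2 : ∀ Λ ∈ 𝒞, ∀ i, Λ ∘ₗ dP f i ∈ 𝒞)
    (h3 : ∀ Λ ∈ 𝒞, Λ (mo 0 1) = 0) {b : Polynomial ℂ} {d : ℕ}
    {P : ℕ → Module.End ℂ (MvPolynomial ν ℂ)} (hP : ∀ t, P t ∈ WW ν)
    (heq : ∀ m : ℕ, ∑ t ∈ range d, (m : ℂ) ^ t • P t (f ^ (m + 1)) = b.eval (m : ℂ) • f ^ m) :
    ∃ y : ℕ → PP ν, (∀ t, ∀ Λ ∈ 𝒞, Λ (y t) = 0) ∧
      d0 f (∑ t ∈ range d, ((d0 f - 1) ^ t) (y t)) = Polynomial.aeval (d0 f - 1) b (mo 1 1) := by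
  have lift : ∀ P ∈ WW ν, ∃ P' : Module.End ℂ (PP ν),
      (∀ m, evm f m ∘ₗ P' = P ∘ₗ evm f m) ∧ ∀ Λ ∈ 𝒞, Λ ∘ₗ P' ∈ 𝒞 := by
    intro P hP
    induction hP using Algebra.adjoin_induction with
    | mem x hx =>
      rcases hx with ⟨i, rfl⟩ | ⟨i, rfl⟩
      · exact ⟨dX i, fun m => evm_dX m i, fun Λ h => h1 Λ h i⟩
      · exact ⟨dP f i, fun m => evm_dP m i, fun Λ h => h2 Λ h i⟩
    | algebraMap r =>
      refine ⟨r • LinearMap.id, fun m => ?_, fun Λ h => ?_⟩
      · ext1 e
        simp
      · rw [LinearMap.comp_smul, LinearMap.comp_id]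
        exact 𝒞.smul_mem r h
    | add x y _ _ hx hy =>
      obtain ⟨x', hx1, hx2⟩ := hx
      obtain ⟨y', hy1, hy2⟩ := hy
      refine ⟨x' + y', fun m => ?_, fun Λ h => ?_⟩
      · rw [LinearMap.comp_add, LinearMap.add_comp, hx1, hy1]
      · rw [LinearMap.comp_add]
        exact 𝒞.add_mem (hx2 Λ h) (hy2 Λ h)
    | mul x y _ _ hx hy =>
      obtain ⟨x', hx1, hx2⟩ := hx
      obtain ⟨y', hy1, hy2⟩ := hy
      refine ⟨x' ∘ₗ y', fun m => ?_, fun Λ h => ?_⟩
      · rw [← LinearMap.comp_assoc, hx1, LinearMap.comp_assoc, hy1]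
        rfl
      · rw [← LinearMap.comp_assoc]
        exact hy2 _ (hx2 Λ h)
  choose P' hP1 hP2 using fun t => lift (P t) (hP t)
  refine ⟨fun t => P' t (mo 0 1), fun t Λ h => h3 _ (hP2 t Λ h), ?_⟩
  rw [← sub_eq_zero]
  refine evm_inj (f := f) (fun m => ?_)
  have hT : ∀ e, evm f m ((d0 f - 1) e) = MvPolynomial.C ((m : ℂ) - 1) * evm f m e := by
    intro e
    rw [LinearMap.sub_apply, map_sub, evm_d0, Module.End.one_apply, map_sub, sub_mul, map_one,
      one_mul, MvPolynomial.smul_eq_C_mul]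
  have hpow : ∀ (t : ℕ) e, evm f m (((d0 f - 1) ^ t) e) = ((m : ℂ) - 1) ^ t • evm f m e := by
    intro t e
    have := map_aeval_of_mul (evm f m) (d0 f - 1) _ hT (Polynomial.X ^ t) e
    simpa [MvPolynomial.smul_eq_C_mul] using this
  have hy : ∀ t, evm f m (P' t (mo 0 1)) = P t (f ^ m) := by
    intro t
    have := LinearMap.congr_fun (hP1 t m) (mo 0 1)
    simpa [evm_mo] using this
  rw [map_sub, evm_d0, map_sum, map_aeval_of_mul (evm f m) (d0 f - 1) _ hT, evm_mo, sub_eq_zero]
  simp only [hpow, hy]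
  cases m with
  | zero => simp
  | succ m =>
    have e : ((m + 1 : ℕ) : ℂ) - 1 = m := by push_cast; ring
    have e2 : Polynomial.aeval (MvPolynomial.C (m : ℂ) : MvPolynomial ν ℂ) b =
        MvPolynomial.C (b.eval (m : ℂ)) := Polynomial.aeval_algebraMap_apply_eq_algebraMap_eval _ _
    rw [e, heq m, e2]
    simp only [Nat.descFactorial_one, Nat.add_sub_cancel, one_mul, MvPolynomial.smul_eq_C_mul]
    ring

omit [Fintype ν] [DecidableEq ν] in
theorem root_neg_one (hf : f.totalDegree ≠ 0) {b : Polynomial ℂ} {d : ℕ}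
    {P : ℕ → Module.End ℂ (MvPolynomial ν ℂ)} (hP : ∀ t, P t ∈ WW ν)
    (heq : ∀ m : ℕ, ∑ t ∈ range d, (m : ℂ) ^ t • P t (f ^ (m + 1)) = b.eval (m : ℂ) • f ^ m) :
    b.eval (-1) = 0 := by
  obtain ⟨y, _, hy⟩ := formal (W := ℂ) ⊥ (by simp) (by simp) (by simp) hP heq
  obtain ⟨q, hq⟩ := Polynomial.X_sub_C_dvd_sub_C_eval (p := b) (a := -1)
  have hb : b = (Polynomial.X + 1) * q + Polynomial.C (b.eval (-1)) := by
    rw [← sub_eq_iff_eq_add, hq]
    simp
  have e0 : d0 f - 1 + 1 = d0 f := by abel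
  rw [hb, map_add, map_mul, map_add, Polynomial.aeval_X, map_one, e0,
    Polynomial.aeval_C, LinearMap.add_apply, Module.End.mul_apply, ← sub_eq_iff_eq_add',
    ← map_sub] at hy
  generalize (∑ t ∈ range d, ((d0 f - 1) ^ t) (y t) -
    Polynomial.aeval (d0 f - 1) q (mo 1 1)) = z at hy
  have hcoef : ∀ (z : PP ν) (k : ℕ),
      (d0 f z).coeff (k + 1) = ((k + 1 : ℕ) : ℂ) • z.coeff (k + 1) + z.coeff k * f := by
    intro z k
    induction z using Polynomial.induction_on' with
    | add p q hp hq => simp only [map_add, Polynomial.coeff_add, hp, hq, smul_add, add_mul]; abel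
    | monomial j g =>
      change (d0 f (mo j g)).coeff (k + 1) = _
      rw [d0, lsum_mo]
      simp only [mo, LinearMap.add_apply, LinearMap.smul_apply, LinearMap.comp_apply,
        LinearMap.restrictScalars_apply, LinearMap.mulRight_apply, Polynomial.coeff_add,
        Polynomial.coeff_smul, Polynomial.coeff_monomial, Nat.add_right_cancel_iff]
      clear hy hb hq heq
      split_ifs with h1 h2 h2
      · omega
      · rw [h1, zero_mul]
      · rw [smul_zero, smul_zero]
      · rw [smul_zero, smul_zero, zero_mul]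
  have hf0 : f ≠ 0 := by
    rintro rfl
    simp at hf
  have h1 := hcoef z z.natDegree
  rw [hy, Polynomial.coeff_eq_zero_of_natDegree_lt (Nat.lt_succ_self _), smul_zero, zero_add,
    Module.algebraMap_end_apply, Polynomial.coeff_smul, mo, LinearMap.restrictScalars_apply,
    Polynomial.coeff_monomial] at h1
  by_contra hb0
  split_ifs at h1 with h2
  · have h3 : z.coeff z.natDegree ≠ 0 := by
      intro h
      rw [h, zero_mul, smul_eq_zero] at h1
      exact h1.elim hb0 one_ne_zero
    have h4 := MvPolynomial.totalDegree_mul_of_isDomain h3 hf0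
    rw [← h1, MvPolynomial.smul_eq_C_mul, mul_one, MvPolynomial.totalDegree_C] at h4
    omega
  · rw [smul_zero, eq_comm, mul_eq_zero, or_iff_left hf0] at h1
    have h3 : z = 0 := Polynomial.leadingCoeff_eq_zero.1 h1
    rw [h3] at h2
    simp at h2

section Sol

variable {κ W : Type} [Fintype κ] [CommRing W] [Algebra ℂ W]

/-- The exponent attached to a monomial. -/
def ex (k : ℕ) (n : ν →₀ ℕ) (w : ν → ℤ) : Option ν → ℤ :=
  fun o => o.elim ((k : ℤ) - 1) (fun i => n i + w i)

/-- The shifted functionals. -/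
noncomputable def Lam (Ψ : (Option ν → ℤ) → W) (r : W) (w : ν → ℤ) : PP ν →ₗ[ℂ] W :=
  Polynomial.lsum (fun k => (MvPolynomial.basisMonomials ν ℂ).constr ℂ (fun n => r * Ψ (ex k n w)))

omit [Fintype ν] [DecidableEq ν] in
lemma Lam_mo (Ψ : (Option ν → ℤ) → W) (r : W) (w : ν → ℤ) (k : ℕ) (n : ν →₀ ℕ) (a : ℂ) :
    Lam Ψ r w (mo k (MvPolynomial.monomial n a)) = a • (r * Ψ (ex k n w)) := by
  have : (MvPolynomial.monomial n a : MvPolynomial ν ℂ) =
      a • MvPolynomial.basisMonomials ν ℂ n := by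
    rw [MvPolynomial.coe_basisMonomials, MvPolynomial.smul_monomial, smul_eq_mul, mul_one]
  rw [Lam, lsum_mo, this, map_smul, Module.Basis.constr_basis]

omit [Fintype ν] in
theorem sol_vanish (a : κ → ν →₀ ℕ) (cc : κ → ℂ) (L : Option ν → W) (Ψ : (Option ν → ℤ) → W)
    (rel : ∀ u i, L i * Ψ u = (u i : ℂ) • Ψ u +
      ∑ j, (cc j * Aof a j i) • Ψ (u + fun i => (Aof a j i : ℤ)))
    (I : Finset ν) (van : ∀ u, u none = -1 →
      (∏ i ∈ I.filter (fun i => u (some i) < 0), (L (some i) + 1)) * Ψ u = 0)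
    {b : Polynomial ℂ} {d : ℕ} {P : ℕ → Module.End ℂ (MvPolynomial ν ℂ)} (hP : ∀ t, P t ∈ WW ν)
    (heq : ∀ m : ℕ, ∑ t ∈ range d, (m : ℂ) ^ t •
      P t ((∑ j, MvPolynomial.monomial (a j) (cc j)) ^ (m + 1)) =
      b.eval (m : ℂ) • (∑ j, MvPolynomial.monomial (a j) (cc j)) ^ m) :
    Polynomial.aeval (L none) b * Ψ 0 = 0 := by
  obtain ⟨f, hf⟩ : ∃ f, f = ∑ j, MvPolynomial.monomial (a j) (cc j) := ⟨_, rfl⟩
  rw [← hf] at heq
  have hX : ∀ r w i, Lam Ψ r w ∘ₗ dX i = Lam Ψ r (w + Pi.single i 1) := by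
    intro r w i
    refine PP_ext' (fun k n => ?_)
    rw [LinearMap.comp_apply, dX, lsum_mo, LinearMap.comp_apply, LinearMap.mulLeft_apply,
      MvPolynomial.X, MvPolynomial.monomial_mul, Lam_mo, Lam_mo, one_mul]
    congr 3
    ext (_ | i')
    · rfl
    · simp only [ex, Option.elim_some, Finsupp.add_apply, Pi.add_apply, Finsupp.single_apply,
        Pi.single_apply, eq_comm (a := i)]
      split_ifs <;> push_cast <;> ring
  have hD : ∀ r w i, Lam Ψ r w ∘ₗ dP f i =
      Lam Ψ (r * (L (some i) + 1 - (w i : W))) (w - Pi.single i 1) := by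
    intro r w i
    refine PP_ext' (fun k n => ?_)
    have h1 := rel (ex k n (w - Pi.single i 1)) (some i)
    have key : ∀ (k : ℕ) (n : ν →₀ ℕ) (s : ν →₀ ℕ) (x : ℂ),
        Lam Ψ r w (mo k (MvPolynomial.monomial s 1 * MvPolynomial.pderiv i
          (MvPolynomial.monomial n x))) = (x * n i) • (r * Ψ (ex k (s + n) (w - Pi.single i 1))) := by
      intro k n s x
      rw [MvPolynomial.pderiv_monomial, MvPolynomial.monomial_mul, Lam_mo, one_mul]
      by_cases hn : n i = 0
      · simp [hn]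
      · congr 3
        ext (_ | i')
        · rfl
        · simp only [ex, Option.elim_some, Finsupp.add_apply, Pi.sub_apply, Finsupp.tsub_apply,
            Finsupp.single_apply, Pi.single_apply, eq_comm (a := i)]
          split_ifs with h
          · subst h
            omega
          · simp
    have k1 := key k n 0 1
    rw [MvPolynomial.monomial_zero', map_one, one_mul, zero_add, one_mul] at k1
    rw [LinearMap.comp_apply, dP, lsum_mo, LinearMap.add_apply, map_add, LinearMap.comp_apply,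
      LinearMap.comp_apply, LinearMap.mulRight_apply, Derivation.coeFn_coe, k1, hf, map_sum,
      mul_sum, map_sum, map_sum, Lam_mo, one_smul]
    simp only [key]
    have e1 : ∀ j, ex (k + 1) (n + a j) (w - Pi.single i 1) =
        ex k n (w - Pi.single i 1) + fun i => (Aof a j i : ℤ) := by
      intro j
      ext (_ | i')
      · simp [ex, Aof]
      · simp only [ex, Aof, Option.elim_some, Finsupp.add_apply, Pi.add_apply]
        push_cast
        ring
    simp only [e1, ← mul_smul_comm, ← mul_sum]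
    have e2 : (ex k n (w - Pi.single i 1) (some i) : ℂ) = n i + w i - 1 := by
      simp [ex, add_sub_assoc]
    rw [e2] at h1
    simp only [Aof, Option.elim_some] at h1 ⊢
    rw [mul_assoc, ← mul_add, sub_mul, add_mul, h1]
    congr 1
    simp only [Algebra.smul_def, map_sub, map_add, map_natCast, map_intCast, map_one]
    ring
  have h0 : ∀ e, Lam Ψ 1 0 ((d0 f - 1) e) = L none * Lam Ψ 1 0 e := by
    have : Lam Ψ 1 0 ∘ₗ (d0 f - 1) = LinearMap.mulLeft ℂ (L none) ∘ₗ Lam Ψ 1 0 := by
      refine PP_ext' (fun k n => ?_)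
      have h1 := rel (ex k n 0) none
      have e1 : ∀ j, ex (k + 1) (n + a j) 0 = ex k n 0 + fun i => (Aof a j i : ℤ) := by
        intro j
        ext (_ | i')
        · simp [ex, Aof]
        · simp [ex, Aof]
      simp only [LinearMap.comp_apply, LinearMap.sub_apply, d0, lsum_mo, LinearMap.add_apply,
        LinearMap.smul_apply, LinearMap.mulRight_apply, Module.End.one_apply, map_sub, map_add,
        map_smul, hf, mul_sum, map_sum, MvPolynomial.monomial_mul, Lam_mo, one_smul, one_mul,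
        LinearMap.mulLeft_apply, e1, h1]
      simp only [ex, Aof, Option.elim_none, Nat.cast_one, mul_one]
      push_cast
      rw [sub_smul, one_smul]
      abel
    exact fun e => LinearMap.congr_fun this e
  obtain ⟨G, hG⟩ : ∃ G : Set (PP ν →ₗ[ℂ] W), G = {Λ | ∃ (r : W) (w : ν → ℤ),
      (∏ i ∈ I.filter (fun i => w i < 0), (L (some i) + 1)) ∣ r ∧ Λ = Lam Ψ r w} := ⟨_, rfl⟩
  suffices H : (∀ Λ ∈ Submodule.span ℂ G, ∀ i, Λ ∘ₗ dX i ∈ Submodule.span ℂ G) ∧
      (∀ Λ ∈ Submodule.span ℂ G, ∀ i, Λ ∘ₗ dP f i ∈ Submodule.span ℂ G) ∧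
      (∀ Λ ∈ Submodule.span ℂ G, Λ (mo 0 1) = 0) by
    obtain ⟨y, hy1, hy2⟩ := formal (f := f) (Submodule.span ℂ G) H.1 H.2.1 H.2.2 hP heq
    have hmem : Lam Ψ 1 0 ∈ Submodule.span ℂ G :=
      Submodule.subset_span (hG ▸ ⟨1, 0, by simp, rfl⟩)
    have h1 := congrArg (Lam Ψ 1 0) hy2
    have h2 : ∀ e, Lam Ψ 1 0 (d0 f e) = (L none + 1) * Lam Ψ 1 0 e := by
      intro e
      have := h0 e
      rw [LinearMap.sub_apply, map_sub, Module.End.one_apply, sub_eq_iff_eq_add] at this
      rw [this]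
      ring
    have h3 : ∀ t : ℕ, Lam Ψ 1 0 (((d0 f - 1) ^ t) (y t)) = 0 := by
      intro t
      have := map_aeval_of_mul (Lam Ψ 1 0) (d0 f - 1) _ h0 (Polynomial.X ^ t) (y t)
      rw [hy1 t _ hmem, mul_zero] at this
      simpa using this
    rw [h2, map_sum, sum_eq_zero (fun t _ => h3 t), mul_zero,
      map_aeval_of_mul (Lam Ψ 1 0) (d0 f - 1) _ h0, ← MvPolynomial.C_1, ← MvPolynomial.monomial_zero',
      Lam_mo, one_smul, one_mul] at h1
    have e : ex 1 (0 : ν →₀ ℕ) 0 = 0 := by
      ext (_ | i) <;> simp [ex]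
    rw [e] at h1
    exact h1.symm
  subst hG
  refine ⟨fun Λ hΛ i => ?_, fun Λ hΛ i => ?_, fun Λ hΛ => ?_⟩
  · induction hΛ using Submodule.span_induction with
    | mem Λ h =>
      obtain ⟨r, w, h1, rfl⟩ := h
      refine Submodule.subset_span ⟨r, _, dvd_trans (prod_dvd_prod_of_subset _ _ _ ?_) h1, hX r w i⟩
      intro i' hi'
      rw [mem_filter] at hi' ⊢
      refine ⟨hi'.1, lt_of_le_of_lt ?_ hi'.2⟩
      simp only [Pi.add_apply, Pi.single_apply]
      split_ifs <;> omega
    | zero => simp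
    | add x y _ _ hx hy => rw [LinearMap.add_comp]; exact Submodule.add_mem _ hx hy
    | smul c x _ hx => rw [LinearMap.smul_comp]; exact Submodule.smul_mem _ c hx
  · induction hΛ using Submodule.span_induction with
    | mem Λ h =>
      obtain ⟨r, w, h1, rfl⟩ := h
      refine Submodule.subset_span ⟨_, _, ?_, hD r w i⟩
      by_cases hw : w i = 0 ∧ i ∈ I
      · have e : I.filter (fun i' => (w - Pi.single i 1 : ν → ℤ) i' < 0) =
            insert i (I.filter (fun i => w i < 0)) := by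
          ext i'
          by_cases h : i' = i
          · subst h
            simp [hw.1, hw.2]
          · simp [h]
        rw [e, prod_insert (by simp [hw.1]), hw.1, Int.cast_zero, sub_zero, mul_comm]
        exact mul_dvd_mul_right h1 _
      · refine dvd_trans (prod_dvd_prod_of_subset _ _ _ ?_) (h1.mul_right _)
        intro i' hi'
        rw [mem_filter] at hi' ⊢
        refine ⟨hi'.1, ?_⟩
        by_cases h : i' = i
        · subst h
          have := hi'.2
          simp only [Pi.sub_apply, Pi.single_eq_same] at this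
          have : w i' ≠ 0 := fun h => hw ⟨h, hi'.1⟩
          omega
        · simpa [h] using hi'.2
    | zero => simp
    | add x y _ _ hx hy => rw [LinearMap.add_comp]; exact Submodule.add_mem _ hx hy
    | smul c x _ hx => rw [LinearMap.smul_comp]; exact Submodule.smul_mem _ c hx
  · induction hΛ using Submodule.span_induction with
    | mem Λ h =>
      obtain ⟨r, w, ⟨s, rfl⟩, rfl⟩ := h
      rw [← MvPolynomial.C_1, ← MvPolynomial.monomial_zero', Lam_mo, one_smul, mul_right_comm]
      have := van (ex 0 0 w) (by simp [ex])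
      simp only [ex, Option.elim_some, Finsupp.coe_zero, Pi.zero_apply, Nat.cast_zero,
        zero_add] at this ⊢
      rw [this, zero_mul]
    | zero => simp
    | add x y _ _ hx hy => rw [LinearMap.add_apply, hx, hy, add_zero]
    | smul c x _ hx => rw [LinearMap.smul_apply, hx, smul_zero]

end Sol

end Pool.Agent.MP_5d9b3c_ag.H22
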