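import Mathlib

/-!
The additive character, its average over units, and the difference of the two.
-/

namespace Pool.Agent.MP_5d9b3c_ag.H22

open Finset

/-- The additive character `exp (2 π i a / p ^ z)`. -/
noncomputable def chi (p : ℕ) (z a : ℤ) : ℂ :=
  Complex.exp (2 * Real.pi * Complex.I * (a * (p : ℂ) ^ (-z)))

/-- The indicator of `p ^ z ∣ a`. -/
noncomputable def DD (p : ℕ) (z a : ℤ) : ℂ := if (p : ℤ) ^ z.toNat ∣ a then 1 else 0

/-- The average of the character over units. -/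
noncomputable def gam (p : ℕ) (z a : ℤ) : ℂ := (p * DD p z a - DD p (z - 1) a) / (p - 1)

/-- The character minus its average. -/
noncomputable def eps (p : ℕ) (z a : ℤ) : ℂ := chi p z a - gam p z a

variable {p : ℕ}

lemma chi_add (z a b : ℤ) : chi p z (a + b) = chi p z a * chi p z b := by
  rw [chi, chi, chi, ← Complex.exp_add]
  congr 1
  push_cast
  ring

lemma chi_zero (z : ℤ) : chi p z 0 = 1 := by simp [chi]

lemma chi_nat_mul (z a : ℤ) (w : ℕ) : chi p z (w * a) = chi p z a ^ w := by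
  induction w with
  | zero => simp [chi_zero]
  | succ w ih => rw [Nat.cast_succ, add_mul, one_mul, chi_add, ih, pow_succ]

lemma chi_sum {α : Type} (s : Finset α) (z : ℤ) (a : α → ℤ) :
    chi p z (∑ j ∈ s, a j) = ∏ j ∈ s, chi p z (a j) := by
  classical
  induction s using Finset.induction_on with
  | empty => simp [chi_zero]
  | insert j s hj ih => rw [sum_insert hj, prod_insert hj, chi_add, ih]

lemma norm_chi (z a : ℤ) : ‖chi p z a‖ = 1 := by
  have : 2 * Real.pi * Complex.I * (a * (p : ℂ) ^ (-z)) =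
      ((2 * Real.pi * (a * (p : ℝ) ^ (-z)) : ℝ) : ℂ) * Complex.I := by
    push_cast
    ring
  rw [chi, this, Complex.norm_exp_ofReal_mul_I]

lemma norm_DD (z a : ℤ) : ‖DD p z a‖ ≤ 1 := by
  unfold DD
  split_ifs <;> simp

variable [hp : Fact p.Prime]

lemma p_ne_zero : (p : ℂ) ≠ 0 := by exact_mod_cast hp.out.ne_zero

lemma p_sub_one_ne_zero : (p : ℂ) - 1 ≠ 0 := by
  rw [sub_ne_zero]
  exact_mod_cast hp.out.ne_one

lemma chi_p_mul (z a : ℤ) : chi p z (p * a) = chi p (z - 1) a := by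
  rw [chi, chi, neg_sub, sub_eq_add_neg, zpow_add₀ p_ne_zero, zpow_one]
  congr 1
  push_cast
  ring

lemma chi_eq_one_iff (z a : ℤ) : chi p z a = 1 ↔ (p : ℤ) ^ z.toNat ∣ a := by
  have hpi : (2 * Real.pi * Complex.I : ℂ) ≠ 0 := Complex.two_pi_I_ne_zero
  rw [chi, Complex.exp_eq_one_iff]
  have key : (∃ n : ℤ, (a : ℂ) * (p : ℂ) ^ (-z) = n) ↔ (p : ℤ) ^ z.toNat ∣ a := by
    rcases le_total z 0 with hz | hz
    · have e : z.toNat = 0 := by omega
      rw [e, pow_zero]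
      refine ⟨fun _ => one_dvd _, fun _ => ⟨a * (p : ℤ) ^ (-z).toNat, ?_⟩⟩
      push_cast
      rw [← zpow_natCast, Int.toNat_of_nonneg (by omega)]
    · obtain ⟨k, rfl⟩ := Int.eq_ofNat_of_zero_le hz
      rw [Int.toNat_natCast, zpow_neg, zpow_natCast]
      have h0 : (p : ℂ) ^ k ≠ 0 := pow_ne_zero _ p_ne_zero
      constructor
      · rintro ⟨n, hn⟩
        refine ⟨n, ?_⟩
        rw [mul_inv_eq_iff_eq_mul₀ h0] at hn
        have : (a : ℂ) = (((p : ℤ) ^ k * n : ℤ) : ℂ) := by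
          push_cast
          rw [hn, mul_comm]
        exact_mod_cast this
      · rintro ⟨n, rfl⟩
        refine ⟨n, ?_⟩
        push_cast
        field_simp
  rw [← key]
  refine exists_congr (fun n => ?_)
  rw [mul_comm (n : ℂ), mul_right_inj' hpi]

lemma chi_congr {z : ℤ} {k : ℕ} (hz : z ≤ k) {a a' : ℤ} (h : a ≡ a' [ZMOD (p ^ k : ℕ)]) :
    chi p z a = chi p z a' := by
  have h1 : chi p z (a' - a) = 1 := by
    rw [chi_eq_one_iff]
    refine (pow_dvd_pow _ (by omega : z.toNat ≤ k)).trans ?_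
    exact_mod_cast h.dvd
  rw [← add_sub_cancel a a', chi_add, h1, mul_one]

lemma DD_eq (z a : ℤ) : DD p z a = if chi p z a = 1 then 1 else 0 := by
  rw [DD]
  exact if_congr (chi_eq_one_iff z a).symm rfl rfl

lemma DD_p_mul (z a : ℤ) : DD p z (p * a) = DD p (z - 1) a := by
  rw [DD_eq, DD_eq, chi_p_mul]

lemma DD_congr {z : ℤ} {k : ℕ} (hz : z ≤ k) {a a' : ℤ} (h : a ≡ a' [ZMOD (p ^ k : ℕ)]) :
    DD p z a = DD p z a' := by
  rw [DD_eq, DD_eq, chi_congr hz h]

lemma DD_unit (z a : ℤ) {w : ℤ} (hw : ¬ (p : ℤ) ∣ w) : DD p z (w * a) = DD p z a := by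
  have hc : IsCoprime ((p : ℤ) ^ z.toNat) w :=
    ((Nat.prime_iff_prime_int.1 hp.out).coprime_iff_not_dvd.2 hw).pow_left
  exact if_congr ⟨fun h => hc.dvd_of_dvd_mul_left h, fun h => h.mul_left w⟩ rfl rfl

lemma gam_unit (z a : ℤ) {w : ℤ} (hw : ¬ (p : ℤ) ∣ w) : gam p z (w * a) = gam p z a := by
  rw [gam, gam, DD_unit _ _ hw, DD_unit _ _ hw]

omit hp in
lemma DD_of_nonpos {z : ℤ} (hz : z ≤ 0) (a : ℤ) : DD p z a = 1 := by
  have e : z.toNat = 0 := by omega
  simp [DD, e]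

lemma eps_of_nonpos {z : ℤ} (hz : z ≤ 0) (a : ℤ) : eps p z a = 0 := by
  have e : z.toNat = 0 := by omega
  rw [eps, gam, DD_of_nonpos hz, DD_of_nonpos (by omega), (chi_eq_one_iff z a).2 (by simp [e]),
    mul_one, div_self p_sub_one_ne_zero, sub_self]

lemma DD_eq_zero {z c : ℤ} (hc : c ≠ 0) (hz : (c.natAbs : ℤ) ≤ z) : DD p z c = 0 := by
  rw [DD, if_neg]
  intro h
  have h1 := Int.natAbs_le_of_dvd_ne_zero h hc
  rw [Int.natAbs_pow, Int.natAbs_natCast] at h1
  have h2 := Nat.lt_pow_self (n := z.toNat) hp.out.one_lt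
  omega

lemma norm_gam (z a : ℤ) : ‖gam p z a‖ ≤ 3 := by
  have h2 : (2 : ℝ) ≤ p := by exact_mod_cast hp.out.two_le
  have e : ‖(p : ℂ) - 1‖ = (p : ℝ) - 1 := by
    have : (p : ℂ) - 1 = ((p - 1 : ℝ) : ℂ) := by push_cast; rfl
    rw [this, Complex.norm_real, Real.norm_of_nonneg (by linarith)]
  rw [gam, norm_div, e, div_le_iff₀ (by linarith)]
  refine (norm_sub_le _ _).trans ?_
  rw [norm_mul, Complex.norm_natCast]
  have h3 := norm_DD (p := p) z a
  have h4 := norm_DD (p := p) (z - 1) a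
  nlinarith

/-- The properties of a kernel. -/
structure Ker (p : ℕ) (g : ℤ → ℤ → ℂ) : Prop where
  shift : ∀ z a, g z (p * a) = g (z - 1) a
  per : ∀ (z : ℤ) (k : ℕ) (a a' : ℤ), z ≤ k → a ≡ a' [ZMOD (p ^ k : ℕ)] → g z a = g z a'
  bdd : ∀ z a, ‖g z a‖ ≤ 4

lemma ker_chi : Ker p (chi p) :=
  ⟨chi_p_mul, fun _ _ _ _ hz h => chi_congr hz h, fun z a => by rw [norm_chi]; norm_num⟩

lemma ker_gam : Ker p (gam p) := by
  refine ⟨fun z a => ?_, fun z k a a' hz h => ?_, fun z a => (norm_gam z a).trans (by norm_num)⟩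
  · rw [gam, gam, DD_p_mul, DD_p_mul]
  · rw [gam, gam, DD_congr hz h, DD_congr (by omega : z - 1 ≤ k) h]

lemma ker_eps : Ker p (eps p) := by
  refine ⟨fun z a => ?_, fun z k a a' hz h => ?_, fun z a => ?_⟩
  · rw [eps, eps, chi_p_mul, ker_gam.shift]
  · rw [eps, eps, chi_congr hz h, ker_gam.per z k a a' hz h]
  · refine (norm_sub_le _ _).trans ?_
    rw [norm_chi]
    linarith [norm_gam (p := p) z a]

omit hp in
lemma Ker.shift_pow {g : ℤ → ℤ → ℂ} (hg : Ker p g) (n : ℕ) (z a : ℤ) :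
    g z ((p : ℤ) ^ n * a) = g (z - n) a := by
  induction n generalizing z with
  | zero => simp
  | succ n ih =>
    rw [pow_succ', mul_assoc, hg.shift, ih]
    congr 1
    push_cast
    ring

lemma geom {z : ℤ} {k : ℕ} (hz : z ≤ k) (a : ℤ) :
    ∑ w ∈ range (p ^ k), chi p z (w * a) = (p : ℂ) ^ k * DD p z a := by
  simp only [chi_nat_mul]
  rw [DD_eq]
  split_ifs with h
  · simp [h]
  · rw [geom_sum_eq h, ← chi_nat_mul, (chi_eq_one_iff _ _).2]
    · simp
    · push_cast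
      exact (pow_dvd_pow _ (by omega : z.toNat ≤ k)).mul_right _

lemma unit_sum_chi {z : ℤ} {k : ℕ} (hz : z ≤ (k + 1 : ℕ)) (a : ℤ) :
    ∑ w ∈ (range (p ^ (k + 1))).filter (fun w => ¬ p ∣ w), chi p z (w * a) =
      (p : ℂ) ^ k * (p * DD p z a - DD p (z - 1) a) := by
  have h1 := sum_filter_add_sum_filter_not (range (p ^ (k + 1))) (fun w => p ∣ w)
    (fun w : ℕ => chi p z (w * a))
  have h2 : (range (p ^ (k + 1))).filter (fun w => p ∣ w) =
      (range (p ^ k)).image (fun w => p * w) := by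
    ext w
    simp only [mem_filter, mem_range, mem_image]
    constructor
    · rintro ⟨h, t, rfl⟩
      rw [pow_succ'] at h
      exact ⟨t, lt_of_mul_lt_mul_left h (Nat.zero_le _), rfl⟩
    · rintro ⟨t, ht, rfl⟩
      rw [pow_succ']
      exact ⟨Nat.mul_lt_mul_of_pos_left ht hp.out.pos, dvd_mul_right _ _⟩
  rw [geom hz, h2, sum_image (fun x _ y _ h => Nat.eq_of_mul_eq_mul_left hp.out.pos h)] at h1
  have h3 : ∑ w ∈ range (p ^ k), chi p z (((p * w : ℕ) : ℤ) * a) =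
      (p : ℂ) ^ k * DD p (z - 1) a := by
    rw [← geom (by push_cast at hz; omega : z - 1 ≤ k)]
    refine sum_congr rfl (fun w _ => ?_)
    rw [← chi_p_mul]
    push_cast
    rw [mul_assoc]
  rw [h3] at h1
  linear_combination h1

lemma unit_card (k : ℕ) :
    (#((range (p ^ (k + 1))).filter (fun w => ¬ p ∣ w)) : ℂ) = (p : ℂ) ^ k * (p - 1) := by
  have := unit_sum_chi (p := p) (z := 0) (k := k) (by positivity) 0
  simpa [chi_zero, DD_of_nonpos] using this

lemma unit_sum_eps {z : ℤ} {k : ℕ} (hz : z ≤ (k + 1 : ℕ)) (a : ℤ) :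
    ∑ w ∈ (range (p ^ (k + 1))).filter (fun w => ¬ p ∣ w), eps p z (w * a) = 0 := by
  simp only [eps]
  rw [sum_sub_distrib, unit_sum_chi hz, sum_congr rfl (g := fun _ => gam p z a), sum_const,
    nsmul_eq_mul, unit_card, gam]
  · have := p_sub_one_ne_zero (p := p)
    field_simp
    ring
  · intro w hw
    exact gam_unit _ _ (by exact_mod_cast (mem_filter.1 hw).2)

lemma prod_one_add_modEq {ι : Type} (s : Finset ι) (t : ℤ) (e : ι → ℤ) (n : ι → ℕ) :
    ∃ r : ℤ, ∏ i ∈ s, (1 + t * e i) ^ n i = 1 + t * ∑ i ∈ s, e i * n i + t ^ 2 * r := by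
  classical
  have h1 : ∀ (x : ℤ) (m : ℕ), ∃ r : ℤ, (1 + t * x) ^ m = 1 + t * (x * m) + t ^ 2 * r := by
    intro x m
    induction m with
    | zero => exact ⟨0, by simp⟩
    | succ m ih =>
      obtain ⟨r, hr⟩ := ih
      refine ⟨r + x ^ 2 * m + t * r * x, ?_⟩
      rw [pow_succ, hr]
      push_cast
      ring
  induction s using Finset.induction_on with
  | empty => exact ⟨0, by simp⟩
  | insert a s ha ih =>
    obtain ⟨r, hr⟩ := ih
    obtain ⟨r', hr'⟩ := h1 (e a) (n a)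
    refine ⟨r + r' + (e a * n a) * (∑ i ∈ s, e i * n i) + t * (e a * n a) * r +
      t * r' * (∑ i ∈ s, e i * n i) + t ^ 2 * r * r', ?_⟩
    rw [prod_insert ha, sum_insert ha, hr, hr']
    ring

end Pool.Agent.MP_5d9b3c_ag.H22
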