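import Pool.Agent.MP_5d9b3c_ag.H22.Transfer

/-!
The local statement at one point of the torus.
-/

namespace Pool.Agent.MP_5d9b3c_ag.H22

open Finset

variable {κ ι : Type} [Fintype κ] [DecidableEq κ] [Fintype ι] [DecidableEq ι]

/-- The vector of exponents of the variable `i` in the monomials. -/
def yv (A : κ → ι → ℕ) (i : ι) : Lat κ := fun j => (A j i : ℤ)

/-- The all-ones vector. -/
def z0 (κ : Type) : Lat κ := fun _ => 1

/-- A set of monomials is closed if no variable occurs, outside it, in exactly one monomial and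
there linearly. -/
def Closed (A : κ → ι → ℕ) (J : Finset κ) : Prop :=
  ∀ i j, j ∉ J → A j i = 1 → ∃ j', j' ≠ j ∧ j' ∉ J ∧ A j' i ≠ 0

/-- The vectors. -/
def vec (A : κ → ι → ℕ) : ι ⊕ κ → Lat κ := Sum.elim (yv A) (fun j => -ee j)

/-- The scalars. -/
noncomputable def xi (ι : Type) (p : ℝ) (ev : RR κ →ₐ[ℂ] ℂ) : ι ⊕ κ → ℂ :=
  Sum.elim (fun _ => (p : ℂ)⁻¹) (fun j => ev (U (ee j)))

/-- The real parts of the logarithmic coordinates of a point. -/
noncomputable def pt (p : ℝ) (ev : RR κ →ₐ[ℂ] ℂ) (j : κ) : ℝ :=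
  -(Real.log ‖ev (U (ee j))‖ / Real.log p)

lemma pt_sum (p : ℝ) (ev : RR κ →ₐ[ℂ] ℂ) (v : κ → ℕ) :
    ∑ j, (v j : ℝ) * pt p ev j = -(Real.log ‖ev (U fun j => (v j : ℤ))‖ / Real.log p) := by
  rw [U_nat, map_prod, norm_prod, Real.log_prod]
  · rw [sum_div, ← sum_neg_distrib]
    refine sum_congr rfl (fun j _ => ?_)
    rw [map_pow, norm_pow, Real.log_pow, pt]
    ring
  · intro j _
    rw [map_pow]
    exact norm_ne_zero_iff.2 (pow_ne_zero _ (ev_U_ne_zero ev _))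

lemma neg_log_self {p : ℝ} (hp : 1 < p) : -(Real.log ‖(p : ℂ)‖ / Real.log p) = -1 := by
  rw [Complex.norm_real, Real.norm_of_nonneg (by linarith), div_self (Real.log_pos hp).ne']

omit [Fintype κ] in
lemma pt_of_eq_one (p : ℝ) (ev : RR κ →ₐ[ℂ] ℂ) {j : κ} (h : ev (U (ee j)) = 1) :
    pt p ev j = 0 := by
  simp [pt, h]

omit [Fintype κ] in
lemma pt_of_eq_p {p : ℝ} (hp : 1 < p) (ev : RR κ →ₐ[ℂ] ℂ) {j : κ} (h : ev (U (ee j)) = p) :
    pt p ev j = -1 := by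
  rw [pt, h, neg_log_self hp]

omit [Fintype ι] [DecidableEq ι] in
lemma pt_of_yv {p : ℝ} (hp : 1 < p) (A : κ → ι → ℕ) (ev : RR κ →ₐ[ℂ] ℂ) {i : ι}
    (h : ev (U (yv A i)) = p) : ∑ j, (A j i : ℝ) * pt p ev j = -1 := by
  rw [pt_sum p ev (fun j => A j i)]
  have : (fun j => ((A j i : ℕ) : ℤ)) = yv A i := rfl
  rw [this, h, neg_log_self hp]

/-- The variables whose binomial vanishes at the point. -/
noncomputable def II (A : κ → ι → ℕ) (p : ℝ) (ev : RR κ →ₐ[ℂ] ℂ) : Finset ι := by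
  classical exact univ.filter (fun i => ev (U (yv A i)) = p)

/-- The monomials of `J` with coordinate `a`. -/
noncomputable def JJ (J : Finset κ) (a : ℂ) (ev : RR κ →ₐ[ℂ] ℂ) : Finset κ := by
  classical exact J.filter (fun j => ev (U (ee j)) = a)

omit [DecidableEq κ] [Fintype κ] [DecidableEq ι] in
lemma mem_II {A : κ → ι → ℕ} {p : ℝ} {ev : RR κ →ₐ[ℂ] ℂ} {i : ι} :
    i ∈ II A p ev ↔ ev (U (yv A i)) = p := by
  simp [II]

omit [Fintype κ] in
lemma mem_JJ {J : Finset κ} {a : ℂ} {ev : RR κ →ₐ[ℂ] ℂ} {j : κ} :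
    j ∈ JJ J a ev ↔ j ∈ J ∧ ev (U (ee j)) = a := by
  simp [JJ]

/-- The set of denominators used at the point. -/
noncomputable def XX (A : κ → ι → ℕ) (p : ℝ) (ev : RR κ →ₐ[ℂ] ℂ) (J S : Finset κ) :
    Finset (ι ⊕ κ) :=
  (II A p ev).disjSum (JJ J 1 ev ∪ (S \ JJ J p ev))

omit [DecidableEq ι] in
lemma exists_outside {p : ℝ} (hp : 1 < p) {A : κ → ι → ℕ} {ev : RR κ →ₐ[ℂ] ℂ} {J S : Finset κ}
    (hJ : Closed A J) (hS : ∀ j ∈ S, pt p ev j ≤ -1) {i : ι} (hi : i ∈ II A p ev) :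
    ∃ j, j ∉ JJ J 1 ev ∪ (S \ JJ J p ev) ∧ A j i ≠ 0 := by
  by_contra hne
  push Not at hne
  rw [mem_II] at hi
  have h1 := pt_of_yv hp A ev hi
  -- all terms are nonpositive
  have hterm : ∀ j, (A j i : ℝ) * pt p ev j ≤ -(if j ∈ JJ J 1 ev then 0 else (A j i : ℝ)) := by
    intro j
    split_ifs with hj
    · rw [pt_of_eq_one p ev (mem_JJ.1 hj).2]; simp
    · by_cases hj' : j ∈ S \ JJ J p ev
      · have := hS j (mem_sdiff.1 hj').1
        have h0 : (0 : ℝ) ≤ A j i := by positivity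
        nlinarith
      · rw [hne j (by rw [mem_union]; tauto)]; simp
  have hsum : ∑ j, (if j ∈ JJ J 1 ev then 0 else A j i) ≤ 1 := by
    have := sum_le_sum (fun j (_ : j ∈ (univ : Finset κ)) => hterm j)
    rw [h1, sum_neg_distrib] at this
    have h2 : ((∑ j, (if j ∈ JJ J 1 ev then 0 else A j i) : ℕ) : ℝ) ≤ 1 := by
      push_cast
      linarith
    exact_mod_cast h2
  have hex : ∃ j, j ∉ JJ J 1 ev ∧ A j i ≠ 0 := by
    by_contra h
    push Not at h
    have : ∑ j, (A j i : ℝ) * pt p ev j = 0 := by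
      refine sum_eq_zero (fun j _ => ?_)
      by_cases hj : j ∈ JJ J 1 ev
      · rw [pt_of_eq_one p ev (mem_JJ.1 hj).2, mul_zero]
      · rw [h j hj]; simp
    rw [this] at h1
    norm_num at h1
  obtain ⟨j, hj, hA⟩ := hex
  have hother : ∀ j', j' ≠ j → j' ∉ JJ J 1 ev → A j' i = 0 := by
    intro j' hne' hj'
    have h3 : ∑ a ∈ ({j, j'} : Finset κ), (if a ∈ JJ J 1 ev then 0 else A a i) ≤ 1 :=
      le_trans (sum_le_sum_of_subset (subset_univ _)) hsum
    rw [sum_pair (Ne.symm hne'), if_neg hj, if_neg hj'] at h3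
    omega
  have hA1 : A j i = 1 := by
    have h3 : (if j ∈ JJ J 1 ev then 0 else A j i) ≤ 1 :=
      le_trans (single_le_sum (f := fun a => if a ∈ JJ J 1 ev then 0 else A a i)
        (fun _ _ => Nat.zero_le _) (mem_univ j)) hsum
    rw [if_neg hj] at h3
    omega
  have hjJ : j ∈ J := by
    by_contra h
    obtain ⟨j', h1, h2, h3⟩ := hJ i j h hA1
    exact h3 (hother j' h1 (fun h' => h2 (mem_JJ.1 h').1))
  have hev : ev (U (ee j)) = p := by
    rw [← hi]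
    have : yv A i = fun j => ((A j i : ℕ) : ℤ) := rfl
    rw [this, U_nat, map_prod, prod_eq_single j]
    · rw [hA1, pow_one]
    · intro j' _ hne'
      by_cases hj' : j' ∈ JJ J 1 ev
      · rw [map_pow, (mem_JJ.1 hj').2, one_pow]
      · rw [hother j' hne' hj', pow_zero, map_one]
    · intro h; exact absurd (mem_univ j) h
  refine hA (hne j ?_)
  rw [mem_union, mem_sdiff]
  rintro (h | h)
  · exact hj h
  · exact h.2 (mem_JJ.2 ⟨hjJ, hev⟩)

lemma dot_ee (c : Lat κ) (j : κ) : c ⬝ᵥ ee j = c j := by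
  simp [ee]

omit [DecidableEq ι] in
lemma exists_eta {p : ℝ} (hp : 1 < p) {A : κ → ι → ℕ} {ev : RR κ →ₐ[ℂ] ℂ} {J S : Finset κ}
    (hJ : Closed A J) (hS : ∀ j ∈ S, pt p ev j ≤ -1) :
    ∃ η : Lat κ, ∀ x ∈ XX A p ev J S, 0 < η ⬝ᵥ vec A x := by
  set T := JJ J 1 ev ∪ (S \ JJ J p ev) with hT
  set K : ℕ := ∑ j, ∑ i, A j i
  refine ⟨fun j => if j ∈ T then -1 else (K : ℤ) + 1, ?_⟩
  rintro (i | j) hx
  · rw [XX, inl_mem_disjSum] at hx
    obtain ⟨j, hj, hA⟩ := exists_outside hp hJ hS hx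
    have h1 : ∑ j', A j' i ≤ K := sum_le_sum (fun j' _ =>
      single_le_sum (f := fun i => A j' i) (fun _ _ => Nat.zero_le _) (mem_univ i))
    have h2 : ∀ j', (if j' = j then (K : ℤ) + 1 else 0) - (A j' i : ℤ) ≤
        (if j' ∈ T then -1 else (K : ℤ) + 1) * (A j' i : ℤ) := by
      intro j'
      have h0 : (0 : ℤ) ≤ A j' i := by positivity
      have h0' : (0 : ℤ) ≤ K := by positivity
      by_cases hjj : j' = j
      · subst hjj
        rw [if_pos rfl, if_neg hj]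
        have : (1 : ℤ) ≤ A j' i := by omega
        nlinarith
      · rw [if_neg hjj]
        split_ifs
        · linarith
        · nlinarith
    have h3 := sum_le_sum (fun j' (_ : j' ∈ (univ : Finset κ)) => h2 j')
    rw [sum_sub_distrib, sum_ite_eq' univ j, if_pos (mem_univ j)] at h3
    have h4 : ((∑ j', A j' i : ℕ) : ℤ) ≤ K := by exact_mod_cast h1
    push_cast at h4
    simp only [vec, Sum.elim_inl, dotProduct, yv]
    linarith
  · rw [XX, inr_mem_disjSum] at hx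
    simp only [vec, Sum.elim_inr, dotProduct_neg, dot_ee]
    rw [if_pos hx]
    norm_num

lemma core {p : ℝ} (hp : 1 < p) {A : κ → ι → ℕ} (ev : RR κ →ₐ[ℂ] ℂ) {J S : Finset κ}
    (hJ : Closed A J) (hS : ∀ j ∈ S, pt p ev j ≤ -1) (hS' : JJ J p ev ⊆ S)
    {E H : Fn κ} {M : ℤ} (hE : E ∈ (Bdd : Submodule ℂ (Fn κ))) (hH : Hcl J M H)
    (hEH : act (∏ i, uu (p : ℂ)⁻¹ (yv A i)) E = act (∏ j ∈ J, ((p : ℂ) • 1 - U (ee j))) H)
    {D : RR κ}
    (hD : D * ∏ j ∈ S, uu (ev (U (ee j))) (-ee j) ∈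
      supIdeal (XX A p ev J S) (xi ι p ev) (vec A) (z0 κ)) :
    ∃ D0 : RR κ, ev D0 ≠ 0 ∧ act (D * D0) E ∈ Ray (z0 κ) := by
  obtain ⟨η, hη⟩ := exists_eta hp hJ hS
  have hp0 : (p : ℂ) ≠ 0 := by exact_mod_cast (by linarith : p ≠ 0)
  have hJ1 : JJ J 1 ev ⊆ J := fun j hj => (mem_JJ.1 hj).1
  have hJp : JJ J p ev ⊆ J := fun j hj => (mem_JJ.1 hj).1
  set D0 : RR κ := (∏ i ∈ univ \ II A p ev, uu (p : ℂ)⁻¹ (yv A i)) *
    ∏ j ∈ J \ JJ J 1 ev, uu 1 (-ee j) with hD0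
  refine ⟨D0, ?_, ?_⟩
  · rw [hD0, map_mul, map_prod, map_prod]
    refine mul_ne_zero (prod_ne_zero_iff.2 (fun i hi => ?_)) (prod_ne_zero_iff.2 (fun j hj => ?_))
    · rw [mem_sdiff, mem_II] at hi
      rw [uu, map_sub, map_one, map_smul, smul_eq_mul, sub_ne_zero]
      intro h
      apply hi.2
      field_simp at h
      exact h.symm
    · rw [mem_sdiff, mem_JJ] at hj
      rw [uu, map_sub, map_one, one_smul, sub_ne_zero]
      intro h
      apply hj.2
      refine ⟨hj.1, ?_⟩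
      have h2 := congrArg ev (U_mul_neg (ee j))
      rw [map_mul, map_one, ← h, mul_one] at h2
      exact h2
  · have hI : (∏ i ∈ II A p ev, uu (p : ℂ)⁻¹ (yv A i)) * D0 =
        (∏ j ∈ J \ JJ J 1 ev, uu 1 (-ee j)) * ∏ i, uu (p : ℂ)⁻¹ (yv A i) := by
      rw [hD0, ← prod_sdiff (subset_univ (II A p ev))]
      ring
    have hΘ : act D0 E ∈ Half η := by
      refine bdd_half_prod (II A p ev) (fun _ => (p : ℂ)⁻¹) (yv A) η (fun i _ => ?_)
        (fun i hi => ?_) (act_mem_Bdd _ hE) ?_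
      · rw [norm_inv, Complex.norm_real, Real.norm_of_nonneg (by linarith)]
        exact inv_lt_one_of_one_lt₀ hp
      · exact (hη (Sum.inl i) (by rw [XX, inl_mem_disjSum]; exact hi)).le
      · rw [← act_mul, hI, act_mul, hEH, act_comm]
        refine act_mem_Half _ _ ((hH.sdiff _ sdiff_subset).mem_half (fun j hj => ?_))
        have hj1 : j ∈ JJ J 1 ev := by
          rw [mem_sdiff, mem_sdiff] at hj
          tauto
        have := hη (Sum.inr j) (by rw [XX, inr_mem_disjSum]; exact mem_union_left _ hj1)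
        simp only [vec, Sum.elim_inr, dotProduct_neg, dot_ee] at this
        omega
    have hF : ∀ c, act (∏ j ∈ J, uu 1 (-ee j)) H ∈ Half c := fun c =>
      (hH.sdiff J subset_rfl).mem_half (fun j hj => by simp at hj)
    have hdisj : Disjoint (JJ J 1 ev) (S \ JJ J p ev) := by
      rw [disjoint_left]
      intro j hj hj'
      have h1 := hS j (mem_sdiff.1 hj').1
      rw [pt_of_eq_one p ev (mem_JJ.1 hj).2] at h1
      norm_num at h1
    have hX : ∏ x ∈ XX A p ev J S, uu (xi ι p ev x) (vec A x) =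
        (∏ i ∈ II A p ev, uu (p : ℂ)⁻¹ (yv A i)) * ((∏ j ∈ JJ J 1 ev, uu 1 (-ee j)) *
          ∏ j ∈ S \ JJ J p ev, uu (ev (U (ee j))) (-ee j)) := by
      have e0 : ∏ j ∈ JJ J 1 ev, uu (xi ι p ev (Sum.inr j)) (vec A (Sum.inr j)) =
          ∏ j ∈ JJ J 1 ev, uu 1 (-ee j) := by
        refine prod_congr rfl (fun j hj => ?_)
        simp only [xi, vec, Sum.elim_inr, (mem_JJ.1 hj).2]
      rw [XX, prod_disjSum, prod_union hdisj, e0]
      rfl
    have hP : ∏ j ∈ JJ J p ev, ((p : ℂ) • 1 - U (ee j)) =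
        (∏ j ∈ JJ J p ev, -U (ee j)) * ∏ j ∈ JJ J p ev, uu (ev (U (ee j))) (-ee j) := by
      rw [← prod_mul_distrib]
      refine prod_congr rfl (fun j hj => ?_)
      rw [(mem_JJ.1 hj).2, uu, mul_sub, mul_one, mul_smul_comm, neg_mul, U_mul_neg]
      simp only [smul_neg]
      ring
    rw [act_mul]
    refine key_support (XX A p ev J S) (xi ι p ev) (vec A) (z0 κ) η hη hF
      (act_mem_Half _ _ hΘ)
      (G := ((∏ j ∈ J \ JJ J p ev, ((p : ℂ) • 1 - U (ee j))) * ∏ j ∈ JJ J p ev, -U (ee j)) *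
        (D * ∏ j ∈ S, uu (ev (U (ee j))) (-ee j))) (Ideal.mul_mem_left _ _ hD) ?_
    rw [← act_mul, ← act_mul, ← act_mul, hX]
    have e1 : (∏ i ∈ II A p ev, uu (p : ℂ)⁻¹ (yv A i)) * ((∏ j ∈ JJ J 1 ev, uu 1 (-ee j)) *
          ∏ j ∈ S \ JJ J p ev, uu (ev (U (ee j))) (-ee j)) * D * D0 =
        (D * (∏ j ∈ J, uu 1 (-ee j)) * ∏ j ∈ S \ JJ J p ev, uu (ev (U (ee j))) (-ee j)) *
          ∏ i, uu (p : ℂ)⁻¹ (yv A i) := by
      rw [← prod_sdiff hJ1]
      linear_combination ((∏ j ∈ JJ J 1 ev, uu 1 (-ee j)) *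
        (∏ j ∈ S \ JJ J p ev, uu (ev (U (ee j))) (-ee j)) * D) * hI
    rw [e1, act_mul, hEH, ← act_mul, ← prod_sdiff hJp (f := fun j => (p : ℂ) • 1 - U (ee j)), hP,
      ← prod_sdiff hS' (f := fun j => uu (ev (U (ee j))) (-ee j))]
    refine congrArg (fun r => act r H) ?_
    ring

end Pool.Agent.MP_5d9b3c_ag.H22
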