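import Pool.Agent.MP_5d9b3c_ag.H22.Link
import Pool.Agent.MP_5d9b3c_ag.H22.Lift

/-!
The consequence of the functional equation in an Artinian ring.
-/

namespace Pool.Agent.MP_5d9b3c_ag.H22

open Finset

variable {κ V ν : Type} [Fintype κ] [Fintype V] [DecidableEq V] [Fintype ν] [DecidableEq ν]

/-- The vertices outside `J` that carry a variable alone and linearly. -/
def TT {ι : Type} (B : V → ι → ℕ) (I : Finset ι) (J : Finset V) : Finset V :=
  univ.filter (fun v => v ∉ J ∧ ∃ i ∈ I, B v i = 1 ∧ ∀ w ∉ J, w ≠ v → B w i = 0)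

lemma mem_TT {ι : Type} {B : V → ι → ℕ} {I : Finset ι} {J : Finset V} {v : V} :
    v ∈ TT B I J ↔ v ∉ J ∧ ∃ i ∈ I, B v i = 1 ∧ ∀ w ∉ J, w ≠ v → B w i = 0 := by
  simp only [TT, mem_filter, mem_univ, true_and]

omit [Fintype V] in
lemma exists_hit {ι : Type} (B : V → ι → ℕ) (I : Finset ι) (R : Finset V)
    (h : ∀ i ∈ I, ∃ v ∈ R, B v i ≠ 0) :
    ∃ F ⊆ R, (∀ i ∈ I, ∃ v ∈ F, B v i ≠ 0) ∧
      ∀ v ∈ F, ∃ i ∈ I, B v i ≠ 0 ∧ ∀ w ∈ F, w ≠ v → B w i = 0 := by
  classical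
  obtain ⟨Y, hY⟩ : ∃ Y : Finset (Finset V), ∀ F, F ∈ Y ↔ F ⊆ R ∧ ∀ i ∈ I, ∃ v ∈ F, B v i ≠ 0 :=
    ⟨R.powerset.filter (fun F => ∀ i ∈ I, ∃ v ∈ F, B v i ≠ 0), by simp⟩
  obtain ⟨F, hF, hmin⟩ := exists_min_image Y card ⟨R, (hY R).2 ⟨subset_rfl, h⟩⟩
  rw [hY] at hF
  refine ⟨F, hF.1, hF.2, fun v hv => ?_⟩
  by_contra hne
  push Not at hne
  have := hmin (F.erase v) ((hY _).2 ⟨(erase_subset _ _).trans hF.1,
    fun i hi => by
      obtain ⟨w, hw, hw'⟩ := hF.2 i hi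
      by_cases hwv : w = v
      · subst hwv
        obtain ⟨u, hu1, hu2, hu3⟩ := hne i hi hw'
        exact ⟨u, mem_erase.2 ⟨hu2, hu1⟩, hu3⟩
      · exact ⟨w, mem_erase.2 ⟨hwv, hw⟩, hw'⟩⟩)
  have := card_erase_lt_of_mem hv
  omega

lemma isUnit_aeval {W : Type} [CommRing W] [Algebra ℂ W] (b : Polynomial ℂ) {s : ℂ} {x : W}
    (hb : b.eval s ≠ 0) (hx : IsNilpotent x) :
    IsUnit (Polynomial.aeval (algebraMap ℂ W s + x) b) := by
  obtain ⟨q, hq⟩ := Polynomial.X_sub_C_dvd_sub_C_eval (p := b) (a := s)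
  have e : Polynomial.aeval (algebraMap ℂ W s + x) b =
      x * Polynomial.aeval (algebraMap ℂ W s + x) q + algebraMap ℂ W (b.eval s) := by
    have := congrArg (Polynomial.aeval (algebraMap ℂ W s + x)) hq
    simp only [map_sub, map_mul, Polynomial.aeval_C, Polynomial.aeval_X] at this
    linear_combination this
  rw [e]
  exact ((Commute.all _ _).isNilpotent_mul_right hx).isUnit_add_right_of_commute
    ((IsUnit.mk0 _ hb).map _) (Commute.all _ _)

theorem dside (a : κ → ν →₀ ℕ) (c : κ → ℂ) {B : V → Option ν → ℕ} {Q : κ → V → ℕ} {m : ℕ}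
    (hm : 0 < m) (hQ : ∀ j i, m * Aof a j i = ∑ v, Q j v * B v i) (h0 : ∀ v, B v none = 1)
    {I : Finset (Option ν)} (hI : none ∉ I) (hind : Ind B I)
    (hnd : ∀ U, U.Nonempty → Adm B I U → ND (Aof a) c (kap Q U))
    {b : Polynomial ℂ} {d : ℕ} {P : ℕ → Module.End ℂ (MvPolynomial ν ℂ)} (hP : ∀ t, P t ∈ WW ν)
    (heq : ∀ m : ℕ, ∑ t ∈ range d, (m : ℂ) ^ t •
      P t ((∑ j, MvPolynomial.monomial (a j) (c j)) ^ (m + 1)) =
      b.eval (m : ℂ) • (∑ j, MvPolynomial.monomial (a j) (c j)) ^ m)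
    (β : V → ℂ) (hβ : ∀ i ∈ I, ∑ v, (B v i : ℂ) * β v = -m)
    (hb : b.eval ((m : ℂ)⁻¹ * ∑ v, β v) ≠ 0) {J : Finset V} (hJ : ∀ v ∈ J, β v = 0) :
    ∃ S' : Finset V, (∀ v ∈ S', v ∉ J ∧ v ∉ TT B I J) ∧ (∀ i ∈ I, ∃ v ∉ J ∪ S', B v i ≠ 0) ∧
      ∀ (W : Type) [CommRing W] [Algebra ℂ W] (l : V → W) (N : ℕ),
        (∀ α : V → ℕ, N ≤ ∑ v, α v → ∏ v, l v ^ α v = 0) → Rel B I (J ∪ S') l →
        ∏ v ∈ TT B I J ∪ S', l v = 0 := by
  classical
  have hm' : (m : ℂ) ≠ 0 := by exact_mod_cast hm.ne'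
  have hQ1 : ∀ j, ∑ v, Q j v = m := fun j => by simpa [h0, Aof] using (hQ j none).symm
  obtain ⟨dd, hd1, hd2⟩ : ∃ dd : V → ℕ, (∀ v, dd v ≠ 0 → β v = -dd v) ∧
      ∀ v, dd v = 0 → ∀ k : ℕ, k ≠ 0 → β v ≠ -k := by
    have : ∀ v, ∃ k : ℕ, (k ≠ 0 → β v = -k) ∧ (k = 0 → ∀ k' : ℕ, k' ≠ 0 → β v ≠ -k') := by
      intro v
      by_cases h : ∃ k : ℕ, k ≠ 0 ∧ β v = -k
      · obtain ⟨k, hk1, hk2⟩ := h
        exact ⟨k, fun _ => hk2, fun h => absurd h hk1⟩
      · push Not at h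
        exact ⟨0, fun h => absurd rfl h, fun _ => h⟩
    choose dd h1 h2 using this
    exact ⟨dd, h1, h2⟩
  have hdJ : ∀ v ∈ J, dd v = 0 := fun v hv => by
    by_contra h
    have := hd1 v h
    rw [hJ v hv, eq_comm, neg_eq_zero] at this
    exact h (by exact_mod_cast this)
  have hdT : ∀ v ∈ TT B I J, dd v ≠ 0 := fun v hv h => by
    obtain ⟨_, i, hi, h1, h2⟩ := mem_TT.1 hv
    refine hd2 v h m hm.ne' ?_
    rw [← hβ i hi, sum_eq_single v, h1, Nat.cast_one, one_mul]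
    · intro w _ hw
      by_cases hwJ : w ∈ J
      · rw [hJ w hwJ, mul_zero]
      · rw [h2 w hwJ hw, Nat.cast_zero, zero_mul]
    · simp
  obtain ⟨IF, hIF⟩ : ∃ IF : Finset (Option ν), ∀ i, i ∈ IF ↔
      i ∈ I ∧ ∀ v ∉ J, dd v = 0 ∨ v ∈ TT B I J → B v i = 0 := ⟨I.filter _, fun i => mem_filter⟩
  have hsum : ∀ i ∈ IF, ∑ v, B v i * dd v = m := by
    intro i hi
    obtain ⟨hi1, hi2⟩ := (hIF i).1 hi
    have h1 := hβ i hi1
    rw [sum_congr rfl (g := fun v => -((B v i * dd v : ℕ) : ℂ)) (fun v _ => by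
      by_cases h : dd v = 0
      · by_cases hv : v ∈ J
        · simp [h, hJ v hv]
        · simp [hi2 v hv (Or.inl h)]
      · rw [hd1 v h]
        simp), sum_neg_distrib, neg_inj] at h1
    exact_mod_cast h1
  obtain ⟨F, hF1, hF2, hF3⟩ := exists_hit B IF
    (univ.filter (fun v => dd v ≠ 0 ∧ v ∉ TT B I J)) (fun i hi => by
      obtain ⟨v, _, hv⟩ := exists_ne_zero_of_sum_ne_zero ((hsum i hi).trans_ne hm.ne')
      refine ⟨v, mem_filter.2 ⟨mem_univ _, right_ne_zero_of_mul hv, fun h => ?_⟩,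
        left_ne_zero_of_mul hv⟩
      exact left_ne_zero_of_mul hv (((hIF i).1 hi).2 v (mem_TT.1 h).1 (Or.inr h)))
  have hF1' : ∀ v ∈ F, dd v ≠ 0 ∧ v ∉ TT B I J := fun v hv => (mem_filter.1 (hF1 hv)).2
  obtain ⟨S', hS'⟩ : ∃ S' : Finset V, ∀ v, v ∈ S' ↔ dd v ≠ 0 ∧ v ∉ F ∧ v ∉ TT B I J :=
    ⟨univ.filter (fun v => dd v ≠ 0 ∧ v ∉ F ∧ v ∉ TT B I J), by simp⟩
  have hS : ∀ v, v ∈ TT B I J ∪ S' ↔ dd v ≠ 0 ∧ v ∉ F := by
    intro v
    rw [mem_union, hS']
    have := hdT v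
    have := hF1' v
    tauto
  refine ⟨S', fun v hv => ⟨fun h => ((hS' v).1 hv).1 (hdJ v h), ((hS' v).1 hv).2.2⟩,
    fun i hi => ?_, fun W _ _ l N hN hrel => ?_⟩
  · by_cases h : i ∈ IF
    · obtain ⟨v, hv1, hv2⟩ := hF2 i h
      refine ⟨v, ?_, hv2⟩
      rw [mem_union, hS']
      have := hdJ v
      have := hF1' v
      tauto
    · rw [hIF] at h
      push Not at h
      obtain ⟨v, hv1, hv2, hv3⟩ := h hi
      refine ⟨v, ?_, hv3⟩
      rw [mem_union, hS']
      tauto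
  by_contra hne
  obtain ⟨S, hSdef⟩ : ∃ S, S = TT B I J ∪ S' := ⟨_, rfl⟩
  rw [← hSdef] at hS hne
  have hS'S : S' ⊆ S := hSdef ▸ subset_union_right
  have hJS : (J ∪ S) \ S = J := by
    ext v
    rw [mem_sdiff, mem_union, hS]
    have := hdJ v
    tauto
  have : ∀ v, ∃ i, v ∈ F → i ∈ IF ∧ B v i ≠ 0 ∧ ∀ w ∈ F, w ≠ v → B w i = 0 := by
    intro v
    by_cases hv : v ∈ F
    · obtain ⟨i, hi⟩ := hF3 v hv
      exact ⟨i, fun _ => hi⟩
    · exact ⟨none, fun h => absurd h hv⟩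
  choose pr hpr using this
  obtain ⟨r, hr⟩ : ∃ r : V →₀ ℕ, ∀ v, r v = if v ∈ F then dd v else 0 :=
    ⟨Finsupp.equivFunOnFinite.symm _, fun _ => rfl⟩
  obtain ⟨F0, hF01, hF02, u, hu, hF03⟩ := sol_exists (Q := Q) (c := c) (β := β) hm hQ1
    (lo := fun v => -dd v) (l0 := fun v => if v ∈ S then 0 else -dd v) (Z := J ∪ S) (S := S)
    subset_union_right (fun v k hk h => by
      by_cases h1 : dd v = 0
      · refine hd2 v h1 (-k).toNat (by omega) ?_
        rw [← h, ← Int.cast_natCast, Int.toNat_of_nonneg (by omega)]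
        simp
      · rw [hd1 v h1] at h
        have : k = -dd v := by exact_mod_cast h
        omega)
    (fun v hv => by
      rcases mem_union.1 hv with h | h
      · simp [hJ v h, hdJ v h]
      · simp [hd1 v ((hS v).1 h).1])
    (fun v hv => by
      have := ((hS v).1 hv).1
      simp only [if_pos hv]
      omega)
    (fun v hv => if_neg hv)
    (fun v hv => by
      have := ((hS v).1 hv).1
      omega)
    (r := r) (by
      ext v
      have := hS v
      simp only [Pi.add_apply, nz, hr, Pi.zero_apply]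
      split_ifs <;> simp_all)
    l N hN (fun α hα => kosz_poly _ (prim_of_adm hm hQ hind hnd
      ((adm_of_ne hrel (T := univ.filter (fun v => α v ≠ 0)) (fun h => hα (by
        refine eq_zero_of_zero_dvd (h ▸ ?_)
        exact (prod_dvd_prod_of_dvd _ _ (fun v hv => dvd_pow_self _ (mem_filter.1 hv).2)).trans
          (prod_dvd_prod_of_subset _ _ _ (subset_univ _))))).mono (fun v hv => by
        have := @hS'S v
        simp only [mem_compl, mem_filter, mem_sdiff, mem_union, mem_univ, true_and] at hv ⊢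
        tauto))))
    hne (by
      rw [hJS]
      refine not_mem_link hm hQ hQ1 (F := F) (fun v hv h => (hF1' v h).1 (hdJ v hv))
        (prim_of_adm hm hQ hind hnd ((adm_of_ne hrel hne).mono (fun v hv => by
          have := @hS'S v
          simp only [mem_compl, mem_sdiff, mem_union] at hv ⊢
          tauto))) (fun v hv => by rw [hr, if_neg hv]) pr (fun v hv => (hpr v hv).2.2)
        (fun v hv => (hpr v hv).2.1) (fun v hv => ?_) (fun v hv h => ⟨fun h1 => ?_, ?_⟩)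
      · rw [hr, if_pos hv, ← hsum _ (hpr v hv).1]
        exact single_le_sum (f := fun w => B w (pr v) * dd w) (fun _ _ => Nat.zero_le _)
          (mem_univ v)
      all_goals
        have h2 : ∀ w ∉ J, w ≠ v → B w (pr v) = 0 := by
          intro w hw1 hw2
          have h3 := hsum _ (hpr v hv).1
          rw [hr, if_pos hv] at h
          rw [← add_sum_erase _ _ (mem_univ v), h, add_eq_left, sum_eq_zero_iff] at h3
          rcases mul_eq_zero.1 (h3 w (mem_erase.2 ⟨hw2, mem_univ _⟩)) with h4 | h4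
          · exact h4
          · exact ((hIF _).1 (hpr v hv).1).2 w hw1 (Or.inl h4)
      · exact (hF1' v hv).2 (mem_TT.2 ⟨fun h3 => (hF1' v hv).1 (hdJ v h3), _,
          ((hIF _).1 (hpr v hv).1).1, h1, h2⟩)
      · exact h2)
  obtain ⟨Ψ, hΨ1, hΨ2, hΨ3⟩ := fold (A := Aof a) hm hQ h0 hrel hind (lo := fun v => -dd v)
    (fun v _ => by omega) hF01 (fun q T hT => hF02 q T (hT.trans (union_subset_union_right hS'S)))
  have hL : ∀ i ∈ I, (m : ℂ)⁻¹ • (∑ v, (B v i : W) * (l v + algebraMap ℂ W (β v))) + 1 =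
      (m : ℂ)⁻¹ • ∑ v, (B v i : W) * l v := by
    intro i hi
    have h1 := congrArg (algebraMap ℂ W) (hβ i hi)
    simp only [map_sum, map_mul, map_natCast, map_neg] at h1
    simp only [mul_add, sum_add_distrib, h1, smul_add, add_assoc, add_eq_left]
    rw [Algebra.smul_def, ← map_natCast (algebraMap ℂ W), ← map_neg, ← map_mul, mul_neg,
      inv_mul_cancel₀ hm']
    simp
  have key := sol_vanish a c
    (fun i => (m : ℂ)⁻¹ • (∑ v, (B v i : W) * (l v + algebraMap ℂ W (β v)))) Ψ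
    (fun u i => hΨ1 u i) (univ.filter (fun i => some i ∈ I)) (fun u hu => by
      have h1 := hΨ2 u (by omega)
      have e : I.filter (fun i => u i < 0) =
          ((univ.filter (fun i => some i ∈ I)).filter (fun i => u (some i) < 0)).image some := by
        ext (_ | i) <;> simp [hI]
      rw [e, prod_image (fun _ _ _ _ h => Option.some_injective _ h)] at h1
      rw [prod_congr rfl (fun i hi => hL (some i) (mem_filter.1 (mem_filter.1 hi).1).2),
        prod_smul, smul_mul_assoc, h1, smul_zero]) hP heq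
  have e : (m : ℂ)⁻¹ • (∑ v, (B v none : W) * (l v + algebraMap ℂ W (β v))) =
      algebraMap ℂ W ((m : ℂ)⁻¹ * ∑ v, β v) + (m : ℂ)⁻¹ • ∑ v, l v := by
    simp only [h0, Nat.cast_one, one_mul, sum_add_distrib, map_mul, map_sum, Algebra.smul_def]
    ring
  simp only [e] at key
  rw [hΨ3, hF03, (isUnit_aeval b hb ((isNilpotent_sum (fun v _ => ⟨N, by
    have := hN (Pi.single v N) (by simp)
    rwa [prod_eq_single v (fun w _ hw => by simp [hw]) (by simp), Pi.single_eq_same] at this⟩)).smul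
      _)).mul_right_eq_zero, hu.mul_right_eq_zero] at key
  exact hne key

end Pool.Agent.MP_5d9b3c_ag.H22
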