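import Pool.Agent.MP_5d9b3c_ag.H22.Laurent

/-!
The twisted Euler operators on polynomials.
-/

namespace Pool.Agent.MP_5d9b3c_ag.H22

open Finset MvPolynomial

variable {κ V : Type} [Fintype κ] [Fintype V] [DecidableEq V]

/-- A natural exponent as a lattice vector. -/
def nz (n : V →₀ ℕ) : Lat V := fun v => (n v : ℤ)

/-- Polynomials times a fixed Laurent monomial. -/
noncomputable def emb (l : Lat V) : BB V →ₗ[ℂ] MM V :=
  (basisMonomials V ℂ).constr ℂ (fun n => sg (l + nz n))

/-- The exponent of a monomial, as a finitely supported function. -/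
noncomputable def qf (Q : κ → V → ℕ) (j : κ) : V →₀ ℕ := Finsupp.equivFunOnFinite.symm (Q j)

/-- The logarithmic derivative of the unfolded polynomial. -/
noncomputable def gg (Q : κ → V → ℕ) (c : κ → ℂ) (v : V) : BB V :=
  ∑ j, monomial (qf Q j) ((Q j v : ℂ) * c j)

/-- The leading terms. -/
noncomputable def gam' (Q : κ → V → ℕ) (c : κ → ℂ) (Z : Finset V) (v : V) : BB V :=
  if v ∈ Z then X v else gg Q c v

/-- The diagonal part. -/
noncomputable def thB (a : V → ℂ) (v : V) : Module.End ℂ (BB V) :=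
  (basisMonomials V ℂ).constr ℂ (fun n => ((n v : ℂ) + a v) • monomial n (1 : ℂ))

/-- The operators on polynomials. -/
noncomputable def DB (Q : κ → V → ℕ) (c : κ → ℂ) (a : V → ℂ) (Z : Finset V) (v : V) :
    Module.End ℂ (BB V) :=
  if v ∈ Z then LinearMap.mulLeft ℂ (X v) else thB a v + LinearMap.mulLeft ℂ (gg Q c v)

variable {Q : κ → V → ℕ} {c : κ → ℂ} {β : V → ℂ}

omit [Fintype V] [DecidableEq V] in
lemma constr_monomial {W : Type} [AddCommGroup W] [Module ℂ W] (f : (V →₀ ℕ) → W) (n : V →₀ ℕ)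
    (a : ℂ) : (basisMonomials V ℂ).constr ℂ f (monomial n a) = a • f n := by
  have : (monomial n a : BB V) = a • basisMonomials V ℂ n := by
    rw [coe_basisMonomials, smul_monomial, smul_eq_mul, mul_one]
  rw [this, map_smul, Module.Basis.constr_basis]

omit [Fintype V] [DecidableEq V] in
lemma emb_monomial (l : Lat V) (n : V →₀ ℕ) (a : ℂ) : emb l (monomial n a) = a • sg (l + nz n) :=
  constr_monomial _ n a

omit [Fintype V] [DecidableEq V] in
lemma thB_monomial (a : V → ℂ) (v : V) (n : V →₀ ℕ) (r : ℂ) :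
    thB a v (monomial n r) = ((n v : ℂ) + a v) • monomial n r := by
  rw [thB, constr_monomial, smul_comm, smul_monomial, smul_eq_mul, mul_one]

omit [Fintype V] [DecidableEq V] in
lemma nz_add (n n' : V →₀ ℕ) : nz (n + n') = nz n + nz n' := by
  ext v
  simp [nz]

omit [Fintype V] [DecidableEq V] in
lemma emb_inj (l : Lat V) {p : BB V} (h : emb l p = 0) : p = 0 := by
  classical
  have key : ∀ (p : BB V) (n : V →₀ ℕ), emb l p (l + nz n) = coeff n p := by
    intro p n
    induction p using MvPolynomial.induction_on' with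
    | monomial u a =>
      rw [emb_monomial, coeff_monomial, sg, Finsupp.smul_apply, Finsupp.single_apply]
      have : l + nz u = l + nz n ↔ u = n := by
        rw [add_right_inj]
        refine ⟨fun h => ?_, fun h => by rw [h]⟩
        ext v
        simpa [nz] using congrFun h v
      simp [this]
    | add p q hp hq => simp [hp, hq]
  ext n
  rw [← key, h]
  rfl

omit [Fintype V] [DecidableEq V] in
lemma emb_mem (l : Lat V) (p : BB V) : emb l p ∈ EL l := by
  induction p using MvPolynomial.induction_on' with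
  | monomial u a =>
    rw [emb_monomial]
    exact Submodule.smul_mem _ _ (sg_mem (fun v => by simp [nz]))
  | add p q hp hq => rw [map_add]; exact Submodule.add_mem _ hp hq

omit [DecidableEq V] in
lemma exists_nz {l q : Lat V} (h : l ≤ q) : ∃ n : V →₀ ℕ, q = l + nz n := by
  refine ⟨Finsupp.equivFunOnFinite.symm (fun v => (q v - l v).toNat), ?_⟩
  ext v
  have : l v ≤ q v := h v
  simp only [Pi.add_apply, nz, Finsupp.equivFunOnFinite_symm_apply_apply]
  omega

omit [DecidableEq V] in
lemma exists_emb {l : Lat V} {x : MM V} (hx : x ∈ EL l) : ∃ p, emb l p = x := by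
  refine map_mem_of_sg LinearMap.id (LinearMap.range (emb l)) (fun q hq => ?_) hx
  obtain ⟨n, rfl⟩ := exists_nz hq
  exact ⟨monomial n 1, by rw [emb_monomial, one_smul]; rfl⟩

omit [Fintype V] [DecidableEq V] in
lemma emb_X_mem {Z : Finset V} {v : V} (hv : v ∈ Z) (l : Lat V) (p : BB V) :
    emb l (X v * p) ∈ NN Z l := by
  induction p using MvPolynomial.induction_on' with
  | monomial u a =>
    rw [X, monomial_mul, emb_monomial]
    exact Submodule.smul_mem _ _ (sg_mem ⟨v, hv, by simp [nz]; omega⟩)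
  | add p q hp hq => rw [mul_add, map_add]; exact Submodule.add_mem _ hp hq

lemma exists_emb_X {Z : Finset V} {l : Lat V} {x : MM V} (hx : x ∈ EL l) (hx' : x ∈ NN Z l) :
    ∃ y : V → BB V, ∑ v ∈ Z, emb l (X v * y v) = x := by
  obtain ⟨L, hL⟩ : ∃ L : (V → BB V) →ₗ[ℂ] MM V, ∀ y, L y = ∑ v ∈ Z, emb l (X v * y v) :=
    ⟨∑ v ∈ Z, emb l ∘ₗ LinearMap.mulLeft ℂ (X v) ∘ₗ LinearMap.proj v, fun y => by simp⟩
  have h1 : x ∈ Finsupp.supported ℂ ℂ ({q | l ≤ q} ∩ {q | ∃ v ∈ Z, l v < q v}) := by
    rw [Finsupp.supported_inter]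
    exact ⟨hx, hx'⟩
  obtain ⟨y, hy⟩ := map_mem_of_sg LinearMap.id (LinearMap.range L) (fun q hq => by
    obtain ⟨h1, v, hv, h2⟩ := hq
    obtain ⟨n, hn⟩ := exists_nz (l := l + ee v) (q := q) (fun w => by
      by_cases h : w = v
      · subst h
        simp only [ee, Pi.add_apply, Pi.single_eq_same]
        omega
      · simpa [ee, h] using h1 w)
    refine ⟨Pi.single v (monomial n 1), ?_⟩
    rw [hL, sum_eq_single v, Pi.single_eq_same, X, monomial_mul, emb_monomial, hn, nz_add]
    · simp only [mul_one, one_smul, LinearMap.id_apply, add_assoc]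
      congr 3
      ext w
      simp [nz, ee, Finsupp.single_apply, Pi.single_apply, eq_comm]
    · intro b _ hb
      simp [hb]
    · exact fun h => absurd hv h) h1
  exact ⟨y, by rw [← hL, hy]; rfl⟩

omit [DecidableEq V] in
lemma emb_D (l : Lat V) (v : V) (p : BB V) :
    emb l (thB (fun v => l v - β v) v p + gg Q c v * p) = DT Q c β v (emb l p) := by
  induction p using MvPolynomial.induction_on' with
  | monomial u a =>
    rw [thB_monomial, gg, sum_mul, map_add, map_smul, map_sum, emb_monomial, map_smul, DT_sg,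
      smul_add, smul_sum, smul_comm]
    congr 1
    · congr 2
      simp only [nz, Pi.add_apply]
      push_cast
      ring
    · refine sum_congr rfl (fun j _ => ?_)
      rw [monomial_mul, emb_monomial, smul_smul, mul_comm, nz_add, add_comm (nz (qf Q j)),
        add_assoc]
      rfl
  | add p q hp hq =>
    rw [map_add (thB _ v), mul_add, add_add_add_comm, map_add, hp, hq, map_add, map_add]

omit [Fintype V] [DecidableEq V] in
lemma hc_monomial (j : ℤ) (n : V →₀ ℕ) (r : ℂ) :
    hc j (monomial n r) = if (n.degree : ℤ) = j then monomial n r else 0 := by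
  classical
  ext u
  rw [coeff_hc]
  by_cases h : n = u
  · subst h
    split_ifs <;> simp
  · split_ifs <;> simp [h]

lemma ops_DB {m : ℕ} (hm : 0 < m) (hQ : ∀ j, ∑ v, Q j v = m) (l : Lat V) (Z : Finset V) :
    Ops (gam' Q c Z) (fun v => if v ∈ Z then 1 else m) (DB Q c (fun v => l v - β v) Z) := by
  have hXD : ∀ v ∈ Z, ∀ w ∉ Z, ∀ p, X v * DB Q c (fun v => l v - β v) Z w p =
      DB Q c (fun v => l v - β v) Z w (X v * p) := by
    intro v hv w hw p
    have hne : v ≠ w := by rintro rfl; exact hw hv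
    simp only [DB, if_neg hw, LinearMap.add_apply, LinearMap.mulLeft_apply, mul_add]
    congr 1
    · induction p using MvPolynomial.induction_on' with
      | monomial u a =>
        rw [X, monomial_mul, thB_monomial, thB_monomial, mul_smul_comm, monomial_mul]
        simp [hne]
      | add p q hp hq => rw [map_add, mul_add, hp, hq, mul_add, map_add]
    · ring
  refine ⟨fun v => by split_ifs <;> omega, fun v => ?_, fun v j p => ?_, fun v w p => ?_⟩
  · unfold gam'
    split_ifs
    · exact isHomogeneous_X _ _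
    · refine IsHomogeneous.sum _ _ _ (fun j _ => isHomogeneous_monomial _ ?_)
      rw [← hQ j, Finsupp.degree_eq_sum]
      rfl
  · unfold gam' DB
    split_ifs
    · simp
    · simp only [LinearMap.add_apply, LinearMap.mulLeft_apply, add_sub_cancel_right]
      induction p using MvPolynomial.induction_on' with
      | monomial u a =>
        rw [thB_monomial, map_smul, hc_monomial]
        split_ifs
        · rw [thB_monomial]
        · simp
      | add p q hp hq => simp only [map_add, hp, hq]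
  · by_cases hv : v ∈ Z <;> by_cases hw : w ∈ Z
    · simp only [DB, if_pos hv, if_pos hw, LinearMap.mulLeft_apply]
      ring
    · have := hXD v hv w hw p
      rw [DB, if_pos hv]
      exact this
    · have := hXD w hw v hv p
      rw [DB.eq_1 Q c _ Z w, if_pos hw]
      exact this.symm
    · rw [← sub_eq_zero]
      apply emb_inj l
      simp only [DB, if_neg hv, if_neg hw, LinearMap.add_apply, LinearMap.mulLeft_apply, map_sub,
        emb_D]
      rw [DT_comm, sub_self]

lemma to_poly {Z : Finset V} {l : Lat V} (hβ : ∀ v ∈ Z, β v = l v) {r : BB V} {n : MM V}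
    (hn : n ∈ NN Z l) {e : V → MM V} (he : ∀ v, e v ∈ EL l)
    (h0 : emb l r + n + ∑ v, DT Q c β v (e v) = 0) :
    ∃ e' : V → BB V, ∑ v, DB Q c (fun v => l v - β v) Z v (e' v) = -r ∧
      ∀ v ∉ Z, emb l (e' v) = e v := by
  choose p hp using fun v => exists_emb (he v)
  have hnE : n ∈ EL l := by
    have : n = -(emb l r + ∑ v, DT Q c β v (e v)) := by
      rw [eq_neg_iff_add_eq_zero, ← h0]
      abel
    rw [this]
    exact Submodule.neg_mem _ (Submodule.add_mem _ (emb_mem _ _)
      (Submodule.sum_mem _ (fun v _ => DT_EL v (he v))))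
  obtain ⟨y, hy⟩ := exists_emb_X (Z := Z) (l := l) (x := n + ∑ v ∈ Z, DT Q c β v (e v))
    (Submodule.add_mem _ hnE (Submodule.sum_mem _ (fun v _ => DT_EL v (he v))))
    (Submodule.add_mem _ hn (Submodule.sum_mem _ (fun v hv =>
      EL_le_NN hv l (DT_res v (hβ v hv) (he v)))))
  refine ⟨fun v => if v ∈ Z then y v else p v, ?_, fun v hv => by simp only [if_neg hv, hp]⟩
  rw [eq_neg_iff_add_eq_zero]
  apply emb_inj l
  rw [← h0, map_add, map_sum, ← sum_add_sum_compl Z, ← sum_add_sum_compl Z (fun v => DT Q c β v (e v))]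
  have e1 : ∑ v ∈ Z, emb l (DB Q c (fun v => l v - β v) Z v (if v ∈ Z then y v else p v)) =
      n + ∑ v ∈ Z, DT Q c β v (e v) := by
    rw [← hy]
    exact sum_congr rfl (fun v hv => by simp [DB, hv])
  have e2 : ∑ v ∈ Zᶜ, emb l (DB Q c (fun v => l v - β v) Z v (if v ∈ Z then y v else p v)) =
      ∑ v ∈ Zᶜ, DT Q c β v (e v) := by
    refine sum_congr rfl (fun v hv => ?_)
    rw [mem_compl] at hv
    simp only [DB, if_neg hv, LinearMap.add_apply, LinearMap.mulLeft_apply, emb_D, hp]
  rw [e1, e2]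
  abel

theorem compat_base {m : ℕ} (hm : 0 < m) (hQ : ∀ j, ∑ v, Q j v = m) {Z : Finset V} {l : Lat V}
    (hβ : ∀ v ∈ Z, β v = l v) (hK : Kosz (BB V) univ (gam' Q c Z)) {ω : V → MM V →ₗ[ℂ] ℂ}
    (h1 : ∀ v ∈ Z, ω v = 0) (h2 : ∀ v, ∀ n ∈ NN Z l, ω v n = 0)
    (h3 : ∀ v w, ∀ x ∈ EL l, ω v (DT Q c β w x) = ω w (DT Q c β v x)) :
    Compat Q c β ⊥ (NN Z l) 0 ω (EL l) := by
  intro f hf n hn e he h0
  rw [Submodule.mem_bot] at hf
  subst hf
  obtain ⟨e', he1, he2⟩ := to_poly (Q := Q) (c := c) hβ (r := 0) hn he (by simpa using h0)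
  have := (ops_DB (c := c) (β := β) hm hQ l Z).closed hK (fun v => ω v ∘ₗ emb l) (fun v w p => by
    by_cases hv : v ∈ Z <;> by_cases hw : w ∈ Z
    · simp [h1 v hv, h1 w hw]
    · simp only [h1 v hv, DB, if_pos hv, LinearMap.comp_apply, LinearMap.zero_apply,
        LinearMap.mulLeft_apply, h2 w _ (emb_X_mem hv l p)]
    · simp only [h1 w hw, DB, if_pos hw, LinearMap.comp_apply, LinearMap.zero_apply,
        LinearMap.mulLeft_apply, h2 v _ (emb_X_mem hw l p)]
    · simp only [DB, if_neg hv, if_neg hw, LinearMap.comp_apply, LinearMap.add_apply,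
        LinearMap.mulLeft_apply, emb_D]
      exact h3 v w _ (emb_mem l p)) e' (by simpa using he1)
  rw [LinearMap.zero_apply, zero_add, ← this]
  refine sum_congr rfl (fun v _ => ?_)
  by_cases hv : v ∈ Z
  · simp [h1 v hv]
  · rw [LinearMap.comp_apply, he2 v hv]

theorem compat_one {m : ℕ} (hm : 0 < m) (hQ : ∀ j, ∑ v, Q j v = m) {Z : Finset V} {l : Lat V}
    (hβ : ∀ v ∈ Z, β v = l v) (hK : Kosz (BB V) univ (gam' Q c Z)) {r : V →₀ ℕ}
    (hr : l + nz r = 0) (hr' : monomial r (1 : ℂ) ∉ Ideal.span (Set.range (gam' Q c Z))) :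
    Compat Q c β (Submodule.span ℂ {sg 0}) (NN Z l) (Finsupp.lapply 0) 0 (EL l) := by
  intro f hf n hn e he h0
  obtain ⟨a, rfl⟩ := Submodule.mem_span_singleton.1 hf
  obtain ⟨e', he1, _⟩ := to_poly (Q := Q) (c := c) hβ (r := monomial r a) hn he
    (by rw [emb_monomial, hr]; exact h0)
  have := (ops_DB (c := c) (β := β) hm hQ l Z).not_mem hK (isHomogeneous_monomial 1 rfl) hr' (-a) e'
    (by rw [he1, neg_smul, smul_monomial, smul_eq_mul, mul_one])
  rw [neg_eq_zero] at this
  simp [this]

end Pool.Agent.MP_5d9b3c_ag.H22
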