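import Pool.Agent.MP_5d9b3c_ag.H22.Embed

/-!
Compatible families of functionals: Taylor coefficients of a solution.
-/

namespace Pool.Agent.MP_5d9b3c_ag.H22

open Finset MvPolynomial

variable {κ V : Type} [Fintype κ] [Fintype V] [DecidableEq V]

/-- The members of a family one step below. -/
def low {X : Type} [Zero X] (fam : (V → ℕ) → X) (α : V → ℕ) (v : V) : X :=
  if α v = 0 then 0 else fam (α - Pi.single v 1)

lemma sum_sub_single {α : V → ℕ} {v : V} (h : α v ≠ 0) :
    ∑ w, (α - Pi.single v 1 : V → ℕ) w + 1 = ∑ w, α w := by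
  have : α = (α - Pi.single v 1 : V → ℕ) + Pi.single v 1 := by
    ext w
    by_cases hw : w = v
    · subst hw
      simp
      omega
    · simp [hw]
  conv_rhs => rw [this]
  simp only [Pi.add_apply, sum_add_distrib, Finset.sum_pi_single', mem_univ, if_true]

lemma exists_family {X : Type} [Zero X] (R : (V → ℕ) → X → (V → X) → Prop)
    (step : ∀ (α : V → ℕ) (fam : (V → ℕ) → X),
      (∀ α', ∑ v, α' v < ∑ v, α v → R α' (fam α') (low fam α')) → ∃ φ, R α φ (low fam α))
    (N : ℕ) : ∃ fam : (V → ℕ) → X, ∀ α, ∑ v, α v < N → R α (fam α) (low fam α) := by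
  induction N with
  | zero => exact ⟨0, fun α h => absurd h (Nat.not_lt_zero _)⟩
  | succ N ih =>
    obtain ⟨fam, hfam⟩ := ih
    have h1 : ∀ α : V → ℕ, ∃ φ, ∑ v, α v = N → R α φ (low fam α) := by
      intro α
      by_cases h : ∑ v, α v = N
      · obtain ⟨φ, hφ⟩ := step α fam (fun α' h' => hfam α' (h ▸ h'))
        exact ⟨φ, fun _ => hφ⟩
      · exact ⟨0, fun h' => absurd h' h⟩
    choose φ hφ using h1
    have h2 : ∀ α : V → ℕ, ∑ v, α v < N + 1 →
        low (fun α => if ∑ v, α v = N then φ α else fam α) α = low fam α := by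
      intro α hα
      ext v
      unfold low
      split_ifs with h
      · rfl
      · have := sum_sub_single h
        simp only
        rw [if_neg (by omega)]
    refine ⟨fun α => if ∑ v, α v = N then φ α else fam α, fun α hα => ?_⟩
    rw [h2 α hα]
    simp only
    split_ifs with h
    · exact hφ α h
    · exact hfam α (by omega)

variable {Q : κ → V → ℕ} {c : κ → ℂ} {β : V → ℂ}

omit [Fintype V] in
lemma closed_low {fam : (V → ℕ) → MM V →ₗ[ℂ] ℂ} {α : V → ℕ} {x : MM V}
    (h : ∀ v, α v ≠ 0 → ∀ w, fam (α - Pi.single v 1) (DT Q c β w x) =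
      low fam (α - Pi.single v 1) w x) (v w : V) :
    low fam α v (DT Q c β w x) = low fam α w (DT Q c β v x) := by
  have key : ∀ v w, v ≠ w → low fam α v (DT Q c β w x) =
      if α v = 0 ∨ α w = 0 then 0 else fam (α - Pi.single v 1 - Pi.single w 1) x := by
    intro v w hne
    by_cases hv : α v = 0
    · simp [low, hv]
    · rw [low, if_neg hv, h v hv, low]
      simp only [Pi.sub_apply, Pi.single_eq_of_ne hne.symm, Nat.sub_zero, hv, false_or]
      split_ifs <;> rfl
  by_cases hne : v = w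
  · rw [hne]
  · rw [key v w hne, key w v (Ne.symm hne), tsub_right_comm]
    simp only [or_comm]

/-- The indicator vector. -/
def ind1 (S : Finset V) : V → ℕ := fun v => if v ∈ S then 1 else 0

omit [Fintype V] [DecidableEq V] in
lemma NN_congr {Z : Finset V} {l l' : Lat V} (h : ∀ v ∈ Z, l v = l' v) : NN Z l = NN Z l' := by
  unfold NN
  congr 1
  ext q
  simp only [Set.mem_ofPred_eq]
  exact exists_congr (fun v => and_congr_right (fun hv => by rw [h v hv]))

omit [Fintype V] [DecidableEq V] in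
lemma NN_mono {Z Z' : Finset V} (h : Z ⊆ Z') (l : Lat V) : NN Z l ≤ NN Z' l :=
  Finsupp.supported_mono (fun _ ⟨v, hv, hq⟩ => ⟨v, h hv, hq⟩)

variable (Q c β) in
/-- The product of the operators over a set. -/
noncomputable def DP (S : Finset V) : Module.End ℂ (MM V) :=
  S.noncommProd (DT Q c β) (fun v _ w _ _ => LinearMap.ext (fun x => DT_comm v w x))

omit [Fintype V] in
lemma DP_insert {S : Finset V} {v : V} (hv : v ∉ S) (x : MM V) :
    DP Q c β (insert v S) x = DT Q c β v (DP Q c β S x) := by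
  rw [DP, noncommProd_insert_of_notMem _ _ _ _ hv]
  rfl

omit [Fintype V] in
lemma DP_comm (S : Finset V) (v : V) (x : MM V) :
    DP Q c β S (DT Q c β v x) = DT Q c β v (DP Q c β S x) := by
  induction S using Finset.induction_on with
  | empty => simp [DP]
  | insert a S ha ih => rw [DP_insert ha, DP_insert ha, ih, DT_comm]

omit [Fintype V] in
lemma DP_NN (S : Finset V) {Z : Finset V} {l : Lat V} {x : MM V} (hx : x ∈ NN Z l) :
    DP Q c β S x ∈ NN Z l := by
  induction S using Finset.induction_on with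
  | empty => simpa [DP] using hx
  | insert a S ha ih => rw [DP_insert ha]; exact DT_NN a ih

omit [Fintype V] in
lemma DP_EL (S : Finset V) {l : Lat V} (h : ∀ v ∈ S, β v = l v) {x : MM V} (hx : x ∈ EL l) :
    DP Q c β S x ∈ EL (l + fun v => (ind1 S v : ℤ)) := by
  induction S using Finset.induction_on with
  | empty =>
    have : (l + fun v => (ind1 ∅ v : ℤ)) = l := by
      ext v
      simp [ind1]
    rw [this]
    simpa [DP] using hx
  | insert a S ha ih =>
    rw [DP_insert ha]
    have := DT_res (Q := Q) (c := c) a (by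
      simpa [ind1, ha] using h a (mem_insert_self _ _)) (ih (fun v hv => h v (mem_insert_of_mem hv)))
    refine EL_mono (fun v => ?_) this
    by_cases hv : v = a
    · subst hv
      simp [ind1, ha, ee]
    · simp [ind1, hv, ee]

omit [Fintype V] in
lemma DP_EL' (S : Finset V) {l : Lat V} {x : MM V} (hx : x ∈ EL l) : DP Q c β S x ∈ EL l := by
  induction S using Finset.induction_on with
  | empty => simpa [DP] using hx
  | insert a S ha ih => rw [DP_insert ha]; exact DT_EL a ih

lemma stage_one {m : ℕ} (hm : 0 < m) (hQ : ∀ j, ∑ v, Q j v = m) {lp l0 : Lat V} {J S : Finset V}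
    (hJS : Disjoint J S) (hβ : ∀ v ∈ J, β v = lp v) (hle : lp ≤ l0) (hJ : ∀ v ∈ J, l0 v = lp v)
    (hne : ∀ v k, lp v ≤ k → k < l0 v → (k : ℂ) ≠ β v) {r : V →₀ ℕ} (hr : l0 + nz r = 0)
    (hK : Kosz (BB V) univ (gam' Q c J))
    (hr' : monomial r (1 : ℂ) ∉ Ideal.span (Set.range (gam' Q c J))) (N : ℕ) :
    ∃ fam : (V → ℕ) → MM V →ₗ[ℂ] ℂ, ∀ α, ∑ v, α v < N → α ≤ ind1 S →
      (∀ n ∈ NN J lp, fam α n = 0) ∧
      (∀ v, ∀ e ∈ EL lp, fam α (DT Q c β v e) = low fam α v e) ∧ (α = 0 → fam α (sg 0) = 1) := by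
  refine exists_family (fun α (φ : MM V →ₗ[ℂ] ℂ) ω => α ≤ ind1 S → (∀ n ∈ NN J lp, φ n = 0) ∧
      (∀ v, ∀ e ∈ EL lp, φ (DT Q c β v e) = ω v e) ∧ (α = 0 → φ (sg 0) = 1)) ?_ N
  intro α fam ih
  by_cases hα : α ≤ ind1 S
  swap
  · exact ⟨0, fun h => absurd h hα⟩
  by_cases h0 : α = 0
  · subst h0
    have hN : NN J l0 = NN J lp := NN_congr hJ
    obtain ⟨χ, h1, h2, h3⟩ := (compat_one (β := β) hm hQ (l := l0)
      (fun v hv => by rw [hβ v hv, hJ v hv]) hK hr hr').solve
    rw [hN] at h2
    have hD : Desc Q c β (EL l0) (NN J lp) χ 0 :=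
      ⟨fun v f hf => DT_EL v hf, fun v n hn => DT_NN v hn, h3, fun _ _ _ => rfl, fun _ _ _ => rfl⟩
    obtain ⟨ψ, h4, h5, h6⟩ := (hD.down (l1 := l0) (fun f _ n hn e he h0 => by
      have := congrArg χ h0
      simp only [map_add, map_sum, h2 n hn, h3 _ _ (he _), map_zero, add_zero] at this
      exact this) lp hle hne).solve
    refine ⟨ψ, fun _ => ⟨h5, fun v e he => by rw [h6 v e he]; simp [low], fun _ => ?_⟩⟩
    rw [h4 _ (sg_mem (fun v => by
      have := congrFun hr v
      simp only [Pi.add_apply, nz, Pi.zero_apply] at this ⊢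
      omega)), h1 _ (Submodule.mem_span_singleton_self _)]
    simp [sg]
  · have ih' := fun v (hv : α v ≠ 0) => ih (α - Pi.single v 1) (by
      have := sum_sub_single hv
      omega) (le_trans tsub_le_self hα)
    obtain ⟨ψ, _, h5, h6⟩ := (compat_base (β := β) hm hQ hβ hK (ω := low fam α) (fun v hv => by
      have h1 : α v ≤ ind1 S v := hα v
      rw [ind1, if_neg (disjoint_left.1 hJS hv)] at h1
      rw [low, if_pos (by omega)]) (fun v n hn => by
      unfold low
      split_ifs with h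
      · rfl
      · exact (ih' v h).1 n hn)
      (fun v w x hx => closed_low (fun v hv w => (ih' v hv).2.1 w x hx) v w)).solve
    exact ⟨ψ, fun _ => ⟨h5, h6, fun h => absurd h h0⟩⟩

theorem fam_exists {m : ℕ} (hm : 0 < m) (hQ : ∀ j, ∑ v, Q j v = m) {lo l0 : Lat V}
    {Z S : Finset V} (hSZ : S ⊆ Z) (h1 : ∀ v k, k < lo v → (k : ℂ) ≠ β v)
    (h2 : ∀ v ∈ Z, β v = lo v) (h3 : ∀ v ∈ S, lo v < l0 v) (h4 : ∀ v ∉ S, l0 v = lo v)
    {r : V →₀ ℕ} (hr : l0 + nz r = 0) (𝒜 : (V → ℕ) → Prop)
    (hdown : ∀ α v, 𝒜 α → 𝒜 (α - Pi.single v 1))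
    (hK : ∀ α, 𝒜 α → Kosz (BB V) univ (gam' Q c (Z.filter (fun v => α v = 0))))
    (hS : 𝒜 (ind1 S)) (hr' : monomial r (1 : ℂ) ∉ Ideal.span (Set.range (gam' Q c (Z \ S))))
    (N : ℕ) (hN : ∑ v, ind1 S v < N) :
    ∃ φ : (V → ℕ) → MM V →ₗ[ℂ] ℂ, (∀ α, ∑ v, α v < N → 𝒜 α →
      (∀ n ∈ NN (Z.filter (fun v => α v = 0)) lo, φ α n = 0) ∧
        ∀ v e, φ α (DT Q c β v e) = low φ α v e) ∧ φ (ind1 S) (sg 0) = 1 := by
  obtain ⟨lp, hlp⟩ : ∃ lp : Lat V, lp = lo + fun v => (ind1 S v : ℤ) := ⟨_, rfl⟩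
  have hlp1 : ∀ v ∈ S, lp v = lo v + 1 := fun v hv => by simp [hlp, ind1, hv]
  have hlp2 : ∀ v ∉ S, lp v = lo v := fun v hv => by simp [hlp, ind1, hv]
  have hle : lp ≤ l0 := fun v => by
    change lp v ≤ l0 v
    by_cases hv : v ∈ S
    · have := h3 v hv
      have := hlp1 v hv
      omega
    · rw [hlp2 v hv, h4 v hv]
  have hZS : Z.filter (fun v => ind1 S v = 0) = Z \ S := by
    ext v
    simp [ind1]
  have h0 : sg 0 ∈ EL l0 := sg_mem (fun v => by
    have := congrFun hr v
    simp only [Pi.add_apply, nz, Pi.zero_apply] at this ⊢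
    omega)
  obtain ⟨f1, hf1⟩ := stage_one (β := β) hm hQ (lp := lp) (l0 := l0) (J := Z \ S) (S := S)
    sdiff_disjoint (fun v hv => by rw [hlp2 v (mem_sdiff.1 hv).2, h2 v (mem_sdiff.1 hv).1]) hle
    (fun v hv => by rw [hlp2 v (mem_sdiff.1 hv).2, h4 v (mem_sdiff.1 hv).2]) (fun v k hk hk' => by
      by_cases hv : v ∈ S
      · rw [h2 v (hSZ hv), Ne, Int.cast_inj]
        have := hlp1 v hv
        omega
      · have := hlp2 v hv
        have := h4 v hv
        omega) hr (hZS ▸ hK _ hS) hr' N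
  have hN1 : NN (Z \ S) lp = NN (Z \ S) lo := NN_congr (fun v hv => hlp2 v (mem_sdiff.1 hv).2)
  have hT : ∀ x ∈ EL lo, DP Q c β S x ∈ EL lp := fun x hx =>
    hlp ▸ DP_EL S (fun v hv => h2 v (hSZ hv)) hx
  have hsum : ∀ α : V → ℕ, α ≤ ind1 S → ∑ v, α v < N := fun α hα =>
    lt_of_le_of_lt (sum_le_sum (fun v _ => hα v)) hN
  obtain ⟨φ, hφ⟩ := exists_family (fun α (φ : MM V →ₗ[ℂ] ℂ) ω => 𝒜 α →
      (∀ n ∈ NN (Z.filter (fun v => α v = 0)) lo, φ n = 0) ∧
      (∀ v e, φ (DT Q c β v e) = ω v e) ∧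
      (α ≤ ind1 S → ∀ e ∈ EL lo, φ e = f1 α (DP Q c β S e))) (by
    intro α fam ih
    by_cases hα : 𝒜 α
    swap
    · exact ⟨0, fun h => absurd h hα⟩
    have ih' := fun v (hv : α v ≠ 0) => ih (α - Pi.single v 1) (by
      have := sum_sub_single hv
      omega) (hdown α v hα)
    have hvan : ∀ v, ∀ n ∈ NN (Z.filter (fun v => α v = 0)) lo, low fam α v n = 0 := by
      intro v n hn
      unfold low
      split_ifs with h
      · rfl
      · refine (ih' v h).1 n (NN_mono (fun w hw => ?_) lo hn)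
        rw [mem_filter] at hw ⊢
        exact ⟨hw.1, by simp [hw.2]⟩
    have hcl : ∀ v w x, low fam α v (DT Q c β w x) = low fam α w (DT Q c β v x) :=
      fun v w x => closed_low (fun v hv w => (ih' v hv).2.1 w x) v w
    by_cases hαS : α ≤ ind1 S
    · obtain ⟨g1, g2, _⟩ := hf1 α (hsum α hαS) hαS
      have hrel : ∀ v, ∀ f ∈ EL lo, (f1 α ∘ₗ DP Q c β S) (DT Q c β v f) = low fam α v f := by
        intro v f hf
        rw [LinearMap.comp_apply, DP_comm, g2 v _ (hT f hf)]
        unfold low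
        split_ifs with h
        · rfl
        · rw [(ih' v h).2.2 (le_trans tsub_le_self hαS) f hf]
      have hD : Desc Q c β (EL lo) (NN (Z.filter (fun v => α v = 0)) lo)
          (f1 α ∘ₗ DP Q c β S) (low fam α) :=
        ⟨fun v f hf => DT_EL v hf, fun v n hn => DT_NN v hn, hrel, hvan, hcl⟩
      obtain ⟨ψ, k1, k2, k3⟩ := (hD.top (l1 := lo) (fun f hf n hn e he h0 => by
        have hnE : n ∈ EL lo := by
          have : n = -(f + ∑ v, DT Q c β v (e v)) := by
            rw [eq_neg_iff_add_eq_zero, ← h0]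
            abel
          rw [this]
          exact Submodule.neg_mem _ (Submodule.add_mem _ hf
            (Submodule.sum_mem _ (fun v _ => DT_EL v (he v))))
        have hn0 : (f1 α ∘ₗ DP Q c β S) n = 0 := by
          have hn' : n ∈ Finsupp.supported ℂ ℂ ({q | lo ≤ q} ∩
              {q | ∃ v ∈ Z.filter (fun v => α v = 0), lo v < q v}) := by
            rw [Finsupp.supported_inter]
            exact ⟨hnE, hn⟩
          refine (Submodule.mem_bot ℂ).1 (map_mem_of_sg _ ⊥ (fun q hq => ?_) hn')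
          obtain ⟨hq1, v, hv, hq2⟩ := hq
          rw [mem_filter] at hv
          rw [Submodule.mem_bot, LinearMap.comp_apply]
          by_cases hvS : v ∈ S
          · have hq3 : sg q ∈ EL (lo + ee v) := sg_mem (fun w => by
              by_cases h : w = v
              · subst h
                simp only [ee, Pi.add_apply, Pi.single_eq_same]
                omega
              · simpa [ee, h] using hq1 w)
            have hq4 := DP_EL (Q := Q) (c := c) (β := β) (S.erase v) (fun w hw => by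
              simpa [ee, (mem_erase.1 hw).1] using h2 w (hSZ (mem_erase.1 hw).2)) hq3
            rw [← insert_erase hvS, DP_insert (notMem_erase v S), g2 v _ (EL_mono (fun w => by
              by_cases h : w = v
              · subst h
                simp [hlp1 w hvS, ee, ind1]
              · simp [hlp, ee, ind1, h]) hq4), low, if_pos hv.2]
            rfl
          · exact g1 _ (hN1 ▸ DP_NN S (sg_mem ⟨v, mem_sdiff.2 ⟨hv.1, hvS⟩, hq2⟩))
        have := congrArg (f1 α ∘ₗ DP Q c β S) h0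
        simp only [map_add, map_sum, hn0, hrel _ _ (he _), map_zero, add_zero] at this
        exact this) h1).solve
      exact ⟨ψ, fun _ => ⟨k2, fun v e => k3 v e trivial, fun _ => k1⟩⟩
    · have hD : Desc Q c β ⊥ (NN (Z.filter (fun v => α v = 0)) lo) 0 (low fam α) :=
        ⟨fun v f hf => by simp [(Submodule.mem_bot ℂ).1 hf], fun v n hn => DT_NN v hn,
          fun v f hf => by simp [(Submodule.mem_bot ℂ).1 hf], hvan, hcl⟩
      obtain ⟨ψ, _, k2, k3⟩ := (hD.top (compat_base hm hQ (fun v hv => h2 v (mem_filter.1 hv).1)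
        (hK α hα) (fun v hv => by rw [low, if_pos (mem_filter.1 hv).2]) hvan
        (fun v w x _ => hcl v w x)) h1).solve
      exact ⟨ψ, fun _ => ⟨k2, fun v e => k3 v e trivial, fun h => absurd h hαS⟩⟩) N
  refine ⟨φ, fun α hα hα' => ⟨(hφ α hα hα').1, (hφ α hα hα').2.1⟩, ?_⟩
  have hlo : lo ≤ lp := fun v => by simp [hlp]
  rw [(hφ _ hN hS).2.2 le_rfl _ (EL_mono (le_trans hlo hle) h0)]
  have key : ∀ S' ⊆ S, f1 (ind1 S') (DP Q c β S' (sg 0)) = 1 := by
    intro S' hS'
    induction S' using Finset.induction_on with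
    | empty =>
      have e : ind1 (∅ : Finset V) = 0 := by
        ext v
        simp [ind1]
      rw [e]
      simpa [DP] using (hf1 0 (hsum 0 zero_le) zero_le).2.2 rfl
    | insert a S' ha ih =>
      have hle' : ind1 (insert a S') ≤ ind1 S := fun v => by
        unfold ind1
        split_ifs with h h'
        · rfl
        · exact absurd (hS' h) h'
        · exact Nat.zero_le _
        · rfl
      have e : ind1 (insert a S') - Pi.single a 1 = ind1 S' := by
        ext v
        by_cases hv : v = a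
        · subst hv
          simp [ind1, ha]
        · simp [ind1, hv]
      rw [DP_insert ha, (hf1 _ (hsum _ hle') hle').2.1 a _ (DP_EL' S' (EL_mono hle h0)), low,
        if_neg (by simp [ind1]), e]
      exact ih (fun v hv => hS' (mem_insert_of_mem hv))
  exact key S subset_rfl

end Pool.Agent.MP_5d9b3c_ag.H22
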