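import Pool.Agent.MP_5d9b3c_ag.H22.Global

/-!
The Farkas lemma over the rationals and over the integers.
-/

namespace Pool.Agent.MP_5d9b3c_ag.H22

open Finset

lemma farkas_rat {M α : Type} [AddCommGroup M] [Module ℚ M] (Y : Finset α) :
    ∀ (v : α → M) (z : M), (∃ f : M →ₗ[ℚ] ℚ, 0 < f z ∧ ∀ x ∈ Y, f (v x) ≤ 0) ∨
      ∃ t : α → ℚ, (∀ x, 0 ≤ t x) ∧ z = ∑ x ∈ Y, t x • v x := by
  classical
  induction Y using Finset.induction_on with
  | empty =>
    intro v z
    by_cases hz : z = 0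
    · exact Or.inr ⟨0, fun _ => le_rfl, by simp [hz]⟩
    · obtain ⟨f, hf⟩ := Module.Projective.exists_dual_eq_one ℚ hz
      exact Or.inl ⟨f, by rw [hf]; norm_num, by simp⟩
  | insert a Y ha ih =>
    intro v z
    have key : ∀ μ : ℚ, 0 ≤ μ → ∀ t : α → ℚ, (∀ x, 0 ≤ t x) → z = μ • v a + ∑ x ∈ Y, t x • v x →
        (∃ f : M →ₗ[ℚ] ℚ, 0 < f z ∧ ∀ x ∈ insert a Y, f (v x) ≤ 0) ∨
        ∃ t : α → ℚ, (∀ x, 0 ≤ t x) ∧ z = ∑ x ∈ insert a Y, t x • v x := by
      intro μ hμ t ht hz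
      refine Or.inr ⟨Function.update t a μ, fun x => ?_, ?_⟩
      · by_cases hx : x = a
        · rw [hx, Function.update_self]; exact hμ
        · rw [Function.update_of_ne hx]; exact ht x
      · rw [sum_insert ha, Function.update_self, hz]
        congr 1
        exact sum_congr rfl (fun x hx => by
          rw [Function.update_of_ne (by rintro rfl; exact ha hx)])
    rcases ih v z with ⟨f, hf1, hf2⟩ | ⟨t, ht1, ht2⟩
    · by_cases hfa : f (v a) ≤ 0
      · exact Or.inl ⟨f, hf1, fun x hx => by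
          rcases mem_insert.1 hx with rfl | hx
          · exact hfa
          · exact hf2 x hx⟩
      push Not at hfa
      obtain ⟨π, hπ⟩ : ∃ π : M →ₗ[ℚ] M, ∀ x, π x = x - (f x / f (v a)) • v a :=
        ⟨LinearMap.id - ((f (v a))⁻¹ • f).smulRight (v a), fun x => by
          simp [div_eq_inv_mul]⟩
      rcases ih (fun x => π (v x)) (π z) with ⟨g, hg1, hg2⟩ | ⟨t, ht1, ht2⟩
      · refine Or.inl ⟨g ∘ₗ π, hg1, fun x hx => ?_⟩
        rcases mem_insert.1 hx with rfl | hx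
        · rw [LinearMap.comp_apply, hπ, div_self hfa.ne', one_smul, sub_self, map_zero]
        · exact hg2 x hx
      · have hμ : 0 ≤ (f z - ∑ x ∈ Y, t x * f (v x)) / f (v a) := by
          have := sum_nonpos (fun x (hx : x ∈ Y) => mul_nonpos_of_nonneg_of_nonpos (ht1 x) (hf2 x hx))
          exact div_nonneg (by linarith) hfa.le
        refine key _ hμ t ht1 ?_
        simp only [hπ, smul_sub, sum_sub_distrib, smul_smul, ← sum_smul] at ht2
        rw [sub_div, sum_div, sub_smul]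
        simp only [mul_div_assoc]
        rw [sub_eq_iff_eq_add] at ht2
        conv_lhs => rw [ht2]
        abel
    · exact key 0 le_rfl t ht1 (by rw [zero_smul, zero_add, ht2])

lemma farkas {κ α : Type} [Fintype κ] [DecidableEq κ] [Fintype α] (Y : Finset α) (v : α → Lat κ)
    (z : Lat κ) : (∃ c : Lat κ, 0 < c ⬝ᵥ z ∧ ∀ x ∈ Y, c ⬝ᵥ v x ≤ 0) ∨
      ∃ N : ℕ, 0 < N ∧ ∃ n : α → ℕ, N • z = ∑ x ∈ Y, n x • v x := by
  rcases farkas_rat Y (fun x j => (v x j : ℚ)) (fun j => (z j : ℚ)) with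
    ⟨f, hf1, hf2⟩ | ⟨t, ht1, ht2⟩
  · left
    obtain ⟨N, hN, n, hn⟩ := clear_den (fun i : κ => f (fun j => if i = j then 1 else 0))
    have hN' : (0 : ℚ) < N := by exact_mod_cast hN
    have key : ∀ u : Lat κ, ((n ⬝ᵥ u : ℤ) : ℚ) = N * f (fun j => (u j : ℚ)) := by
      intro u
      rw [LinearMap.pi_apply_eq_sum_univ f, dotProduct, mul_sum]
      push_cast
      refine sum_congr rfl (fun i _ => ?_)
      rw [hn, smul_eq_mul]
      ring
    refine ⟨n, ?_, fun x hx => ?_⟩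
    · have h3 : (0 : ℚ) < ((n ⬝ᵥ z : ℤ) : ℚ) := by rw [key]; positivity
      exact_mod_cast h3
    · have h3 : ((n ⬝ᵥ v x : ℤ) : ℚ) ≤ 0 := by
        rw [key]
        exact mul_nonpos_of_nonneg_of_nonpos hN'.le (hf2 x hx)
      exact_mod_cast h3
  · right
    obtain ⟨N, hN, n, hn⟩ := clear_den t
    have hn0 : ∀ x, 0 ≤ n x := fun x => by
      have : (0 : ℚ) ≤ n x := by
        rw [hn]
        exact mul_nonneg (by positivity) (ht1 x)
      exact_mod_cast this
    refine ⟨N, hN, fun x => (n x).toNat, ?_⟩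
    ext j
    have h1 := congrFun ht2 j
    simp only [Finset.sum_apply, Pi.smul_apply, smul_eq_mul] at h1
    have h2 : ((N * z j : ℤ) : ℚ) = ((∑ x ∈ Y, n x * v x j : ℤ) : ℚ) := by
      push_cast
      rw [h1, mul_sum]
      refine sum_congr rfl (fun x _ => ?_)
      rw [hn]
      ring
    have h3 : (N * z j : ℤ) = ∑ x ∈ Y, n x * v x j := by exact_mod_cast h2
    rw [Finset.sum_apply, Pi.smul_apply, nsmul_eq_mul, h3]
    exact sum_congr rfl (fun x _ => by
      rw [Pi.smul_apply, nsmul_eq_mul, Int.toNat_of_nonneg (hn0 _)])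

end Pool.Agent.MP_5d9b3c_ag.H22
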