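import Mathlib

/-!
The action of differential operators with polynomial coefficients on coefficients.
-/

namespace Pool.Agent.MP_5d9b3c_ag.H22

open Finset

variable {ν : Type} [Fintype ν] [DecidableEq ν]

/-- The coefficient at an integer exponent vector. -/
noncomputable def coef (v : ν → ℤ) : MvPolynomial ν ℂ →ₗ[ℂ] ℂ :=
  if ∀ i, 0 ≤ v i then
    MvPolynomial.lcoeff ℂ (Finsupp.equivFunOnFinite.symm (fun i => (v i).toNat)) else 0

lemma coef_monomial (v : ν → ℤ) (u : ν →₀ ℕ) (r : ℂ) :
    coef v (MvPolynomial.monomial u r) = if (fun i => (u i : ℤ)) = v then r else 0 := by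
  unfold coef
  by_cases h : ∀ i, 0 ≤ v i
  · rw [if_pos h, MvPolynomial.lcoeff_apply, MvPolynomial.coeff_monomial]
    refine if_congr ⟨fun h1 => ?_, fun h1 => ?_⟩ rfl rfl
    · ext i
      rw [h1]
      simp [h i]
    · ext i
      simp [← h1]
  · rw [if_neg h, if_neg]
    · rfl
    · rintro rfl
      exact h (fun i => by positivity)

lemma coef_X_mul (v : ν → ℤ) (i : ν) (G : MvPolynomial ν ℂ) :
    coef v (MvPolynomial.X i * G) = coef (v - Pi.single i 1) G := by
  induction G using MvPolynomial.induction_on' with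
  | monomial u r =>
    rw [MvPolynomial.X, MvPolynomial.monomial_mul, coef_monomial, coef_monomial, one_mul]
    refine if_congr ⟨fun h1 => ?_, fun h1 => ?_⟩ rfl rfl
    · ext j
      rw [← h1]
      by_cases hj : j = i
      · subst hj; simp
      · simp [hj]
    · ext j
      have := congrFun h1 j
      by_cases hj : j = i
      · subst hj
        simp at this ⊢
        omega
      · simpa [hj] using this
  | add a b ha hb => rw [mul_add, map_add, map_add, ha, hb]

lemma coef_pderiv (v : ν → ℤ) (i : ν) (G : MvPolynomial ν ℂ) :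
    coef v (MvPolynomial.pderiv i G) = ((v i : ℂ) + 1) * coef (v + Pi.single i 1) G := by
  induction G using MvPolynomial.induction_on' with
  | monomial u r =>
    rw [MvPolynomial.pderiv_monomial, coef_monomial, coef_monomial]
    by_cases h : (fun j => (u j : ℤ)) = v + Pi.single i 1
    · rw [if_pos h]
      have hi := congrFun h i
      simp only [Pi.add_apply, Pi.single_eq_same] at hi
      have hi' : (v i : ℂ) + 1 = u i := by exact_mod_cast hi.symm
      rw [hi']
      by_cases hu : u i = 0
      · simp [hu]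
      · rw [if_pos, mul_comm]
        ext j
        have := congrFun h j
        by_cases hj : j = i
        · subst hj
          simp
          omega
        · simpa [hj] using this
    · rw [if_neg h, mul_zero]
      by_cases hu : u i = 0
      · simp [hu]
      · rw [if_neg]
        intro h1
        apply h
        ext j
        have := congrFun h1 j
        by_cases hj : j = i
        · subst hj
          simp at this ⊢
          omega
        · simpa [hj] using this
  | add a b ha hb => rw [map_add, map_add, map_add, ha, hb, mul_add]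

/-- Rising factorials. -/
noncomputable def rise (v δ : ν → ℤ) : ℂ :=
  ∏ i, ∏ k ∈ range (δ i).toNat, ((v i : ℂ) + ((k + 1 : ℕ) : ℂ))

lemma rise_succ (v δ : ν → ℤ) (i : ν) :
    rise v (δ + Pi.single i 1) = rise v δ * (if 0 ≤ δ i then (v i : ℂ) + δ i + 1 else 1) := by
  rw [rise, rise, ← mul_prod_erase _ _ (mem_univ i), ← mul_prod_erase _ _ (mem_univ i)]
  have e1 : ∏ j ∈ univ.erase i, ∏ k ∈ range ((δ + Pi.single i 1 : ν → ℤ) j).toNat,
      ((v j : ℂ) + ((k + 1 : ℕ) : ℂ)) =
      ∏ j ∈ univ.erase i, ∏ k ∈ range (δ j).toNat, ((v j : ℂ) + ((k + 1 : ℕ) : ℂ)) := by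
    refine prod_congr rfl (fun j hj => ?_)
    simp [(mem_erase.1 hj).1]
  rw [e1]
  simp only [Pi.add_apply, Pi.single_eq_same]
  split_ifs with h
  · have e2 : (δ i + 1).toNat = (δ i).toNat + 1 := by omega
    have e3 : (((δ i).toNat : ℕ) : ℂ) = (δ i : ℂ) := by
      have : (((δ i).toNat : ℕ) : ℤ) = δ i := by omega
      exact_mod_cast this
    rw [e2, prod_range_succ]
    push_cast
    rw [e3]
    ring
  · have e2 : (δ i + 1).toNat = (δ i).toNat := by omega
    rw [e2, mul_one]

/-- Homogeneous operators. -/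
def Basic (ν : Type) [Fintype ν] [DecidableEq ν] : Set (Module.End ℂ (MvPolynomial ν ℂ)) :=
  {Q | ∃ (δ : ν → ℤ) (q : MvPolynomial ν ℂ), ∀ G v,
    coef v (Q G) = MvPolynomial.eval (fun i => (v i : ℂ)) q * rise v δ * coef (v + δ) G}

lemma one_mem_basic : (1 : Module.End ℂ (MvPolynomial ν ℂ)) ∈ Basic ν :=
  ⟨0, 1, fun G v => by simp [rise]⟩

lemma basic_mul_X {Q : Module.End ℂ (MvPolynomial ν ℂ)} (hQ : Q ∈ Basic ν) (i : ν) :
    Q * LinearMap.mulLeft ℂ (MvPolynomial.X i) ∈ Basic ν := by
  obtain ⟨δ, q, h⟩ := hQ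
  refine ⟨δ - Pi.single i 1, q * (if 0 < δ i then MvPolynomial.X i + MvPolynomial.C (δ i : ℂ)
    else 1), fun G v => ?_⟩
  have h1 := rise_succ v (δ - Pi.single i 1) i
  rw [sub_add_cancel] at h1
  rw [Module.End.mul_apply, LinearMap.mulLeft_apply, h, coef_X_mul, h1, add_sub_assoc, map_mul]
  simp only [Pi.sub_apply, Pi.single_eq_same]
  by_cases hδ : 0 < δ i
  · rw [if_pos hδ, if_pos (by omega)]
    simp only [map_add, MvPolynomial.eval_X, MvPolynomial.eval_C]
    push_cast
    ring
  · rw [if_neg hδ, if_neg (by omega)]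
    simp

lemma basic_mul_pderiv {Q : Module.End ℂ (MvPolynomial ν ℂ)} (hQ : Q ∈ Basic ν) (i : ν) :
    Q * (MvPolynomial.pderiv i).toLinearMap ∈ Basic ν := by
  obtain ⟨δ, q, h⟩ := hQ
  refine ⟨δ + Pi.single i 1, q * (if 0 ≤ δ i then 1 else
    MvPolynomial.X i + MvPolynomial.C ((δ i : ℂ) + 1)), fun G v => ?_⟩
  rw [Module.End.mul_apply, Derivation.coeFn_coe, h, coef_pderiv, rise_succ, add_assoc v, map_mul]
  by_cases hδ : 0 ≤ δ i
  · rw [if_pos hδ, if_pos hδ]
    simp only [map_one, Pi.add_apply]
    push_cast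
    ring
  · rw [if_neg hδ, if_neg hδ]
    simp only [map_add, MvPolynomial.eval_X, MvPolynomial.eval_C, Pi.add_apply]
    push_cast
    ring

lemma adjoin_le_span_basic {P : Module.End ℂ (MvPolynomial ν ℂ)}
    (hP : P ∈ Algebra.adjoin ℂ
      (Set.range (fun i : ν => LinearMap.mulLeft ℂ (MvPolynomial.X i : MvPolynomial ν ℂ)) ∪
        Set.range (fun i : ν => (MvPolynomial.pderiv i :
          Derivation ℂ (MvPolynomial ν ℂ) (MvPolynomial ν ℂ)).toLinearMap))) :
    P ∈ Submodule.span ℂ (Basic ν) := by
  have key : ∀ Q ∈ Submodule.span ℂ (Basic ν), Q * P ∈ Submodule.span ℂ (Basic ν) := by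
    induction hP using Algebra.adjoin_induction with
    | mem x hx =>
      intro Q hQ
      induction hQ using Submodule.span_induction with
      | mem Q hQ =>
        rcases hx with ⟨i, rfl⟩ | ⟨i, rfl⟩
        · exact Submodule.subset_span (basic_mul_X hQ i)
        · exact Submodule.subset_span (basic_mul_pderiv hQ i)
      | zero => simp
      | add a b _ _ ha hb => rw [add_mul]; exact Submodule.add_mem _ ha hb
      | smul c a _ ha => rw [smul_mul_assoc]; exact Submodule.smul_mem _ c ha
    | algebraMap r =>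
      intro Q hQ
      rw [← Algebra.commutes, ← Algebra.smul_def]
      exact Submodule.smul_mem _ r hQ
    | add x y _ _ hx hy =>
      intro Q hQ
      rw [mul_add]
      exact Submodule.add_mem _ (hx Q hQ) (hy Q hQ)
    | mul x y _ _ hx hy =>
      intro Q hQ
      rw [← mul_assoc]
      exact hy _ (hx Q hQ)
  simpa using key 1 (Submodule.subset_span one_mem_basic)

end Pool.Agent.MP_5d9b3c_ag.H22
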