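import Pool.Agent.MP_5d9b3c_ag.H22.Global
import Pool.Agent.MP_5d9b3c_ag.H22.Weyl

/-!
The polynomial identity obtained from the functional equation.
-/

namespace Pool.Agent.MP_5d9b3c_ag.H22

open Finset

variable {κ ν : Type} [Fintype κ] [DecidableEq κ] [Fintype ν] [DecidableEq ν]

/-- The homogenised exponent matrix. -/
def Aof (a : κ → ν →₀ ℕ) : κ → Option ν → ℕ := fun j o => o.elim 1 (fun i => a j i)

/-- The exponent vector of a product of monomials. -/
def lz (a : κ → ν →₀ ℕ) (τ : Lat κ) : ν → ℤ := fun i => τ ⬝ᵥ yv (Aof a) (some i)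

/-- Multinomial weight. -/
noncomputable def wt (cc : κ → ℂ) (σ : κ → ℕ) : ℂ :=
  (Nat.multinomial univ σ : ℂ) * ∏ j, cc j ^ σ j

omit [DecidableEq κ] [Fintype ν] [DecidableEq ν] in
lemma lz_add (a : κ → ν →₀ ℕ) (τ τ' : Lat κ) : lz a (τ + τ') = lz a τ + lz a τ' := by
  ext i
  simp [lz, add_dotProduct]

omit [DecidableEq κ] in
lemma wt_ne_zero {cc : κ → ℂ} (hcc : ∀ j, cc j ≠ 0) (σ : κ → ℕ) : wt cc σ ≠ 0 := by
  refine mul_ne_zero ?_ (prod_ne_zero_iff.2 (fun j _ => pow_ne_zero _ (hcc j)))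
  exact_mod_cast (Nat.multinomial_pos univ σ).ne'

lemma coef_pow (a : κ → ν →₀ ℕ) (cc : κ → ℂ) (m : ℕ) (v : ν → ℤ) :
    coef v ((∑ j, MvPolynomial.monomial (a j) (cc j)) ^ m) =
      ∑ k ∈ piAntidiag univ m, if lz a (fun j => (k j : ℤ)) = v then wt cc k else 0 := by
  rw [sum_pow_eq_sum_piAntidiag, map_sum]
  refine sum_congr rfl (fun k _ => ?_)
  have e : ((Nat.multinomial univ k : ℕ) : MvPolynomial ν ℂ) *
      ∏ j, MvPolynomial.monomial (a j) (cc j) ^ k j =
      MvPolynomial.monomial (∑ j, k j • a j) (wt cc k) := by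
    rw [MvPolynomial.monomial_sum_index, wt, map_mul, map_natCast, map_prod, mul_assoc,
      ← prod_mul_distrib]
    congr 1
    refine prod_congr rfl (fun j _ => ?_)
    rw [MvPolynomial.monomial_pow, MvPolynomial.C_mul_monomial, mul_one]
  rw [e, coef_monomial]
  have e2 : (fun i => (((∑ j, k j • a j : ν →₀ ℕ) i : ℕ) : ℤ)) = lz a (fun j => (k j : ℤ)) := by
    ext i
    simp [lz, dotProduct, yv, Aof, Finsupp.finsetSum_apply]
  rw [e2]

lemma fact_Ioc (s s' : ℕ) (c : ℤ) (h : (s' : ℤ) = s + c) (t : ℤ) (ht : c ≤ t) :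
    (s'.factorial : ℂ) * ∏ k ∈ Ioc c t, ((s : ℂ) + k) = (((s : ℤ) + t).toNat.factorial : ℂ) := by
  induction t, ht using Int.leInduction with
  | base =>
    have : ((s : ℤ) + c).toNat = s' := by omega
    simp [this]
  | succ t ht ih =>
    have e1 : Ioc c (t + 1) = insert (t + 1) (Ioc c t) := by
      ext k
      simp only [mem_Ioc, mem_insert]
      omega
    have e2 : ((s : ℤ) + (t + 1)).toNat = ((s : ℤ) + t).toNat + 1 := by omega
    have e3 : ((((s : ℤ) + t).toNat : ℕ) : ℂ) = (s : ℂ) + t := by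
      have : ((((s : ℤ) + t).toNat : ℕ) : ℤ) = s + t := by omega
      exact_mod_cast this
    rw [e1, prod_insert (by simp), e2, Nat.factorial_succ, mul_left_comm, ih]
    push_cast
    rw [e3]
    ring

lemma fact_range (s K : ℕ) :
    (s.factorial : ℂ) * ∏ k ∈ range K, ((s : ℂ) + ((k + 1 : ℕ) : ℂ)) = ((s + K).factorial : ℂ) := by
  induction K with
  | zero => simp
  | succ K ih =>
    rw [prod_range_succ, ← mul_assoc, ih, ← add_assoc, Nat.factorial_succ]
    push_cast
    ring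

omit [DecidableEq κ] in
lemma wt_shift {cc : κ → ℂ} (hcc : ∀ j, cc j ≠ 0) (σ σ' : κ → ℕ) (c : Lat κ)
    (h : ∀ j, (σ' j : ℤ) = σ j + c j) (hc : ∑ j, c j = 1) (K : ℕ) (hK : ∀ j, c j ≤ K) :
    ((∑ j, (σ j : ℂ)) + 1) * (∏ j, cc j ^ c j) * (∏ j, ∏ k ∈ Ioc (c j) K, ((σ j : ℂ) + k)) *
      wt cc σ = wt cc σ' * ∏ j, ∏ k ∈ range K, ((σ j : ℂ) + ((k + 1 : ℕ) : ℂ)) := by
  have hsum : ∑ j, σ' j = ∑ j, σ j + 1 := by
    have : ((∑ j, σ' j : ℕ) : ℤ) = ((∑ j, σ j + 1 : ℕ) : ℤ) := by
      push_cast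
      simp only [h, sum_add_distrib, hc]
    exact_mod_cast this
  have m1 : (∏ j, ((σ j).factorial : ℂ)) * (Nat.multinomial univ σ : ℂ) =
      ((∑ j, σ j).factorial : ℂ) := by exact_mod_cast Nat.multinomial_spec univ σ
  have m2 : (∏ j, ((σ' j).factorial : ℂ)) * (Nat.multinomial univ σ' : ℂ) =
      ((∑ j, (σ j : ℂ)) + 1) * ((∑ j, σ j).factorial : ℂ) := by
    have := Nat.multinomial_spec univ σ'
    rw [hsum, Nat.factorial_succ] at this
    exact_mod_cast this
  have f1 : (∏ j, ((σ' j).factorial : ℂ)) * (∏ j, ∏ k ∈ Ioc (c j) K, ((σ j : ℂ) + k)) =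
      ∏ j, ((σ j + K).factorial : ℂ) := by
    rw [← prod_mul_distrib]
    refine prod_congr rfl (fun j _ => ?_)
    rw [fact_Ioc (σ j) (σ' j) (c j) (h j) K (hK j)]
    have : ((σ j : ℤ) + (K : ℤ)).toNat = σ j + K := by omega
    rw [this]
  have f2 : (∏ j, ((σ j).factorial : ℂ)) *
      (∏ j, ∏ k ∈ range K, ((σ j : ℂ) + ((k + 1 : ℕ) : ℂ))) = ∏ j, ((σ j + K).factorial : ℂ) := by
    rw [← prod_mul_distrib]
    exact prod_congr rfl (fun j _ => fact_range _ _)
  have c1 : (∏ j, cc j ^ c j) * ∏ j, cc j ^ σ j = ∏ j, cc j ^ σ' j := by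
    rw [← prod_mul_distrib]
    refine prod_congr rfl (fun j _ => ?_)
    rw [← zpow_natCast, ← zpow_natCast, ← zpow_add₀ (hcc j), h j, add_comm]
  have n1 : (∏ j, ((σ j).factorial : ℂ)) ≠ 0 :=
    prod_ne_zero_iff.2 (fun j _ => by exact_mod_cast (Nat.factorial_pos _).ne')
  have n2 : (∏ j, ((σ' j).factorial : ℂ)) ≠ 0 :=
    prod_ne_zero_iff.2 (fun j _ => by exact_mod_cast (Nat.factorial_pos _).ne')
  apply mul_left_cancel₀ (mul_ne_zero n1 n2)
  rw [wt, wt, ← c1]
  generalize (∏ j, ((σ j).factorial : ℂ)) = F1 at *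
  generalize (∏ j, ((σ' j).factorial : ℂ)) = F2 at *
  generalize (∏ j, ∏ k ∈ Ioc (c j) K, ((σ j : ℂ) + k)) = P1 at *
  generalize (∏ j, ∏ k ∈ range K, ((σ j : ℂ) + ((k + 1 : ℕ) : ℂ))) = P2 at *
  generalize (∏ j, cc j ^ c j) = C1 at *
  generalize (∏ j, cc j ^ σ j) = C2 at *
  generalize (Nat.multinomial univ σ : ℂ) = M1 at *
  generalize (Nat.multinomial univ σ' : ℂ) = M2 at *
  generalize ((∑ j, (σ j : ℂ)) + 1) = S at *
  have e1 : F1 * F2 * (S * C1 * P1 * (M1 * C2)) = S * C1 * C2 * (F1 * M1) * (F2 * P1) := by ring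
  have e2 : F1 * F2 * (M2 * (C1 * C2) * P2) = C1 * C2 * (F2 * M2) * (F1 * P2) := by ring
  rw [e1, e2, m1, m2, f1, f2]
  ring

omit [DecidableEq κ] [Fintype ν] [DecidableEq ν] in
lemma eval_ell (a : κ → ν →₀ ℕ) (σ : κ → ℕ) (i : ν) :
    MvPolynomial.eval (fun j => (σ j : ℂ)) (ell (Aof a) (some i)) =
      (lz a (fun j => (σ j : ℤ)) i : ℂ) := by
  simp [ell, lz, dotProduct, yv, mul_comm]

omit [DecidableEq κ] in
lemma eval_Del (σ : κ → ℕ) (K : ℕ) :
    MvPolynomial.eval (fun j => (σ j : ℂ)) (Del κ K) =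
      ∏ j, ∏ k ∈ range K, ((σ j : ℂ) + ((k + 1 : ℕ) : ℂ)) := by
  simp only [Del, map_prod, map_add, MvPolynomial.eval_X, MvPolynomial.eval_C]

/-- The property of an operator that is needed. -/
def Good (a : κ → ν →₀ ℕ) (cc : κ → ℂ) (Q : Module.End ℂ (MvPolynomial ν ℂ)) : Prop :=
  ∃ K0 : ℕ, ∀ K, K0 ≤ K → ∃ h ∈ nIdeal (Aof a) K, ∀ σ : κ → ℕ,
    MvPolynomial.eval (fun j => (σ j : ℂ)) h * wt cc σ =
      coef (lz a (fun j => (σ j : ℤ)))
        (Q ((∑ j, MvPolynomial.monomial (a j) (cc j)) ^ (∑ j, σ j + 1))) *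
        MvPolynomial.eval (fun j => (σ j : ℂ)) (Del κ K)

lemma good_basic {a : κ → ν →₀ ℕ} {cc : κ → ℂ} (hcc : ∀ j, cc j ≠ 0)
    (hinj : ∀ c : Lat κ, ∑ j, c j = 0 → lz a c = 0 → c = 0)
    {Q : Module.End ℂ (MvPolynomial ν ℂ)} (hQ : Q ∈ Basic ν) : Good a cc Q := by
  obtain ⟨δ, q, hq⟩ := hQ
  by_cases hc : ∃ c : Lat κ, ∑ j, c j = 1 ∧ lz a c = δ
  · obtain ⟨c, hc1, hc2⟩ := hc
    refine ⟨∑ j, (c j).natAbs, fun K hK => ?_⟩
    have hcK : ∀ j, c j ≤ K := by
      intro j
      have := single_le_sum (f := fun j => (c j).natAbs) (fun _ _ => Nat.zero_le _) (mem_univ j)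
      omega
    have hz : c ⬝ᵥ z0 κ = 1 := by simpa [dotProduct, z0] using hc1
    refine ⟨MvPolynomial.aeval (fun i => ell (Aof a) (some i)) q *
      MvPolynomial.C (∏ j, cc j ^ c j) *
      (((ell (Aof a) none + MvPolynomial.C 1) * ∏ i, ∏ k ∈ range (δ i).toNat,
        (ell (Aof a) (some i) + MvPolynomial.C ((k + 1 : ℕ) : ℂ))) *
      ∏ j, ∏ k ∈ Ioc (c j) K, (MvPolynomial.X j + MvPolynomial.C (k : ℂ))), ?_, fun σ => ?_⟩
    · refine Ideal.mul_mem_left _ _ (Ideal.mem_of_dvd _ ?_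
        (Ideal.subset_span ⟨c, by rw [hz]; exact one_pos, rfl⟩))
      rw [nPoly]
      refine mul_dvd_mul ?_ ?_
      · rw [prod_filter, Fintype.prod_option]
        refine mul_dvd_mul ?_ (prod_dvd_prod_of_dvd _ _ (fun i _ => ?_))
        · split_ifs
          · exact dvd_rfl
          · exact one_dvd _
        · split_ifs with h
          · have h0 : 0 < δ i := by rw [← hc2]; exact h
            have := dvd_prod_of_mem (fun k : ℕ =>
              ell (Aof a) (some i) + MvPolynomial.C ((k + 1 : ℕ) : ℂ))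
              (mem_range.2 (by omega : 0 < (δ i).toNat))
            simpa using this
          · exact one_dvd _
      · rw [prod_filter]
        refine prod_dvd_prod_of_dvd _ _ (fun j _ => ?_)
        split_ifs with h
        · have e : ∏ k ∈ range (K + 1), (MvPolynomial.X j + MvPolynomial.C (k : ℂ) :
              MvPolynomial κ ℂ) = ∏ k ∈ (range (K + 1)).image (fun k : ℕ => (k : ℤ)),
              (MvPolynomial.X j + MvPolynomial.C (k : ℂ)) := by
            rw [prod_image (fun x _ y _ hxy => by exact_mod_cast hxy)]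
            simp
          rw [e]
          refine prod_dvd_prod_of_subset _ _ _ (fun k hk => ?_)
          obtain ⟨k', hk', rfl⟩ := mem_image.1 hk
          rw [mem_range] at hk'
          rw [mem_Ioc]
          omega
        · exact one_dvd _
    · rw [hq, coef_pow, eval_Del]
      have e1 : MvPolynomial.eval (fun j => (σ j : ℂ))
          (MvPolynomial.aeval (fun i => ell (Aof a) (some i)) q) =
          MvPolynomial.eval (fun i => (lz a (fun j => (σ j : ℤ)) i : ℂ)) q := by
        rw [← MvPolynomial.coe_aeval_eq_eval, ← MvPolynomial.coe_aeval_eq_eval]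
        change MvPolynomial.aeval _ (MvPolynomial.aeval _ q) = MvPolynomial.aeval _ q
        rw [← AlgHom.comp_apply, MvPolynomial.comp_aeval]
        congr 2
        ext i
        exact eval_ell a σ i
      have e2 : MvPolynomial.eval (fun j => (σ j : ℂ)) (ell (Aof a) none) = ∑ j, (σ j : ℂ) := by
        simp [ell, Aof]
      simp only [map_mul, map_prod, map_add, MvPolynomial.eval_C, MvPolynomial.eval_X, e1, e2,
        eval_ell]
      by_cases hσ : ∀ j, 0 ≤ (σ j : ℤ) + c j
      · have h1 : ∀ j, ((((σ j : ℤ) + c j).toNat : ℕ) : ℤ) = σ j + c j := fun j => by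
          have := hσ j
          omega
        rw [sum_eq_single (fun j => ((σ j : ℤ) + c j).toNat), if_pos]
        · have := wt_shift hcc σ (fun j => ((σ j : ℤ) + c j).toNat) c h1 hc1 K hcK
          rw [rise]
          linear_combination (MvPolynomial.eval (fun i => (lz a (fun j => (σ j : ℤ)) i : ℂ)) q *
            ∏ i, ∏ k ∈ range (δ i).toNat,
              ((lz a (fun j => (σ j : ℤ)) i : ℂ) + ((k + 1 : ℕ) : ℂ))) * this
        · rw [← hc2, ← lz_add]
          congr 1
          ext j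
          exact h1 j
        · intro k hk hne
          rw [if_neg]
          intro h
          apply hne
          have h2 := hinj ((fun j => (k j : ℤ)) - ((fun j => (σ j : ℤ)) + c)) (by
            have h3 := (mem_piAntidiag.1 hk).1
            have h4 : ((∑ j, k j : ℕ) : ℤ) = ((∑ j, σ j + 1 : ℕ) : ℤ) := by rw [← h3]
            push_cast at h4
            simp only [Pi.sub_apply, Pi.add_apply, sum_sub_distrib, sum_add_distrib, hc1, h4]
            ring) (by
            have h3 := lz_add a ((fun j => (k j : ℤ)) - ((fun j => (σ j : ℤ)) + c))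
              ((fun j => (σ j : ℤ)) + c)
            rw [sub_add_cancel, h, lz_add, hc2] at h3
            simpa using h3)
          ext j
          have := congrFun h2 j
          simp only [Pi.sub_apply, Pi.add_apply, Pi.zero_apply] at this
          omega
        · intro h
          exfalso
          apply h
          rw [mem_piAntidiag]
          refine ⟨?_, fun _ _ => mem_univ _⟩
          have : ((∑ j, ((σ j : ℤ) + c j).toNat : ℕ) : ℤ) = ((∑ j, σ j + 1 : ℕ) : ℤ) := by
            push_cast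
            simp only [h1, sum_add_distrib, hc1]
          exact_mod_cast this
      · push Not at hσ
        obtain ⟨j, hj⟩ := hσ
        have z1 : ∏ j, ∏ k ∈ Ioc (c j) K, ((σ j : ℂ) + (k : ℂ)) = 0 := by
          refine prod_eq_zero (mem_univ j) (prod_eq_zero (i := -(σ j : ℤ)) ?_ (by simp))
          rw [mem_Ioc]
          omega
        rw [z1, sum_eq_zero (s := piAntidiag univ (∑ j, σ j + 1))]
        · simp
        · intro k hk
          rw [if_neg]
          intro h
          have h2 := hinj ((fun j => (k j : ℤ)) - ((fun j => (σ j : ℤ)) + c)) (by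
            have h3 := (mem_piAntidiag.1 hk).1
            have h4 : ((∑ j, k j : ℕ) : ℤ) = ((∑ j, σ j + 1 : ℕ) : ℤ) := by rw [← h3]
            push_cast at h4
            simp only [Pi.sub_apply, Pi.add_apply, sum_sub_distrib, sum_add_distrib, hc1, h4]
            ring) (by
            have h3 := lz_add a ((fun j => (k j : ℤ)) - ((fun j => (σ j : ℤ)) + c))
              ((fun j => (σ j : ℤ)) + c)
            rw [sub_add_cancel, h, lz_add, hc2] at h3
            simpa using h3)
          have := congrFun h2 j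
          simp only [Pi.sub_apply, Pi.add_apply, Pi.zero_apply] at this
          omega
  · refine ⟨0, fun K _ => ⟨0, Submodule.zero_mem _, fun σ => ?_⟩⟩
    rw [hq, coef_pow, sum_eq_zero]
    · simp
    · intro k hk
      rw [if_neg]
      intro h
      apply hc
      refine ⟨(fun j => (k j : ℤ)) - (fun j => (σ j : ℤ)), ?_, ?_⟩
      · have h3 := (mem_piAntidiag.1 hk).1
        have h4 : ((∑ j, k j : ℕ) : ℤ) = ((∑ j, σ j + 1 : ℕ) : ℤ) := by rw [← h3]
        push_cast at h4
        simp only [Pi.sub_apply, sum_sub_distrib, h4]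
        ring
      · have h3 := lz_add a ((fun j => (k j : ℤ)) - (fun j => (σ j : ℤ))) (fun j => (σ j : ℤ))
        rw [sub_add_cancel, h, add_comm] at h3
        exact (add_right_cancel h3).symm

lemma good_span {a : κ → ν →₀ ℕ} {cc : κ → ℂ} (hcc : ∀ j, cc j ≠ 0)
    (hinj : ∀ c : Lat κ, ∑ j, c j = 0 → lz a c = 0 → c = 0)
    {Q : Module.End ℂ (MvPolynomial ν ℂ)} (hQ : Q ∈ Submodule.span ℂ (Basic ν)) :
    Good a cc Q := by
  induction hQ using Submodule.span_induction with
  | mem Q hQ => exact good_basic hcc hinj hQ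
  | zero => exact ⟨0, fun K _ => ⟨0, Submodule.zero_mem _, fun σ => by simp⟩⟩
  | add x y _ _ hx hy =>
    obtain ⟨K1, h1⟩ := hx
    obtain ⟨K2, h2⟩ := hy
    refine ⟨max K1 K2, fun K hK => ?_⟩
    obtain ⟨g1, hg1, hg1'⟩ := h1 K (le_trans (le_max_left _ _) hK)
    obtain ⟨g2, hg2, hg2'⟩ := h2 K (le_trans (le_max_right _ _) hK)
    refine ⟨g1 + g2, Submodule.add_mem _ hg1 hg2, fun σ => ?_⟩
    rw [map_add, add_mul, hg1', hg2', LinearMap.add_apply, map_add, add_mul]
  | smul c x _ hx =>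
    obtain ⟨K1, h1⟩ := hx
    refine ⟨K1, fun K hK => ?_⟩
    obtain ⟨g1, hg1, hg1'⟩ := h1 K hK
    refine ⟨MvPolynomial.C c * g1, Ideal.mul_mem_left _ _ hg1, fun σ => ?_⟩
    rw [map_mul, MvPolynomial.eval_C, mul_assoc, hg1', LinearMap.smul_apply, map_smul,
      smul_eq_mul, mul_assoc]

theorem star_of_equation {a : κ → ν →₀ ℕ} {cc : κ → ℂ} (hcc : ∀ j, cc j ≠ 0)
    (hinj : ∀ c : Lat κ, ∑ j, c j = 0 → lz a c = 0 → c = 0) (b : Polynomial ℂ) (d : ℕ)
    (P : ℕ → Module.End ℂ (MvPolynomial ν ℂ)) (hP : ∀ t, P t ∈ Submodule.span ℂ (Basic ν))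
    (heq : ∀ m : ℕ, ∑ t ∈ range d, (m : ℂ) ^ t •
      P t ((∑ j, MvPolynomial.monomial (a j) (cc j)) ^ (m + 1)) =
      b.eval (m : ℂ) • (∑ j, MvPolynomial.monomial (a j) (cc j)) ^ m) :
    Star (Aof a) b := by
  choose K0 hK0 using fun t => good_span (a := a) hcc hinj (hP t)
  refine ⟨∑ t ∈ range d, K0 t + 1, by omega, ?_⟩
  set K := ∑ t ∈ range d, K0 t + 1
  have hK : ∀ t, ∃ h ∈ nIdeal (Aof a) K, t ∈ range d → ∀ σ : κ → ℕ,
      MvPolynomial.eval (fun j => (σ j : ℂ)) h * wt cc σ =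
      coef (lz a (fun j => (σ j : ℤ)))
        (P t ((∑ j, MvPolynomial.monomial (a j) (cc j)) ^ (∑ j, σ j + 1))) *
        MvPolynomial.eval (fun j => (σ j : ℂ)) (Del κ K) := by
    intro t
    by_cases ht : t ∈ range d
    · obtain ⟨h, h1, h2⟩ := hK0 t K (by
        have := single_le_sum (f := K0) (fun _ _ => Nat.zero_le _) ht
        omega)
      exact ⟨h, h1, fun _ => h2⟩
    · exact ⟨0, Submodule.zero_mem _, fun h => absurd h ht⟩
  choose h hh1 hh2 using hK
  have key : Polynomial.aeval (∑ j, MvPolynomial.X j : MvPolynomial κ ℂ) b * Del κ K =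
      ∑ t ∈ range d, (∑ j, MvPolynomial.X j) ^ t * h t := by
    refine MvPolynomial.funext_set (fun _ => Set.range (fun n : ℕ => (n : ℂ)))
      (fun _ => Set.infinite_range_of_injective Nat.cast_injective) (fun x hx => ?_)
    choose σ hσ using fun j => hx j (Set.mem_univ j)
    have hx' : x = fun j => (σ j : ℂ) := by
      ext j
      exact (hσ j).symm
    subst hx'
    apply mul_right_cancel₀ (wt_ne_zero hcc σ)
    have h1 := congrArg (coef (lz a (fun j => (σ j : ℤ)))) (heq (∑ j, σ j))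
    rw [map_smul, coef_pow, sum_eq_single σ, if_pos rfl, map_sum] at h1
    · have e1 : MvPolynomial.eval (fun j => (σ j : ℂ))
          (Polynomial.aeval (∑ j, MvPolynomial.X j : MvPolynomial κ ℂ) b) =
          b.eval ((∑ j, σ j : ℕ) : ℂ) := by
        have := Polynomial.aeval_algHom_apply (MvPolynomial.aeval (R := ℂ)
          (fun j => (σ j : ℂ))) (∑ j, MvPolynomial.X j : MvPolynomial κ ℂ) b
        simp only [map_sum, MvPolynomial.aeval_X, Polynomial.coe_aeval_eq_eval] at this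
        push_cast
        rw [this]
        rfl
      rw [map_mul, e1, map_sum, sum_mul, mul_right_comm, ← smul_eq_mul (b.eval _), ← h1, sum_mul]
      refine sum_congr rfl (fun t ht => ?_)
      rw [map_mul, mul_assoc, hh2 t ht, map_smul, smul_eq_mul, mul_assoc]
      simp
    · intro k hk hne
      rw [if_neg]
      intro h
      apply hne
      have h2 := hinj ((fun j => (k j : ℤ)) - (fun j => (σ j : ℤ))) (by
        have h3 := (mem_piAntidiag.1 hk).1
        have h4 : ((∑ j, k j : ℕ) : ℤ) = ((∑ j, σ j : ℕ) : ℤ) := by rw [← h3]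
        push_cast at h4
        simp only [Pi.sub_apply, sum_sub_distrib, h4]
        ring) (by
        have h3 := lz_add a ((fun j => (k j : ℤ)) - (fun j => (σ j : ℤ))) (fun j => (σ j : ℤ))
        rw [sub_add_cancel, h] at h3
        simpa using h3)
      ext j
      have := congrFun h2 j
      simp only [Pi.sub_apply, Pi.zero_apply] at this
      omega
    · intro h
      exact absurd (mem_piAntidiag.2 ⟨rfl, fun _ _ => mem_univ _⟩) h
  rw [key]
  exact Submodule.sum_mem _ (fun t _ => Ideal.mul_mem_left _ _ (hh1 t))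

end Pool.Agent.MP_5d9b3c_ag.H22
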