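import Pool.Agent.MP_5d9b3c_ag.H22.Padic
import Pool.Agent.MP_5d9b3c_ag.H22.Star

/-!
Point counts as exponential sums, and poles of the generating series.
-/

namespace Pool.Agent.MP_5d9b3c_ag.H22

open Finset

section Count

variable {ν : Type} [Fintype ν] [DecidableEq ν] {p : ℕ} [hp : Fact p.Prime]

omit [Fintype ν] [DecidableEq ν] hp in
lemma cast_aeval (f : MvPolynomial ν ℤ) (N : ℕ) (x : ν → ℤ) :
    ((MvPolynomial.aeval x f : ℤ) : ZMod N) = MvPolynomial.aeval (fun i => (x i : ZMod N)) f := by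
  have := MvPolynomial.comp_aeval_apply x (Int.castRingHom (ZMod N)).toIntAlgHom f
  simpa using this

lemma mean_DD (f : MvPolynomial ν ℤ) (m : ℕ) :
    mean p (fun x : Option ν → ℤ => DD p m (MvPolynomial.aeval (fun i => x (some i)) f)) =
      (Nat.card {x : ν → ZMod (p ^ m) // MvPolynomial.aeval x f = 0} : ℂ) *
        (((p : ℂ) ^ Fintype.card ν)⁻¹) ^ m := by
  classical
  have hper : Per (p ^ m)
      (fun x : Option ν → ℤ => DD p m (MvPolynomial.aeval (fun i => x (some i)) f)) := by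
    intro x x' hx
    refine DD_congr le_rfl ?_
    simp only [← ZMod.intCast_eq_intCast_iff] at hx ⊢
    rw [cast_aeval, cast_aeval]
    simp only [hx]
  have e : ∀ x : Option ν → ZMod (p ^ m),
      DD p m (MvPolynomial.aeval (fun i => liftZ x (some i)) f) =
        if MvPolynomial.aeval (fun i => x (some i)) f = 0 then 1 else 0 := by
    intro x
    rw [DD]
    refine if_congr ?_ rfl rfl
    have := ZMod.intCast_zmod_eq_zero_iff_dvd
      (MvPolynomial.aeval (fun i => liftZ x (some i)) f) (p ^ m)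
    rw [cast_aeval] at this
    simp only [cast_liftZ] at this
    rw [this]
    simp
  have e' : ∑ x : Option ν → ZMod (p ^ m),
      (if MvPolynomial.aeval (fun i => x (some i)) f = 0 then (1 : ℂ) else 0) =
      ∑ y : ZMod (p ^ m) × (ν → ZMod (p ^ m)),
        if MvPolynomial.aeval y.2 f = 0 then (1 : ℂ) else 0 :=
    Fintype.sum_equiv Equiv.piOptionEquivProd _ _ (fun x => rfl)
  have e'' : ∀ g : (ν → ZMod (p ^ m)) → ℂ, ∑ y : ZMod (p ^ m) × (ν → ZMod (p ^ m)), g y.2 =
      ∑ _t : ZMod (p ^ m), ∑ x, g x := fun g => Fintype.sum_prod_type _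
  rw [mean_eq hper, avg, sum_congr rfl (fun x _ => e x), e',
    e'' (fun x => if MvPolynomial.aeval x f = 0 then (1 : ℂ) else 0)]
  rw [sum_const, ← sum_filter, sum_const, Nat.card_eq_fintype_card, Fintype.card_subtype]
  have := p_ne_zero (p := p)
  simp only [card_univ, ZMod.card, Fintype.card_pi, prod_const, Fintype.card_option, nsmul_eq_mul,
    mul_one]
  push_cast
  rw [inv_pow, ← pow_mul, ← pow_mul]
  field_simp
  ring

lemma mean_chi_mul (F : (Option ν → ℤ) → ℤ) (m : ℕ)
    (hF : ∀ x x' : Option ν → ℤ, (∀ i, x i ≡ x' i [ZMOD (p ^ m : ℕ)]) →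
      F x ≡ F x' [ZMOD (p ^ m : ℕ)])
    (hF' : ∀ x (t : ℤ), F (x + Pi.single none t) = F x) :
    mean p (fun x => chi p m (x none * F x)) = mean p (fun x => DD p m (F x)) := by
  obtain ⟨Φ, hΦ⟩ : ∃ Φ : (Option ν → ℤ) → ℂ, ∀ x, Φ x = chi p m (x none * F x) := ⟨_, fun _ => rfl⟩
  have hΦ' : (fun x => chi p m (x none * F x)) = Φ := by
    ext x
    exact (hΦ x).symm
  rw [hΦ']
  have hper : IsPer p Φ := ⟨m, fun x x' hx => by
    rw [hΦ, hΦ]
    exact chi_congr le_rfl ((hx none).mul (hF x x' hx))⟩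
  have hper2 : IsPer p (fun x => DD p m (F x)) :=
    ⟨m, fun x x' hx => DD_congr le_rfl (hF x x' hx)⟩
  have h1 := mean_sum (p := p) (range (p ^ m))
    (Φ := fun (t : ℕ) (x : Option ν → ℤ) => Φ (x + Pi.single none (t : ℤ)))
    (fun t _ => hper.comp (fun x => x + Pi.single none (t : ℤ))
      (fun N x x' hx i => (hx i).add_right _))
  rw [sum_congr rfl (fun t _ => mean_translate hper _), sum_const, card_range, nsmul_eq_mul] at h1
  have e2 : ∀ x : Option ν → ℤ, ∑ t ∈ range (p ^ m), Φ (x + Pi.single none (t : ℤ)) =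
      (p : ℂ) ^ m * DD p m (F x) := by
    intro x
    simp only [hΦ, hF', Pi.add_apply, Pi.single_eq_same, add_mul, chi_add]
    rw [← mul_sum, geom le_rfl, DD]
    split_ifs with h
    · rw [(chi_eq_one_iff _ _).2 (h.mul_left _), one_mul]
    · simp
  simp only [e2] at h1
  rw [mean_const_mul hper2] at h1
  push_cast at h1
  exact (mul_left_cancel₀ (pow_ne_zero _ p_ne_zero) h1).symm

variable {κ : Type} [Fintype κ] [DecidableEq κ]

omit [DecidableEq κ] in
lemma EE_ray (a : κ → ν →₀ ℕ) (c : κ → ℤ) (m : ℕ) :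
    EE p (Aof a) c (fun _ => chi p) univ ∅ (m • z0 κ) =
      mean p (fun x : Option ν → ℤ => DD p m
        (MvPolynomial.aeval (fun i => x (some i)) (∑ j, MvPolynomial.monomial (a j) (c j)))) := by
  have e1 : integrand p (Aof a) c (fun _ => chi p) univ ∅ (m • z0 κ) =
      fun x => chi p m (x none *
        MvPolynomial.aeval (fun i => x (some i)) (∑ j, MvPolynomial.monomial (a j) (c j))) := by
    ext x
    have e : ∀ j, (m • z0 κ) j = m := fun j => by simp [z0]
    simp only [integrand, ind, prod_empty, one_mul, e]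
    rw [← chi_sum]
    refine congrArg (chi p m) ?_
    rw [map_sum, mul_sum]
    refine sum_congr rfl (fun j _ => ?_)
    rw [MvPolynomial.aeval_monomial, mon, Fintype.prod_option,
      Finsupp.prod_fintype _ _ (fun i => pow_zero _)]
    simp [Aof]
    ring
  rw [EE, e1]
  refine mean_chi_mul (fun x => MvPolynomial.aeval (fun i => x (some i))
    (∑ j, MvPolynomial.monomial (a j) (c j))) m (fun x x' hx => ?_) (fun x t => ?_)
  · simp only [← ZMod.intCast_eq_intCast_iff] at hx ⊢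
    rw [cast_aeval, cast_aeval]
    simp only [hx]
  · simp

end Count

lemma poly_of_ray {κ : Type} (E : Fn κ) (R : Polynomial ℂ)
    (h : act (Polynomial.aeval (U (z0 κ)) R) E ∈ Ray (z0 κ)) :
    ∃ C : Polynomial ℂ,
      (R : PowerSeries ℂ) * PowerSeries.mk (fun m : ℕ => E (m • z0 κ)) = (C : PowerSeries ℂ) := by
  obtain ⟨θ0, hθ⟩ := h 0
  refine ⟨PowerSeries.trunc (θ0 + R.natDegree + 1)
    ((R : PowerSeries ℂ) * PowerSeries.mk (fun m : ℕ => E (m • z0 κ))), ?_⟩
  ext θ
  rw [Polynomial.coeff_coe, PowerSeries.coeff_trunc]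
  split_ifs with hlt
  · rfl
  · have h1 := hθ θ (by omega)
    rw [Polynomial.aeval_eq_sum_range' (n := θ + 1) (by omega), map_sum, LinearMap.sum_apply,
      Finset.sum_apply] at h1
    rw [PowerSeries.coeff_mul, Nat.sum_antidiagonal_eq_sum_range_succ_mk, ← h1]
    refine sum_congr rfl (fun k hk => ?_)
    rw [mem_range] at hk
    rw [Polynomial.coeff_coe, PowerSeries.coeff_mk, map_smul, LinearMap.smul_apply, Pi.smul_apply,
      ← U_nsmul, act_U, smul_eq_mul, zero_add, sub_nsmul _ (by omega : k ≤ θ), sub_eq_add_neg]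

theorem final {ν κ : Type} [Fintype ν] [DecidableEq ν] [Fintype κ] [DecidableEq κ]
    {p : ℕ} (hp : p.Prime) (a : κ → ν →₀ ℕ) (c : κ → ℤ) (hc : ∀ j, c j ≠ 0)
    (hinj : ∀ w : Lat κ, ∑ j, w j = 0 → lz a w = 0 → w = 0) {b : Polynomial ℂ}
    (hb : Star (Aof a) b) :
    ∃ R C : Polynomial ℂ, (R : PowerSeries ℂ) * PowerSeries.mk (fun m : ℕ =>
      (Nat.card {x : ν → ZMod (p ^ m) //
        MvPolynomial.aeval x (∑ j, MvPolynomial.monomial (a j) (c j)) = 0} : ℂ) *
        (((p : ℂ) ^ Fintype.card ν)⁻¹) ^ m) = (C : PowerSeries ℂ) ∧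
      ∀ T : ℂ, R.eval T = 0 → b.eval ((-(Real.log ‖T‖ / Real.log p) : ℝ) : ℂ) = 0 := by
  have : Fact p.Prime := ⟨hp⟩
  have hk : ∀ j, ∃ (kv : Option ν → ℤ) (d : ℤ), d ≠ 0 ∧
      ∀ j', ∑ i, kv i * Aof a j' i = if j' = j then d else 0 := by
    intro j
    rcases lin_alt univ (yv (Aof a)) (ee j) with ⟨w, hw, hw'⟩ | ⟨N, hN, n, hn⟩
    · exfalso
      have h0 := hinj w (by simpa [dotProduct, yv, Aof] using hw' none (mem_univ _))
        (by ext i; exact hw' (some i) (mem_univ _))
      simp [h0] at hw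
    · refine ⟨n, N, by omega, fun j' => ?_⟩
      have := congrFun hn j'
      simp only [Pi.smul_apply, Finset.sum_apply, smul_eq_mul, yv, ee, Pi.single_apply] at this
      rw [← this]
      split_ifs <;> simp
  choose kv d hd hkv using hk
  obtain ⟨R, hR1, hR2⟩ := padic_main (p := p) hc kv d hd hkv hb
  obtain ⟨C, hC⟩ := poly_of_ray _ R hR1
  refine ⟨R, C, ?_, hR2⟩
  simp only [EE_ray, mean_DD] at hC
  exact hC

end Pool.Agent.MP_5d9b3c_ag.H22
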