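import Pool.Agent.MP_5d9b3c_ag.H22.Family
import Pool.Agent.MP_5d9b3c_ag.H22.Farkas

/-!
Solutions of the unfolded system with values in an Artinian ring, and their sums along fibres.
-/

namespace Pool.Agent.MP_5d9b3c_ag.H22

open Finset

variable {κ V ι W : Type} [Fintype κ] [Fintype V] [DecidableEq V] [Fintype ι] [DecidableEq ι]
  [CommRing W] [Algebra ℂ W]

theorem sol_exists {Q : κ → V → ℕ} {c : κ → ℂ} {β : V → ℂ} {m : ℕ} (hm : 0 < m)
    (hQ : ∀ j, ∑ v, Q j v = m) {lo l0 : Lat V}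
    {Z S : Finset V} (hSZ : S ⊆ Z) (h1 : ∀ v k, k < lo v → (k : ℂ) ≠ β v)
    (h2 : ∀ v ∈ Z, β v = lo v) (h3 : ∀ v ∈ S, lo v < l0 v) (h4 : ∀ v ∉ S, l0 v = lo v)
    (h5 : ∀ v ∈ S, lo v < 0) {r : V →₀ ℕ} (hr : l0 + nz r = 0) (l : V → W) (N : ℕ)
    (hN : ∀ α : V → ℕ, N ≤ ∑ v, α v → ∏ v, l v ^ α v = 0)
    (hK : ∀ α : V → ℕ, ∏ v, l v ^ α v ≠ 0 →
      Kosz (BB V) univ (gam' Q c (Z.filter (fun v => α v = 0))))
    (hS : ∏ v ∈ S, l v ≠ 0)
    (hr' : MvPolynomial.monomial r (1 : ℂ) ∉ Ideal.span (Set.range (gam' Q c (Z \ S)))) :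
    ∃ F : Lat V → W, (∀ v q, l v * F q = ((q v : ℂ) - β v) • F q +
        ∑ j, ((Q j v : ℂ) * c j) • F (q + qv Q j)) ∧
      (∀ q, ∀ T ⊆ Z, (∀ v ∈ T, lo v < q v) → ∏ v ∈ T, l v ∣ F q) ∧
      ∃ u, IsUnit u ∧ F 0 = u * ∏ v ∈ S, l v := by
  classical
  obtain ⟨wt, hwt⟩ : ∃ wt : (V → ℕ) → W, ∀ α, wt α = ∏ v, l v ^ α v := ⟨_, fun _ => rfl⟩
  simp only [← hwt] at hN hK
  have hadd : ∀ α α', wt (α + α') = wt α * wt α' := by
    intro α α'
    simp only [hwt, Pi.add_apply, pow_add, prod_mul_distrib]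
  have hsingle : ∀ v k, wt (Pi.single v k) = l v ^ k := by
    intro v k
    rw [hwt, prod_eq_single v]
    · simp
    · intro b _ hb
      simp [hb]
    · simp
  have hind : ∀ T : Finset V, wt (ind1 T) = ∏ v ∈ T, l v := by
    intro T
    simp only [hwt, ind1, pow_ite, pow_one, pow_zero, prod_ite_mem, univ_inter]
  have hlt : ∀ α, wt α ≠ 0 → ∑ v, α v < N := fun α h => not_le.1 (fun h' => h (hN α h'))
  have hsub : ∀ α α', α' ≤ α → wt α = wt α' * wt (α - α') := by
    intro α α' h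
    rw [← hadd, add_tsub_cancel_of_le h]
  obtain ⟨φ, hφ1, hφ2⟩ := fam_exists (c := c) hm hQ hSZ h1 h2 h3 h4 hr (fun α => wt α ≠ 0)
    (fun α v h h' => h (by
      rw [hsub α (α - Pi.single v 1) tsub_le_self, h', zero_mul])) hK (by rwa [hind]) hr' N
    (hlt _ (by rwa [hind]))
  obtain ⟨box, hbox⟩ : ∃ box : ℕ → Finset (V → ℕ), ∀ n α, α ∈ box n ↔ ∀ v, α v < n :=
    ⟨fun n => Fintype.piFinset (fun _ => range n), fun n α => by simp⟩
  have hout : ∀ α, α ∉ box N → wt α = 0 := by
    intro α hα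
    rw [hbox] at hα
    push Not at hα
    obtain ⟨v, hv⟩ := hα
    exact hN α (le_trans hv (single_le_sum (f := α) (fun _ _ => Nat.zero_le _) (mem_univ v)))
  have hvan : ∀ α q v, wt α ≠ 0 → v ∈ Z → α v = 0 → lo v < q v → φ α (sg q) = 0 :=
    fun α q v h hv h0 hq => (hφ1 α (hlt α h) h).1 _ (sg_mem ⟨v, mem_filter.2 ⟨hv, h0⟩, hq⟩)
  have hle : ∀ α q, ∀ T ⊆ Z, (∀ v ∈ T, lo v < q v) → φ α (sg q) • wt α = 0 ∨ ind1 T ≤ α := by
    intro α q T hT hq
    by_contra h
    push Not at h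
    refine h.2 (fun v => ?_)
    change ind1 T v ≤ α v
    unfold ind1
    split_ifs with hv
    · by_contra h0
      refine h.1 ?_
      rw [hvan α q v (fun h' => h.1 (by rw [h', smul_zero])) (hT hv) (by omega) (hq v hv), zero_smul]
    · exact Nat.zero_le _
  refine ⟨fun q => ∑ α ∈ box N, φ α (sg q) • wt α, fun v q => ?_, fun q T hT hq => ?_, ?_⟩
  · have e1 : ∑ α ∈ box N, φ α (DT Q c β v (sg q)) • wt α =
        ∑ α ∈ box (N + 1), low φ α v (sg q) • wt α := by
      rw [← sum_subset (s₁ := box N) (fun α hα => (hbox _ _).2 (fun w =>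
        Nat.lt_succ_of_lt ((hbox _ _).1 hα w))) (fun α _ hα => by rw [hout α hα, smul_zero])]
      refine sum_congr rfl (fun α _ => ?_)
      by_cases h : wt α = 0
      · rw [h, smul_zero, smul_zero]
      · rw [(hφ1 α (hlt α h) h).2]
    have e2 : ∑ α ∈ box N, l v * φ α (sg q) • wt α =
        ∑ α ∈ box (N + 1), low φ α v (sg q) • wt α := by
      refine sum_of_injOn (fun α => α + Pi.single v 1) (fun _ _ _ _ h => add_right_cancel h)
        (fun α hα => (hbox _ _).2 (fun w => ?_)) (fun α hα hα' => ?_) (fun α _ => ?_)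
      · have := (hbox _ _).1 hα w
        simp only [Pi.add_apply, Pi.single_apply]
        split_ifs <;> omega
      · unfold low
        split_ifs with h
        · simp
        · have hle : Pi.single v 1 ≤ α := fun w => by
            by_cases hw : w = v
            · subst hw
              simp only [Pi.single_eq_same]
              omega
            · simp [hw]
          rw [hsub α _ tsub_le_self, hout (α - Pi.single v 1) (fun h' =>
            hα' ⟨_, h', tsub_add_cancel_of_le hle⟩), zero_mul, smul_zero]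
      · rw [low, if_neg (by simp), add_tsub_cancel_right, hadd, hsingle, pow_one, mul_smul_comm,
          mul_comm]
    simp only
    rw [mul_sum, e2, ← e1]
    simp only [DT_sg, map_add, map_smul, map_sum, add_smul, sum_add_distrib, smul_sum, sum_smul,
      smul_eq_mul, mul_smul]
    rw [sum_comm]
  · refine dvd_sum (fun α _ => ?_)
    rcases hle α q T hT hq with h | h
    · rw [h]
      exact dvd_zero _
    · rw [hsub α _ h, hind, Algebra.smul_def]
      exact (dvd_mul_right _ _).mul_left _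
  · have hSb : ind1 S ∈ box N := by
      by_contra h
      exact hS (by rw [← hind, hout _ h])
    refine ⟨1 + ∑ α ∈ (box N).erase (ind1 S), φ α (sg 0) •
      (if ind1 S ≤ α then wt (α - ind1 S) else 0), IsNilpotent.isUnit_one_add
      (isNilpotent_sum (fun α hα => IsNilpotent.smul ?_ _)), ?_⟩
    · split_ifs with h
      · obtain ⟨v, hv⟩ : ∃ v, (α - ind1 S) v ≠ 0 := by
          by_contra h0
          push Not at h0
          exact (mem_erase.1 hα).1 (le_antisymm (tsub_eq_zero_iff_le.1 (funext h0)) h)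
        have hle : Pi.single v 1 ≤ α - ind1 S := fun w => by
          by_cases hw : w = v
          · subst hw
            simp only [Pi.single_eq_same]
            omega
          · simp [hw]
        rw [hsub _ _ hle, hsingle, pow_one]
        refine (Commute.all _ _).isNilpotent_mul_right ⟨N, ?_⟩
        rw [← hsingle]
        exact hN _ (by simp)
      · exact IsNilpotent.zero
    · simp only
      rw [← add_sum_erase _ _ hSb, hφ2, one_smul, add_mul, one_mul, hind, sum_mul, add_right_inj]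
      refine sum_congr rfl (fun α _ => ?_)
      split_ifs with h
      · rw [hsub α _ h, hind, smul_mul_assoc, mul_comm]
      · rw [(hle α 0 S hSZ h5).resolve_right h]
        simp

/-- The vertices in `U` minimise a positive weight supported on `I`. -/
def Adm (A : V → ι → ℕ) (I : Finset ι) (U : Finset V) : Prop :=
  ∃ (N : ℕ) (n : ι → ℕ), 0 < N ∧ (∀ i ∉ I, n i = 0) ∧ (∀ v, N ≤ ∑ i, n i * A v i) ∧
    ∀ v ∈ U, ∑ i, n i * A v i = N

omit [Fintype V] [DecidableEq V] [DecidableEq ι] in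
lemma Adm.mono {A : V → ι → ℕ} {I : Finset ι} {U U' : Finset V} (h : Adm A I U) (hU : U' ⊆ U) :
    Adm A I U' := by
  obtain ⟨N, n, h1, h2, h3, h4⟩ := h
  exact ⟨N, n, h1, h2, h3, fun v hv => h4 v (hU hv)⟩

/-- The relations in the Artinian ring. -/
def Rel (A : V → ι → ℕ) (I : Finset ι) (X : Finset V) (l : V → W) : Prop :=
  ∀ c : Lat V, 0 < c ⬝ᵥ z0 V →
    (∏ i ∈ I.filter (fun i => 0 < c ⬝ᵥ yv A i), ∑ v, (A v i : W) * l v) *
      ∏ v ∈ X.filter (fun v => c v < 0), l v = 0

omit [Algebra ℂ W] in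
lemma adm_of_ne {A : V → ι → ℕ} {I : Finset ι} {X : Finset V} {l : V → W} (h : Rel A I X l)
    {T : Finset V} (hT : ∏ v ∈ T, l v ≠ 0) : Adm A I (X \ T)ᶜ := by
  rcases farkas (I.disjSum (X \ T)) (vec A) (z0 V) with ⟨c, hc1, hc2⟩ | ⟨N, hN, n, hn⟩
  · exfalso
    have h1 := h c hc1
    rw [filter_false_of_mem (p := fun i => 0 < c ⬝ᵥ yv A i)
      (fun i hi => not_lt.2 (hc2 (Sum.inl i) (inl_mem_disjSum.2 hi))), prod_empty, one_mul] at h1
    refine hT (eq_zero_of_zero_dvd (h1 ▸ prod_dvd_prod_of_subset _ _ _ (fun v hv => ?_)))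
    rw [mem_filter] at hv
    by_contra h0
    have := hc2 (Sum.inr v) (inr_mem_disjSum.2 (mem_sdiff.2 ⟨hv.1, h0⟩))
    simp only [vec, Sum.elim_inr, dotProduct_neg, dot_ee] at this
    omega
  · have key : ∀ v, (∑ i, (if i ∈ I then n (Sum.inl i) else 0) * A v i : ℕ) =
        N + if v ∈ X \ T then n (Sum.inr v) else 0 := by
      intro v
      have h1 := congrFun hn v
      rw [sum_disjSum] at h1
      simp only [vec, Sum.elim_inl, Sum.elim_inr, Pi.add_apply, Finset.sum_apply, z0,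
        yv, ee, Pi.neg_apply, Pi.single_apply, nsmul_eq_mul, mul_one, mul_neg, mul_ite, mul_zero,
        sum_neg_distrib, sum_ite_eq, Pi.mul_apply, Pi.natCast_apply] at h1
      simp only [ite_mul, zero_mul, sum_ite_mem, univ_inter]
      have h2 : ((∑ i ∈ I, n (Sum.inl i) * A v i : ℕ) : ℤ) =
          ((N + if v ∈ X \ T then n (Sum.inr v) else 0 : ℕ) : ℤ) := by
        push_cast
        rw [h1]
        ring
      exact_mod_cast h2
    refine ⟨N, fun i => if i ∈ I then n (Sum.inl i) else 0, hN, fun i hi => if_neg hi,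
      fun v => by rw [key]; omega, fun v hv => by rw [key, if_neg (mem_compl.1 hv), add_zero]⟩

/-- The vertices of each face are independent. -/
def Ind (A : V → ι → ℕ) (I : Finset ι) : Prop :=
  ∀ U, Adm A I U → ∀ r : Lat V, (∀ v ∉ U, r v = 0) → (∀ i, ∑ v, r v * A v i = 0) → r = 0

omit [DecidableEq ι] in
lemma fibre_fin {A : V → ι → ℕ} {I : Finset ι} (hind : Ind A I) {Y : Finset V} (h : Adm A I Yᶜ)
    {i0 : ι} (h0 : ∀ v, A v i0 = 1) (u : ι → ℤ) :
    {q : Lat V | (∀ i, ∑ v, q v * A v i = u i) ∧ ∀ v ∈ Y, q v ≤ 0}.Finite ∧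
      (u = 0 → ∀ q : Lat V, (∀ i, ∑ v, q v * A v i = u i) → (∀ v ∈ Y, q v ≤ 0) → q = 0) := by
  obtain ⟨N, n, h1, h2, h3, h4⟩ := h
  obtain ⟨U, hU⟩ : ∃ U : Finset V, ∀ v, v ∈ U ↔ ∑ i, n i * A v i = N :=
    ⟨univ.filter (fun v => ∑ i, n i * A v i = N), by simp⟩
  have hadm : Adm A I U := ⟨N, n, h1, h2, h3, fun v hv => (hU v).1 hv⟩
  have hY : ∀ v ∉ U, v ∈ Y := fun v hv => by
    by_contra h
    exact hv ((hU v).2 (h4 v (mem_compl.2 h)))
  obtain ⟨C, hC⟩ : ∃ C : ℤ, C = ∑ i, n i * u i - N * u i0 := ⟨_, rfl⟩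
  have key : ∀ q : Lat V, (∀ i, ∑ v, q v * A v i = u i) → (∀ v ∈ Y, q v ≤ 0) →
      ∀ v ∉ U, C ≤ q v := by
    intro q hq hq' v hv
    have e1 : C = ∑ w, q w * ((∑ i, n i * A w i : ℕ) - N : ℤ) := by
      simp only [hC, ← hq, h0, mul_sum, mul_sub, sum_sub_distrib]
      push_cast
      rw [sum_comm]
      simp only [mul_sum]
      congr 1
      · exact sum_congr rfl (fun w _ => sum_congr rfl (fun i _ => by ring))
      · exact sum_congr rfl (fun w _ => by ring)
    have e2 : ∀ w, q w * ((∑ i, n i * A w i : ℕ) - N : ℤ) ≤ 0 := by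
      intro w
      by_cases hw : w ∈ U
      · rw [(hU w).1 hw, sub_self, mul_zero]
      · have := h3 w
        exact mul_nonpos_of_nonpos_of_nonneg (hq' w (hY w hw)) (by omega)
    have e3 := single_le_sum (f := fun w => -(q w * ((∑ i, n i * A w i : ℕ) - N : ℤ)))
      (fun w _ => neg_nonneg.2 (e2 w)) (mem_univ v)
    rw [sum_neg_distrib, ← e1, neg_le_neg_iff] at e3
    have e4 := h3 v
    have e6 : ∑ i, n i * A v i ≠ N := fun h => hv ((hU v).2 h)
    have e5 : (1 : ℤ) ≤ ((∑ i, n i * A v i : ℕ) - N : ℤ) := by omega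
    nlinarith [hq' v (hY v hv)]
  constructor
  · refine Set.Finite.of_injOn (f := fun q v => if v ∈ U then 0 else q v)
      (t := Set.Icc (fun _ : V => min C 0) (0 : V → ℤ)) ?_ ?_ (Set.finite_Icc _ _)
    · rintro q ⟨hq1, hq2⟩
      constructor <;> intro v <;> simp only <;> split_ifs with hv
      · exact min_le_right _ _
      · exact le_trans (min_le_left _ _) (key q hq1 hq2 v hv)
      · rfl
      · exact hq2 v (hY v hv)
    · rintro q ⟨hq1, _⟩ q' ⟨hq1', _⟩ h
      rw [← sub_eq_zero]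
      refine hind U hadm _ (fun v hv => ?_) (fun i => ?_)
      · have := congrFun h v
        simp only [if_neg hv] at this
        rw [Pi.sub_apply, this, sub_self]
      · simp only [Pi.sub_apply, sub_mul, sum_sub_distrib, hq1, hq1', sub_self]
  · intro hu q hq hq'
    refine hind U hadm q (fun v hv => le_antisymm (hq' v (hY v hv)) ?_) (by simpa [hu] using hq)
    simpa [hC, hu] using key q hq hq' v hv

theorem fold {A : κ → ι → ℕ} {B : V → ι → ℕ} {Q : κ → V → ℕ} {c : κ → ℂ} {β : V → ℂ} {m : ℕ}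
    (hm : 0 < m) (hQ : ∀ j i, m * A j i = ∑ v, Q j v * B v i) {i0 : ι} (h0 : ∀ v, B v i0 = 1)
    {I : Finset ι} {X : Finset V} {l : V → W} (hrel : Rel B I X l) (hind : Ind B I)
    {lo : Lat V} (hlo : ∀ v ∈ X, lo v ≤ 0) {F : Lat V → W}
    (hF1 : ∀ v q, l v * F q = ((q v : ℂ) - β v) • F q + ∑ j, ((Q j v : ℂ) * c j) • F (q + qv Q j))
    (hF2 : ∀ q, ∀ T ⊆ X, (∀ v ∈ T, lo v < q v) → ∏ v ∈ T, l v ∣ F q) :
    ∃ Ψ : (ι → ℤ) → W, (∀ u i, (m : ℂ)⁻¹ • (∑ v, (B v i : W) * (l v + algebraMap ℂ W (β v))) * Ψ u =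
        (u i : ℂ) • Ψ u + ∑ j, (c j * A j i) • Ψ (u + fun i => (A j i : ℤ))) ∧
      (∀ u, u i0 < 0 →
        (∏ i ∈ I.filter (fun i => u i < 0), ∑ v, (B v i : W) * l v) * Ψ u = 0) ∧ Ψ 0 = F 0 := by
  classical
  obtain ⟨g, hg⟩ : ∃ g : (ι → ℤ) → Lat V → W,
      ∀ u q, g u q = if ∀ i, ∑ v, q v * B v i = m * u i then F q else 0 := ⟨_, fun _ _ => rfl⟩
  have hsupp : ∀ u q, g u q ≠ 0 → (∀ i, ∑ v, q v * B v i = m * u i) ∧
      ∃ T, Adm B I (X \ T)ᶜ ∧ ∀ v ∈ X \ T, q v ≤ 0 := by
    intro u q h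
    rw [hg] at h
    split_ifs at h with h1
    · refine ⟨h1, X.filter (fun v => lo v < q v), adm_of_ne hrel (fun h2 => h ?_), fun v hv => ?_⟩
      · exact eq_zero_of_zero_dvd (h2 ▸ hF2 q _ (filter_subset _ _) (fun v hv => (mem_filter.1 hv).2))
      · rw [mem_sdiff, mem_filter] at hv
        have := hlo v hv.1
        have : ¬ lo v < q v := fun h => hv.2 ⟨hv.1, h⟩
        omega
    · exact absurd rfl h
  have hfin : ∀ u, (Function.support (g u)).Finite := by
    intro u
    refine Set.Finite.subset (Set.finite_iUnion (fun T : {T // Adm B I (X \ T)ᶜ} =>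
      (fibre_fin hind T.2 h0 (fun i => m * u i)).1)) (fun q hq => ?_)
    obtain ⟨h1, T, h2, h3⟩ := hsupp u q hq
    exact Set.mem_iUnion.2 ⟨⟨T, h2⟩, h1, h3⟩
  have hm' : (m : ℂ) ≠ 0 := by exact_mod_cast hm.ne'
  refine ⟨fun u => ∑ᶠ q, g u q, fun u i => ?_, fun u hu => ?_, ?_⟩
  · have hfin' : ∀ j, (Function.support (fun q => g (u + fun i => (A j i : ℤ)) (q + qv Q j))).Finite :=
      fun j => (hfin _).preimage (f := fun q => q + qv Q j) (fun _ _ _ _ h => add_right_cancel h)
    obtain ⟨G, hG1, hG2⟩ : ∃ G : Finset (Lat V), Function.support (g u) ⊆ G ∧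
        ∀ j, Function.support (fun q => g (u + fun i => (A j i : ℤ)) (q + qv Q j)) ⊆ G :=
      ⟨(hfin u).toFinset ∪ univ.biUnion (fun j => (hfin' j).toFinset), fun q hq => by simp_all,
        fun j q hq => by
          simp only [coe_union, Set.Finite.coe_toFinset, coe_biUnion, Set.mem_union,
            Set.mem_iUnion]
          exact Or.inr ⟨j, by simp, hq⟩⟩
    have e1 : ∀ j, ∑ᶠ q, g (u + fun i => (A j i : ℤ)) q =
        ∑ q ∈ G, g (u + fun i => (A j i : ℤ)) (q + qv Q j) := by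
      intro j
      rw [← finsum_eq_sum_of_support_subset _ (hG2 j)]
      exact (finsum_comp_equiv (Equiv.addRight (qv Q j))).symm
    simp only [e1, finsum_eq_sum_of_support_subset _ hG1, mul_sum, smul_sum]
    rw [sum_comm, ← sum_add_distrib]
    refine sum_congr rfl (fun q _ => ?_)
    have e2 : ∀ j, (∀ i, ∑ v, (q + qv Q j) v * B v i = m * (u + fun i => (A j i : ℤ)) i) ↔
        ∀ i, ∑ v, q v * B v i = m * u i := by
      intro j
      refine forall_congr' (fun i => ?_)
      have : (m : ℤ) * A j i = ∑ v, (Q j v : ℤ) * B v i := by exact_mod_cast hQ j i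
      simp only [Pi.add_apply, qv, add_mul, mul_add, sum_add_distrib, this, add_left_inj]
    simp only [hg, e2]
    split_ifs with h
    · have e3 : ∀ v, (B v i : W) * (l v + algebraMap ℂ W (β v)) * F q =
          ((q v : ℂ) * B v i) • F q + ∑ j, (c j * (Q j v * B v i)) • F (q + qv Q j) := by
        intro v
        rw [mul_assoc, add_mul, hF1, ← Algebra.smul_def, add_right_comm, ← add_smul,
          sub_add_cancel, ← nsmul_eq_mul, ← Nat.cast_smul_eq_nsmul ℂ, smul_add, smul_sum,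
          smul_smul, mul_comm]
        congr 1
        exact sum_congr rfl (fun j _ => by rw [smul_smul]; congr 1; ring)
      have e4 : ∑ v, (q v : ℂ) * B v i = m * u i := by exact_mod_cast h i
      have e5 : ∀ j, ∑ v, (Q j v : ℂ) * B v i = m * A j i := fun j => by
        exact_mod_cast (hQ j i).symm
      rw [← smul_sum, smul_mul_assoc, sum_mul, sum_congr rfl (fun v _ => e3 v), sum_add_distrib,
        ← sum_smul, sum_comm, e4, smul_add, smul_smul, inv_mul_cancel_left₀ hm', smul_sum]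
      congr 1
      refine sum_congr rfl (fun j _ => ?_)
      rw [← sum_smul, ← mul_sum, e5, smul_smul]
      congr 1
      field_simp
    · simp
  · simp only
    rw [finsum_eq_sum_of_support_subset _ (s := (hfin u).toFinset) (by simp), mul_sum]
    refine sum_eq_zero (fun q _ => ?_)
    rw [hg]
    split_ifs with h
    · have hm2 : (0 : ℤ) < m := by exact_mod_cast hm
      have e1 : ∀ i, -q ⬝ᵥ yv B i = -(m * u i) := fun i => by
        rw [neg_dotProduct, ← h i]
        rfl
      have h1 := hrel (-q) (by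
        have := e1 i0
        have e : yv B i0 = z0 V := by
          ext v
          simp [yv, z0, h0]
        rw [← e, this]
        nlinarith)
      have e2 : I.filter (fun i => 0 < -q ⬝ᵥ yv B i) = I.filter (fun i => u i < 0) := by
        refine filter_congr (fun i _ => ?_)
        rw [e1, neg_pos]
        constructor <;> intro h' <;> nlinarith
      obtain ⟨r, hr⟩ := hF2 q (X.filter (fun v => (-q) v < 0)) (filter_subset _ _) (fun v hv => by
        rw [mem_filter, Pi.neg_apply] at hv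
        have := hlo v hv.1
        omega)
      rw [hr, ← mul_assoc, ← e2, h1, zero_mul]
    · rw [mul_zero]
  · simp only
    rw [finsum_eq_single _ 0, hg, if_pos (by simp)]
    intro q hq
    by_contra h
    obtain ⟨h1, T, h2, h3⟩ := hsupp 0 q h
    exact hq ((fibre_fin hind h2 h0 (fun i => m * (0 : ι → ℤ) i)).2 (by ext; simp) q h1 h3)

end Pool.Agent.MP_5d9b3c_ag.H22
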