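import Pool.Agent.MP_5d9b3c_ag.H22.Phase
import Pool.Agent.MP_5d9b3c_ag.H22.Final

/-!
The geometry of the Newton polyhedron, and the final assembly.
-/

namespace Pool.Agent.MP_5d9b3c_ag.H22

open Finset

section Vert

variable {κ ι : Type} [Fintype κ] [DecidableEq κ]

/-- A point is a nonnegative combination of the points of `S`. -/
def Rep (A : κ → ι → ℕ) (S : Finset κ) (j : κ) : Prop :=
  ∃ q : κ → ℚ, (∀ u, 0 ≤ q u) ∧ (∀ u ∉ S, q u = 0) ∧ ∀ i, ∑ u, q u * A u i = A j i

lemma Rep.self (A : κ → ι → ℕ) {S : Finset κ} {j : κ} (hj : j ∈ S) : Rep A S j :=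
  ⟨Pi.single j 1, fun u => by rw [Pi.single_apply]; split_ifs <;> simp,
    fun u hu => Pi.single_eq_of_ne (by rintro rfl; exact hu hj) _, fun i => by
      simp [Pi.single_apply]⟩

lemma exists_vert {A : κ → ι → ℕ} (hA : Function.Injective A) {i0 : ι} (h0 : ∀ j, A j i0 = 1) :
    ∃ S : Finset κ, (∀ j, Rep A S j) ∧ ∀ v ∈ S, ¬ Rep A (univ.erase v) v := by
  classical
  obtain ⟨Y, hY⟩ : ∃ Y : Finset (Finset κ), ∀ S, S ∈ Y ↔ ∀ j, Rep A S j :=
    ⟨univ.filter (fun S => ∀ j, Rep A S j), by simp⟩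
  obtain ⟨S, hS, hmin⟩ := exists_min_image Y card
    ⟨univ, (hY _).2 (fun j => Rep.self A (mem_univ j))⟩
  rw [hY] at hS
  refine ⟨S, hS, fun v hv ⟨q, hq1, hq2, hq3⟩ => ?_⟩
  choose r hr1 hr2 hr3 using hS
  have hr0 : ∀ u, ∑ w, r u w = 1 := fun u => by simpa [h0] using hr3 u i0
  have hq0 : ∑ u, q u = 1 := by simpa [h0] using hq3 i0
  have h1 : ∀ u, u ≠ v → r u v < 1 := by
    intro u hu
    have h2 := hr0 u
    rw [← add_sum_erase _ _ (mem_univ v)] at h2
    have h3 : 0 ≤ ∑ w ∈ univ.erase v, r u w := sum_nonneg (fun w _ => hr1 u w)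
    by_contra h4
    have h5 : ∑ w ∈ univ.erase v, r u w = 0 := by linarith
    rw [sum_eq_zero_iff_of_nonneg (fun w _ => hr1 u w)] at h5
    refine hu (hA (funext (fun i => ?_)))
    have h6 := hr3 u i
    rw [sum_eq_single v (fun w _ hw => by rw [h5 w (mem_erase.2 ⟨hw, mem_univ _⟩), zero_mul])
      (by simp), show r u v = 1 by rw [sum_eq_zero h5] at h2; linarith, one_mul] at h6
    exact_mod_cast h6.symm
  obtain ⟨ρ, hρ⟩ : ∃ ρ : κ → ℚ, ∀ w, ρ w = ∑ u, q u * r u w := ⟨_, fun _ => rfl⟩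
  have hρ1 : ∀ w, 0 ≤ ρ w := fun w => by
    rw [hρ]
    exact sum_nonneg (fun u _ => mul_nonneg (hq1 u) (hr1 u w))
  have hρ2 : ρ v < 1 := by
    obtain ⟨u, _, hu⟩ := exists_ne_zero_of_sum_ne_zero (hq0.trans_ne one_ne_zero)
    have huv : u ≠ v := by
      rintro rfl
      exact hu (hq2 u (notMem_erase _ _))
    rw [hρ, ← hq0]
    refine sum_lt_sum (fun w _ => ?_) ⟨u, mem_univ _, ?_⟩
    · by_cases hw : w = v
      · rw [hw, hq2 v (notMem_erase _ _), zero_mul]
      · exact mul_le_of_le_one_right (hq1 w) (h1 w hw).le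
    · exact mul_lt_of_lt_one_right (lt_of_le_of_ne (hq1 u) (Ne.symm hu)) (h1 u huv)
  have hρ3 : ∀ i, ∑ w ∈ univ.erase v, ρ w * A w i = (1 - ρ v) * A v i := by
    intro i
    have : ∑ w, ρ w * A w i = A v i := by
      simp only [hρ, sum_mul]
      rw [sum_comm, ← hq3]
      exact sum_congr rfl (fun u _ => by simp only [mul_assoc, ← mul_sum, hr3])
    rw [← add_sum_erase _ _ (mem_univ v)] at this
    linarith
  have hlt := hmin (S.erase v) ((hY _).2 (fun j =>
    ⟨fun w => if w = v then 0 else r j w + r j v / (1 - ρ v) * ρ w, fun w => by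
      have := hr1 j w
      have := hr1 j v
      have := hρ1 w
      have := sub_pos.2 hρ2
      simp only
      split_ifs
      · rfl
      · positivity, fun w hw => by
      simp only
      split_ifs with h
      · rfl
      · have hw' : w ∉ S := fun h' => hw (mem_erase.2 ⟨h, h'⟩)
        simp [hρ, hr2 _ w hw'], fun i => by
      simp only
      rw [← add_sum_erase _ _ (mem_univ v), if_pos rfl, zero_mul, zero_add, sum_congr rfl
        (g := fun w => r j w * A w i + r j v / (1 - ρ v) * (ρ w * A w i)) (fun w hw => by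
          rw [if_neg (mem_erase.1 hw).1]
          ring), sum_add_distrib, ← mul_sum, hρ3, ← mul_assoc,
        div_mul_cancel₀ _ (sub_pos.2 hρ2).ne', ← hr3 j i, ← add_sum_erase _ _ (mem_univ v),
        add_comm]⟩))
  have := card_erase_lt_of_mem hv
  omega

lemma exists_unf {A : κ → ι → ℕ} (hA : Function.Injective A) {i0 : ι} (h0 : ∀ j, A j i0 = 1)
    {S : Finset κ} (hS : ∀ j, Rep A S j) :
    ∃ (Q : κ → S → ℕ) (m : ℕ), Unf A (fun v : S => A v) Q m (fun v => v) := by
  have : ∀ j, ∃ q : κ → ℚ, ((∀ u, 0 ≤ q u) ∧ (∀ u ∉ S, q u = 0) ∧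
      ∀ i, ∑ u, q u * A u i = A j i) ∧ (j ∈ S → q = Pi.single j 1) := by
    intro j
    by_cases hj : j ∈ S
    · exact ⟨Pi.single j 1, ⟨fun u => by rw [Pi.single_apply]; split_ifs <;> simp,
        fun u hu => Pi.single_eq_of_ne (by rintro rfl; exact hu hj) _, fun i => by
          simp [Pi.single_apply]⟩, fun _ => rfl⟩
    · obtain ⟨q, hq⟩ := hS j
      exact ⟨q, hq, fun h => absurd h hj⟩
  choose q hq1 hq2 using this
  obtain ⟨m, hm, n, hn⟩ := clear_den (fun x : κ × κ => q x.1 x.2)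
  have hn' : ∀ j u, (((n (j, u)).toNat : ℕ) : ℚ) = m * q j u := by
    intro j u
    have h1 : (0 : ℚ) ≤ n (j, u) := by
      rw [hn]
      exact mul_nonneg (by positivity) ((hq1 j).1 u)
    rw [← hn (j, u), ← Int.cast_natCast, Int.toNat_of_nonneg (by exact_mod_cast h1)]
  have hsum : ∀ j i, m * A j i = ∑ v : S, (n (j, v)).toNat * A v i := by
    intro j i
    have : ((m * A j i : ℕ) : ℚ) = ((∑ v : S, (n (j, v)).toNat * A v i : ℕ) : ℚ) := by
      push_cast
      simp only [hn']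
      rw [sum_coe_sort S (fun u => (m : ℚ) * q j u * A u i), ← (hq1 j).2.2 i, mul_sum,
        ← sum_subset (subset_univ S) (fun u _ hu => by simp [(hq1 j).2.1 u hu])]
      simp only [mul_assoc]
    exact_mod_cast this
  refine ⟨fun j v => (n (j, v)).toNat, m, hm, hsum, fun j => by simpa [h0] using (hsum j i0).symm,
    fun _ => rfl, fun v w => ?_, hA⟩
  have := hn' v w
  rw [hq2 v v.2, Pi.single_apply] at this
  simp only [Subtype.coe_inj] at this
  split_ifs at this ⊢
  · exact_mod_cast this.trans (mul_one _)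
  · exact_mod_cast this.trans (mul_zero _)

end Vert

variable {κ ν : Type} [Fintype κ] [DecidableEq κ] [Fintype ν] [DecidableEq ν]

/-- The weight of an exponent. -/
def wgt (w : ν → ℤ) (a : ν →₀ ℕ) : ℤ := ∑ i, w i * a i

/-- The terms of least weight. -/
noncomputable def fac (w : ν → ℤ) (g : MvPolynomial ν ℂ) : MvPolynomial ν ℂ :=
  ∑ a ∈ g.support with (∀ a' ∈ g.support, wgt w a ≤ wgt w a'),
    MvPolynomial.monomial a (MvPolynomial.coeff a g)

/-- No singular zero on the torus. -/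
def Nond (g : MvPolynomial ν ℂ) : Prop :=
  ∀ x : ν → ℂ, (∀ i, x i ≠ 0) → MvPolynomial.eval x g = 0 →
    ∃ i, MvPolynomial.eval x (MvPolynomial.pderiv i g) ≠ 0

variable {a : κ → ν →₀ ℕ} {c : κ → ℂ}

omit [Fintype κ] [Fintype ν] in
lemma coeff_poly (ha : Function.Injective a) {J : Finset κ} {j : κ} (hj : j ∈ J) :
    MvPolynomial.coeff (a j) (∑ j ∈ J, MvPolynomial.monomial (a j) (c j)) = c j := by
  simp [MvPolynomial.coeff_sum, MvPolynomial.coeff_monomial, ha.eq_iff, hj]

omit [Fintype κ] [Fintype ν] in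
lemma support_poly (ha : Function.Injective a) (hc : ∀ j, c j ≠ 0) (J : Finset κ) :
    (∑ j ∈ J, MvPolynomial.monomial (a j) (c j)).support = J.image a := by
  ext n
  rw [MvPolynomial.mem_support_iff, mem_image]
  refine ⟨fun h => ?_, ?_⟩
  · rw [MvPolynomial.coeff_sum] at h
    obtain ⟨j, hj, h⟩ := exists_ne_zero_of_sum_ne_zero h
    rw [MvPolynomial.coeff_monomial] at h
    exact ⟨j, hj, by by_contra h'; exact h (if_neg h')⟩
  · rintro ⟨j, hj, rfl⟩
    rw [coeff_poly ha hj]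
    exact hc j

omit [Fintype κ] in
lemma fac_poly (ha : Function.Injective a) (hc : ∀ j, c j ≠ 0) (w : ν → ℤ) {J J' : Finset κ}
    {N : ℤ} (h1 : ∀ j ∈ J, N ≤ wgt w (a j)) (h2 : ∀ j, j ∈ J' ↔ j ∈ J ∧ wgt w (a j) = N)
    (h3 : J'.Nonempty) :
    fac w (∑ j ∈ J, MvPolynomial.monomial (a j) (c j)) =
      ∑ j ∈ J', MvPolynomial.monomial (a j) (c j) := by
  obtain ⟨j0, hj0⟩ := h3
  have e : (J.image a).filter (fun n => ∀ n' ∈ J.image a, wgt w n ≤ wgt w n') = J'.image a := by
    ext n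
    simp only [mem_filter, mem_image, h2, forall_exists_index, and_imp, forall_apply_eq_imp_iff₂]
    constructor
    · rintro ⟨⟨j, hj, rfl⟩, h⟩
      exact ⟨j, ⟨hj, le_antisymm (((h2 j0).1 hj0).2 ▸ h j0 ((h2 j0).1 hj0).1) (h1 j hj)⟩, rfl⟩
    · rintro ⟨j, ⟨hj, hj'⟩, rfl⟩
      exact ⟨⟨j, hj, rfl⟩, fun j' h => hj' ▸ h1 j' h⟩
  rw [fac, support_poly ha hc, e, sum_image (fun _ _ _ _ h => ha h)]
  exact sum_congr rfl (fun j hj => by rw [coeff_poly ha ((h2 j).1 hj).1])

omit [Fintype κ] [DecidableEq κ] [DecidableEq ν] in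
lemma Nond.nd {J : Finset κ} (h : Nond (∑ j ∈ J, MvPolynomial.monomial (a j) (c j))) :
    ND (Aof a) c J := by
  intro x hx
  by_contra hne
  push Not at hne
  have e : ∀ j, ∏ i', x i' ^ Aof a j i' = x none * ∏ i, x (some i) ^ a j i := fun j => by
    simp [Fintype.prod_option, Aof]
  obtain ⟨i, hi⟩ := h (fun i => x (some i)) (fun i => hx _) (by
    refine mul_left_cancel₀ (hx none) ?_
    rw [mul_zero, ← hne none, map_sum, mul_sum]
    refine sum_congr rfl (fun j _ => ?_)
    rw [e, MvPolynomial.eval_monomial, Finsupp.prod_fintype _ _ (fun _ => pow_zero _)]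
    simp only [Aof, Option.elim_none, Nat.cast_one]
    ring)
  refine hi (mul_left_cancel₀ (mul_ne_zero (hx none) (hx (some i))) ?_)
  rw [mul_zero, ← hne (some i), map_sum, map_sum, mul_sum]
  refine sum_congr rfl (fun j _ => ?_)
  have h1 := congrArg (MvPolynomial.eval (fun i => x (some i)))
    (MvPolynomial.X_mul_pderiv_monomial (i := i) (m := a j) (r := c j))
  rw [map_mul, MvPolynomial.eval_X, map_nsmul, MvPolynomial.eval_monomial,
    Finsupp.prod_fintype _ _ (fun _ => pow_zero _), nsmul_eq_mul] at h1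
  rw [e, mul_assoc, h1]
  simp only [Aof, Option.elim_some]
  ring

omit [DecidableEq ν] [Fintype κ] [DecidableEq κ] in
lemma sum_Aof (w : Option ν → ℤ) (j : κ) :
    ∑ i, w i * Aof a j i = w none + wgt (fun i => w (some i)) (a j) := by
  simp [Fintype.sum_option, Aof, wgt]

omit [Fintype ν] [DecidableEq ν] in
lemma rep_of_hull {S : Finset κ} {j : κ}
    (h : (fun i => (a j i : ℚ)) ∈ convexHull ℚ ((fun j i => (a j i : ℚ)) '' S)) :
    Rep (Aof a) S j := by
  have := convexHull_min (t := {x : ν → ℚ | ∃ q : κ → ℚ, (∀ u, 0 ≤ q u) ∧ (∀ u ∉ S, q u = 0) ∧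
    ∑ u, q u = 1 ∧ ∀ i, ∑ u, q u * a u i = x i}) (by
      rintro _ ⟨u, hu, rfl⟩
      obtain ⟨q, h1, h2, h3⟩ := Rep.self (Aof a) hu
      exact ⟨q, h1, h2, by simpa [Aof] using h3 none, fun i => h3 (some i)⟩) (by
      rintro x ⟨q, h1, h2, h3, h4⟩ y ⟨q', h1', h2', h3', h4'⟩ s t hs ht hst
      refine ⟨fun u => s * q u + t * q' u, fun u => ?_, fun u hu => by simp [h2 u hu, h2' u hu],
        ?_, fun i => ?_⟩
      · have := h1 u
        have := h1' u
        positivity
      · simp only [sum_add_distrib, ← mul_sum, h3, h3', mul_one, hst]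
      · simp only [add_mul, mul_assoc, sum_add_distrib, ← mul_sum, h4, h4', Pi.add_apply,
          Pi.smul_apply, smul_eq_mul]) h
  obtain ⟨q, h1, h2, h3, h4⟩ := this
  refine ⟨q, h1, h2, ?_⟩
  rintro (_ | i)
  · simpa [Aof] using h3
  · exact h4 i

theorem final2 {p : ℕ} (hp : p.Prime) (ha : Function.Injective a) {c : κ → ℤ} (hc : ∀ j, c j ≠ 0)
    {g : MvPolynomial ν ℂ} (hg : g = ∑ j, MvPolynomial.monomial (a j) (c j : ℂ))
    (H1 : ∀ w : ν → ℕ, Nond (fac (fun i => w i) g))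
    (H2 : ∀ w : ν → ℕ, (∀ n ∈ g.support, 0 < wgt (fun i => w i) n) →
      ∃ B ⊆ (fac (fun i => w i) g).support,
        AffineIndependent ℚ (fun n : B => fun i => (n.1 i : ℚ)) ∧
        ∀ n ∈ (fac (fun i => w i) g).support, (fun i => (n i : ℚ)) ∈
          convexHull ℚ ((fun (n : ν →₀ ℕ) (i : ν) => (n i : ℚ)) '' B))
    (H3 : ∀ w : ν → ℕ, (∀ n ∈ g.support, 0 < wgt (fun i => w i) n) → (∃ i, w i = 0) →
      ∀ w' : ν → ℤ, Nond (fac w' (fac (fun i => w i) g)))
    (hdeg : g.totalDegree ≠ 0) {b : Polynomial ℂ}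
    {d : ℕ} {P : ℕ → Module.End ℂ (MvPolynomial ν ℂ)} (hP : ∀ t, P t ∈ WW ν)
    (heq : ∀ m : ℕ, ∑ t ∈ range d, (m : ℂ) ^ t • P t (g ^ (m + 1)) = b.eval (m : ℂ) • g ^ m) :
    ∃ R C : Polynomial ℂ, (R : PowerSeries ℂ) * PowerSeries.mk (fun m : ℕ =>
      (Nat.card {x : ν → ZMod (p ^ m) //
        MvPolynomial.aeval x (∑ j, MvPolynomial.monomial (a j) (c j)) = 0} : ℂ) *
        (((p : ℂ) ^ Fintype.card ν)⁻¹) ^ m) = (C : PowerSeries ℂ) ∧
      ∀ T : ℂ, R.eval T = 0 → b.eval ((-(Real.log ‖T‖ / Real.log p) : ℝ) : ℂ) = 0 := by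
  have : Fact p.Prime := ⟨hp⟩
  have hb1 := root_neg_one hdeg hP heq
  subst hg
  have hc' : ∀ j, (c j : ℂ) ≠ 0 := fun j => by exact_mod_cast hc j
  have hA : Function.Injective (Aof a) := fun j j' h => ha (by
    ext i
    exact congrFun h (some i))
  have hcast : ∀ (w : Option ν → ℕ) j, ((∑ i, w i * Aof a j i : ℕ) : ℤ) =
      w none + wgt (fun i => w (some i)) (a j) := fun w j => by
    rw [← sum_Aof (fun i => w i)]
    push_cast
    rfl
  have hnd : ∀ w J, J.Nonempty → IsFace (Aof a) w J → ND (Aof a) (fun j => (c j : ℂ)) J := by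
    rintro w J hJ ⟨N, h1, h2⟩
    have := H1 (fun i => w (some i))
    rw [fac_poly ha hc' _ (J' := J) (N := N - w none) (fun j _ => by
      have := hcast w j
      have := h1 j
      omega) (fun j => by
      have := hcast w j
      rw [h2]
      simp only [mem_univ, true_and]
      omega) hJ] at this
    exact this.nd
  obtain ⟨S, hS1, hS2⟩ := exists_vert hA (i0 := none) (fun _ => rfl)
  obtain ⟨Q, m, hu⟩ := exists_unf hA (i0 := none) (fun _ => rfl) hS1
  have hwt : ∀ (w : Option ν → ℤ) j, m * ∑ i, w i * Aof a j i =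
      ∑ v, Q j v * ∑ i, w i * Aof a v i := by
    intro w j
    have : ∀ i, (m : ℤ) * Aof a j i = ∑ v, (Q j v : ℤ) * Aof a v i := fun i => by
      exact_mod_cast hu.sum j i
    simp only [mul_sum, mul_left_comm (m : ℤ), this]
    rw [sum_comm]
    exact sum_congr rfl (fun v _ => sum_congr rfl (fun i _ => by ring))
  have hm : (0 : ℤ) < m := by exact_mod_cast hu.pos
  have hs1 : ∀ j, ∑ v, (Q j v : ℤ) = m := fun j => by exact_mod_cast hu.sum1 j
  have hmin : ∀ (w : Option ν → ℤ) (N : ℤ) (U : Finset S) j,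
      (∀ v, Q j v ≠ 0 → N ≤ ∑ i, w i * Aof a v i ∧ (v ∈ U ↔ ∑ i, w i * Aof a v i = N)) →
      N ≤ ∑ i, w i * Aof a j i ∧ (j ∈ kap Q U ↔ ∑ i, w i * Aof a j i = N) := by
    intro w N U j h
    have h1 : m * (∑ i, w i * Aof a j i - N) = ∑ v, Q j v * (∑ i, w i * Aof a v i - N) := by
      simp only [mul_sub, sum_sub_distrib, hwt, ← sum_mul, hs1]
    have h2 : ∀ v ∈ (univ : Finset S), 0 ≤ Q j v * (∑ i, w i * Aof a v i - N) := fun v _ => by
      by_cases h0 : Q j v = 0
      · simp [h0]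
      · exact mul_nonneg (by positivity) (sub_nonneg.2 (h v h0).1)
    refine ⟨by nlinarith [sum_nonneg h2], ?_⟩
    rw [← sub_eq_zero, ← mul_eq_zero_iff_left hm.ne', h1, sum_eq_zero_iff_of_nonneg h2, mem_kap]
    refine forall_congr' (fun v => ?_)
    by_cases h0 : Q j v = 0
    · simp [h0]
    · simp [h0, (h v h0).2, sub_eq_zero]
  have hface : ∀ (N : ℕ) (n : Option ν → ℕ), 0 < N → n none = 0 →
      (∀ v : S, N ≤ ∑ i, n i * Aof a v i) → ∀ U : Finset S, U.Nonempty →
      (∀ v, v ∈ U ↔ ∑ i, n i * Aof a v i = N) →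
      (∀ j, N ≤ ∑ i, n i * Aof a j i ∧ (j ∈ kap Q U ↔ ∑ i, n i * Aof a j i = N)) ∧
      (∀ k ∈ (∑ j, MvPolynomial.monomial (a j) (c j : ℂ)).support,
        0 < wgt (fun i => n (some i)) k) ∧
      fac (fun i => n (some i)) (∑ j, MvPolynomial.monomial (a j) (c j : ℂ)) =
        ∑ j ∈ kap Q U, MvPolynomial.monomial (a j) (c j : ℂ) := by
    intro N n hN hn h1 U ⟨v, hv⟩ hU
    have h2 : ∀ j, N ≤ ∑ i, n i * Aof a j i ∧ (j ∈ kap Q U ↔ ∑ i, n i * Aof a j i = N) := by
      intro j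
      have := hmin (fun i => n i) N U j (fun v _ => by exact_mod_cast And.intro (h1 v) (hU v))
      exact_mod_cast this
    refine ⟨h2, fun k hk => ?_, fac_poly ha hc' _ (N := N) (fun j _ => ?_) (fun j => ?_)
      ⟨v, (h2 v).2.2 ((hU v).1 hv)⟩⟩
    · rw [support_poly ha hc'] at hk
      obtain ⟨j, _, rfl⟩ := mem_image.1 hk
      have := hcast n j
      have := (h2 j).1
      omega
    · have := hcast n j
      have := (h2 j).1
      omega
    · have := hcast n j
      rw [(h2 j).2]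
      simp only [mem_univ, true_and]
      omega
  have hind : ∀ I, none ∉ I → Ind (fun v : S => Aof a v) I := by
    rintro I hI U ⟨N, n, hN, h1, h2, h3⟩ r hr1 hr2
    rcases U.eq_empty_or_nonempty with rfl | hU
    · ext v
      exact hr1 v (notMem_empty _)
    obtain ⟨_, h4, h5⟩ := hface N n hN (h1 _ hI) h2 (univ.filter (fun v : S =>
      ∑ i, n i * Aof a v i = N)) (hU.mono (fun v hv => by simpa using h3 v hv)) (by simp)
    obtain ⟨B, hB1, hB2, hB3⟩ := H2 _ h4
    rw [h5, support_poly ha hc'] at hB1 hB3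
    obtain ⟨B', _, rfl⟩ := subset_image_iff.1 hB1
    have h6 : ∀ v ∈ U, a v ∈ B'.image a := by
      intro v hv
      have h7 := hB3 (a v) (mem_image_of_mem _ (mem_kap.2 (fun w hw => by
        rw [hu.eQ, if_neg]
        rintro rfl
        exact hw (by simpa using h3 w hv))))
      rw [coe_image, Set.image_image] at h7
      obtain ⟨q, h8, h9, h10⟩ := rep_of_hull h7
      by_contra h11
      refine hS2 v v.2 ⟨q, h8, fun u hu => h9 u (fun h => h11 ?_), h10⟩
      have : u = v := by simpa using hu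
      exact mem_image_of_mem _ (this ▸ h)
    have h7 := hB2.comp_embedding (⟨fun v : U => ⟨a v, h6 v v.2⟩, fun v w h =>
      Subtype.ext (Subtype.ext (ha (congrArg Subtype.val h)))⟩ : U ↪ B'.image a)
    have h8 : ∀ i, ∑ v : U, (r v : ℚ) * Aof a v i = 0 := fun i => by
      rw [sum_coe_sort U (fun v => (r v : ℚ) * Aof a v i),
        sum_subset (subset_univ U) (fun v _ hv => by simp [hr1 v hv])]
      exact_mod_cast hr2 i
    have h9 := affineIndependent_iff.1 h7 univ (fun v => (r v : ℚ))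
      (by simpa [Aof] using h8 none) (by
        ext i
        simpa [Aof, Finset.sum_apply] using h8 (some i))
    ext v
    by_cases hv : v ∈ U
    · exact_mod_cast h9 ⟨v, hv⟩ (mem_univ _)
    · exact hr1 v hv
  have hnd2 : ∀ I, none ∉ I → ∀ U, U.Nonempty → Adm (fun v : S => Aof a v) I U →
      ND (Aof a) (fun j => (c j : ℂ)) (kap Q U) := by
    rintro I hI U hU ⟨N, n, hN, h1, h2, h3⟩
    obtain ⟨U0, hU0⟩ : ∃ U0 : Finset S, ∀ v, v ∈ U0 ↔ ∑ i, n i * Aof a v i = N :=
      ⟨univ.filter (fun v : S => ∑ i, n i * Aof a v i = N), by simp⟩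
    have hUU : U ⊆ U0 := fun v hv => (hU0 v).2 (h3 v hv)
    obtain ⟨h4, h5, h6⟩ := hface N n hN (h1 _ hI) h2 U0 (hU.mono hUU) hU0
    choose N' n' hN' hn' using exists_dual
      (hind I hI U0 ⟨N, n, hN, h1, h2, fun v hv => (hU0 v).1 hv⟩)
    obtain ⟨w, hw⟩ : ∃ w : Option ν → ℤ, ∀ v ∈ U0,
        0 ≤ ∑ i, w i * Aof a v i ∧ (v ∈ U ↔ ∑ i, w i * Aof a v i = 0) := by
      refine ⟨fun i => ∑ u ∈ Uᶜ, n' u i, fun v hv => ?_⟩
      simp only [sum_mul]
      rw [sum_comm, sum_congr rfl (fun u _ => hn' u v hv), sum_ite_eq]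
      have := hN' v
      by_cases h : v ∈ U <;> simp [h, this.ne']
    have h7 : ∀ j ∈ kap Q U0,
        0 ≤ ∑ i, w i * Aof a j i ∧ (j ∈ kap Q U ↔ ∑ i, w i * Aof a j i = 0) := fun j hj =>
      hmin w 0 U j (fun v hv => hw v (by
        by_contra h
        exact hv (mem_kap.1 hj v h)))
    have h8 : kap Q U ⊆ kap Q U0 := fun j hj =>
      mem_kap.2 (fun v hv => mem_kap.1 hj v (fun h => hv (hUU h)))
    have h9 : (kap Q U).Nonempty := by
      obtain ⟨v, hv⟩ := hU
      exact ⟨v, mem_kap.2 (fun u hu' => by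
        rw [hu.eQ, if_neg]
        rintro rfl
        exact hu' hv)⟩
    by_cases h0 : ∃ i, n (some i) = 0
    · have := H3 _ h5 h0 (fun i => w (some i))
      rw [h6, fac_poly ha hc' _ (J' := kap Q U) (N := -w none) (fun j hj => by
        have := (h7 j hj).1
        rw [sum_Aof] at this
        omega) (fun j => ⟨fun hj => ⟨h8 hj, by
        have := (h7 j (h8 hj)).2.1 hj
        rw [sum_Aof] at this
        omega⟩, fun hj => (h7 j hj.1).2.2 (by rw [sum_Aof, hj.2, add_neg_cancel])⟩) h9] at this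
      exact this.nd
    · push Not at h0
      obtain ⟨K, hK1, hK2⟩ : ∃ K : ℕ, (∀ i, 0 ≤ K + w i) ∧ ∀ j, 0 < K + ∑ i, w i * Aof a j i := by
        refine ⟨∑ i, (w i).natAbs + ∑ j, (∑ i, w i * Aof a j i).natAbs + 1, fun i => ?_,
          fun j => ?_⟩
        · have := single_le_sum (f := fun i => (w i).natAbs) (fun _ _ => Nat.zero_le _) (mem_univ i)
          omega
        · have := single_le_sum (f := fun j => (∑ i, w i * Aof a j i).natAbs)
            (fun _ _ => Nat.zero_le _) (mem_univ j)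
          omega
      obtain ⟨w', hw'⟩ : ∃ w' : Option ν → ℕ, ∀ i,
          (w' i : ℤ) = K * (n i + if i = none then 1 else 0) + w i := by
        refine ⟨fun i => (K * (n i + if i = none then 1 else 0) + w i).toNat, fun i =>
          Int.toNat_of_nonneg ?_⟩
        have h10 : (1 : ℤ) ≤ n i + if i = none then 1 else 0 := by
          rcases i with _ | i
          · simp
          · have := h0 i
            simp only [reduceCtorEq, if_false]
            omega
        nlinarith [hK1 i]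
      have h10 : ∀ j, K * (N + 1) ≤ ∑ i, w' i * Aof a j i ∧
          (j ∈ kap Q U ↔ ∑ i, w' i * Aof a j i = K * (N + 1)) := by
        intro j
        have e : ((∑ i, w' i * Aof a j i : ℕ) : ℤ) =
            K * ((∑ i, n i * Aof a j i : ℕ) + 1) + ∑ i, w i * Aof a j i := by
          push_cast
          simp [hw', add_mul, mul_add, sum_add_distrib, mul_sum, mul_assoc, Aof]
        zify at e ⊢
        rw [e]
        by_cases hj : j ∈ kap Q U0
        · have h11 := (h4 j).2.1 hj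
          zify at h11
          rw [h11, (h7 j hj).2]
          have := (h7 j hj).1
          omega
        · have h11 : N + 1 ≤ ∑ i, n i * Aof a j i :=
            lt_of_le_of_ne (h4 j).1 (fun h => hj ((h4 j).2.2 h.symm))
          zify at h11
          have h12 := hK2 j
          have h13 := mul_le_mul_of_nonneg_left h11 (by positivity : (0 : ℤ) ≤ K)
          refine ⟨by linarith, fun h => absurd (h8 h) hj, fun h => by linarith⟩
      exact hnd w' _ h9 ⟨_, fun j => (h10 j).1, fun j => (h10 j).2⟩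
  obtain ⟨E0, hE1, hE2⟩ := model (p := p) hu hc (phase hnd)
  obtain ⟨R, hR1, hR2⟩ := global3 (p := (p : ℝ)) (by exact_mod_cast hp.one_lt) a
    (fun j => (c j : ℂ)) hu.pos hu.sum (fun _ => rfl) hind hnd2 hb1 hP heq hE1
  obtain ⟨C, hC⟩ := poly_of_ray _ R hR1
  refine ⟨R, C, ?_, hR2⟩
  simp only [hE2, EE_ray, mean_DD] at hC
  exact hC

end Pool.Agent.MP_5d9b3c_ag.H22
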