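import Pool.Agent.MP_5d9b3c_ag.H22.Dside

/-!
From the local statements at the points of the torus to a recurrence along the ray.
-/

namespace Pool.Agent.MP_5d9b3c_ag.H22

open Finset

variable {V ι : Type} [Fintype V] [DecidableEq V] [Fintype ι] [DecidableEq ι]

omit [DecidableEq ι] in
lemma transfer2 {p : ℝ} {B : V → ι → ℕ} (ev : RR V →ₐ[ℂ] ℂ) (X Y : Finset V)
    (h : ∀ (W : Type) [CommRing W] [Algebra ℂ W] (l : V → W) (N : ℕ),
      (∀ α : V → ℕ, N ≤ ∑ v, α v → ∏ v, l v ^ α v = 0) → Rel B (II B p ev) X l →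
        ∏ v ∈ Y, l v = 0) :
    ∃ D : RR V, ev D ≠ 0 ∧ D * ∏ v ∈ Y, uu (ev (U (ee v))) (-ee v) ∈
      supIdeal ((II B p ev).disjSum X) (xi ι p ev) (vec B) (z0 V) := by
  obtain ⟨r, hr, hr'⟩ := krull (RingHom.ker ev)
    (supIdeal ((II B p ev).disjSum X) (xi ι p ev) (vec B) (z0 V))
    (∏ v ∈ Y, uu (ev (U (ee v))) (-ee v)) (by
      intro k
      have hch := exists_chart ev (fun _ => 0) k
      have hk : ∀ α : V → ℕ, k ≤ ∑ v, α v →
          ∏ v, uu (ev (U (ee v))) (-ee v) ^ α v ∈ (RingHom.ker ev) ^ k := by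
        intro α hα
        refine Ideal.pow_le_pow_right hα ?_
        rw [← prod_pow_eq_pow_sum]
        refine Ideal.prod_mem_prod (fun v _ => Ideal.pow_mem_pow ?_ _)
        rw [RingHom.mem_ker, uu, map_sub, map_one, map_smul, ev_U_neg, smul_eq_mul,
          mul_inv_cancel₀ (ev_U_ne_zero ev _), sub_self]
      generalize (RingHom.ker ev) ^ k = I at hch hk ⊢
      obtain ⟨φ, _, hφ2⟩ := hch
      have h1 : ∀ v, Associated (φ (MvPolynomial.X v))
          (Ideal.Quotient.mk I (uu (ev (U (ee v))) (-ee v))) := fun v => by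
        simpa using chart_single hφ2 v 0 (by simp)
      obtain ⟨J, hJ⟩ : ∃ J, J = (supIdeal ((II B p ev).disjSum X) (xi ι p ev) (vec B) (z0 V)).map
        (Ideal.Quotient.mk I) := ⟨_, rfl⟩
      rw [← hJ]
      have h2 := h ((RR V ⧸ I) ⧸ J) (fun v => Ideal.Quotient.mk J (φ (MvPolynomial.X v))) k
        (fun α hα => by
          simp only [← map_pow (Ideal.Quotient.mk J)]
          rw [← map_prod, (Associated.prod univ _ _ (fun v _ => (h1 v).pow_pow)).eq_zero_iff.2,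
            map_zero]
          simp only [← map_pow (Ideal.Quotient.mk I)]
          rw [← map_prod, Ideal.Quotient.eq_zero_iff_mem]
          exact hk α hα)
        (fun c hc => by
          simp only [← map_natCast (Ideal.Quotient.mk J), ← map_mul (Ideal.Quotient.mk J),
            ← map_sum (Ideal.Quotient.mk J)]
          rw [← map_prod, ← map_prod, ← map_mul, Ideal.Quotient.eq_zero_iff_mem, hJ]
          refine Ideal.mem_of_dvd _ ?_ (Ideal.mem_map_of_mem _ (Ideal.subset_span ⟨c, hc, rfl⟩))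
          rw [prod_filter, prod_disjSum, ← prod_filter, ← prod_filter, map_mul, map_prod, map_prod]
          refine mul_dvd_mul (prod_dvd_prod_of_dvd _ _ (fun i hi => ?_)) ?_
          · have h3 := hφ2 (fun v => B v i) 0 (by simp)
            have e : (fun j => ((B j i : ℕ) : ℤ)) = yv B i := rfl
            rw [e, mem_II.1 (mem_filter.1 hi).1] at h3
            simpa [xi, vec] using h3.symm.dvd
          · simp only [vec, Sum.elim_inr, dotProduct_neg, dot_ee, neg_pos]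
            exact prod_dvd_prod_of_dvd _ _ (fun v _ => (h1 v).symm.dvd))
      rw [← map_prod, Ideal.Quotient.eq_zero_iff_mem] at h2
      refine Ideal.mem_of_dvd _ ?_ h2
      rw [map_prod]
      exact prod_dvd_prod_of_dvd _ _ (fun v _ => (h1 v).dvd))
  refine ⟨1 - r, ?_, hr'⟩
  rw [map_sub, map_one, (RingHom.mem_ker).1 hr]
  simp

omit [DecidableEq ι] in
lemma exists_eta2 {B : V → ι → ℕ} {I : Finset ι} {X : Finset V}
    (h : ∀ i ∈ I, ∃ v ∉ X, B v i ≠ 0) : ∃ η : Lat V, ∀ x ∈ I.disjSum X, 0 < η ⬝ᵥ vec B x := by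
  obtain ⟨K, hK⟩ : ∃ K : ℕ, K = ∑ j, ∑ i, B j i := ⟨_, rfl⟩
  refine ⟨fun j => if j ∈ X then -1 else (K : ℤ) + 1, ?_⟩
  rintro (i | j) hx
  · obtain ⟨j, hj, hA⟩ := h i (inl_mem_disjSum.1 hx)
    have h1 : ∑ j', B j' i ≤ K := hK ▸ sum_le_sum (fun j' _ =>
      single_le_sum (f := fun i => B j' i) (fun _ _ => Nat.zero_le _) (mem_univ i))
    have h2 : ∀ j', (if j' = j then (K : ℤ) + 1 else 0) - (B j' i : ℤ) ≤
        (if j' ∈ X then -1 else (K : ℤ) + 1) * (B j' i : ℤ) := by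
      intro j'
      have h0 : (0 : ℤ) ≤ B j' i := by positivity
      have h0' : (0 : ℤ) ≤ K := by positivity
      by_cases hjj : j' = j
      · subst hjj
        rw [if_pos rfl, if_neg hj]
        have : (1 : ℤ) ≤ B j' i := by omega
        nlinarith
      · rw [if_neg hjj]
        split_ifs
        · linarith
        · nlinarith
    have h3 := sum_le_sum (fun j' (_ : j' ∈ (univ : Finset V)) => h2 j')
    rw [sum_sub_distrib, sum_ite_eq' univ j, if_pos (mem_univ j)] at h3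
    have h4 : ((∑ j', B j' i : ℕ) : ℤ) ≤ K := by exact_mod_cast h1
    push_cast at h4
    simp only [vec, Sum.elim_inl, dotProduct, yv]
    linarith
  · simp only [vec, Sum.elim_inr, dotProduct_neg, dot_ee]
    rw [if_pos (inr_mem_disjSum.1 hx)]
    norm_num

lemma core2 {p : ℝ} (hp : 1 < p) {B : V → ι → ℕ} (ev : RR V →ₐ[ℂ] ℂ) {J T S K : Finset V}
    (hJ : ∀ v ∈ J, ev (U (ee v)) = 1) (hT : ∀ v ∈ T, ev (U (ee v)) = p) (hJS : Disjoint J S)
    (hTS : Disjoint T S) (hpt : ∀ i ∈ II B p ev, ∃ v ∉ J ∪ S, B v i ≠ 0) (hJK : J ⊆ K)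
    (hK : ∀ v ∈ K, v ∉ J → ev (U (ee v)) ≠ 1)
    {E H : Fn V} {M : ℤ} (hE : E ∈ (Bdd : Submodule ℂ (Fn V))) (hH : Hcl K M H)
    (hEH : act (∏ i, uu (p : ℂ)⁻¹ (yv B i)) E = act (∏ j ∈ T, ((p : ℂ) • 1 - U (ee j))) H)
    {D : RR V}
    (hD : D * ∏ j ∈ T ∪ S, uu (ev (U (ee j))) (-ee j) ∈
      supIdeal ((II B p ev).disjSum (J ∪ S)) (xi ι p ev) (vec B) (z0 V)) :
    ∃ D0 : RR V, ev D0 ≠ 0 ∧ act (D * D0) E ∈ Ray (z0 V) := by
  obtain ⟨η, hη⟩ := exists_eta2 hpt
  have hp0 : (p : ℂ) ≠ 0 := by exact_mod_cast (by linarith : p ≠ 0)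
  obtain ⟨D0, hD0⟩ : ∃ D0 : RR V, D0 = (∏ i ∈ univ \ II B p ev, uu (p : ℂ)⁻¹ (yv B i)) *
    ∏ j ∈ K \ J, uu 1 (-ee j) := ⟨_, rfl⟩
  refine ⟨D0, ?_, ?_⟩
  · rw [hD0, map_mul, map_prod, map_prod]
    refine mul_ne_zero (prod_ne_zero_iff.2 (fun i hi => ?_)) (prod_ne_zero_iff.2 (fun j hj => ?_))
    · rw [mem_sdiff, mem_II] at hi
      rw [uu, map_sub, map_one, map_smul, smul_eq_mul, sub_ne_zero]
      intro h
      apply hi.2
      field_simp at h
      exact h.symm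
    · rw [mem_sdiff] at hj
      rw [uu, map_sub, map_one, one_smul, sub_ne_zero, ev_U_neg, ne_comm, ne_eq, inv_eq_one]
      exact hK j hj.1 hj.2
  · have hI : (∏ i ∈ II B p ev, uu (p : ℂ)⁻¹ (yv B i)) * D0 =
        (∏ j ∈ K \ J, uu 1 (-ee j)) * ∏ i, uu (p : ℂ)⁻¹ (yv B i) := by
      rw [hD0, ← prod_sdiff (subset_univ (II B p ev))]
      ring
    have hΘ : act D0 E ∈ Half η := by
      refine bdd_half_prod (II B p ev) (fun _ => (p : ℂ)⁻¹) (yv B) η (fun i _ => ?_)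
        (fun i hi => (hη (Sum.inl i) (inl_mem_disjSum.2 hi)).le) (act_mem_Bdd _ hE) ?_
      · rw [norm_inv, Complex.norm_real, Real.norm_of_nonneg (by linarith)]
        exact inv_lt_one_of_one_lt₀ hp
      · rw [← act_mul, hI, act_mul, hEH, act_comm]
        refine act_mem_Half _ _ ((hH.sdiff _ sdiff_subset).mem_half (fun j hj => ?_))
        have hj1 : j ∈ J := by
          rw [mem_sdiff, mem_sdiff] at hj
          tauto
        have := hη (Sum.inr j) (inr_mem_disjSum.2 (mem_union_left _ hj1))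
        simp only [vec, Sum.elim_inr, dotProduct_neg, dot_ee] at this
        omega
    have hF : ∀ c, act (∏ j ∈ K, uu 1 (-ee j)) H ∈ Half c := fun c =>
      (hH.sdiff K subset_rfl).mem_half (fun j hj => by simp at hj)
    have hX : ∏ x ∈ (II B p ev).disjSum (J ∪ S), uu (xi ι p ev x) (vec B x) =
        (∏ i ∈ II B p ev, uu (p : ℂ)⁻¹ (yv B i)) * ((∏ j ∈ J, uu 1 (-ee j)) *
          ∏ j ∈ S, uu (ev (U (ee j))) (-ee j)) := by
      have e0 : ∏ j ∈ J, uu (xi ι p ev (Sum.inr j)) (vec B (Sum.inr j)) =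
          ∏ j ∈ J, uu 1 (-ee j) := by
        refine prod_congr rfl (fun j hj => ?_)
        simp only [xi, vec, Sum.elim_inr, hJ j hj]
      rw [prod_disjSum, prod_union hJS, e0]
      rfl
    have hP : ∏ j ∈ T, ((p : ℂ) • 1 - U (ee j)) =
        (∏ j ∈ T, -U (ee j)) * ∏ j ∈ T, uu (ev (U (ee j))) (-ee j) := by
      rw [← prod_mul_distrib]
      refine prod_congr rfl (fun j hj => ?_)
      rw [hT j hj, uu, mul_sub, mul_one, mul_smul_comm, neg_mul, U_mul_neg]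
      simp only [smul_neg]
      ring
    rw [act_mul]
    refine key_support _ (xi ι p ev) (vec B) (z0 V) η hη hF (act_mem_Half _ _ hΘ)
      (G := (∏ j ∈ T, -U (ee j)) * (D * ∏ j ∈ T ∪ S, uu (ev (U (ee j))) (-ee j)))
      (Ideal.mul_mem_left _ _ hD) ?_
    rw [← act_mul, ← act_mul, ← act_mul, hX]
    have e1 : (∏ i ∈ II B p ev, uu (p : ℂ)⁻¹ (yv B i)) * ((∏ j ∈ J, uu 1 (-ee j)) *
          ∏ j ∈ S, uu (ev (U (ee j))) (-ee j)) * D * D0 =
        (D * (∏ j ∈ K, uu 1 (-ee j)) * ∏ j ∈ S, uu (ev (U (ee j))) (-ee j)) *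
          ∏ i, uu (p : ℂ)⁻¹ (yv B i) := by
      rw [← prod_sdiff hJK]
      linear_combination ((∏ j ∈ J, uu 1 (-ee j)) *
        (∏ j ∈ S, uu (ev (U (ee j))) (-ee j)) * D) * hI
    rw [e1, act_mul, hEH, ← act_mul, hP, prod_union hTS]
    refine congrArg (fun r => act r H) ?_
    ring

omit [DecidableEq ι] in
theorem global2 {p : ℝ} (B : V → ι → ℕ) {b : Polynomial ℂ} (E : Fn V)
    (h : ∀ ev : RR V →ₐ[ℂ] ℂ,
      (b.eval ((-(Real.log ‖ev (U (z0 V))‖ / Real.log p) : ℝ) : ℂ) ≠ 0 ∨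
        ∃ c : Lat V, 0 < c ⬝ᵥ z0 V ∧
          ∀ x ∈ (II B p ev).disjSum (JJ univ 1 ev), c ⬝ᵥ vec B x = 0) →
      ∃ D, ev D ≠ 0 ∧ act D E ∈ Ray (z0 V)) :
    ∃ R : Polynomial ℂ, act (Polynomial.aeval (U (z0 V)) R) E ∈ Ray (z0 V) ∧
      ∀ T : ℂ, R.eval T = 0 → b.eval ((-(Real.log ‖T‖ / Real.log p) : ℝ) : ℂ) = 0 := by
  classical
  have cand : ∀ Y : Finset (ι ⊕ V), ∃ Q : Polynomial ℂ, Q ≠ 0 ∧
      ((∃ c : Lat V, 0 < c ⬝ᵥ z0 V ∧ ∀ x ∈ Y, c ⬝ᵥ vec B x = 0) ∨
        ∀ ev : RR V →ₐ[ℂ] ℂ,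
          (∀ x ∈ Y, ev (U (vec B x)) = Sum.elim (fun _ => (p : ℂ)) (fun _ => 1) x) →
          Q.eval (ev (U (z0 V))) = 0) := by
    intro Y
    rcases lin_alt Y (vec B) (z0 V) with h | ⟨N, hN, n, hn⟩
    · exact ⟨1, one_ne_zero, Or.inl h⟩
    · refine ⟨Polynomial.X ^ N -
        Polynomial.C (∏ x ∈ Y, (Sum.elim (fun _ => (p : ℂ)) (fun _ => 1) x) ^ n x),
        (Polynomial.monic_X_pow_sub_C _ hN.ne').ne_zero, Or.inr (fun ev hev => ?_)⟩
      rw [Polynomial.eval_sub, Polynomial.eval_pow, Polynomial.eval_X, Polynomial.eval_C,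
        ← map_pow, ← U_nsmul, hn, U_sum, map_prod, sub_eq_zero]
      refine prod_congr rfl (fun x hx => ?_)
      rw [ev_U_zsmul, hev x hx]
  choose Q hQ0 hQ using cand
  obtain ⟨good, hgood⟩ : ∃ good : ℂ → Prop,
      ∀ T, good T ↔ b.eval ((-(Real.log ‖T‖ / Real.log p) : ℝ) : ℂ) = 0 := ⟨_, fun _ => Iff.rfl⟩
  obtain ⟨R0, hR0⟩ : ∃ R0 : Polynomial ℂ, R0 =
    ∏ T ∈ (∏ Y, Q Y).roots.toFinset.filter good, (Polynomial.X - Polynomial.C T) := ⟨_, rfl⟩
  have hrad : Polynomial.aeval (U (z0 V)) R0 ∈ (annRay E).radical := by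
    have : IsJacobsonRing (RR V) := isJacobsonRing_of_finiteType (A := ℂ)
    rw [Ideal.radical_eq_jacobson, Ideal.jacobson, Ideal.mem_sInf]
    rintro m ⟨hle, hm⟩
    obtain ⟨ev, hev⟩ := exists_ev m hm
    have hno := fun h' => (h ev h').elim (fun D hD => hD.1 ((hev D).2 (hle hD.2)))
    have hg : good (ev (U (z0 V))) := by
      rw [hgood]
      by_contra hng
      exact hno (Or.inl hng)
    have hq : (∏ Y, Q Y).eval (ev (U (z0 V))) = 0 := by
      rcases hQ ((II B p ev).disjSum (JJ univ 1 ev)) with h1 | h1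
      · exact (hno (Or.inr h1)).elim
      · rw [Polynomial.eval_prod]
        refine prod_eq_zero (mem_univ _) (h1 ev ?_)
        rintro (i | j) hx
        · exact mem_II.1 (inl_mem_disjSum.1 hx)
        · simp only [vec, Sum.elim_inr]
          rw [ev_U_neg, (mem_JJ.1 (inr_mem_disjSum.1 hx)).2, inv_one]
    rw [← hev, ← Polynomial.aeval_algHom_apply, Polynomial.coe_aeval_eq_eval, hR0,
      Polynomial.eval_prod]
    refine prod_eq_zero (i := ev (U (z0 V))) (mem_filter.2 ⟨?_, hg⟩) (by simp)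
    rw [Multiset.mem_toFinset, Polynomial.mem_roots (prod_ne_zero_iff.2 (fun Y _ => hQ0 Y))]
    exact hq
  obtain ⟨n, hn⟩ := hrad
  refine ⟨R0 ^ n, by rw [map_pow]; exact hn, fun T hT => ?_⟩
  rw [Polynomial.eval_pow] at hT
  have h1 := pow_eq_zero_iff (M₀ := ℂ) (a := R0.eval T) (n := n) (by
    rintro rfl
    simp at hT) |>.1 hT
  rw [hR0, Polynomial.eval_prod, prod_eq_zero_iff] at h1
  obtain ⟨T', hT', h2⟩ := h1
  have : T = T' := by simpa [sub_eq_zero] using h2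
  rw [this, ← hgood]
  exact (mem_filter.1 hT').2

/-- The decompositions of the function. -/
def Dec (p : ℝ) (B : V → ι → ℕ) (E0 : Fn V) : Prop :=
  ∀ Z : Finset V, ∃ E : Finset V → Fn V, E0 = ∑ J ∈ Z.powerset, E J ∧ ∀ J ⊆ Z,
    E J ∈ (Bdd : Submodule ℂ (Fn V)) ∧ ∀ T : Finset V,
      (∀ v ∈ T, v ∉ Z ∧ ∃ i, B v i = 1 ∧ ∀ w ∉ J, w ≠ v → B w i = 0) →
      ∃ (H : Fn V) (M : ℤ), Hcl (Z \ J)ᶜ M H ∧
        act (∏ i, uu (p : ℂ)⁻¹ (yv B i)) (E J) = act (∏ j ∈ T, ((p : ℂ) • 1 - U (ee j))) H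

theorem global3 {κ ν : Type} [Fintype κ] [Fintype ν] [DecidableEq ν] {p : ℝ} (hp : 1 < p)
    (a : κ → ν →₀ ℕ) (c : κ → ℂ) {B : V → Option ν → ℕ} {Q : κ → V → ℕ} {m : ℕ}
    (hm : 0 < m) (hQ : ∀ j i, m * Aof a j i = ∑ v, Q j v * B v i) (h0 : ∀ v, B v none = 1)
    (hind : ∀ I, none ∉ I → Ind B I)
    (hnd : ∀ I, none ∉ I → ∀ U, U.Nonempty → Adm B I U → ND (Aof a) c (kap Q U))
    {b : Polynomial ℂ} (hb1 : b.eval (-1) = 0)
    {d : ℕ} {P : ℕ → Module.End ℂ (MvPolynomial ν ℂ)} (hP : ∀ t, P t ∈ WW ν)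
    (heq : ∀ m : ℕ, ∑ t ∈ range d, (m : ℂ) ^ t •
      P t ((∑ j, MvPolynomial.monomial (a j) (c j)) ^ (m + 1)) =
      b.eval (m : ℂ) • (∑ j, MvPolynomial.monomial (a j) (c j)) ^ m)
    {E0 : Fn V} (hE : Dec p B E0) :
    ∃ R : Polynomial ℂ, act (Polynomial.aeval (U (z0 V)) R) E0 ∈ Ray (z0 V) ∧
      ∀ T : ℂ, R.eval T = 0 → b.eval ((-(Real.log ‖T‖ / Real.log p) : ℝ) : ℂ) = 0 := by
  classical
  refine global2 B E0 (fun ev hev => ?_)
  obtain ⟨E, hE0, hE⟩ := hE (JJ univ 1 ev)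
  rw [hE0]
  have hp1 : (p : ℂ) ≠ 1 := by exact_mod_cast hp.ne'
  have hyv : ∀ i, ev (U (yv B i)) = ∏ v, ev (U (ee v)) ^ B v i := fun i => by
    have : yv B i = fun j => ((B j i : ℕ) : ℤ) := rfl
    rw [this, U_nat, map_prod]
    simp only [map_pow]
  have key : ∀ J ⊆ JJ univ 1 ev, ∃ D, ev D ≠ 0 ∧ act D (E J) ∈ Ray (z0 V) := by
    intro J hJ
    have hJ1 : ∀ v ∈ J, ev (U (ee v)) = 1 := fun v hv => (mem_JJ.1 (hJ hv)).2
    have hT : ∀ v ∈ TT B (II B p ev) J, ev (U (ee v)) = p := by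
      intro v hv
      obtain ⟨_, i, hi, h1, h2⟩ := mem_TT.1 hv
      rw [← mem_II.1 hi, hyv, prod_eq_single v, h1, pow_one]
      · intro w _ hw
        by_cases hwJ : w ∈ J
        · rw [hJ1 w hwJ, one_pow]
        · rw [h2 w hwJ hw, pow_zero]
      · simp
    obtain ⟨H, M, hH, hEH⟩ := (hE J hJ).2 (TT B (II B p ev) J) (fun v hv => by
      obtain ⟨_, i, _, h1, h2⟩ := mem_TT.1 hv
      exact ⟨fun h => hp1 (by rw [← hT v hv, (mem_JJ.1 h).2]), i, h1, h2⟩)
    obtain ⟨S, hS1, hS2, D, hD1, hD2⟩ : ∃ S : Finset V,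
        (∀ v ∈ S, v ∉ J ∧ v ∉ TT B (II B p ev) J) ∧ (∀ i ∈ II B p ev, ∃ v ∉ J ∪ S, B v i ≠ 0) ∧
        ∃ D : RR V, ev D ≠ 0 ∧ D * ∏ v ∈ TT B (II B p ev) J ∪ S, uu (ev (U (ee v))) (-ee v) ∈
          supIdeal ((II B p ev).disjSum (J ∪ S)) (xi (Option ν) p ev) (vec B) (z0 V) := by
      rcases hev with hb | ⟨c, hc, hc'⟩
      · have hz : yv B none = z0 V := by
          ext v
          simp [yv, z0, h0]
        have hI : none ∉ II B p ev := fun h => hb (by
          rw [← hz, mem_II.1 h, neg_log_self hp]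
          simpa using hb1)
        have hm' : (m : ℂ) ≠ 0 := by exact_mod_cast hm.ne'
        obtain ⟨S, hS1, hS2, hS3⟩ := dside a c hm hQ h0 hI (hind _ hI) (hnd _ hI) hP heq
          (fun v => m * (pt p ev v : ℂ)) (fun i hi => by
            have h1 := pt_of_yv hp B ev (mem_II.1 hi)
            have h2 : ((∑ j, (B j i : ℝ) * pt p ev j : ℝ) : ℂ) = ((-1 : ℝ) : ℂ) := by rw [h1]
            push_cast at h2
            simp only [mul_left_comm _ (m : ℂ), ← mul_sum, h2]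
            ring)
          (by
            have := pt_sum p ev (fun _ => 1)
            simp only [Nat.cast_one, one_mul] at this
            have e : (fun _ : V => (1 : ℤ)) = z0 V := rfl
            rw [e] at this
            rw [← this] at hb
            rw [← mul_sum, inv_mul_cancel_left₀ hm']
            push_cast at hb
            exact hb)
          (J := J) (fun v hv => by simp [pt_of_eq_one p ev (hJ1 v hv)])
        exact ⟨S, hS1, hS2, transfer2 ev _ _ hS3⟩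
      · refine ⟨∅, by simp, fun i hi => ?_, 1, by simp, ?_⟩
        · by_contra h
          push Not at h
          refine hp1 ?_
          rw [← mem_II.1 hi, hyv]
          refine prod_eq_one (fun v _ => ?_)
          by_cases hv : v ∈ J
          · rw [hJ1 v hv, one_pow]
          · rw [h v (by simpa using hv), pow_zero]
        · have h1 : (1 : RR V) ∈ supIdeal ((II B p ev).disjSum (J ∪ ∅)) (xi (Option ν) p ev)
              (vec B) (z0 V) := by
            refine Ideal.subset_span ⟨c, hc, ?_⟩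
            rw [filter_false_of_mem, prod_empty]
            intro x hx
            rw [hc' x (disjSum_mono subset_rfl (by simpa using hJ) hx)]
            exact lt_irrefl _
          simpa using Ideal.mul_mem_left _ _ h1
    obtain ⟨D0, hD3, hD4⟩ := core2 hp ev hJ1 hT
      (disjoint_right.2 (fun v hv => (hS1 v hv).1)) (disjoint_right.2 (fun v hv => (hS1 v hv).2))
      hS2 (fun v hv => by simp [hv]) (fun v hv hv' h => by
        simp only [mem_compl, mem_sdiff, mem_JJ, mem_univ, true_and] at hv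
        exact hv ⟨h, hv'⟩) (hE J hJ).1 hH hEH hD2
    exact ⟨D * D0, by rw [map_mul]; exact mul_ne_zero hD1 hD3, hD4⟩
  choose! D hD1 hD2 using key
  refine ⟨∏ J ∈ (JJ univ 1 ev).powerset, D J, ?_, ?_⟩
  · rw [map_prod]
    exact prod_ne_zero_iff.2 (fun J hJ => hD1 J (mem_powerset.1 hJ))
  · rw [map_sum]
    refine Submodule.sum_mem _ (fun J hJ => ?_)
    rw [← prod_erase_mul _ _ hJ, act_mul]
    exact act_mem_Ray _ _ (hD2 J (mem_powerset.1 hJ))

end Pool.Agent.MP_5d9b3c_ag.H22
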