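import Pool.Agent.MP_5d9b3c_ag.H22.Core

/-!
From the polynomial identity given by the functional equation to a recurrence along the ray.
-/

namespace Pool.Agent.MP_5d9b3c_ag.H22

open Finset

variable {κ ι : Type} [Fintype κ] [DecidableEq κ] [Fintype ι] [DecidableEq ι]

/-- The linear form of the variable `i`. -/
noncomputable def ell (A : κ → ι → ℕ) (i : ι) : MvPolynomial κ ℂ :=
  ∑ j, (A j i : MvPolynomial κ ℂ) * MvPolynomial.X j

/-- The generator attached to `c`. -/
noncomputable def nPoly (A : κ → ι → ℕ) (K : ℕ) (c : Lat κ) : MvPolynomial κ ℂ :=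
  (∏ i ∈ univ.filter (fun i => 0 < c ⬝ᵥ yv A i), (ell A i + MvPolynomial.C 1)) *
    ∏ j ∈ univ.filter (fun j => c j < 0), ∏ k ∈ range (K + 1),
      (MvPolynomial.X j + MvPolynomial.C (k : ℂ))

/-- The common denominator. -/
noncomputable def Del (κ : Type) [Fintype κ] (K : ℕ) : MvPolynomial κ ℂ :=
  ∏ j, ∏ k ∈ range K, (MvPolynomial.X j + MvPolynomial.C ((k + 1 : ℕ) : ℂ))

/-- The ideal generated by the generators. -/
noncomputable def nIdeal (A : κ → ι → ℕ) (K : ℕ) : Ideal (MvPolynomial κ ℂ) :=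
  Ideal.span {g | ∃ c : Lat κ, 0 < c ⬝ᵥ z0 κ ∧ g = nPoly A K c}

/-- The polynomial identity. -/
def Star (A : κ → ι → ℕ) (b : Polynomial ℂ) : Prop :=
  ∃ K : ℕ, 1 ≤ K ∧
    Polynomial.aeval (∑ j, MvPolynomial.X j : MvPolynomial κ ℂ) b * Del κ K ∈ nIdeal A K

lemma chart_single {ev : RR κ →ₐ[ℂ] ℂ} {p0 : κ → ℂ} {I : Ideal (RR κ)}
    {φ : MvPolynomial κ ℂ →ₐ[ℂ] (RR κ ⧸ I)}
    (hφ : ∀ (v : κ → ℕ) (t : ℂ), ∑ j, (v j : ℂ) * p0 j + t = 0 →
        Associated (φ (∑ j, (v j : MvPolynomial κ ℂ) * MvPolynomial.X j + MvPolynomial.C t))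
          (Ideal.Quotient.mk _ (uu (ev (U fun j => (v j : ℤ)))⁻¹ (fun j => (v j : ℤ)))))
    (j : κ) (t : ℂ) (ht : p0 j + t = 0) :
    Associated (φ (MvPolynomial.X j + MvPolynomial.C t))
      (Ideal.Quotient.mk I (uu (ev (U (ee j))) (-ee j))) := by
  have h := hφ (Pi.single j 1) t (by
    rw [sum_eq_single j] <;> simp_all)
  have e1 : (fun j' => ((Pi.single j 1 : κ → ℕ) j' : ℤ)) = ee j := by
    ext j'
    simp [ee, Pi.single_apply]
  have e2 : ∑ j', (((Pi.single j 1 : κ → ℕ) j' : ℕ) : MvPolynomial κ ℂ) * MvPolynomial.X j' =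
      MvPolynomial.X j := by
    rw [sum_eq_single j] <;> simp_all [Pi.single_apply]
  rw [e1, e2] at h
  exact h.trans ((uu_neg_assoc (ev_U_ne_zero ev _) _).map (Ideal.Quotient.mk I))

instance : AddMonoid.FG (Lat κ) := by
  rw [← AddGroup.fg_iff_addMonoid_fg, ← Module.Finite.iff_addGroup_fg]
  infer_instance

instance : IsNoetherianRing (RR κ) := Algebra.FiniteType.isNoetherianRing ℂ _

/-- The set of negative integer coordinates. -/
noncomputable def SS (p : ℝ) (ev : RR κ →ₐ[ℂ] ℂ) (K : ℕ) : Finset κ := by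
  classical exact univ.filter (fun j => ∃ k ∈ range K, pt p ev j = -((k + 1 : ℕ) : ℝ))

lemma mem_SS {p : ℝ} {ev : RR κ →ₐ[ℂ] ℂ} {K : ℕ} {j : κ} :
    j ∈ SS p ev K ↔ ∃ k ∈ range K, pt p ev j = -((k + 1 : ℕ) : ℝ) := by
  simp only [SS, mem_filter, mem_univ, true_and]

omit [DecidableEq ι] in
lemma transfer_star {p : ℝ} (hp : 1 < p) {A : κ → ι → ℕ} (ev : RR κ →ₐ[ℂ] ℂ) (J : Finset κ)
    {b : Polynomial ℂ} {K : ℕ}
    (hK : Polynomial.aeval (∑ j, MvPolynomial.X j : MvPolynomial κ ℂ) b * Del κ K ∈ nIdeal A K)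
    (hb : b.eval (∑ j, (pt p ev j : ℂ)) ≠ 0) :
    ∃ D : RR κ, ev D ≠ 0 ∧ D * ∏ j ∈ SS p ev K, uu (ev (U (ee j))) (-ee j) ∈
      supIdeal (XX A p ev J (SS p ev K)) (xi ι p ev) (vec A) (z0 κ) := by
  obtain ⟨r, hr, hr'⟩ := krull (RingHom.ker ev)
    (supIdeal (XX A p ev J (SS p ev K)) (xi ι p ev) (vec A) (z0 κ))
    (∏ j ∈ SS p ev K, uu (ev (U (ee j))) (-ee j)) (by
      intro k
      have hch := exists_chart ev (fun j => (pt p ev j : ℂ)) k
      generalize (RingHom.ker ev) ^ k = I at hch ⊢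
      obtain ⟨φ, hφ1, hφ2⟩ := hch
      have hle : (nIdeal A K).map φ ≤
          (supIdeal (XX A p ev J (SS p ev K)) (xi ι p ev) (vec A) (z0 κ)).map
            (Ideal.Quotient.mk I) := by
        rw [nIdeal, Ideal.map_span, Ideal.span_le]
        rintro _ ⟨_, ⟨c, hc, rfl⟩, rfl⟩
        refine Ideal.mem_of_dvd _ ?_ (Ideal.mem_map_of_mem _ (Ideal.subset_span ⟨c, hc, rfl⟩))
        rw [prod_filter, XX, prod_disjSum, ← prod_filter, ← prod_filter, map_mul, nPoly, map_mul,
          map_prod, map_prod, map_prod, map_prod]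
        refine mul_dvd_mul ?_ ?_
        · refine dvd_trans (prod_dvd_prod_of_dvd _ (fun i => φ (ell A i + MvPolynomial.C 1)) ?_)
            (prod_dvd_prod_of_subset _ _ _ ?_)
          · intro i hi
            have hi' := mem_II.1 (mem_filter.1 hi).1
            have h1 := hφ2 (fun j => A j i) 1 (by
              have := pt_of_yv hp A ev hi'
              have h2 : ((∑ j, (A j i : ℝ) * pt p ev j : ℝ) : ℂ) = ((-1 : ℝ) : ℂ) := by rw [this]
              push_cast at h2
              rw [h2]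
              ring)
            have e : (fun j => ((A j i : ℕ) : ℤ)) = yv A i := rfl
            rw [e, hi'] at h1
            exact h1.symm.dvd
          · intro i hi
            exact mem_filter.2 ⟨mem_univ _, (mem_filter.1 hi).2⟩
        · refine dvd_trans (prod_dvd_prod_of_dvd _ (fun j => φ (∏ k ∈ range (K + 1),
            (MvPolynomial.X j + MvPolynomial.C (k : ℂ)))) ?_) (prod_dvd_prod_of_subset _ _ _ ?_)
          · intro j hj
            have hex : ∃ k ∈ range (K + 1), (pt p ev j : ℂ) + (k : ℂ) = 0 := by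
              rcases mem_union.1 (mem_filter.1 hj).1 with h | h
              · refine ⟨0, by simp, ?_⟩
                rw [pt_of_eq_one p ev (mem_JJ.1 h).2]
                simp
              · obtain ⟨k, hk, hk'⟩ := mem_SS.1 (mem_sdiff.1 h).1
                refine ⟨k + 1, by simpa using hk, ?_⟩
                rw [hk']
                push_cast
                ring
            obtain ⟨k, hk, hk'⟩ := hex
            refine (chart_single hφ2 j k hk').symm.dvd.trans ?_
            rw [map_prod]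
            exact dvd_prod_of_mem (fun k : ℕ => φ (MvPolynomial.X j + MvPolynomial.C (k : ℂ))) hk
          · intro j hj
            have := (mem_filter.1 hj).2
            simp only [vec, Sum.elim_inr, dotProduct_neg, dot_ee] at this
            exact mem_filter.2 ⟨mem_univ _, by omega⟩
      refine Ideal.mem_of_dvd _ ?_ (hle (Ideal.mem_map_of_mem φ hK))
      rw [map_mul]
      have hu : IsUnit (φ (Polynomial.aeval (∑ j, MvPolynomial.X j : MvPolynomial κ ℂ) b)) := by
        apply hφ1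
        rw [← MvPolynomial.coe_aeval_eq_eval]
        have := Polynomial.aeval_algHom_apply (MvPolynomial.aeval (R := ℂ)
          (fun j => (pt p ev j : ℂ))) (∑ j, MvPolynomial.X j : MvPolynomial κ ℂ) b
        simp only [map_sum, MvPolynomial.aeval_X, Polynomial.coe_aeval_eq_eval] at this
        intro h
        apply hb
        rw [this]
        exact h
      rw [hu.mul_left_dvd, Del, map_prod, map_prod,
        ← prod_filter_mul_prod_filter_not univ (fun j => j ∈ SS p ev K), filter_mem_eq_inter,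
        univ_inter]
      have hunit : ∀ (j : κ) (k : ℕ), pt p ev j ≠ -((k + 1 : ℕ) : ℝ) →
          IsUnit (φ (MvPolynomial.X j + MvPolynomial.C ((k + 1 : ℕ) : ℂ))) := by
        intro j k h
        apply hφ1
        rw [map_add, MvPolynomial.eval_X, MvPolynomial.eval_C]
        intro h'
        apply h
        have h2 : ((pt p ev j + ((k + 1 : ℕ) : ℝ) : ℝ) : ℂ) = 0 := by
          push_cast at h' ⊢
          exact h'
        have h3 : pt p ev j + ((k + 1 : ℕ) : ℝ) = 0 := by exact_mod_cast h2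
        linarith
      have hu2 : IsUnit (∏ j ∈ univ.filter (fun j => j ∉ SS p ev K), φ (∏ k ∈ range K,
          (MvPolynomial.X j + MvPolynomial.C ((k + 1 : ℕ) : ℂ)))) := by
        rw [IsUnit.prod_iff]
        intro j hj
        rw [map_prod, IsUnit.prod_iff]
        intro k hk
        exact hunit j k (fun h => (mem_filter.1 hj).2 (mem_SS.2 ⟨k, hk, h⟩))
      rw [hu2.mul_right_dvd]
      refine prod_dvd_prod_of_dvd _ _ (fun j hj => ?_)
      obtain ⟨k, hk, hk'⟩ := mem_SS.1 hj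
      rw [map_prod, ← mul_prod_erase _ _ hk]
      have hu3 : IsUnit (∏ k' ∈ (range K).erase k,
          φ (MvPolynomial.X j + MvPolynomial.C ((k' + 1 : ℕ) : ℂ))) := by
        rw [IsUnit.prod_iff]
        intro k' hk''
        refine hunit j k' (fun h => (mem_erase.1 hk'').1 ?_)
        rw [hk', neg_inj] at h
        have : k + 1 = k' + 1 := by exact_mod_cast h
        omega
      rw [hu3.mul_right_dvd]
      refine (chart_single hφ2 j _ ?_).dvd
      rw [hk']
      push_cast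
      ring)
  refine ⟨1 - r, ?_, hr'⟩
  rw [map_sub, map_one, (RingHom.mem_ker).1 hr]
  simp

lemma clear_den {α : Type} [Fintype α] (q : α → ℚ) :
    ∃ N : ℕ, 0 < N ∧ ∃ n : α → ℤ, ∀ a, (n a : ℚ) = N * q a := by
  classical
  refine ⟨∏ a, (q a).den, prod_pos (fun a _ => (q a).den_pos),
    fun a => (∏ a' ∈ univ.erase a, ((q a').den : ℤ)) * (q a).num, fun a => ?_⟩
  rw [← mul_prod_erase _ _ (mem_univ a)]
  push_cast
  rw [← Rat.mul_den_eq_num (q a)]
  ring

lemma lin_alt {α : Type} [Fintype α] (Y : Finset α) (v : α → Lat κ) (z : Lat κ) :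
    (∃ c : Lat κ, 0 < c ⬝ᵥ z ∧ ∀ x ∈ Y, c ⬝ᵥ v x = 0) ∨
      ∃ N : ℕ, 0 < N ∧ ∃ n : α → ℤ, N • z = ∑ x ∈ Y, n x • v x := by
  classical
  set w : α → κ → ℚ := fun x j => (v x j : ℚ)
  by_cases h : (fun j => (z j : ℚ)) ∈ Submodule.span ℚ (w '' Y)
  · right
    obtain ⟨q, hq⟩ := (Submodule.mem_span_image_finset_iff_exists_fun' ℚ).1 h
    obtain ⟨N, hN, n, hn⟩ := clear_den q
    refine ⟨N, hN, n, ?_⟩
    ext j
    have h1 := congrFun hq j
    simp only [Finset.sum_apply, Pi.smul_apply, smul_eq_mul, w] at h1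
    have h2 : ((N * z j : ℤ) : ℚ) = ((∑ x ∈ Y, n x * v x j : ℤ) : ℚ) := by
      push_cast
      rw [← h1, mul_sum]
      refine sum_congr rfl (fun x _ => ?_)
      rw [hn]
      ring
    have h3 : (N * z j : ℤ) = ∑ x ∈ Y, n x * v x j := by exact_mod_cast h2
    simpa [Finset.sum_apply] using h3
  · left
    obtain ⟨f, hf, hf'⟩ := Submodule.exists_le_ker_of_notMem h
    set t := f (fun j => (z j : ℚ))
    obtain ⟨N, hN, n, hn⟩ := clear_den (fun i : κ => t * f (fun j => if i = j then 1 else 0))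
    have key : ∀ u : Lat κ, ((n ⬝ᵥ u : ℤ) : ℚ) = N * t * f (fun j => (u j : ℚ)) := by
      intro u
      rw [LinearMap.pi_apply_eq_sum_univ f, dotProduct, mul_sum]
      push_cast
      refine sum_congr rfl (fun i _ => ?_)
      rw [hn, smul_eq_mul]
      ring
    refine ⟨n, ?_, fun x hx => ?_⟩
    · have h1 := key z
      have h2 : (0 : ℚ) < N * t * t := by
        have : (0 : ℚ) < N := by exact_mod_cast hN
        have := mul_self_pos.2 hf
        rw [mul_assoc]
        positivity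
      have h3 : (0 : ℚ) < ((n ⬝ᵥ z : ℤ) : ℚ) := by rw [h1]; exact h2
      exact_mod_cast h3
    · have h1 := key (v x)
      have h2 : f (w x) = 0 := hf' (Submodule.subset_span ⟨x, hx, rfl⟩)
      have h3 : ((n ⬝ᵥ v x : ℤ) : ℚ) = 0 := by rw [h1]; exact mul_eq_zero_of_right _ h2
      exact_mod_cast h3

omit [Fintype κ] [DecidableEq κ] in
lemma ev_U_neg (ev : RR κ →ₐ[ℂ] ℂ) (v : Lat κ) : ev (U (-v)) = (ev (U v))⁻¹ := by
  have h2 := congrArg ev (U_mul_neg v)
  rw [map_mul, map_one] at h2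
  exact eq_inv_of_mul_eq_one_right h2

omit [Fintype κ] [DecidableEq κ] in
lemma ev_U_zsmul (ev : RR κ →ₐ[ℂ] ℂ) (n : ℤ) (v : Lat κ) : ev (U (n • v)) = ev (U v) ^ n := by
  cases n with
  | ofNat n => rw [Int.ofNat_eq_natCast, natCast_zsmul, U_nsmul, map_pow, zpow_natCast]
  | negSucc n => rw [negSucc_zsmul, ev_U_neg, U_nsmul, map_pow, zpow_negSucc]

omit [DecidableEq κ] in
lemma exists_ev (m : Ideal (RR κ)) (hm : m.IsMaximal) :
    ∃ ev : RR κ →ₐ[ℂ] ℂ, ∀ r, ev r = 0 ↔ r ∈ m := by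
  let _ := Ideal.Quotient.field m
  have hfin : Module.Finite ℂ (RR κ ⧸ m) := finite_of_finite_type_of_isJacobsonRing ℂ _
  have hbij : Function.Bijective (algebraMap ℂ (RR κ ⧸ m)) :=
    IsAlgClosed.algebraMap_bijective_of_isIntegral
  let e : ℂ ≃ₐ[ℂ] (RR κ ⧸ m) := AlgEquiv.ofBijective (Algebra.ofId ℂ _) hbij
  refine ⟨(e.symm : (RR κ ⧸ m) →ₐ[ℂ] ℂ).comp (Ideal.Quotient.mkₐ ℂ m), fun r => ?_⟩
  simp [Ideal.Quotient.eq_zero_iff_mem]

/-- The annihilator of a germ along the ray. -/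
def annRay (E : Fn κ) : Ideal (RR κ) where
  carrier := {D | act D E ∈ Ray (z0 κ)}
  add_mem' := by
    intro a b ha hb
    simp only [Set.mem_ofPred_eq, map_add] at ha hb ⊢
    exact Submodule.add_mem _ ha hb
  zero_mem' := by simp
  smul_mem' := by
    intro c a ha
    simp only [Set.mem_ofPred_eq, smul_eq_mul, act_mul] at ha ⊢
    exact act_mem_Ray _ _ ha

theorem global {p : ℝ} (hp : 1 < p) {A : κ → ι → ℕ} {b : Polynomial ℂ} (hb : Star A b)
    (E H : Finset κ → Fn κ) (M : ℤ) (hE : ∀ J, E J ∈ (Bdd : Submodule ℂ (Fn κ)))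
    (hH : ∀ J, Hcl J M (H J))
    (hEH : ∀ J, act (∏ i, uu (p : ℂ)⁻¹ (yv A i)) (E J) =
      act (∏ j ∈ J, ((p : ℂ) • 1 - U (ee j))) (H J))
    (hcl : ∀ J, Closed A J ∨ H J = 0) :
    ∃ R : Polynomial ℂ, act (Polynomial.aeval (U (z0 κ)) R) (∑ J, E J) ∈ Ray (z0 κ) ∧
      ∀ T : ℂ, R.eval T = 0 → b.eval ((-(Real.log ‖T‖ / Real.log p) : ℝ) : ℂ) = 0 := by
  classical
  obtain ⟨K, hK1, hK⟩ := hb
  -- gluing over `J`
  have glue : ∀ ev : RR κ →ₐ[ℂ] ℂ, (∀ J, Closed A J → ∃ D, ev D ≠ 0 ∧ act D (E J) ∈ Ray (z0 κ)) →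
      ∃ D, ev D ≠ 0 ∧ D ∈ annRay (∑ J, E J) := by
    intro ev h
    have h' : ∀ J, ∃ D, ev D ≠ 0 ∧ act D (E J) ∈ Ray (z0 κ) := by
      intro J
      rcases hcl J with h1 | h1
      · exact h J h1
      · refine ⟨1, by simp, ?_⟩
        have h2 := hEH J
        rw [h1, map_zero] at h2
        have h3 := bdd_zero_prod univ (fun _ => (p : ℂ)⁻¹) (yv A) (fun i _ => by
          rw [norm_inv, Complex.norm_real, Real.norm_of_nonneg (by linarith)]
          exact inv_lt_one_of_one_lt₀ hp) (hE J) h2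
        rw [h3, map_zero]
        exact Submodule.zero_mem _
    choose D hD1 hD2 using h'
    refine ⟨∏ J, D J, ?_, ?_⟩
    · rw [map_prod]
      exact prod_ne_zero_iff.2 (fun J _ => hD1 J)
    · change act _ _ ∈ Ray (z0 κ)
      rw [map_sum]
      refine Submodule.sum_mem _ (fun J _ => ?_)
      rw [← prod_erase_mul _ _ (mem_univ J), act_mul]
      exact act_mem_Ray _ _ (hD2 J)
  -- candidates
  have cand : ∀ Y : Finset (ι ⊕ κ), ∃ Q : Polynomial ℂ, Q ≠ 0 ∧
      ((∃ c : Lat κ, 0 < c ⬝ᵥ z0 κ ∧ ∀ x ∈ Y, c ⬝ᵥ vec A x = 0) ∨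
        ∀ ev : RR κ →ₐ[ℂ] ℂ,
          (∀ x ∈ Y, ev (U (vec A x)) = Sum.elim (fun _ => (p : ℂ)) (fun _ => 1) x) →
          Q.eval (ev (U (z0 κ))) = 0) := by
    intro Y
    rcases lin_alt Y (vec A) (z0 κ) with h | ⟨N, hN, n, hn⟩
    · exact ⟨1, one_ne_zero, Or.inl h⟩
    · refine ⟨Polynomial.X ^ N -
        Polynomial.C (∏ x ∈ Y, (Sum.elim (fun _ => (p : ℂ)) (fun _ => 1) x) ^ n x),
        (Polynomial.monic_X_pow_sub_C _ hN.ne').ne_zero, Or.inr (fun ev hev => ?_)⟩
      rw [Polynomial.eval_sub, Polynomial.eval_pow, Polynomial.eval_X, Polynomial.eval_C,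
        ← map_pow, ← U_nsmul, hn, U_sum, map_prod, sub_eq_zero]
      refine prod_congr rfl (fun x hx => ?_)
      rw [ev_U_zsmul, hev x hx]
  choose Q hQ0 hQ using cand
  set good : ℂ → Prop := fun T => b.eval ((-(Real.log ‖T‖ / Real.log p) : ℝ) : ℂ) = 0 with hgood
  set R0 : Polynomial ℂ :=
    ∏ T ∈ (∏ Y, Q Y).roots.toFinset.filter good, (Polynomial.X - Polynomial.C T) with hR0
  have hrad : Polynomial.aeval (U (z0 κ)) R0 ∈ (annRay (∑ J, E J)).radical := by
    have : IsJacobsonRing (RR κ) := isJacobsonRing_of_finiteType (A := ℂ)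
    rw [Ideal.radical_eq_jacobson, Ideal.jacobson, Ideal.mem_sInf]
    rintro m ⟨hle, hm⟩
    obtain ⟨ev, hev⟩ := exists_ev m hm
    have hno : ¬ ∀ J, Closed A J → ∃ D, ev D ≠ 0 ∧ act D (E J) ∈ Ray (z0 κ) := by
      intro h
      obtain ⟨D, hD1, hD2⟩ := glue ev h
      exact hD1 ((hev D).2 (hle hD2))
    have hg : good (ev (U (z0 κ))) := by
      by_contra hng
      apply hno
      intro J hJ
      have hsum : ∑ j, (pt p ev j : ℂ) =
          ((-(Real.log ‖ev (U (z0 κ))‖ / Real.log p) : ℝ) : ℂ) := by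
        have := pt_sum p ev (fun _ => 1)
        simp only [Nat.cast_one, one_mul] at this
        have e : (fun _ : κ => (1 : ℤ)) = z0 κ := rfl
        rw [e] at this
        rw [← this]
        push_cast
        rfl
      obtain ⟨D, hD1, hD2⟩ := transfer_star hp ev J hK (by rw [hsum]; exact hng)
      obtain ⟨D0, hD3, hD4⟩ := core hp ev hJ (S := SS p ev K) (fun j hj => by
          obtain ⟨k, _, hk⟩ := mem_SS.1 hj
          rw [hk]
          push_cast
          have : (0 : ℝ) ≤ k := by positivity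
          linarith)
        (fun j hj => mem_SS.2 ⟨0, mem_range.2 (by omega), by
          rw [pt_of_eq_p hp ev (mem_JJ.1 hj).2]; simp⟩) (hE J) (hH J) (hEH J) hD2
      exact ⟨D * D0, by rw [map_mul]; exact mul_ne_zero hD1 hD3, hD4⟩
    have hq : (∏ Y, Q Y).eval (ev (U (z0 κ))) = 0 := by
      rcases hQ ((II A p ev).disjSum (JJ univ 1 ev)) with ⟨c, hc, hc'⟩ | h
      · exfalso
        apply hno
        intro J hJ
        obtain ⟨D0, hD3, hD4⟩ := core hp ev hJ (S := JJ J p ev) (D := 1) (fun j hj => by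
            rw [pt_of_eq_p hp ev (mem_JJ.1 hj).2]) subset_rfl (hE J) (hH J) (hEH J) (by
          have h1 : (1 : RR κ) ∈
              supIdeal (XX A p ev J (JJ J p ev)) (xi ι p ev) (vec A) (z0 κ) := by
            refine Ideal.subset_span ⟨c, hc, ?_⟩
            rw [filter_false_of_mem, prod_empty]
            intro x hx
            rw [hc' x ?_]
            · exact lt_irrefl _
            · rcases x with i | j
              · rw [XX, inl_mem_disjSum] at hx
                exact inl_mem_disjSum.2 hx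
              · rw [XX, inr_mem_disjSum, sdiff_self, bot_eq_empty, union_empty] at hx
                exact inr_mem_disjSum.2 (mem_JJ.2 ⟨mem_univ _, (mem_JJ.1 hx).2⟩)
          simpa using Ideal.mul_mem_left _ _ h1)
        exact ⟨1 * D0, by simpa using hD3, hD4⟩
      · rw [Polynomial.eval_prod]
        refine prod_eq_zero (mem_univ _) (h ev ?_)
        rintro (i | j) hx
        · exact mem_II.1 (inl_mem_disjSum.1 hx)
        · simp only [vec, Sum.elim_inr]
          rw [ev_U_neg, (mem_JJ.1 (inr_mem_disjSum.1 hx)).2, inv_one]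
    rw [← hev, ← Polynomial.aeval_algHom_apply, Polynomial.coe_aeval_eq_eval, hR0,
      Polynomial.eval_prod]
    refine prod_eq_zero (i := ev (U (z0 κ))) (mem_filter.2 ⟨?_, hg⟩) (by simp)
    rw [Multiset.mem_toFinset, Polynomial.mem_roots (prod_ne_zero_iff.2 (fun Y _ => hQ0 Y))]
    exact hq
  obtain ⟨n, hn⟩ := hrad
  refine ⟨R0 ^ n, by rw [map_pow]; exact hn, fun T hT => ?_⟩
  rw [Polynomial.eval_pow] at hT
  have h1 := pow_eq_zero_iff (M₀ := ℂ) (a := R0.eval T) (n := n) (by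
    rintro rfl
    simp at hT) |>.1 hT
  rw [hR0, Polynomial.eval_prod, prod_eq_zero_iff] at h1
  obtain ⟨T', hT', h2⟩ := h1
  have : T = T' := by simpa [sub_eq_zero] using h2
  rw [this]
  exact (mem_filter.1 hT').2

end Pool.Agent.MP_5d9b3c_ag.H22
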