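import Mathlib

/-!
First syzygies of a system of parameters of a polynomial ring.
-/

namespace Pool.Agent.MP_5d9b3c_ag.H22

open Finset CategoryTheory Abelian Limits RingTheory.Sequence

/-- All relations among the `γ v`, `v ∈ S`, on `M` are trivial. -/
def Kosz {R V : Type} [CommRing R] (M : Type) [AddCommGroup M] [Module R M] (S : Finset V)
    (γ : V → R) : Prop :=
  ∀ e : V → M, ∑ v ∈ S, γ v • e v = 0 →
    ∃ h : V → V → M, (∀ v w, h v w = -h w v) ∧ ∀ v ∈ S, e v = ∑ w ∈ S, γ w • h v w

section General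

variable {R V : Type} [CommRing R] [Algebra ℂ R] [DecidableEq V]

lemma kosz_step {M : Type} [AddCommGroup M] [Module R M] {S : Finset V} {γ : V → R} {a : V → ℂ}
    {v1 : V} (hv1 : v1 ∈ S) (ha : a v1 ≠ 0) {y : R}
    (hy : y = ∑ v ∈ S, algebraMap ℂ R (a v) * γ v) (hreg : IsSMulRegular M y)
    (ih : Kosz (QuotSMulTop y M) (S.erase v1) γ) : Kosz M S γ := by
  intro e he
  obtain ⟨π, hπ⟩ : ∃ π : M →ₗ[R] QuotSMulTop y M, π = Submodule.mkQ _ := ⟨_, rfl⟩
  have hsurj : Function.Surjective π := hπ ▸ Submodule.mkQ_surjective _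
  have hker : ∀ x, π x = 0 → ∃ x', x = y • x' := by
    intro x hx
    rw [hπ, Submodule.mkQ_apply, Submodule.Quotient.mk_eq_zero,
      Submodule.mem_smul_pointwise_iff_exists] at hx
    obtain ⟨x', _, h⟩ := hx
    exact ⟨x', h.symm⟩
  have hπy : ∀ x, π (y • x) = 0 := by
    intro x
    rw [hπ, Submodule.mkQ_apply, Submodule.Quotient.mk_eq_zero]
    exact Submodule.smul_mem_pointwise_smul _ _ _ Submodule.mem_top
  obtain ⟨u, hu⟩ : ∃ u : R, u * algebraMap ℂ R (a v1) = 1 :=
    ⟨algebraMap ℂ R (a v1)⁻¹, by rw [← map_mul, inv_mul_cancel₀ ha, map_one]⟩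
  obtain ⟨t, ht⟩ : ∃ t : R, t + t = 1 :=
    ⟨algebraMap ℂ R (1 / 2), by rw [← map_add]; norm_num⟩
  obtain ⟨b, hb⟩ : ∃ b : V → R, ∀ v, b v = algebraMap ℂ R (a v) := ⟨_, fun _ => rfl⟩
  simp only [← hb] at hy hu
  have hy' : y = b v1 * γ v1 + ∑ v ∈ S.erase v1, b v * γ v := by
    rw [hy, add_sum_erase S (fun v => b v * γ v) hv1]
  have he' : γ v1 • e v1 + ∑ v ∈ S.erase v1, γ v • e v = 0 := by
    rw [add_sum_erase S (fun v => γ v • e v) hv1, he]
  have key : ∑ v ∈ S.erase v1, γ v • (e v - (b v * u) • e v1) + y • (u • e v1) = 0 := by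
    rw [← he', hy']
    simp only [smul_sub, sum_sub_distrib, smul_smul, add_mul, sum_mul, add_smul, sum_smul]
    have e1 : ∀ v ∈ S.erase v1, (γ v * (b v * u)) • e v1 = (b v * γ v * u) • e v1 := by
      intro v _
      congr 1
      ring
    have e2 : b v1 * γ v1 * u = γ v1 := by linear_combination γ v1 * hu
    rw [sum_congr rfl e1, e2]
    abel
  obtain ⟨h', hh1, hh2⟩ := ih (fun v => π (e v - (b v * u) • e v1)) (by
    have := congrArg π key
    rw [map_add, hπy, add_zero, map_sum, map_zero] at this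
    simpa only [map_smul] using this)
  choose s hs using hsurj
  obtain ⟨h, hh⟩ : ∃ h : V → V → M, ∀ v w, h v w = t • (s (h' v w) - s (h' w v)) :=
    ⟨_, fun _ _ => rfl⟩
  have hanti : ∀ v w, h v w = -h w v := by
    intro v w
    rw [hh, hh, ← smul_neg, neg_sub]
  have hπh : ∀ v w, π (h v w) = h' v w := by
    intro v w
    rw [hh, map_smul, map_sub, hs, hs, hh1 w v, sub_neg_eq_add, smul_add, ← add_smul, ht, one_smul]
  have hz : ∀ v, ∃ z, v ∈ S.erase v1 →
      e v - (b v * u) • e v1 - ∑ w ∈ S.erase v1, γ w • h v w = y • z := by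
    intro v
    by_cases hv : v ∈ S.erase v1
    · obtain ⟨z, hz⟩ := hker (e v - (b v * u) • e v1 - ∑ w ∈ S.erase v1, γ w • h v w) (by
        rw [map_sub, hh2 v hv, map_sum]
        simp only [map_smul, hπh, sub_self])
      exact ⟨z, fun _ => hz⟩
    · exact ⟨0, fun h => absurd h hv⟩
  choose z hz using hz
  have hdouble : ∑ v ∈ S.erase v1, γ v • ∑ w ∈ S.erase v1, γ w • h v w = 0 := by
    obtain ⟨X, hX⟩ : ∃ X, X = ∑ v ∈ S.erase v1, γ v • ∑ w ∈ S.erase v1, γ w • h v w := ⟨_, rfl⟩
    have h1 : X = -X := by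
      conv_lhs => rw [hX]
      simp only [smul_sum]
      rw [sum_comm, hX]
      simp only [smul_sum, ← sum_neg_distrib]
      refine sum_congr rfl (fun v _ => sum_congr rfl (fun w _ => ?_))
      rw [hanti w v, smul_comm]
      simp
    rw [← hX]
    have h2 : X + X = 0 := by
      nth_rewrite 1 [h1]
      simp
    rw [← one_smul R X, ← ht, add_smul, ← smul_add, h2, smul_zero]
  have hv1e : u • e v1 = -∑ v ∈ S.erase v1, γ v • z v := by
    apply hreg
    have h1 : ∀ v ∈ S.erase v1, γ v • (e v - (b v * u) • e v1) =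
        γ v • ∑ w ∈ S.erase v1, γ w • h v w + y • γ v • z v := by
      intro v hv
      rw [smul_comm y, ← smul_add, ← hz v hv]
      simp
    rw [sum_congr rfl h1, sum_add_distrib, hdouble, zero_add, ← smul_sum] at key
    simp only [smul_neg]
    exact eq_neg_of_add_eq_zero_right key
  obtain ⟨z', hz'⟩ : ∃ z' : V → M, ∀ v, z' v = if v = v1 then 0 else z v := ⟨_, fun _ => rfl⟩
  have hz1 : z' v1 = 0 := by rw [hz', if_pos rfl]
  have hz2 : ∀ v ∈ S.erase v1, z' v = z v := fun v hv => by rw [hz', if_neg (mem_erase.1 hv).1]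
  have hsumz : ∑ w ∈ S, γ w • z' w = ∑ w ∈ S.erase v1, γ w • z w := by
    rw [← add_sum_erase S _ hv1, hz1, smul_zero, zero_add]
    exact sum_congr rfl (fun w hw => by rw [hz2 w hw])
  refine ⟨fun v w => (if v = v1 ∨ w = v1 then 0 else h v w) + (b w • z' v - b v • z' w),
    fun v w => ?_, fun v hv => ?_⟩
  · simp only [neg_add, neg_sub, or_comm (a := w = v1)]
    split_ifs
    · simp
    · rw [hanti v w]
  · simp only [smul_add, smul_sub, sum_add_distrib, sum_sub_distrib]
    have e1 : ∑ w ∈ S, γ w • b w • z' v = y • z' v := by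
      rw [hy, sum_smul]
      exact sum_congr rfl (fun w _ => by rw [smul_smul, mul_comm])
    have e2 : ∑ w ∈ S, γ w • b v • z' w = b v • ∑ w ∈ S.erase v1, γ w • z w := by
      rw [← hsumz, smul_sum]
      exact sum_congr rfl (fun w _ => smul_comm _ _ _)
    rw [e1, e2]
    by_cases hvv : v = v1
    · subst hvv
      simp only [true_or, if_true, smul_zero, sum_const_zero, hz1, zero_sub, zero_add]
      rw [← smul_neg, ← hv1e, smul_smul, mul_comm, hu, one_smul]
    · have hv' : v ∈ S.erase v1 := mem_erase.2 ⟨hvv, hv⟩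
      have e3 : ∑ w ∈ S, γ w • (if v = v1 ∨ w = v1 then 0 else h v w) =
          ∑ w ∈ S.erase v1, γ w • h v w := by
        rw [← add_sum_erase S _ hv1, if_pos (Or.inr rfl), smul_zero, zero_add]
        exact sum_congr rfl (fun w hw => by rw [if_neg (by simp [hvv, (mem_erase.1 hw).1])])
      rw [e3, hz2 v hv', ← hz v hv', mul_smul, hv1e, smul_neg]
      abel

lemma kosz_of_ext [IsNoetherianRing R] (N : ModuleCat.{0} R) [Module.Finite R N] (γ : V → R)
    (n : ℕ) : ∀ (S : Finset V), #S = n → ∀ (M : ModuleCat.{0} R), Module.Finite R M →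
      (∀ i < n, Subsingleton (Ext N M i)) →
      (∀ x ∈ Module.annihilator R N, ∃ k : ℕ,
        x ^ k ∈ Ideal.span (γ '' S) ⊔ Module.annihilator R M) → Kosz M S γ := by
  induction n with
  | zero =>
    intro S hS M _ _ _ e _
    rw [card_eq_zero] at hS
    subst hS
    exact ⟨0, by simp, by simp⟩
  | succ n ih =>
    intro S hS M hM h_ext hrad
    by_cases hM0 : Subsingleton M
    · intro e _
      exact ⟨0, by simp, fun v _ => Subsingleton.elim _ _⟩
    have h0 : Subsingleton (N ⟶ M) := Ext.addEquiv₀.subsingleton_congr.mp (h_ext 0 n.zero_lt_succ)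
    have h1 : Subsingleton (N →ₗ[R] M) := ModuleCat.homAddEquiv.symm.subsingleton
    obtain ⟨x, hx1, hx2⟩ := IsSMulRegular.subsingleton_linearMap_iff.mp h1
    obtain ⟨k, hk⟩ := hrad x hx1
    obtain ⟨L, hL⟩ : ∃ L : (V → ℂ) →ₗ[ℂ] R, ∀ a, L a = ∑ v ∈ S, algebraMap ℂ R (a v) * γ v :=
      ⟨∑ v ∈ S, (LinearMap.proj v).smulRight (γ v), fun a => by simp [Algebra.smul_def]⟩
    have hreg : ∀ r : R, (∀ p ∈ associatedPrimes R M, r ∉ p) ↔ IsSMulRegular M r := by
      intro r
      have := Set.ext_iff.1 (biUnion_associatedPrimes_eq_compl_regular R M) r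
      simp only [Set.mem_iUnion, SetLike.mem_coe, exists_prop, Set.mem_compl_iff,
        Set.mem_ofPred_eq] at this
      constructor
      · intro h
        by_contra h'
        obtain ⟨p, hp, hr⟩ := this.2 h'
        exact h p hp hr
      · intro h p hp hr
        exact this.1 ⟨p, hp, hr⟩ h
    have hne := Subspace.biUnion_ne_univ_of_top_notMem
      (s := (associatedPrimes.finite R M).toFinset.image
        (fun p : Ideal R => (p.restrictScalars ℂ).comap L)) (by
      intro h
      obtain ⟨p, hp, hp'⟩ := mem_image.1 h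
      rw [Set.Finite.mem_toFinset] at hp
      have hγ : ∀ v ∈ S, γ v ∈ p := by
        intro v hv
        have h2 : (Pi.single v 1 : V → ℂ) ∈ (p.restrictScalars ℂ).comap L := hp' ▸ trivial
        rw [Submodule.mem_comap, hL, sum_eq_single v] at h2
        · simpa using h2
        · intro b _ hb
          simp [hb]
        · exact fun h => absurd hv h
      have h3 : Ideal.span (γ '' S) ⊔ Module.annihilator R M ≤ p := by
        refine sup_le (Ideal.span_le.2 ?_) ?_
        · rintro _ ⟨v, hv, rfl⟩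
          exact hγ v hv
        · have := IsAssociatedPrime.annihilator_le hp
          rwa [Submodule.annihilator_top] at this
      exact (hreg x).2 hx2 p hp (hp.isPrime.mem_of_pow_mem k (h3 hk)))
    obtain ⟨a, ha⟩ := (Set.ne_univ_iff_exists_notMem _).1 hne
    have hy : IsSMulRegular M (L a) := by
      refine (hreg _).1 (fun p hp hr => ha ?_)
      simp only [Set.mem_iUnion, SetLike.mem_coe, exists_prop]
      exact ⟨_, mem_image.2 ⟨p, (Set.Finite.mem_toFinset _).2 hp, rfl⟩, hr⟩
    obtain ⟨v1, hv1, hav⟩ : ∃ v1 ∈ S, a v1 ≠ 0 := by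
      by_contra h
      push Not at h
      have h2 : L a = 0 := by
        rw [hL]
        exact sum_eq_zero (fun v hv => by rw [h v hv, map_zero, zero_mul])
      rw [h2] at hy
      exact hM0 (IsSMulRegular.zero_iff_subsingleton.1 hy)
    refine kosz_step hv1 hav (hL a) hy ?_
    refine ih (S.erase v1) (by rw [card_erase_of_mem hv1, hS]; rfl)
      (ModuleCat.of R (QuotSMulTop (L a) M)) inferInstance (fun i hi => ?_) (fun x' hx' => ?_)
    · have zero1 := AddCommGrpCat.isZero_of_iff_subsingleton.mpr (h_ext i (by omega))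
      have zero2 := AddCommGrpCat.isZero_of_iff_subsingleton.mpr (h_ext (i + 1) (by omega))
      exact AddCommGrpCat.subsingleton_of_isZero <| ShortComplex.Exact.isZero_of_both_zeros
        ((Ext.covariant_sequence_exact₃' N hy.smulShortComplex_shortExact) i (i + 1) rfl)
        (zero1.eq_zero_of_src _) (zero2.eq_zero_of_tgt _)
    · obtain ⟨k', hk'⟩ := hrad x' hx'
      suffices hle : Ideal.span (γ '' S) ⊔ Module.annihilator R M ≤
          Ideal.span (γ '' (S.erase v1 : Finset V)) ⊔
            Module.annihilator R (QuotSMulTop (L a) M) from ⟨k', hle hk'⟩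
      have hyann : L a ∈ Module.annihilator R (QuotSMulTop (L a) M) := by
        rw [Module.mem_annihilator]
        intro m
        obtain ⟨m, rfl⟩ := Submodule.mkQ_surjective _ m
        rw [← map_smul, Submodule.mkQ_apply, Submodule.Quotient.mk_eq_zero]
        exact Submodule.smul_mem_pointwise_smul _ _ _ Submodule.mem_top
      refine sup_le (Ideal.span_le.2 ?_) (le_sup_of_le_right ?_)
      · rintro _ ⟨v, hv, rfl⟩
        by_cases hvv : v = v1
        · subst hvv
          have e : γ v = algebraMap ℂ R (a v)⁻¹ *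
              (L a - ∑ w ∈ S.erase v, algebraMap ℂ R (a w) * γ w) := by
            rw [hL, ← add_sum_erase S _ hv1, add_sub_cancel_right, ← mul_assoc, ← map_mul,
              inv_mul_cancel₀ hav, map_one, one_mul]
          rw [SetLike.mem_coe, e]
          refine Ideal.mul_mem_left _ _ (Ideal.sub_mem _ (Ideal.mem_sup_right hyann)
            (Ideal.mem_sup_left (Ideal.sum_mem _ (fun w hw => Ideal.mul_mem_left _ _ ?_))))
          exact Ideal.subset_span ⟨w, hw, rfl⟩
        · exact Ideal.mem_sup_left (Ideal.subset_span ⟨v, mem_erase.2 ⟨hvv, hv⟩, rfl⟩)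
      · exact LinearMap.annihilator_le_of_surjective (Submodule.mkQ _) (Submodule.mkQ_surjective _)

end General

variable {V : Type} [Fintype V] [DecidableEq V]

omit [Fintype V] [DecidableEq V] in
lemma reg_vars (L : List V) (hL : L.Nodup) :
    IsWeaklyRegular (MvPolynomial V ℂ) (L.map MvPolynomial.X : List (MvPolynomial V ℂ)) := by
  classical
  refine ⟨fun i hi => ?_⟩
  rw [List.length_map] at hi
  rw [isSMulRegular_quotient_iff_mem_of_smul_mem]
  intro x hx
  have e : (Ideal.ofList ((L.map MvPolynomial.X : List (MvPolynomial V ℂ)).take i) • ⊤ :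
      Submodule (MvPolynomial V ℂ) (MvPolynomial V ℂ)) =
      Ideal.span (MvPolynomial.X '' {v | v ∈ L.take i}) := by
    rw [smul_eq_mul, Ideal.mul_top, Ideal.ofList, ← List.map_take]
    congr 1
    ext r
    simp only [Set.mem_ofPred_eq, List.mem_map, Set.mem_image]
  rw [e, MvPolynomial.mem_ideal_span_X_image] at hx ⊢
  intro m hm
  rw [List.getElem_map, smul_eq_mul] at hx
  obtain ⟨v, hv, hv'⟩ := hx (Finsupp.single L[i] 1 + m) (by
    rw [MvPolynomial.mem_support_iff, MvPolynomial.coeff_X_mul]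
    exact MvPolynomial.mem_support_iff.1 hm)
  refine ⟨v, hv, ?_⟩
  have hne : L[i] ≠ v := by
    rintro rfl
    obtain ⟨j, hj, hj'⟩ := List.getElem_of_mem hv
    rw [List.length_take] at hj
    rw [List.getElem_take] at hj'
    have := (List.Nodup.getElem_inj_iff hL).1 hj'
    omega
  simpa [hne] using hv'

theorem kosz_poly (γ : V → MvPolynomial V ℂ)
    (h : ∀ v, ∃ k : ℕ, (MvPolynomial.X v : MvPolynomial V ℂ) ^ k ∈ Ideal.span (Set.range γ)) :
    Kosz (MvPolynomial V ℂ) univ γ := by
  obtain ⟨m, hm⟩ : ∃ m : Ideal (MvPolynomial V ℂ), m = Ideal.span (MvPolynomial.X '' Set.univ) :=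
    ⟨_, rfl⟩
  have hm1 : m ≠ ⊤ := by
    rw [Ideal.ne_top_iff_one, hm, MvPolynomial.mem_ideal_span_X_image]
    intro h1
    obtain ⟨i, _, hi⟩ := h1 0 (by simp)
    simp at hi
  have hlt : m • (⊤ : Submodule (MvPolynomial V ℂ) (MvPolynomial V ℂ)) < ⊤ := by
    rw [smul_eq_mul, Ideal.mul_top]
    exact hm1.lt_top
  have hann : Module.annihilator (MvPolynomial V ℂ) (MvPolynomial V ℂ ⧸ m) = m :=
    Ideal.annihilator_quotient
  have hof : Ideal.ofList ((univ : Finset V).toList.map MvPolynomial.X :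
      List (MvPolynomial V ℂ)) = m := by
    rw [hm, Ideal.ofList]
    congr 1
    ext r
    simp
  have hext := ModuleCat.subsingleton_ext_of_exists_isRegular m
    (ModuleCat.of _ (MvPolynomial V ℂ ⧸ m)) (by
      rw [Module.support_eq_zeroLocus, hann]) (ModuleCat.of _ (MvPolynomial V ℂ)) hlt
    ((univ : Finset V).toList.map MvPolynomial.X) (by
      intro r hr
      rw [← hof]
      exact Ideal.subset_span hr) ⟨reg_vars _ (nodup_toList _), by rw [hof]; exact hlt.ne'⟩
  refine kosz_of_ext (ModuleCat.of _ (MvPolynomial V ℂ ⧸ m)) γ _ univ rfl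
    (ModuleCat.of _ (MvPolynomial V ℂ)) inferInstance (by simpa using hext) (fun x hx => ?_)
  have hx' : x ∈ m := hann ▸ hx
  have h2 : m ≤ (Ideal.span (Set.range γ)).radical := by
    rw [hm, Ideal.span_le]
    rintro _ ⟨v, _, rfl⟩
    exact h v
  obtain ⟨k, hk⟩ := h2 hx'
  exact ⟨k, Ideal.mem_sup_left (by simpa using hk)⟩

end Pool.Agent.MP_5d9b3c_ag.H22
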