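import Pool.Agent.MP_5d9b3c_ag.H22.Koszul

/-!
Relations among commuting operators whose leading terms have only trivial relations.
-/

namespace Pool.Agent.MP_5d9b3c_ag.H22

open Finset

variable {V : Type} [Fintype V] [DecidableEq V]

/-- The polynomial ring. -/
abbrev BB (V : Type) : Type := MvPolynomial V ℂ

/-- The homogeneous component of integer degree. -/
noncomputable def hc (k : ℤ) : BB V →ₗ[ℂ] BB V :=
  if 0 ≤ k then MvPolynomial.homogeneousComponent k.toNat else 0

omit [Fintype V] [DecidableEq V] in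
lemma coeff_hc (k : ℤ) (p : BB V) (n : V →₀ ℕ) :
    MvPolynomial.coeff n (hc k p) = if (n.degree : ℤ) = k then MvPolynomial.coeff n p else 0 := by
  unfold hc
  split_ifs with h1 h2 h2
  · rw [MvPolynomial.coeff_homogeneousComponent, if_pos (by omega)]
  · rw [MvPolynomial.coeff_homogeneousComponent, if_neg (by omega)]
  · omega
  · simp

omit [Fintype V] in
lemma hc_mul {γ : BB V} {d : ℕ} (hγ : γ.IsHomogeneous d) (k : ℤ) (p : BB V) :
    hc k (γ * p) = γ * hc (k - d) p := by
  ext n
  rw [coeff_hc, MvPolynomial.coeff_mul, MvPolynomial.coeff_mul]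
  have key : ∀ x ∈ antidiagonal n, MvPolynomial.coeff x.1 γ * MvPolynomial.coeff x.2 (hc (k - d) p) =
      if (n.degree : ℤ) = k then MvPolynomial.coeff x.1 γ * MvPolynomial.coeff x.2 p else 0 := by
    intro x hx
    by_cases h : x.1.degree = d
    · have h2 : n.degree = x.1.degree + x.2.degree := by rw [← mem_antidiagonal.1 hx, map_add]
      rw [coeff_hc]
      split_ifs
      · rfl
      · omega
      · omega
      · simp
    · simp [hγ.coeff_eq_zero h]
  rw [sum_congr rfl key]
  split_ifs <;> simp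

omit [Fintype V] [DecidableEq V] in
lemma hc_hc (j k : ℤ) (p : BB V) : hc j (hc k p) = if j = k then hc k p else 0 := by
  ext n
  rw [coeff_hc, coeff_hc]
  by_cases h : j = k
  · subst h
    rw [if_pos rfl, coeff_hc]
    split_ifs <;> rfl
  · rw [if_neg h]
    split_ifs <;> first | rfl | omega

/-- All terms have degree less than `k`. -/
def Lt (k : ℤ) (p : BB V) : Prop := ∀ j, k ≤ j → hc j p = 0

omit [Fintype V] [DecidableEq V] in
lemma Lt.eq_zero {k : ℤ} (hk : k ≤ 0) {p : BB V} (h : Lt k p) : p = 0 := by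
  ext n
  have := congrArg (MvPolynomial.coeff n) (h n.degree (by omega))
  rwa [coeff_hc, if_pos rfl] at this

omit [Fintype V] [DecidableEq V] in
lemma lt_of_totalDegree {k : ℤ} {p : BB V} (h : (p.totalDegree : ℤ) < k) : Lt k p := by
  intro j hj
  rw [hc, if_pos (by omega)]
  exact MvPolynomial.homogeneousComponent_eq_zero _ _ (by omega)

/-- Commuting operators with leading terms `γ v`. -/
structure Ops (γ : V → BB V) (d : V → ℕ) (D : V → Module.End ℂ (BB V)) : Prop where
  pos : ∀ v, 0 < d v
  hom : ∀ v, (γ v).IsHomogeneous (d v)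
  low : ∀ v j p, hc j (D v p - γ v * p) = D v (hc j p) - γ v * hc j p
  comm : ∀ v w p, D v (D w p) = D w (D v p)

variable {γ : V → BB V} {d : V → ℕ} {D : V → Module.End ℂ (BB V)}

omit [Fintype V] in
lemma Ops.hc_D (h : Ops γ d D) (v : V) (j : ℤ) (p : BB V) (hp : hc j p = 0) :
    hc j (D v p) = γ v * hc (j - d v) p := by
  have := h.low v j p
  rw [map_sub, hc_mul (h.hom v), hp, map_zero, mul_zero, sub_zero, sub_eq_zero] at this
  exact this

lemma Ops.reduce (h : Ops γ d D) (hK : Kosz (BB V) univ γ) {k : ℤ} {e : V → BB V}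
    (he : ∀ v, Lt (k + 1 - d v) (e v)) (hy : hc k (∑ v, D v (e v)) = 0) :
    ∃ g : V → V → BB V, (∀ v w, g v w = -g w v) ∧
      ∀ v, Lt (k - d v) (e v - ∑ w, D w (g v w)) := by
  have h1 : ∑ v, γ v • hc (k - d v) (e v) = 0 := by
    rw [← hy, map_sum]
    refine sum_congr rfl (fun v _ => ?_)
    have := h.pos v
    rw [h.hc_D v k _ (he v k (by omega)), smul_eq_mul]
  obtain ⟨g, hg1, hg2⟩ := hK _ h1
  refine ⟨fun v w => hc (k - d v - d w) (g v w), fun v w => ?_, fun v j hj => ?_⟩
  · simp only
    rw [hg1 v w, map_neg, sub_right_comm]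
  · rw [map_sub, map_sum, sub_eq_zero]
    have e1 : ∀ w, hc j (D w (hc (k - d v - d w) (g v w))) =
        if j = k - d v then γ w * hc (k - d v - d w) (g v w) else 0 := by
      intro w
      have := h.pos w
      rw [h.hc_D w j _ (by rw [hc_hc, if_neg (by omega)]), hc_hc]
      split_ifs <;> first | rfl | omega | simp
    simp only [e1]
    split_ifs with hjk
    · have h2 := congrArg (hc (k - d v)) (hg2 v (mem_univ v))
      rw [hc_hc, if_pos rfl, map_sum] at h2
      rw [hjk, h2]
      exact sum_congr rfl (fun w _ => by rw [smul_eq_mul, hc_mul (h.hom w)])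
    · rw [he v j (by omega)]
      simp

omit [DecidableEq V] in
lemma anti_sum {W : Type} [AddCommGroup W] [Module ℂ W] (a : V → V → W)
    (ha : ∀ v w, a v w = -a w v) : ∑ v, ∑ w, a v w = 0 := by
  have h1 : ∑ v, ∑ w, a v w = -∑ v, ∑ w, a v w := by
    conv_lhs => rw [sum_comm]
    simp only [← sum_neg_distrib]
    exact sum_congr rfl (fun v _ => sum_congr rfl (fun w _ => ha w v))
  have h2 : (2 : ℂ) • ∑ v, ∑ w, a v w = 0 := by
    rw [two_smul]
    nth_rewrite 1 [h1]
    simp
  simpa using h2

omit [DecidableEq V] in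
lemma Ops.sum_bd (h : Ops γ d D) {g : V → V → BB V} (hg : ∀ v w, g v w = -g w v) (e : V → BB V) :
    ∑ v, D v (e v - ∑ w, D w (g v w)) = ∑ v, D v (e v) := by
  simp only [map_sub, map_sum, sum_sub_distrib]
  rw [anti_sum (fun v w => D v (D w (g v w))) (fun v w => by rw [hg v w, h.comm]; simp), sub_zero]

omit [DecidableEq V] in
lemma exists_lt (d : V → ℕ) (e : V → BB V) : ∃ k : ℕ, ∀ v, Lt (k - d v) (e v) := by
  refine ⟨∑ v, ((e v).totalDegree + d v + 1), fun v => lt_of_totalDegree ?_⟩
  have := single_le_sum (f := fun v => (e v).totalDegree + d v + 1) (fun _ _ => Nat.zero_le _)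
    (mem_univ v)
  omega

theorem Ops.closed (h : Ops γ d D) (hK : Kosz (BB V) univ γ) (ω : V → BB V →ₗ[ℂ] ℂ)
    (hω : ∀ v w p, ω v (D w p) = ω w (D v p)) (e : V → BB V) (he : ∑ v, D v (e v) = 0) :
    ∑ v, ω v (e v) = 0 := by
  obtain ⟨k, hk⟩ := exists_lt d e
  induction k generalizing e with
  | zero =>
    have : ∀ v, e v = 0 := fun v => (hk v).eq_zero (by omega)
    simp [this]
  | succ k ih =>
    obtain ⟨g, hg1, hg2⟩ := h.reduce hK (k := k) (e := e) (by simpa using hk) (by rw [he, map_zero])
    have h1 := ih _ (by rw [h.sum_bd hg1, he]) hg2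
    simp only [map_sub, map_sum, sum_sub_distrib] at h1
    rwa [anti_sum (fun v w => ω v (D w (g v w))) (fun v w => by rw [hg1 v w, hω]; simp),
      sub_zero] at h1

theorem Ops.not_mem (h : Ops γ d D) (hK : Kosz (BB V) univ γ) {r : BB V} {ρ : ℕ}
    (hr : r.IsHomogeneous ρ) (hr' : r ∉ Ideal.span (Set.range γ)) (c : ℂ) (e : V → BB V)
    (he : ∑ v, D v (e v) = c • r) : c = 0 := by
  have hr0 : r ≠ 0 := by
    rintro rfl
    exact hr' (Submodule.zero_mem _)
  obtain ⟨k, hk⟩ := exists_lt d e
  induction k generalizing e with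
  | zero =>
    have : ∀ v, e v = 0 := fun v => (hk v).eq_zero (by omega)
    simp only [this, map_zero, sum_const_zero] at he
    exact (smul_eq_zero.1 he.symm).resolve_right hr0
  | succ k ih =>
    have h0 : hc k r = if (k : ℤ) = ρ then r else 0 := by
      have := hc_mul hr k 1
      rw [mul_one] at this
      rw [this]
      split_ifs with hh
      · rw [hh, sub_self]
        simp [hc]
      · rw [mul_eq_zero]
        right
        ext n
        rw [coeff_hc, MvPolynomial.coeff_one]
        split_ifs with h1 h2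
        · subst h2
          simp at h1
          omega
        · rfl
        · rfl
    by_cases hkρ : (k : ℤ) = ρ
    · by_contra hc0
      apply hr'
      have h1 := congrArg (hc k) he
      rw [map_smul, h0, if_pos hkρ, map_sum] at h1
      have h2 : r = c⁻¹ • ∑ v, hc k (D v (e v)) := by rw [h1, smul_smul, inv_mul_cancel₀ hc0, one_smul]
      rw [h2, Algebra.smul_def]
      refine Ideal.mul_mem_left _ _ (Ideal.sum_mem _ (fun v _ => ?_))
      have := h.pos v
      rw [h.hc_D v k _ (hk v k (by push_cast; omega))]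
      exact Ideal.mul_mem_right _ _ (Ideal.subset_span ⟨v, rfl⟩)
    · obtain ⟨g, hg1, hg2⟩ := h.reduce hK (k := k) (e := e) (by simpa using hk)
        (by rw [he, map_smul, h0, if_neg hkρ, smul_zero])
      exact ih _ (by rw [h.sum_bd hg1, he]) hg2

end Pool.Agent.MP_5d9b3c_ag.H22
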