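import Pool.Agent.MP_5d9b3c_ag.H22.Shift
import Pool.Agent.MP_5d9b3c_ag.H22.Reduce

/-!
Twisted Euler operators on Laurent polynomials, and linear functionals with prescribed
boundary values.
-/

namespace Pool.Agent.MP_5d9b3c_ag.H22

open Finset

variable {κ V : Type} [Fintype κ] [Fintype V] [DecidableEq V]

/-- Laurent polynomials as a vector space. -/
abbrev MM (V : Type) : Type := Lat V →₀ ℂ

/-- The basis vector. -/
noncomputable def sg (q : Lat V) : MM V := Finsupp.single q 1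

/-- The exponent of a monomial. -/
def qv (Q : κ → V → ℕ) (j : κ) : Lat V := fun v => (Q j v : ℤ)

/-- The twisted Euler operators. -/
noncomputable def DT (Q : κ → V → ℕ) (c : κ → ℂ) (β : V → ℂ) (v : V) : Module.End ℂ (MM V) :=
  Finsupp.linearCombination ℂ (fun q : Lat V =>
    ((q v : ℂ) - β v) • sg q + ∑ j, ((Q j v : ℂ) * c j) • sg (q + qv Q j))

/-- Exponents bounded below. -/
noncomputable def EL (l : Lat V) : Submodule ℂ (MM V) := Finsupp.supported ℂ ℂ {q | l ≤ q}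

/-- Exponents that exceed the bound in some direction of `Z`. -/
noncomputable def NN (Z : Finset V) (l : Lat V) : Submodule ℂ (MM V) :=
  Finsupp.supported ℂ ℂ {q | ∃ v ∈ Z, l v < q v}

variable {Q : κ → V → ℕ} {c : κ → ℂ} {β : V → ℂ}

omit [Fintype V] [DecidableEq V] in
lemma DT_sg (v : V) (q : Lat V) : DT Q c β v (sg q) =
    ((q v : ℂ) - β v) • sg q + ∑ j, ((Q j v : ℂ) * c j) • sg (q + qv Q j) := by
  rw [DT, sg, Finsupp.linearCombination_single, one_smul]
  rfl

omit [Fintype V] [DecidableEq V] in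
lemma map_mem_of_sg {W : Type} [AddCommGroup W] [Module ℂ W] (T : MM V →ₗ[ℂ] W)
    (P : Submodule ℂ W) {s : Set (Lat V)} (h : ∀ q ∈ s, T (sg q) ∈ P) {x : MM V}
    (hx : x ∈ Finsupp.supported ℂ ℂ s) : T x ∈ P := by
  rw [Finsupp.supported_eq_span_single] at hx
  have : Submodule.span ℂ ((fun i => Finsupp.single i (1 : ℂ)) '' s) ≤ P.comap T := by
    rw [Submodule.span_le]
    rintro _ ⟨q, hq, rfl⟩
    exact h q hq
  exact this hx

omit [Fintype V] [DecidableEq V] in
lemma sg_mem {s : Set (Lat V)} {q : Lat V} (h : q ∈ s) : sg q ∈ Finsupp.supported ℂ ℂ s :=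
  Finsupp.single_mem_supported _ _ h

omit [Fintype V] [DecidableEq V] in
lemma DT_comm (v w : V) (x : MM V) : DT Q c β v (DT Q c β w x) = DT Q c β w (DT Q c β v x) := by
  have : DT Q c β v ∘ₗ DT Q c β w = DT Q c β w ∘ₗ DT Q c β v := by
    refine Finsupp.lhom_ext' (fun q => LinearMap.ext_ring ?_)
    change DT Q c β v (DT Q c β w (sg q)) = DT Q c β w (DT Q c β v (sg q))
    simp only [DT_sg, map_add, map_sum, map_smul, smul_add, smul_sum, smul_smul, sum_add_distrib,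
      Pi.add_apply, qv]
    have e1 : ∑ j, ∑ j', ((Q j w : ℂ) * c j * ((Q j' v : ℂ) * c j')) • sg (q + qv Q j + qv Q j') =
        ∑ j, ∑ j', ((Q j v : ℂ) * c j * ((Q j' w : ℂ) * c j')) • sg (q + qv Q j + qv Q j') := by
      rw [sum_comm]
      refine sum_congr rfl (fun j _ => sum_congr rfl (fun j' _ => ?_))
      rw [add_right_comm, mul_comm]
    rw [e1, mul_comm, add_assoc, add_assoc, add_right_inj, ← add_assoc, ← add_assoc, add_left_inj,
      ← sum_add_distrib, ← sum_add_distrib]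
    refine sum_congr rfl (fun j _ => ?_)
    rw [← add_smul, ← add_smul]
    congr 1
    push_cast
    ring
  exact LinearMap.congr_fun this x

omit [Fintype V] [DecidableEq V] in
lemma DT_supported (v : V) {s : Set (Lat V)} (hs : ∀ q ∈ s, ∀ j, q + qv Q j ∈ s) {x : MM V}
    (hx : x ∈ Finsupp.supported ℂ ℂ s) : DT Q c β v x ∈ Finsupp.supported ℂ ℂ s := by
  refine map_mem_of_sg _ _ (fun q hq => ?_) hx
  rw [DT_sg]
  exact Submodule.add_mem _ (Submodule.smul_mem _ _ (sg_mem hq))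
    (Submodule.sum_mem _ (fun j _ => Submodule.smul_mem _ _ (sg_mem (hs q hq j))))

omit [Fintype V] [DecidableEq V] [Fintype κ] in
lemma le_add_qv (q : Lat V) (j : κ) : q ≤ q + qv Q j := fun v => by
  simp [qv]

omit [Fintype V] [DecidableEq V] in
lemma DT_EL (v : V) {l : Lat V} {x : MM V} (hx : x ∈ EL l) : DT Q c β v x ∈ EL l :=
  DT_supported v (fun q hq j => le_trans hq (le_add_qv q j)) hx

omit [Fintype V] [DecidableEq V] in
lemma DT_NN (v : V) {Z : Finset V} {l : Lat V} {x : MM V} (hx : x ∈ NN Z l) :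
    DT Q c β v x ∈ NN Z l :=
  DT_supported v (fun q hq j => by
    obtain ⟨w, hw, hq⟩ := hq
    exact ⟨w, hw, lt_of_lt_of_le hq (le_add_qv q j w)⟩) hx

omit [Fintype V] in
lemma DT_up (v : V) {l : Lat V} {x : MM V} (hx : x ∈ EL l) :
    DT Q c β v x - ((l v : ℂ) - β v) • x ∈ EL (l + ee v) := by
  have key : ∀ q : Lat V, l ≤ q → l v < q v → l + ee v ≤ q := by
    intro q h1 h2 w
    by_cases h : w = v
    · subst h
      simp only [ee, Pi.add_apply, Pi.single_eq_same]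
      omega
    · simpa [ee, h] using h1 w
  refine map_mem_of_sg (DT Q c β v - ((l v : ℂ) - β v) • LinearMap.id) _ (fun q hq => ?_) hx
  rw [LinearMap.sub_apply, DT_sg, LinearMap.smul_apply, LinearMap.id_apply, add_sub_right_comm,
    ← sub_smul]
  refine Submodule.add_mem _ ?_ (Submodule.sum_mem _ (fun j _ => ?_))
  · by_cases h : q v = l v
    · rw [h, sub_self, zero_smul]
      exact Submodule.zero_mem _
    · exact Submodule.smul_mem _ _ (sg_mem (key q hq (lt_of_le_of_ne (hq v) (Ne.symm h))))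
  · by_cases h : Q j v = 0
    · rw [h, Nat.cast_zero, zero_mul, zero_smul]
      exact Submodule.zero_mem _
    · refine Submodule.smul_mem _ _ (sg_mem (key _ (le_trans hq (le_add_qv q j)) ?_))
      have : l v ≤ q v := hq v
      simp only [Pi.add_apply, qv]
      omega

omit [Fintype V] in
lemma DT_res (v : V) {l : Lat V} (h : β v = l v) {x : MM V} (hx : x ∈ EL l) :
    DT Q c β v x ∈ EL (l + ee v) := by
  simpa [h] using DT_up (Q := Q) (c := c) (β := β) v hx

omit [Fintype V] in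
lemma EL_le_NN {Z : Finset V} {v : V} (hv : v ∈ Z) (l : Lat V) : EL (l + ee v) ≤ NN Z l :=
  Finsupp.supported_mono (fun q hq => ⟨v, hv, by
    have := hq v
    simp only [ee, Pi.add_apply, Pi.single_eq_same] at this
    omega⟩)

omit [Fintype V] [DecidableEq V] in
lemma EL_mono {l l' : Lat V} (h : l ≤ l') : EL l' ≤ EL l :=
  Finsupp.supported_mono (fun _ hq => le_trans h hq)

variable (Q c β) in
/-- The compatibility condition for the existence of a functional. -/
def Compat (F N : Submodule ℂ (MM V)) (φ : MM V →ₗ[ℂ] ℂ) (ω : V → MM V →ₗ[ℂ] ℂ)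
    (E : Submodule ℂ (MM V)) : Prop :=
  ∀ f ∈ F, ∀ n ∈ N, ∀ e : V → MM V, (∀ v, e v ∈ E) → f + n + ∑ v, DT Q c β v (e v) = 0 →
    φ f + ∑ v, ω v (e v) = 0

lemma exists_factor {X M : Type} [AddCommGroup X] [Module ℂ X] [AddCommGroup M] [Module ℂ M]
    (L : X →ₗ[ℂ] M) (Ω : X →ₗ[ℂ] ℂ) (P : Submodule ℂ X) (h : ∀ x ∈ P, L x = 0 → Ω x = 0) :
    ∃ ψ : M →ₗ[ℂ] ℂ, ∀ x ∈ P, ψ (L x) = Ω x := by
  have h1 : Ω.domRestrict P ∈ LinearMap.range (L.domRestrict P).dualMap := by
    rw [LinearMap.range_dualMap_eq_dualAnnihilator_ker, Submodule.mem_dualAnnihilator]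
    exact fun x hx => h x x.2 hx
  obtain ⟨ψ, hψ⟩ := h1
  exact ⟨ψ, fun x hx => LinearMap.congr_fun hψ ⟨x, hx⟩⟩

omit [DecidableEq V] in
lemma Compat.solve {F N E : Submodule ℂ (MM V)} {φ : MM V →ₗ[ℂ] ℂ} {ω : V → MM V →ₗ[ℂ] ℂ}
    (h : Compat Q c β F N φ ω E) : ∃ ψ : MM V →ₗ[ℂ] ℂ, (∀ f ∈ F, ψ f = φ f) ∧ (∀ n ∈ N, ψ n = 0) ∧
      ∀ v, ∀ e ∈ E, ψ (DT Q c β v e) = ω v e := by
  classical
  obtain ⟨L, hL⟩ : ∃ L : (Option (Option V) → MM V) →ₗ[ℂ] MM V,
      ∀ x, L x = x none + x (some none) + ∑ v, DT Q c β v (x (some (some v))) :=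
    ⟨LinearMap.proj (R := ℂ) (φ := fun _ : Option (Option V) => MM V) none +
      LinearMap.proj (R := ℂ) (φ := fun _ : Option (Option V) => MM V) (some none) +
      ∑ v, DT Q c β v ∘ₗ LinearMap.proj (some (some v)), fun x => by simp⟩
  obtain ⟨Ω, hΩ⟩ : ∃ Ω : (Option (Option V) → MM V) →ₗ[ℂ] ℂ,
      ∀ x, Ω x = φ (x none) + ∑ v, ω v (x (some (some v))) :=
    ⟨φ ∘ₗ LinearMap.proj none + ∑ v, ω v ∘ₗ LinearMap.proj (some (some v)), fun x => by simp⟩
  obtain ⟨P, hP⟩ : ∃ P : Option (Option V) → Submodule ℂ (MM V),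
      P none = F ∧ P (some none) = N ∧ ∀ v, P (some (some v)) = E :=
    ⟨fun o => o.elim F (fun o' => o'.elim N (fun _ => E)), rfl, rfl, fun _ => rfl⟩
  obtain ⟨ψ, hψ⟩ := exists_factor L Ω (Submodule.pi Set.univ P) (fun x hx h0 => by
    rw [hL] at h0
    rw [hΩ]
    exact h _ (hP.1 ▸ hx none trivial) _ (hP.2.1 ▸ hx (some none) trivial) _
      (fun v => hP.2.2 v ▸ hx (some (some v)) trivial) h0)
  have h2 : ∀ o x, x ∈ P o → ψ (L (Pi.single o x)) = Ω (Pi.single o x) := by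
    intro o x hx
    refine hψ _ (fun o' _ => ?_)
    by_cases ho : o' = o
    · subst ho
      simpa using hx
    · simp [ho]
  refine ⟨ψ, fun f hf => ?_, fun n hn => ?_, fun v e he => ?_⟩
  · simpa [hL, hΩ] using h2 none f (hP.1 ▸ hf)
  · simpa [hL, hΩ] using h2 (some none) n (hP.2.1 ▸ hn)
  · have := h2 (some (some v)) e (hP.2.2 v ▸ he)
    rw [hL, hΩ, sum_eq_single v, sum_eq_single v] at this
    · simpa using this
    all_goals simp +contextual

variable (Q c β) in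
/-- The hypotheses under which the lower bound can be lowered. -/
structure Desc (F N : Submodule ℂ (MM V)) (φ : MM V →ₗ[ℂ] ℂ) (ω : V → MM V →ₗ[ℂ] ℂ) : Prop where
  stF : ∀ v, ∀ f ∈ F, DT Q c β v f ∈ F
  stN : ∀ v, ∀ n ∈ N, DT Q c β v n ∈ N
  rel : ∀ v, ∀ f ∈ F, φ (DT Q c β v f) = ω v f
  van : ∀ v, ∀ n ∈ N, ω v n = 0
  cl : ∀ v w x, ω v (DT Q c β w x) = ω w (DT Q c β v x)

variable {F N : Submodule ℂ (MM V)} {φ : MM V →ₗ[ℂ] ℂ} {ω : V → MM V →ₗ[ℂ] ℂ}

lemma Desc.step (h : Desc Q c β F N φ ω) {l : Lat V} {v0 : V} (hκ : (l v0 : ℂ) ≠ β v0)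
    (H : Compat Q c β F N φ ω (EL (l + ee v0))) : Compat Q c β F N φ ω (EL l) := by
  intro f hf n hn e he h0
  obtain ⟨k, hk⟩ : ∃ k : ℂ, k = (l v0 : ℂ) - β v0 := ⟨_, rfl⟩
  have hk0 : k ≠ 0 := hk ▸ sub_ne_zero.2 hκ
  have h1 := H (DT Q c β v0 f - k • f) (F.sub_mem (h.stF _ _ hf) (F.smul_mem _ hf))
    (DT Q c β v0 n - k • n) (N.sub_mem (h.stN _ _ hn) (N.smul_mem _ hn))
    (fun v => DT Q c β v0 (e v) - k • e v) (fun v => hk ▸ DT_up v0 (he v)) (by
      have h2 := congrArg (fun x => DT Q c β v0 x - k • x) h0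
      simp only [map_add, map_sum, smul_add, smul_sum, map_zero, smul_zero, sub_zero] at h2
      simp only [map_sub, map_smul, sum_sub_distrib, DT_comm _ v0]
      rw [← h2]
      abel)
  have h3 := congrArg (ω v0) h0
  simp only [map_add, map_sum, map_zero, h.van v0 n hn, h.cl v0] at h3
  simp only [map_sub, map_smul, sum_sub_distrib, h.rel v0 f hf, smul_eq_mul, ← mul_sum] at h1
  apply mul_left_cancel₀ hk0
  linear_combination h3 - h1

lemma Desc.down (h : Desc Q c β F N φ ω) {l1 : Lat V} (H : Compat Q c β F N φ ω (EL l1))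
    (l2 : Lat V) (hle : l2 ≤ l1) (hne : ∀ v k, l2 v ≤ k → k < l1 v → (k : ℂ) ≠ β v) :
    Compat Q c β F N φ ω (EL l2) := by
  obtain ⟨n, hn⟩ : ∃ n : ℕ, ∑ v, (l1 v - l2 v) = n :=
    ⟨_, (Int.toNat_of_nonneg (sum_nonneg (fun v _ => sub_nonneg.2 (hle v)))).symm⟩
  induction n generalizing l2 with
  | zero =>
    have : l2 = l1 := by
      ext v
      have := (sum_eq_zero_iff_of_nonneg (fun v _ => sub_nonneg.2 (hle v))).1 hn v (mem_univ v)
      omega
    rwa [this]
  | succ n ih =>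
    obtain ⟨v0, hv0⟩ : ∃ v0, l2 v0 < l1 v0 := by
      by_contra h0
      push Not at h0
      have := sum_nonpos (fun v (_ : v ∈ univ) => sub_nonpos.2 (h0 v))
      omega
    refine h.step (hne v0 _ le_rfl hv0) (ih (l2 + ee v0) (fun w => ?_) (fun w k h1 h2 => ?_) ?_)
    · by_cases hw : w = v0
      · subst hw
        simp only [ee, Pi.add_apply, Pi.single_eq_same]
        omega
      · simpa [ee, hw] using hle w
    · refine hne w k (le_trans ?_ h1) h2
      simp only [ee, Pi.add_apply, Pi.single_apply]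
      split_ifs <;> omega
    · simp only [Pi.add_apply, ← sub_sub, sum_sub_distrib, ee] at hn ⊢
      rw [Finset.sum_pi_single', if_pos (mem_univ _)]
      push_cast at hn
      omega

lemma Desc.top (h : Desc Q c β F N φ ω) {l1 : Lat V} (H : Compat Q c β F N φ ω (EL l1))
    (hne : ∀ v k, k < l1 v → (k : ℂ) ≠ β v) : Compat Q c β F N φ ω ⊤ := by
  intro f hf n hn e _ h0
  obtain ⟨l, hl⟩ := (insert l1 (univ.biUnion (fun v => (e v).support))).bddBelow
  refine h.down H l (hl (by simp)) (fun v k _ hk => hne v k hk) f hf n hn e (fun v q hq => ?_) h0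
  refine hl ?_
  simp only [coe_insert, Set.mem_insert_iff, mem_coe, mem_biUnion]
  exact Or.inr ⟨v, mem_univ v, hq⟩

end Pool.Agent.MP_5d9b3c_ag.H22
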