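import Pool.Agent.MP_5d9b3c_ag.H22.Fold
import Pool.Agent.MP_5d9b3c_ag.H22.Global

/-!
Systems of parameters given by nondegenerate faces, and a monomial outside their ideal.
-/

namespace Pool.Agent.MP_5d9b3c_ag.H22

open Finset MvPolynomial

variable {κ V ι : Type} [Fintype κ] [Fintype V] [DecidableEq V] [Fintype ι] [DecidableEq ι]

/-- The ideal contains a power of each variable. -/
def Prim (γ : V → BB V) : Prop :=
  ∀ v, ∃ k : ℕ, (X v : BB V) ^ k ∈ Ideal.span (Set.range γ)

omit [Fintype V] [DecidableEq V] in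
lemma Prim.mono {γ γ' : V → BB V} (h : Prim γ) (h' : ∀ v, γ v ∈ Ideal.span (Set.range γ')) :
    Prim γ' := by
  intro v
  obtain ⟨k, hk⟩ := h v
  refine ⟨k, Ideal.span_le.2 ?_ hk⟩
  rintro _ ⟨w, rfl⟩
  exact h' w

lemma link_one {γ : V → BB V} (hγ : Prim γ) {v : V} {a g y : BB V} (h : γ v = a * g)
    (hy : a * y ∈ Ideal.span (Set.range γ)) :
    y ∈ Ideal.span (Set.range (Function.update γ v g)) := by
  obtain ⟨e, he⟩ := Ideal.mem_span_range_iff_exists_fun.1 hy
  rw [← add_sum_erase _ _ (mem_univ v)] at he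
  obtain ⟨k, hk1, hk2⟩ := kosz_poly γ hγ
    (fun w => if w = v then y - e v * g else -(g * e w)) (by
      rw [← add_sum_erase _ _ (mem_univ v), if_pos rfl, sum_congr rfl
        (g := fun w => -(g * (e w * γ w))) (fun w hw => by
          rw [if_neg (mem_erase.1 hw).1, smul_eq_mul]
          ring), sum_neg_distrib, ← mul_sum, smul_eq_mul]
      rw [h] at he ⊢
      linear_combination (-g) * he)
  have h1 := hk2 v (mem_univ v)
  have h2 : k v v = 0 := by
    have h3 : (2 : BB V) * k v v = 0 := by linear_combination hk1 v v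
    exact (mul_eq_zero.1 h3).resolve_left two_ne_zero
  rw [if_pos rfl, ← add_sum_erase _ _ (mem_univ v), h2, smul_zero, zero_add,
    sub_eq_iff_eq_add] at h1
  rw [h1]
  refine Ideal.add_mem _ (Ideal.sum_mem _ (fun w hw => Ideal.mul_mem_right _ _
    (Ideal.subset_span ⟨w, Function.update_of_ne (mem_erase.1 hw).1 _ _⟩)))
    (Ideal.mul_mem_left _ _ (Ideal.subset_span ⟨v, Function.update_self _ _ _⟩))

lemma link (G : Finset V) {γ g a : V → BB V} (hγ : Prim γ) (h : ∀ v ∈ G, γ v = a v * g v)
    {y : BB V} (hy : (∏ v ∈ G, a v) * y ∈ Ideal.span (Set.range γ)) :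
    y ∈ Ideal.span (Set.range (fun v => if v ∈ G then g v else γ v)) := by
  induction G using Finset.induction_on generalizing y with
  | empty => simpa using hy
  | insert w G hw ih =>
    have h' : ∀ v ∈ G, γ v = a v * g v := fun v hv => h v (mem_insert_of_mem hv)
    rw [prod_insert hw, mul_comm (a w), mul_assoc] at hy
    have h1 := link_one (γ := fun v => if v ∈ G then g v else γ v) (v := w) (g := g w)
      (hγ.mono (fun v => by
        by_cases hv : v ∈ G
        · rw [h' v hv]
          exact Ideal.mul_mem_left _ _ (Ideal.subset_span ⟨v, if_pos hv⟩)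
        · exact Ideal.subset_span ⟨v, if_neg hv⟩))
      (by simp only [if_neg hw]; exact h w (mem_insert_self _ _)) (ih h' hy)
    convert h1 using 4 with v
    by_cases hv : v = w
    · subst hv
      simp
    · simp [hv]

omit [Fintype V] [DecidableEq V] in
lemma exists_dvd_of_mem {γ : V → BB V} {r : V →₀ ℕ}
    (h : monomial r (1 : ℂ) ∈ Ideal.span (Set.range γ)) : ∃ v n, n ≤ r ∧ coeff n (γ v) ≠ 0 := by
  classical
  by_contra hne
  push Not at hne
  have key : ∀ p ∈ Ideal.span (Set.range γ), ∀ n ≤ r, coeff n p = 0 := by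
    intro p hp
    induction hp using Submodule.span_induction with
    | mem p hp =>
      obtain ⟨v, rfl⟩ := hp
      exact hne v
    | zero => simp
    | add a b _ _ ha hb =>
      intro n hn
      rw [coeff_add, ha n hn, hb n hn, add_zero]
    | smul q a _ ha =>
      intro n hn
      rw [smul_eq_mul, coeff_mul]
      refine sum_eq_zero (fun x hx => ?_)
      rw [ha x.2 (le_trans (by rw [← mem_antidiagonal.1 hx]; exact le_add_self) hn), mul_zero]
  simpa using key _ h r le_rfl

/-- The monomials supported on `W`. -/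
def kap (Q : κ → V → ℕ) (W : Finset V) : Finset κ := univ.filter (fun j => ∀ v ∉ W, Q j v = 0)

lemma mem_kap {Q : κ → V → ℕ} {W : Finset V} {j : κ} : j ∈ kap Q W ↔ ∀ v ∉ W, Q j v = 0 := by
  simp [kap]

omit [Fintype ι] [DecidableEq ι] in
theorem not_mem_link {A : κ → ι → ℕ} {B : V → ι → ℕ} {Q : κ → V → ℕ} {c : κ → ℂ} {m : ℕ}
    (hm : 0 < m) (hQ : ∀ j i, m * A j i = ∑ v, Q j v * B v i) (hQ1 : ∀ j, ∑ v, Q j v = m)
    {J F : Finset V} (hJF : ∀ v ∈ J, v ∉ F) (hP : Prim (gam' Q c J)) {r : V →₀ ℕ}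
    (hr : ∀ v ∉ F, r v = 0) (i : V → ι) (h1 : ∀ v ∈ F, ∀ w ∈ F, w ≠ v → B w (i v) = 0)
    (h2 : ∀ v ∈ F, B v (i v) ≠ 0) (h3 : ∀ v ∈ F, B v (i v) * r v ≤ m)
    (h4 : ∀ v ∈ F, B v (i v) * r v = m → B v (i v) ≠ 1 ∧ ∀ w ∉ J, w ≠ v → B w (i v) = 0) :
    monomial r (1 : ℂ) ∉ Ideal.span (Set.range (gam' Q c J)) := by
  classical
  intro hmem
  obtain ⟨G, hG⟩ : ∃ G : Finset V, ∀ v, v ∈ G ↔ v ∈ F ∧ B v (i v) * r v = m :=
    ⟨F.filter (fun v => B v (i v) * r v = m), fun v => mem_filter⟩
  obtain ⟨c', hc'⟩ : ∃ c' : κ → ℂ, ∀ j, c' j = if j ∈ kap Q Jᶜ then c j else 0 :=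
    ⟨_, fun _ => rfl⟩
  have hle : ∀ v, gam' Q c J v ∈ Ideal.span (Set.range (gam' Q c' J)) := by
    intro v
    by_cases hv : v ∈ J
    · exact Ideal.subset_span ⟨v, by simp [gam', hv]⟩
    · have e : gam' Q c J v = gam' Q c' J v +
          ∑ j, monomial (qf Q j) ((Q j v : ℂ) * (c j - c' j)) := by
        simp only [gam', if_neg hv, gg, ← sum_add_distrib, ← map_add]
        exact sum_congr rfl (fun j _ => by congr 1; ring)
      rw [e]
      refine Ideal.add_mem _ (Ideal.subset_span ⟨v, rfl⟩) (Ideal.sum_mem _ (fun j _ => ?_))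
      rw [hc']
      split_ifs with hj
      · simp
      · rw [mem_kap] at hj
        push Not at hj
        obtain ⟨u, hu, hu'⟩ := hj
        rw [mem_compl, not_not] at hu
        refine Ideal.mem_of_dvd _ (X_dvd_monomial.2 (Or.inr hu')) (Ideal.subset_span ⟨u, ?_⟩)
        simp [gam', hu]
  have hpos : ∀ j v, c' j ≠ 0 → v ∈ G → Q j v ≠ 0 → r v ≤ Q j v := by
    intro j v hj hv hq
    obtain ⟨hvF, hv2⟩ := (hG v).1 hv
    have hj' : j ∈ kap Q Jᶜ := by
      by_contra h
      exact hj (by rw [hc', if_neg h])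
    have e := hQ j (i v)
    rw [sum_eq_single v (fun w _ hw => by
      by_cases hwJ : w ∈ J
      · rw [mem_kap.1 hj' w (by simpa using hwJ), zero_mul]
      · rw [(h4 v hvF hv2).2 w hwJ hw, mul_zero]) (by simp)] at e
    have h5 : A j (i v) ≠ 0 := by
      intro h0
      rw [h0, mul_zero] at e
      exact mul_ne_zero hq (h2 v hvF) e.symm
    have h6 : B v (i v) * r v ≤ B v (i v) * Q j v := by
      rw [hv2, mul_comm (B v (i v)), ← e]
      exact Nat.le_mul_of_pos_right _ (Nat.pos_of_ne_zero h5)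
    exact Nat.le_of_mul_le_mul_left h6 (Nat.pos_of_ne_zero (h2 v hvF))
  have hGJ : ∀ v ∈ G, v ∉ J := fun v hv h => hJF v h ((hG v).1 hv).1
  have hlink := link G (γ := gam' Q c' J) (a := fun v => X v ^ r v)
    (g := fun v => ∑ j, monomial (qf Q j - Finsupp.single v (r v)) ((Q j v : ℂ) * c' j))
    (hP.mono hle) (fun v hv => by
      simp only [gam', if_neg (hGJ v hv), gg, mul_sum]
      refine sum_congr rfl (fun j _ => ?_)
      by_cases h0 : (Q j v : ℂ) * c' j = 0
      · simp [h0]
      · rw [X_pow_eq_monomial, monomial_mul, one_mul, add_tsub_cancel_of_le]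
        rw [Finsupp.single_le_iff]
        exact hpos j v (right_ne_zero_of_mul h0) hv (by exact_mod_cast left_ne_zero_of_mul h0))
    (y := monomial (r.filter (fun v => v ∉ G)) 1) (by
      refine (Ideal.span_le (s := Set.range (gam' Q c J))).2
        (by rintro _ ⟨w, rfl⟩; exact hle w) ?_
      convert hmem using 1
      simp only [X_pow_eq_monomial]
      rw [← monomial_sum_one, monomial_mul, one_mul]
      congr 2
      ext u
      simp only [Finsupp.coe_add, Pi.add_apply, Finsupp.finsetSum_apply, Finsupp.single_apply,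
        sum_ite_eq', Finsupp.filter_apply]
      split_ifs <;> simp)
  have hkey : ∀ j, (∀ w ∉ F, Q j w = 0) → ∀ w, Q j w ≠ 0 → Q j w ≤ r w → w ∈ G := by
    intro j hj w hw hw'
    have hwF : w ∈ F := by
      by_contra h
      exact hw (hj w h)
    have e := hQ j (i w)
    rw [sum_eq_single w (fun u _ hu => by
      by_cases huF : u ∈ F
      · rw [h1 w hwF u huF hu, mul_zero]
      · rw [hj u huF, zero_mul]) (by simp)] at e
    have h5 : A j (i w) ≠ 0 := by
      intro h0
      rw [h0, mul_zero] at e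
      exact mul_ne_zero hw (h2 w hwF) e.symm
    refine (hG w).2 ⟨hwF, le_antisymm (h3 w hwF) ?_⟩
    calc m ≤ m * A j (i w) := Nat.le_mul_of_pos_right _ (Nat.pos_of_ne_zero h5)
      _ = B w (i w) * Q j w := by rw [e, mul_comm]
      _ ≤ _ := Nat.mul_le_mul_left _ hw'
  obtain ⟨v, n, hn1, hn2⟩ := exists_dvd_of_mem hlink
  have hn3 : ∀ w, n w ≤ if w ∈ G then 0 else r w := fun w => by
    have := hn1 w
    rw [Finsupp.filter_apply] at this
    split_ifs at this ⊢ <;> simp_all
  have hex : ∀ j v, Q j v ≠ m → ∃ w, w ≠ v ∧ Q j w ≠ 0 := by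
    intro j v h
    by_contra h0
    push Not at h0
    exact h (by rw [← hQ1 j, sum_eq_single v (fun w _ hw => h0 w hw) (by simp)])
  split_ifs at hn2 with hv
  · rw [coeff_sum] at hn2
    obtain ⟨j, _, hj⟩ := exists_ne_zero_of_sum_ne_zero hn2
    rw [coeff_monomial] at hj
    split_ifs at hj with hj'
    · have hq : ∀ w, w ≠ v → n w = Q j w := fun w hw => by
        rw [← hj']
        simp [qf, hw.symm]
      have hqv : n v = Q j v - r v := by
        rw [← hj']
        simp [qf]
      obtain ⟨hvF, hv2⟩ := (hG v).1 hv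
      have h5 := hn3 v
      rw [if_pos hv] at h5
      obtain ⟨w, hw1, hw2⟩ := hex j v (by
        have h6 := (h4 v hvF hv2).1
        have h7 := h2 v hvF
        have h8 : 2 * r v ≤ B v (i v) * r v := Nat.mul_le_mul_right _ (by omega)
        omega)
      have h6 := hn3 w
      rw [hq w hw1] at h6
      split_ifs at h6 with hwG
      · omega
      · refine hwG (hkey j (fun u hu => ?_) w hw2 h6)
        have h7 := hn3 u
        rw [hq u (by rintro rfl; exact hu hvF), hr u hu] at h7
        simpa using h7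
    · exact hj rfl
  · unfold gam' at hn2
    split_ifs at hn2 with hvJ
    · rw [coeff_X] at hn2
      split_ifs at hn2 with h5
      · have h6 := hn3 v
        rw [← h5, if_neg hv, hr v (hJF v hvJ)] at h6
        simp at h6
      · exact hn2 rfl
    · rw [gg, coeff_sum] at hn2
      obtain ⟨j, _, hj⟩ := exists_ne_zero_of_sum_ne_zero hn2
      rw [coeff_monomial] at hj
      split_ifs at hj with hj'
      · have hq : ∀ w, n w = Q j w := fun w => by
          rw [← hj']
          simp [qf]
        have h5 := hn3 v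
        rw [if_neg hv, hq] at h5
        refine hv (hkey j (fun u hu => ?_) v (by exact_mod_cast left_ne_zero_of_mul hj) h5)
        have h7 := hn3 u
        rw [hq u, hr u hu] at h7
        simpa using h7
      · exact hj rfl

/-- Nondegeneracy of a sum of monomials on the torus. -/
def ND (A : κ → ι → ℕ) (c : κ → ℂ) (J : Finset κ) : Prop :=
  ∀ x : ι → ℂ, (∀ i, x i ≠ 0) → ∃ i, ∑ j ∈ J, c j * A j i * ∏ i', x i' ^ A j i' ≠ 0

omit [DecidableEq ι] in
lemma exists_dual {B : V → ι → ℕ} {U : Finset V}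
    (h : ∀ r : Lat V, (∀ v ∉ U, r v = 0) → (∀ i, ∑ v, r v * B v i = 0) → r = 0) (v : V) :
    ∃ (N : ℕ) (n : ι → ℤ), 0 < N ∧ ∀ w ∈ U, ∑ i, n i * B w i = if w = v then (N : ℤ) else 0 := by
  rcases lin_alt univ (Sum.elim (yv B) (fun w => if w ∈ U then 0 else ee w)) (ee v) with
    ⟨r, h1, h2⟩ | ⟨N, hN, n, hn⟩
  · exfalso
    have := h r (fun w hw => by simpa [hw, dot_ee] using h2 (Sum.inr w) (mem_univ _))
      (fun i => h2 (Sum.inl i) (mem_univ _))
    simp [this] at h1
  · refine ⟨N, fun i => n (Sum.inl i), hN, fun w hw => ?_⟩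
    have := congrFun hn w
    rw [Fintype.sum_sum_type] at this
    simp only [Pi.smul_apply, Finset.sum_apply, smul_eq_mul, yv, ee, Pi.single_apply,
      Sum.elim_inl, Sum.elim_inr, Pi.add_apply] at this
    rw [sum_eq_zero (s := (univ : Finset V)), add_zero] at this
    · rw [← this]
      split_ifs <;> simp
    · intro u _
      split_ifs with hu
      · simp
      · have : w ≠ u := by rintro rfl; exact hu hw
        simp [this]

omit [DecidableEq ι] in
theorem prim_of_adm {A : κ → ι → ℕ} {B : V → ι → ℕ} {Q : κ → V → ℕ} {c : κ → ℂ} {m : ℕ}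
    (hm : 0 < m) (hQ : ∀ j i, m * A j i = ∑ v, Q j v * B v i) {I : Finset ι} (hind : Ind B I)
    (hnd : ∀ U, U.Nonempty → Adm B I U → ND A c (kap Q U)) {Z : Finset V} (hZ : Adm B I Zᶜ) :
    Prim (gam' Q c Z) := by
  classical
  intro v0
  have hrad : (X v0 : BB V) ∈ (Ideal.span (Set.range (gam' Q c Z))).radical := by
    rw [← vanishingIdeal_zeroLocus_eq_radical (K := ℂ), zeroLocus_span, mem_vanishingIdeal_iff]
    intro t ht
    rw [aeval_X]
    by_contra h0
    obtain ⟨U, hU⟩ : ∃ U : Finset V, ∀ v, v ∈ U ↔ t v ≠ 0 :=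
      ⟨univ.filter (fun v => t v ≠ 0), by simp⟩
    have hUZ : ∀ v ∈ U, v ∉ Z := fun v hv hvZ => (hU v).1 hv (by
      simpa [gam', hvZ] using ht _ ⟨v, rfl⟩)
    have hadm : Adm B I U := hZ.mono (fun v hv => mem_compl.2 (hUZ v hv))
    choose N n hN hn using exists_dual (hind U hadm)
    obtain ⟨ξ, hξ⟩ : ∃ ξ : ι → ℂ, ∀ w ∈ U, ∑ i, ξ i * B w i = m * Complex.log (t w) := by
      refine ⟨fun i => ∑ v ∈ U, m * Complex.log (t v) / N v * n v i, fun w hw => ?_⟩
      simp only [sum_mul, mul_assoc]
      rw [sum_comm]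
      simp only [← mul_sum]
      rw [sum_eq_single w]
      · have h1 : ∑ i, (n w i : ℂ) * B w i = N w := by
          have := hn w w hw
          rw [if_pos rfl] at this
          exact_mod_cast this
        rw [h1, div_mul_cancel₀ _ (by exact_mod_cast (hN w).ne')]
      · intro v _ hv
        have h1 : ∑ i, (n v i : ℂ) * B w i = 0 := by
          have := hn v w hw
          rw [if_neg hv.symm] at this
          exact_mod_cast this
        rw [h1, mul_zero]
      · exact fun h => absurd hw h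
    have hm' : (m : ℂ) ≠ 0 := by exact_mod_cast hm.ne'
    have hQ' : ∀ j i, (m : ℂ) * A j i = ∑ v, (Q j v : ℂ) * B v i := fun j i => by
      exact_mod_cast hQ j i
    have hx : ∀ j ∈ kap Q U, ∏ i, Complex.exp (ξ i) ^ A j i = ∏ v, t v ^ Q j v := by
      intro j hj
      have e1 : ∑ i, (A j i : ℂ) * ξ i = ∑ v, (Q j v : ℂ) * Complex.log (t v) := by
        refine mul_left_cancel₀ hm' ?_
        simp only [mul_sum, ← mul_assoc, hQ', sum_mul]
        rw [sum_comm]
        refine sum_congr rfl (fun v _ => ?_)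
        by_cases hv : v ∈ U
        · rw [mul_comm (m : ℂ), mul_assoc, ← hξ v hv, mul_sum]
          exact sum_congr rfl (fun i _ => by ring)
        · simp [mem_kap.1 hj v hv]
      simp only [← Complex.exp_nat_mul]
      rw [← Complex.exp_sum, e1, Complex.exp_sum]
      refine prod_congr rfl (fun v _ => ?_)
      by_cases hv : v ∈ U
      · rw [Complex.exp_nat_mul, Complex.exp_log ((hU v).1 hv)]
      · simp [mem_kap.1 hj v hv]
    have hg : ∀ v, ∑ j ∈ kap Q U, (Q j v : ℂ) * c j * ∏ w, t w ^ Q j w = 0 := by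
      intro v
      by_cases hv : v ∈ U
      · have h1 := ht _ ⟨v, rfl⟩
        simp only [gam', if_neg (hUZ v hv), gg, map_sum, aeval_monomial] at h1
        rw [← h1]
        refine (sum_subset (subset_univ _) (fun j _ hj => ?_)).trans (sum_congr rfl (fun j _ => ?_))
        · rw [mem_kap] at hj
          push Not at hj
          obtain ⟨u, hu, hu'⟩ := hj
          have h2 : t u = 0 := by
            by_contra h
            exact hu ((hU u).2 h)
          rw [prod_eq_zero (mem_univ u) (by rw [h2, zero_pow hu']), mul_zero]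
        · rw [Finsupp.prod_fintype _ _ (fun _ => pow_zero _)]
          rfl
      · exact sum_eq_zero (fun j hj => by simp [mem_kap.1 hj v hv])
    obtain ⟨i, hi⟩ := hnd U ⟨v0, (hU v0).2 h0⟩ hadm (fun i => Complex.exp (ξ i))
      (fun i => Complex.exp_ne_zero _)
    refine hi (mul_left_cancel₀ hm' ?_)
    rw [mul_zero, mul_sum, sum_congr rfl (g := fun j => ∑ v, (B v i : ℂ) *
      ((Q j v : ℂ) * c j * ∏ w, t w ^ Q j w)) (fun j hj => by
        rw [hx j hj, ← mul_assoc, mul_left_comm, hQ', mul_sum, sum_mul]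
        exact sum_congr rfl (fun v _ => by ring)), sum_comm]
    exact sum_eq_zero (fun v _ => by rw [← mul_sum, hg, mul_zero])
  exact hrad

end Pool.Agent.MP_5d9b3c_ag.H22
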