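import Mathlib

/-!
Mean values of functions on integer vectors that are periodic modulo a power of a prime.
-/

namespace Pool.Agent.MP_5d9b3c_ag.H22

open Finset

lemma sum_hom {G G' : Type} [AddCommGroup G] [AddCommGroup G'] [Fintype G] [DecidableEq G']
    (ρ : G →+ G') (φ : G' → ℂ) :
    ∑ g, φ (ρ g) = (#{g | ρ g = 0} : ℂ) * ∑ h ∈ univ.image ρ, φ h := by
  rw [sum_comp φ ρ, mul_sum]
  refine sum_congr rfl (fun h hh => ?_)
  obtain ⟨g, _, rfl⟩ := mem_image.1 hh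
  rw [nsmul_eq_mul, AddMonoidHom.card_fiber_eq_of_mem_range ρ (x := ρ g) (y := 0) ⟨g, rfl⟩
    ⟨0, map_zero ρ⟩]

variable {ι : Type} [Fintype ι] [DecidableEq ι]

/-- Periodicity modulo `N`. -/
def Per (N : ℕ) (Φ : (ι → ℤ) → ℂ) : Prop :=
  ∀ x x' : ι → ℤ, (∀ i, x i ≡ x' i [ZMOD N]) → Φ x = Φ x'

/-- Integer representatives. -/
def liftZ {N : ℕ} (x : ι → ZMod N) : ι → ℤ := fun i => ((x i).val : ℤ)

/-- The average over residues modulo `N`. -/
noncomputable def avg (N : ℕ) [NeZero N] (Φ : (ι → ℤ) → ℂ) : ℂ :=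
  (∑ x : ι → ZMod N, Φ (liftZ x)) / (Fintype.card (ι → ZMod N) : ℂ)

omit [Fintype ι] [DecidableEq ι] in
lemma cast_liftZ {N : ℕ} [NeZero N] (x : ι → ZMod N) (i : ι) : ((liftZ x i : ℤ) : ZMod N) = x i := by
  simp [liftZ]

omit [Fintype ι] [DecidableEq ι] in
lemma Per.eq_liftZ {N : ℕ} [NeZero N] {Φ : (ι → ℤ) → ℂ} (h : Per N Φ) (y : ι → ℤ)
    (x : ι → ZMod N) (hx : ∀ i, ((y i : ℤ) : ZMod N) = x i) : Φ y = Φ (liftZ x) := by
  refine h _ _ (fun i => ?_)
  rw [← ZMod.intCast_eq_intCast_iff, hx, cast_liftZ]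

omit [Fintype ι] [DecidableEq ι] in
lemma Per.mono {N N' : ℕ} {Φ : (ι → ℤ) → ℂ} (h : Per N Φ) (hN : N ∣ N') : Per N' Φ :=
  fun x x' hx => h x x' (fun i => (hx i).of_dvd (by exact_mod_cast hN))

lemma card_ne_zero' (N : ℕ) [NeZero N] : (Fintype.card (ι → ZMod N) : ℂ) ≠ 0 := by
  exact_mod_cast Fintype.card_ne_zero

lemma avg_level {N N' : ℕ} [NeZero N] [NeZero N'] {Φ : (ι → ℤ) → ℂ} (h : Per N Φ)
    (hN : N ∣ N') : avg N' Φ = avg N Φ := by
  let ρ : (ι → ZMod N') →+ (ι → ZMod N) :=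
    AddMonoidHom.compLeft (ZMod.castHom hN (ZMod N)).toAddMonoidHom ι
  have hsurj : univ.image ρ = univ := by
    rw [eq_univ_iff_forall]
    intro y
    choose x hx using fun i => ZMod.castHom_surjective hN (y i)
    exact mem_image.2 ⟨x, mem_univ _, by ext i; exact hx i⟩
  have h1 := sum_hom ρ (fun y => Φ (liftZ y))
  have h2 := sum_hom ρ (fun _ => 1)
  rw [hsurj] at h1 h2
  simp only [sum_const, card_univ, nsmul_eq_mul, mul_one] at h2
  have h3 : ∀ x : ι → ZMod N', Φ (liftZ x) = Φ (liftZ (ρ x)) := by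
    intro x
    refine h.eq_liftZ _ _ (fun i => ?_)
    change _ = ZMod.castHom hN (ZMod N) (x i)
    rw [← cast_liftZ x i, map_intCast]
  have hk : (#{g | ρ g = 0} : ℂ) ≠ 0 := by
    intro h0
    rw [h0, zero_mul] at h2
    exact card_ne_zero' N' h2
  rw [avg, avg, sum_congr rfl (fun x _ => h3 x), h1, h2, mul_div_mul_left _ _ hk]

lemma avg_subst {N : ℕ} [NeZero N] {Φ : (ι → ℤ) → ℂ} (h : Per N Φ) (T : (ι → ℤ) → (ι → ℤ))
    (T' : (ι → ZMod N) → (ι → ZMod N)) (hT' : Function.Bijective T')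
    (hT : ∀ x i, ((T (liftZ x) i : ℤ) : ZMod N) = T' x i) :
    avg N (fun x => Φ (T x)) = avg N Φ := by
  rw [avg, avg, ← hT'.sum_comp (fun x => Φ (liftZ x))]
  congr 1
  exact sum_congr rfl (fun x _ => h.eq_liftZ _ _ (hT x))

variable (p : ℕ) [hp : Fact p.Prime]

/-- Periodicity modulo some power of `p`. -/
def IsPer (Φ : (ι → ℤ) → ℂ) : Prop := ∃ k : ℕ, Per (p ^ k) Φ

open Classical in
/-- The mean value. -/
noncomputable def mean (Φ : (ι → ℤ) → ℂ) : ℂ :=
  if h : IsPer p Φ then avg (p ^ h.choose) Φ else 0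

variable {p}

lemma mean_eq {Φ : (ι → ℤ) → ℂ} {k : ℕ} (h : Per (p ^ k) Φ) : mean p Φ = avg (p ^ k) Φ := by
  have h' : IsPer p Φ := ⟨k, h⟩
  rw [mean, dif_pos h', ← avg_level h'.choose_spec (pow_dvd_pow p (le_max_left h'.choose k)),
    ← avg_level h (pow_dvd_pow p (le_max_right h'.choose k))]

omit hp [Fintype ι] [DecidableEq ι] in
lemma IsPer.common {Φ Ψ : (ι → ℤ) → ℂ} (h : IsPer p Φ) (h' : IsPer p Ψ) :
    ∃ k, 1 ≤ k ∧ Per (p ^ k) Φ ∧ Per (p ^ k) Ψ := by
  obtain ⟨k, hk⟩ := h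
  obtain ⟨k', hk'⟩ := h'
  exact ⟨k + k' + 1, by omega, hk.mono (pow_dvd_pow p (by omega)),
    hk'.mono (pow_dvd_pow p (by omega))⟩

omit hp [Fintype ι] [DecidableEq ι] in
lemma IsPer.const (c : ℂ) : IsPer p (fun _ : ι → ℤ => c) := ⟨0, fun _ _ _ => rfl⟩

omit hp [Fintype ι] [DecidableEq ι] in
lemma IsPer.map₂ {Φ Ψ : (ι → ℤ) → ℂ} (h : IsPer p Φ) (h' : IsPer p Ψ) (g : ℂ → ℂ → ℂ) :
    IsPer p (fun x => g (Φ x) (Ψ x)) := by
  obtain ⟨k, _, h1, h2⟩ := h.common h'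
  exact ⟨k, fun x x' hx => congrArg₂ g (h1 x x' hx) (h2 x x' hx)⟩

omit hp [Fintype ι] [DecidableEq ι] in
lemma IsPer.mul {Φ Ψ : (ι → ℤ) → ℂ} (h : IsPer p Φ) (h' : IsPer p Ψ) :
    IsPer p (fun x => Φ x * Ψ x) := h.map₂ h' (· * ·)

omit hp [Fintype ι] [DecidableEq ι] in
lemma IsPer.prod {α : Type} (s : Finset α) {Φ : α → (ι → ℤ) → ℂ} (h : ∀ a ∈ s, IsPer p (Φ a)) :
    IsPer p (fun x => ∏ a ∈ s, Φ a x) := by
  classical
  induction s using Finset.induction_on with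
  | empty => simpa using IsPer.const 1
  | insert a s ha ih =>
    simp only [prod_insert ha]
    exact (h a (mem_insert_self _ _)).mul (ih (fun b hb => h b (mem_insert_of_mem hb)))

omit hp [Fintype ι] [DecidableEq ι] in
lemma IsPer.sum {α : Type} (s : Finset α) {Φ : α → (ι → ℤ) → ℂ} (h : ∀ a ∈ s, IsPer p (Φ a)) :
    IsPer p (fun x => ∑ a ∈ s, Φ a x) := by
  classical
  induction s using Finset.induction_on with
  | empty => simpa using IsPer.const 0
  | insert a s ha ih =>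
    simp only [sum_insert ha]
    exact (h a (mem_insert_self _ _)).map₂ (ih (fun b hb => h b (mem_insert_of_mem hb))) (· + ·)

omit hp [Fintype ι] [DecidableEq ι] in
lemma IsPer.comp {Φ : (ι → ℤ) → ℂ} (h : IsPer p Φ) (T : (ι → ℤ) → (ι → ℤ))
    (hT : ∀ (N : ℕ) (x x' : ι → ℤ), (∀ i, x i ≡ x' i [ZMOD N]) → ∀ i, T x i ≡ T x' i [ZMOD N]) :
    IsPer p (fun x => Φ (T x)) := by
  obtain ⟨k, hk⟩ := h
  exact ⟨k, fun x x' hx => hk _ _ (hT _ x x' hx)⟩

omit hp [Fintype ι] [DecidableEq ι] in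
lemma isPer_dvd (i : ι) (t : ℤ) (a b : ℂ) :
    IsPer p (fun x : ι → ℤ => if (p : ℤ) ∣ x i - t then a else b) := by
  refine ⟨1, fun x x' hx => if_congr ?_ rfl rfl⟩
  have := ((hx i).sub_right t)
  rw [pow_one] at this
  rw [← Int.modEq_zero_iff_dvd, ← Int.modEq_zero_iff_dvd]
  exact ⟨fun h => this.symm.trans h, fun h => this.trans h⟩

lemma mean_add {Φ Ψ : (ι → ℤ) → ℂ} (h : IsPer p Φ) (h' : IsPer p Ψ) :
    mean p (fun x => Φ x + Ψ x) = mean p Φ + mean p Ψ := by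
  obtain ⟨k, _, h1, h2⟩ := h.common h'
  have h3 : Per (p ^ k) (fun x => Φ x + Ψ x) :=
    fun x x' hx => congrArg₂ (· + ·) (h1 x x' hx) (h2 x x' hx)
  rw [mean_eq h1, mean_eq h2, mean_eq h3, avg, avg, avg, sum_add_distrib, add_div]

lemma mean_const_mul {Φ : (ι → ℤ) → ℂ} (h : IsPer p Φ) (c : ℂ) :
    mean p (fun x => c * Φ x) = c * mean p Φ := by
  obtain ⟨k, h1⟩ := h
  have h3 : Per (p ^ k) (fun x => c * Φ x) := fun x x' hx => congrArg (c * ·) (h1 x x' hx)
  rw [mean_eq h1, mean_eq h3, avg, avg, ← mul_sum, mul_div_assoc]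

lemma mean_const (c : ℂ) : mean p (fun _ : ι → ℤ => c) = c := by
  have h3 : Per (p ^ 0) (fun _ : ι → ℤ => c) := fun _ _ _ => rfl
  rw [mean_eq h3, avg, sum_const, card_univ, nsmul_eq_mul,
    mul_div_cancel_left₀ _ (card_ne_zero' _)]

lemma mean_sum {α : Type} (s : Finset α) {Φ : α → (ι → ℤ) → ℂ} (h : ∀ a ∈ s, IsPer p (Φ a)) :
    mean p (fun x => ∑ a ∈ s, Φ a x) = ∑ a ∈ s, mean p (Φ a) := by
  classical
  induction s using Finset.induction_on with
  | empty => simpa using mean_const 0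
  | insert a s ha ih =>
    simp only [sum_insert ha]
    rw [mean_add (h a (mem_insert_self _ _))
      (IsPer.sum s (fun b hb => h b (mem_insert_of_mem hb))),
      ih (fun b hb => h b (mem_insert_of_mem hb))]

lemma mean_norm_le {Φ : (ι → ℤ) → ℂ} (h : IsPer p Φ) {C : ℝ} (hC : ∀ x, ‖Φ x‖ ≤ C) :
    ‖mean p Φ‖ ≤ C := by
  obtain ⟨k, h1⟩ := h
  rw [mean_eq h1, avg, norm_div, Complex.norm_natCast,
    div_le_iff₀ (by exact_mod_cast Fintype.card_pos)]
  refine (norm_sum_le _ _).trans ((sum_le_sum (fun x _ => hC _)).trans ?_)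
  rw [sum_const, card_univ, nsmul_eq_mul, mul_comm]

lemma mean_scale {Φ : (ι → ℤ) → ℂ} (h : IsPer p Φ) (u : ι → ℤ) (hu : ∀ i, ¬ (p : ℤ) ∣ u i) :
    mean p (fun x => Φ (fun i => u i * x i)) = mean p Φ := by
  obtain ⟨k, h1⟩ := h
  have h3 : Per (p ^ k) (fun x => Φ (fun i => u i * x i)) :=
    fun x x' hx => h1 _ _ (fun i => (hx i).mul_left _)
  have hunit : ∀ i, IsUnit ((u i : ℤ) : ZMod (p ^ k)) := by
    intro i
    have hc : IsCoprime (u i) ((p ^ k : ℕ) : ℤ) := by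
      push_cast
      exact ((Nat.prime_iff_prime_int.1 hp.out).coprime_iff_not_dvd.2 (hu i)).symm.pow_right
    obtain ⟨a, b, hab⟩ := hc
    have := congrArg (fun t : ℤ => (t : ZMod (p ^ k))) hab
    simp only [Int.cast_add, Int.cast_mul, Int.cast_natCast, ZMod.natCast_self, mul_zero,
      add_zero, Int.cast_one] at this
    exact IsUnit.of_mul_eq_one_right _ this
  rw [mean_eq h1, mean_eq h3]
  refine avg_subst h1 (fun x i => u i * x i) (fun x i => (u i : ZMod (p ^ k)) * x i) ?_ ?_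
  · rw [← Finite.injective_iff_bijective]
    intro x y hxy
    ext i
    exact (hunit i).mul_left_cancel (congrFun hxy i)
  · intro x i
    rw [Int.cast_mul, cast_liftZ]

lemma mean_translate {Φ : (ι → ℤ) → ℂ} (h : IsPer p Φ) (t : ι → ℤ) :
    mean p (fun x => Φ (x + t)) = mean p Φ := by
  obtain ⟨k, h1⟩ := h
  have h3 : Per (p ^ k) (fun x => Φ (x + t)) :=
    fun x x' hx => h1 _ _ (fun i => (hx i).add_right _)
  rw [mean_eq h1, mean_eq h3]
  refine avg_subst h1 (fun x => x + t) (fun x => x + fun i => (t i : ZMod (p ^ k))) ?_ ?_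
  · exact (Equiv.addRight _).bijective
  · intro x i
    rw [Pi.add_apply, Int.cast_add, cast_liftZ]
    rfl

lemma mean_dvd (i : ι) : mean p (fun x : ι → ℤ => if (p : ℤ) ∣ x i - 0 then 1 else 0) =
    (p : ℂ)⁻¹ := by
  have hp0 : (0 : ℤ) < p := by exact_mod_cast hp.out.pos
  have h1 : ∀ t ∈ range p, mean p (fun x : ι → ℤ => if (p : ℤ) ∣ x i - t then 1 else 0) =
      mean p (fun x : ι → ℤ => if (p : ℤ) ∣ x i - 0 then 1 else 0) := by
    intro t _
    rw [← mean_translate (isPer_dvd i 0 1 0) (fun _ => -(t : ℤ))]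
    simp [sub_eq_add_neg]
  have h2 : ∀ x : ι → ℤ, ∑ t ∈ range p, (if (p : ℤ) ∣ x i - t then (1 : ℂ) else 0) = 1 := by
    intro x
    have h3 := Int.emod_nonneg (x i) hp0.ne'
    have h4 := Int.emod_lt_of_pos (x i) hp0
    rw [sum_eq_single (x i % p).toNat, if_pos]
    · rw [Int.toNat_of_nonneg h3]
      exact Int.dvd_self_sub_emod
    · intro t ht hne
      rw [if_neg]
      intro hd
      apply hne
      rw [mem_range] at ht
      have h5 : (t : ℤ) % p = x i % p := Int.modEq_iff_dvd.2 hd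
      rw [Int.emod_eq_of_lt (by positivity) (by exact_mod_cast ht)] at h5
      omega
    · intro h
      exact absurd (mem_range.2 (by omega)) h
  have h3 := mean_sum (p := p) (range p) (Φ := fun (t : ℕ) (x : ι → ℤ) =>
    if (p : ℤ) ∣ x i - t then (1 : ℂ) else 0) (fun t _ => isPer_dvd i t 1 0)
  simp only [h2, mean_const] at h3
  rw [sum_congr rfl h1, sum_const, card_range, nsmul_eq_mul] at h3
  exact eq_inv_of_mul_eq_one_right h3.symm

lemma mean_split {Φ : (ι → ℤ) → ℂ} (h : IsPer p Φ) (i : ι) :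
    mean p (fun x => (if (p : ℤ) ∣ x i - 0 then 1 else 0) * Φ x) =
      (p : ℂ)⁻¹ * mean p (fun x => Φ (Function.update x i (p * x i))) := by
  obtain ⟨k, hk, h1, h2⟩ := h.common (isPer_dvd i 0 (1 : ℂ) 0)
  have h3 : Per (p ^ k) (fun x => (if (p : ℤ) ∣ x i - 0 then 1 else 0) * Φ x) :=
    fun x x' hx => congrArg₂ (· * ·) (h2 x x' hx) (h1 x x' hx)
  have h4 : Per (p ^ k) (fun x => Φ (Function.update x i (p * x i))) := by
    refine fun x x' hx => h1 _ _ (fun j => ?_)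
    by_cases hj : j = i
    · subst hj
      simpa using (hx j).mul_left _
    · simpa [hj] using hx j
  let ρ : (ι → ZMod (p ^ k)) →+ (ι → ZMod (p ^ k)) :=
    { toFun := fun x => Function.update x i (p * x i)
      map_zero' := by simp
      map_add' := fun x y => by
        ext j
        by_cases hj : j = i
        · subst hj; simp [mul_add]
        · simp [hj] }
  have himg : univ.image ρ = univ.filter (fun x => (p : ℤ) ∣ liftZ x i - 0) := by
    ext y
    simp only [mem_image, mem_univ, true_and, mem_filter, sub_zero]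
    constructor
    · rintro ⟨x, rfl⟩
      have e : ((liftZ (ρ x) i : ℤ) : ZMod (p ^ k)) = ((p * liftZ x i : ℤ) : ZMod (p ^ k)) := by
        rw [cast_liftZ, Int.cast_mul, cast_liftZ]
        simp [ρ]
      rw [ZMod.intCast_eq_intCast_iff_dvd_sub] at e
      have e2 : (p : ℤ) ∣ ((p ^ k : ℕ) : ℤ) := by
        push_cast
        exact dvd_pow_self _ (by omega)
      have e3 := dvd_sub (dvd_mul_right (p : ℤ) (liftZ x i)) (e2.trans e)
      simpa using e3
    · rintro ⟨t, ht⟩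
      refine ⟨Function.update y i (t : ZMod (p ^ k)), ?_⟩
      ext j
      by_cases hj : j = i
      · subst hj
        rw [← cast_liftZ y j, ht]
        simp [ρ]
      · simp [ρ, hj]
  have e1 := sum_hom ρ (fun y => Φ (liftZ y))
  have e2 := sum_hom ρ (fun _ => 1)
  have e3 := mean_dvd (p := p) i
  rw [himg] at e1 e2
  rw [mean_eq h2, avg, ← sum_filter] at e3
  have e4 : ∀ x : ι → ZMod (p ^ k), Φ (Function.update (liftZ x) i (p * liftZ x i)) =
      Φ (liftZ (ρ x)) := by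
    intro x
    refine h1.eq_liftZ _ _ (fun j => ?_)
    by_cases hj : j = i
    · subst hj
      simp [ρ, cast_liftZ]
    · simp [ρ, hj, cast_liftZ]
  rw [mean_eq h3, mean_eq h4, avg, avg, sum_congr rfl (fun x _ => e4 x), e1, ← e3]
  simp only [ite_mul, one_mul, zero_mul]
  rw [← sum_filter]
  simp only [sum_const, card_univ, nsmul_eq_mul, mul_one] at e2 ⊢
  have h0 := card_ne_zero' (ι := ι) (p ^ k)
  rw [div_mul_div_comm, ← mul_assoc, mul_comm (#(univ.filter _) : ℂ), ← e2,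
    mul_div_mul_left _ _ h0]

end Pool.Agent.MP_5d9b3c_ag.H22
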