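import Pool.Agent.MP_5d9b3c_ag.H22.Global
import Pool.Agent.MP_5d9b3c_ag.H22.Mean
import Pool.Agent.MP_5d9b3c_ag.H22.Chars

/-!
The exponential sums with independently scaled monomials.
-/

namespace Pool.Agent.MP_5d9b3c_ag.H22

open Finset

variable {κ ι : Type} [Fintype κ] [DecidableEq κ] [Fintype ι] [DecidableEq ι]

/-- The monomial terms. -/
def mon (A : κ → ι → ℕ) (c : κ → ℤ) (j : κ) (x : ι → ℤ) : ℤ := c j * ∏ i, x i ^ A j i

/-- The indicator that the coordinates in `B` are prime to `p`. -/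
noncomputable def ind (p : ℕ) (B : Finset ι) (x : ι → ℤ) : ℂ :=
  ∏ i ∈ B, if (p : ℤ) ∣ x i - 0 then 0 else 1

/-- The integrand. -/
noncomputable def integrand (p : ℕ) (A : κ → ι → ℕ) (c : κ → ℤ) (g : κ → ℤ → ℤ → ℂ)
    (T : Finset κ) (B : Finset ι) (z : Lat κ) (x : ι → ℤ) : ℂ :=
  ind p B x * ∏ j ∈ T, g j (z j) (mon A c j x)

variable {p : ℕ} [hp : Fact p.Prime] {A : κ → ι → ℕ} {c : κ → ℤ}

variable (p A c) in
/-- The mean of the integrand. -/
noncomputable def EE (g : κ → ℤ → ℤ → ℂ) (T : Finset κ) (B : Finset ι) : Fn κ :=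
  fun z => mean p (integrand p A c g T B z)

omit [Fintype κ] [DecidableEq κ] [DecidableEq ι] hp in
lemma mon_congr (j : κ) {N : ℕ} {x x' : ι → ℤ} (h : ∀ i, x i ≡ x' i [ZMOD N]) :
    mon A c j x ≡ mon A c j x' [ZMOD N] := by
  simp only [← ZMod.intCast_eq_intCast_iff] at h ⊢
  simp [mon, h]

omit [Fintype κ] [DecidableEq κ] [DecidableEq ι] hp in
lemma mon_scale (j : κ) (u x : ι → ℤ) :
    mon A c j (fun i => u i * x i) = (∏ i, u i ^ A j i) * mon A c j x := by
  simp only [mon, mul_pow, prod_mul_distrib]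
  ring

omit [Fintype κ] [DecidableEq κ] [DecidableEq ι] hp in
lemma isPer_ker {g : ℤ → ℤ → ℂ} (hg : Ker p g) (j : κ) (z : ℤ) :
    IsPer p (fun x : ι → ℤ => g z (mon A c j x)) :=
  ⟨z.toNat, fun _ _ hx => hg.per z z.toNat _ _ (by omega) (mon_congr j hx)⟩

omit [Fintype κ] [DecidableEq κ] [DecidableEq ι] hp in
lemma isPer_integrand {g : κ → ℤ → ℤ → ℂ} (hg : ∀ j, Ker p (g j)) (T : Finset κ) (B : Finset ι)
    (z : Lat κ) : IsPer p (integrand p A c g T B z) :=
  (IsPer.prod B (fun i _ => isPer_dvd i 0 0 1)).mul (IsPer.prod T (fun j _ => isPer_ker (hg j) j _))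

omit [Fintype κ] [DecidableEq κ] in
lemma EE_bdd {g : κ → ℤ → ℤ → ℂ} (hg : ∀ j, Ker p (g j)) (T : Finset κ) (B : Finset ι) :
    EE p A c g T B ∈ (Bdd : Submodule ℂ (Fn κ)) := by
  refine ⟨4 ^ #T, fun z => mean_norm_le (isPer_integrand hg T B z) (fun x => ?_)⟩
  rw [integrand, norm_mul, ind, norm_prod, norm_prod]
  have h1 : ∏ i ∈ B, ‖(if (p : ℤ) ∣ x i - 0 then 0 else 1 : ℂ)‖ ≤ 1 :=
    prod_le_one (fun _ _ => norm_nonneg _) (fun i _ => by split_ifs <;> simp)
  have h2 : ∏ j ∈ T, ‖g j (z j) (mon A c j x)‖ ≤ 4 ^ #T := by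
    rw [← prod_const]
    exact prod_le_prod (fun _ _ => norm_nonneg _) (fun j _ => (hg j).bdd _ _)
  have h3 : 0 ≤ ∏ j ∈ T, ‖g j (z j) (mon A c j x)‖ := prod_nonneg (fun _ _ => norm_nonneg _)
  nlinarith

omit [Fintype κ] [DecidableEq κ] in
lemma EE_rec {g : κ → ℤ → ℤ → ℂ} (hg : ∀ j, Ker p (g j)) (T : Finset κ) {B : Finset ι} {i : ι}
    (hi : i ∉ B) :
    act (uu (p : ℂ)⁻¹ (yv A i)) (EE p A c g T B) = EE p A c g T (insert i B) := by
  ext z
  have h1 : integrand p A c g T B z = fun x => integrand p A c g T (insert i B) z x +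
      (if (p : ℤ) ∣ x i - 0 then 1 else 0) * integrand p A c g T B z x := by
    ext x
    simp only [integrand, ind, prod_insert hi]
    split_ifs <;> ring
  have h2 : (fun x => integrand p A c g T B z (Function.update x i (p * x i))) =
      integrand p A c g T B (z - yv A i) := by
    ext x
    have e : Function.update x i (p * x i) = fun i' => (if i' = i then (p : ℤ) else 1) * x i' := by
      ext i'
      by_cases h : i' = i
      · subst h; simp
      · simp [h]
    unfold integrand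
    congr 1
    · refine prod_congr rfl (fun i' hi' => ?_)
      rw [Function.update_of_ne (by rintro rfl; exact hi hi')]
    · refine prod_congr rfl (fun j _ => ?_)
      rw [e, mon_scale, prod_eq_single i, if_pos rfl, (hg j).shift_pow]
      · rfl
      · intro b _ hb
        simp [hb]
      · intro h
        exact absurd (mem_univ i) h
  have h3 := mean_split (isPer_integrand (A := A) (c := c) hg T B z) i
  rw [h2] at h3
  rw [act_uu, EE, EE, EE, ← h3]
  conv_lhs => rw [h1]
  rw [mean_add (isPer_integrand hg T _ z) ((isPer_dvd i 0 1 0).mul (isPer_integrand hg T B z))]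
  conv_lhs => rw [← h1]
  ring

omit [Fintype κ] [DecidableEq κ] in
lemma EE_prod {g : κ → ℤ → ℤ → ℂ} (hg : ∀ j, Ker p (g j)) (T : Finset κ) (B : Finset ι) :
    act (∏ i ∈ B, uu (p : ℂ)⁻¹ (yv A i)) (EE p A c g T ∅) = EE p A c g T B := by
  induction B using Finset.induction_on with
  | empty => simp
  | insert i B hi ih => rw [prod_insert hi, act_mul, ih, EE_rec hg T hi]

variable (p) in
/-- The kernels attached to a set of monomials. -/
noncomputable def gJ (J : Finset κ) : κ → ℤ → ℤ → ℂ := fun j => if j ∈ J then gam p else eps p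

omit [Fintype κ] in
lemma ker_gJ (J : Finset κ) (j : κ) : Ker p (gJ p J j) := by
  unfold gJ
  split_ifs
  · exact ker_gam
  · exact ker_eps

omit hp in
lemma prod_gJ (J : Finset κ) (z : Lat κ) (a : κ → ℤ) :
    ∏ j, gJ p J j (z j) (a j) = (∏ j ∈ J, gam p (z j) (a j)) * ∏ j ∈ Jᶜ, eps p (z j) (a j) := by
  rw [← prod_mul_prod_compl J]
  congr 1
  · exact prod_congr rfl (fun j hj => by simp [gJ, hj])
  · exact prod_congr rfl (fun j hj => by simp [gJ, mem_compl.1 hj])

lemma sum_EE : ∑ J : Finset κ, EE p A c (gJ p J) univ ∅ = EE p A c (fun _ => chi p) univ ∅ := by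
  ext z
  rw [Finset.sum_apply]
  simp only [EE]
  rw [← mean_sum univ (fun J _ => isPer_integrand (ker_gJ J) univ ∅ z)]
  congr 1
  ext x
  simp only [integrand, ind, prod_empty, one_mul, prod_gJ]
  have : ∀ j, chi p (z j) (mon A c j x) = gam p (z j) (mon A c j x) + eps p (z j) (mon A c j x) := by
    intro j
    rw [eps]
    ring
  simp only [this]
  rw [prod_add, powerset_univ]
  simp only [compl_eq_univ_sdiff]

omit [DecidableEq ι] in
lemma not_dvd_prod_pow {x : ι → ℤ} (hx : ∀ i, ¬ (p : ℤ) ∣ x i) (n : ι → ℕ) :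
    ¬ (p : ℤ) ∣ ∏ i, x i ^ n i := by
  have hpr := Nat.prime_iff_prime_int.1 hp.out
  rw [hpr.dvd_finsetProd_iff]
  rintro ⟨i, _, hi⟩
  exact hx i (hpr.dvd_of_dvd_pow hi)

omit [DecidableEq ι] hp in
lemma ind_univ_eq_zero {x : ι → ℤ} (hx : ¬ ∀ i, ¬ (p : ℤ) ∣ x i) : ind p univ x = 0 := by
  push Not at hx
  obtain ⟨i, hi⟩ := hx
  exact prod_eq_zero (mem_univ i) (by simp [hi])

omit [DecidableEq ι] [Fintype ι] in
lemma ind_scale (B : Finset ι) {u : ι → ℤ} (hu : ∀ i, ¬ (p : ℤ) ∣ u i) (x : ι → ℤ) :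
    ind p B (fun i => u i * x i) = ind p B x := by
  have hpr := Nat.prime_iff_prime_int.1 hp.out
  refine prod_congr rfl (fun i _ => if_congr ?_ rfl rfl)
  simp only [sub_zero, hpr.dvd_mul, hu i, false_or]

variable (p A c) in
/-- The part of the integral over units that does not factor. -/
noncomputable def Psi (J : Finset κ) : Fn κ := EE p A c (fun _ => eps p) Jᶜ univ

lemma EE_univ (J : Finset κ) (z : Lat κ) :
    EE p A c (gJ p J) univ univ z = (∏ j ∈ J, gam p (z j) (c j)) * Psi p A c J z := by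
  rw [Psi, EE, EE, ← mean_const_mul (isPer_integrand (fun _ => ker_eps) _ _ _)]
  congr 1
  ext x
  simp only [integrand, prod_gJ]
  by_cases hx : ∀ i, ¬ (p : ℤ) ∣ x i
  · have : ∀ j ∈ J, gam p (z j) (mon A c j x) = gam p (z j) (c j) := by
      intro j _
      rw [mon, mul_comm, gam_unit _ _ (not_dvd_prod_pow hx _)]
    rw [prod_congr rfl this]
    ring
  · rw [ind_univ_eq_zero hx]
    ring

lemma Psi_congr (J : Finset κ) {z z' : Lat κ} (h : ∀ j, j ∉ J → z j = z' j) :
    Psi p A c J z = Psi p A c J z' := by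
  rw [Psi, EE, EE]
  congr 1
  ext x
  simp only [integrand]
  congr 1
  exact prod_congr rfl (fun j hj => by rw [h j (mem_compl.1 hj)])

omit [Fintype κ] in
lemma act_prod_factor (P : ℂ) (h : κ → ℤ → ℂ) (J : Finset κ) (Ψ : Fn κ)
    (hΨ : ∀ j ∈ J, ∀ z, Ψ (z - ee j) = Ψ z) :
    act (∏ j ∈ J, (P • 1 - U (ee j))) (fun z => (∏ j ∈ J, h j (z j)) * Ψ z) =
      fun z => (∏ j ∈ J, (P * h j (z j) - h j (z j - 1))) * Ψ z := by
  induction J using Finset.induction_on generalizing Ψ with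
  | empty => simp
  | insert a J ha ih =>
    have h1 := ih (fun z => h a (z a) * Ψ z) (fun j hj z => by
      have : (z - ee j : Lat κ) a = z a := by
        have : a ≠ j := by rintro rfl; exact ha hj
        simp [ee, this]
      simp only [this, hΨ j (mem_insert_of_mem hj)])
    have e : (fun z : Lat κ => (∏ j ∈ insert a J, h j (z j)) * Ψ z) =
        fun z => (∏ j ∈ J, h j (z j)) * (h a (z a) * Ψ z) := by
      ext z
      rw [prod_insert ha]
      ring
    rw [prod_insert ha, act_mul, e, h1]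
    ext z
    have e2 : ∏ j ∈ J, (P * h j ((z - ee a : Lat κ) j) - h j ((z - ee a : Lat κ) j - 1)) =
        ∏ j ∈ J, (P * h j (z j) - h j (z j - 1)) := by
      refine prod_congr rfl (fun j hj => ?_)
      have : j ≠ a := by rintro rfl; exact ha hj
      simp [ee, this]
    have e3 : (z - ee a : Lat κ) a = z a - 1 := by simp [ee]
    rw [map_sub, map_smul, map_one, LinearMap.sub_apply, Pi.sub_apply, act_U, e2, e3,
      hΨ a (mem_insert_self _ _), prod_insert ha]
    simp only [LinearMap.smul_apply, Module.End.one_apply, Pi.smul_apply, smul_eq_mul]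
    ring

variable (p A c) in
/-- The function before the numerators are applied. -/
noncomputable def HH (J : Finset κ) : Fn κ :=
  fun z => (∏ j ∈ J, DD p (z j) (c j) / (p - 1)) * Psi p A c J z

lemma act_HH (J : Finset κ) :
    act (∏ j ∈ J, ((p : ℂ) • 1 - U (ee j))) (HH p A c J) = EE p A c (gJ p J) univ univ := by
  unfold HH
  rw [act_prod_factor (p : ℂ) (fun j t => DD p t (c j) / (p - 1)) J (Psi p A c J)]
  · ext z
    rw [EE_univ]
    congr 1
    refine prod_congr rfl (fun j _ => ?_)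
    rw [gam]
    ring
  · intro j hj z
    refine Psi_congr J (fun j' hj' => ?_)
    have : j' ≠ j := by rintro rfl; exact hj' hj
    simp [ee, this]

omit [Fintype κ] [DecidableEq κ] in
lemma mean_eq_zero_of_sum {Φ : (ι → ℤ) → ℂ} (h : IsPer p Φ) (W : Finset ℕ) (hW : W.Nonempty)
    (u : ℕ → ι → ℤ) (hu : ∀ w ∈ W, ∀ i, ¬ (p : ℤ) ∣ u w i)
    (h0 : ∀ x : ι → ℤ, ∑ w ∈ W, Φ (fun i => u w i * x i) = 0) : mean p Φ = 0 := by
  have h1 := mean_sum (p := p) W (Φ := fun w x => Φ (fun i => u w i * x i)) (fun w _ =>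
    h.comp (fun x i => u w i * x i) (fun N x x' hx i => (hx i).mul_left _))
  simp only [h0, mean_const] at h1
  rw [sum_congr rfl (fun w hw => mean_scale h (u w) (hu w hw)), sum_const, nsmul_eq_mul] at h1
  have : (#W : ℂ) ≠ 0 := by exact_mod_cast hW.card_pos.ne'
  exact (mul_eq_zero.1 h1.symm).resolve_left this

lemma Psi_of_not_closed {J : Finset κ} (hJ : ¬ Closed A J) : Psi p A c J = 0 := by
  unfold Closed at hJ
  push Not at hJ
  obtain ⟨i, j, hj, hA, h0⟩ := hJ
  ext z
  have hp1 : ¬ (p : ℤ) ∣ 1 := (Nat.prime_iff_prime_int.1 hp.out).not_dvd_one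
  refine mean_eq_zero_of_sum (isPer_integrand (fun _ => ker_eps) _ _ _)
    ((range (p ^ ((z j).toNat + 1))).filter (fun w => ¬ p ∣ w))
    ⟨1, mem_filter.2 ⟨mem_range.2 (Nat.one_lt_pow (by omega) hp.out.one_lt),
      hp.out.not_dvd_one⟩⟩
    (fun w i' => if i' = i then (w : ℤ) else 1) ?_ ?_
  · intro w hw i'
    split_ifs
    · exact_mod_cast (mem_filter.1 hw).2
    · exact hp1
  · intro x
    have e : ∀ w ∈ (range (p ^ ((z j).toNat + 1))).filter (fun w => ¬ p ∣ w),
        integrand p A c (fun _ => eps p) Jᶜ univ z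
          (fun i' => (if i' = i then (w : ℤ) else 1) * x i') =
        (ind p univ x * ∏ j' ∈ Jᶜ.erase j, eps p (z j') (mon A c j' x)) *
          eps p (z j) (w * mon A c j x) := by
      intro w hw
      have e1 : ∀ j', ∏ i', (if i' = i then (w : ℤ) else 1) ^ A j' i' = (w : ℤ) ^ A j' i := by
        intro j'
        rw [prod_eq_single i, if_pos rfl]
        · intro b _ hb
          simp [hb]
        · intro h
          exact absurd (mem_univ i) h
      rw [integrand, ind_scale, ← prod_erase_mul _ _ (mem_compl.2 hj), mon_scale, e1, hA, pow_one,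
        mul_assoc]
      · congr 2
        refine prod_congr rfl (fun j' hj' => ?_)
        rw [mon_scale, e1, h0 j' (mem_erase.1 hj').1 (mem_compl.1 (mem_erase.1 hj').2), pow_zero,
          one_mul]
      · intro i'
        split_ifs
        · exact_mod_cast (mem_filter.1 hw).2
        · exact hp1
    rw [sum_congr rfl e, ← mul_sum, unit_sum_eps (by push_cast; omega), mul_zero]

lemma Psi_of_big (hc : ∀ j, c j ≠ 0) (kv : κ → ι → ℤ) (d : κ → ℤ) (hd : ∀ j, d j ≠ 0)
    (hkv : ∀ j j', ∑ i, kv j i * A j' i = if j' = j then d j else 0) {M : ℤ}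
    (hM : ∀ j, 2 * ((c j * d j).natAbs : ℤ) + 2 ≤ M) {J : Finset κ} {z : Lat κ} {j0 : κ}
    (hj0 : j0 ∉ J) (hz : M < z j0) : Psi p A c J z = 0 := by
  obtain ⟨j, hj, hmax⟩ := exists_max_image Jᶜ z ⟨j0, mem_compl.2 hj0⟩
  have hzj : M < z j := lt_of_lt_of_le hz (hmax j0 (mem_compl.2 hj0))
  have hMj := hM j
  obtain ⟨k, hk1, hk2⟩ : ∃ k : ℕ, z j ≤ (2 * k : ℕ) ∧ ((c j * d j).natAbs : ℤ) ≤ z j - k :=
    ⟨((z j + 1) / 2).toNat, by push_cast; omega, by omega⟩
  have hk0 : 1 ≤ k := by omega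
  have hpr := Nat.prime_iff_prime_int.1 hp.out
  have hu : ∀ (w : ℕ) (i : ι), ¬ (p : ℤ) ∣ 1 + (p : ℤ) ^ k * (w * kv j i) := by
    intro w i h
    have h1 : (p : ℤ) ∣ (p : ℤ) ^ k * (w * kv j i) := (dvd_pow_self _ (by omega)).mul_right _
    exact hpr.not_dvd_one ((dvd_add_left h1).1 h)
  have hcabs : ((c j).natAbs : ℤ) ≤ (c j * d j).natAbs := by
    rw [Int.natAbs_mul]
    have := Int.natAbs_pos.2 (hd j)
    push_cast
    have h1 : (1 : ℤ) ≤ |d j| := by
      rw [← Int.natCast_natAbs]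
      omega
    nlinarith [abs_nonneg (c j)]
  refine mean_eq_zero_of_sum (isPer_integrand (fun _ => ker_eps) _ _ _)
    (range (p ^ (z j).toNat)) ⟨0, mem_range.2 (pow_pos hp.out.pos _)⟩
    (fun w i => 1 + (p : ℤ) ^ k * (w * kv j i)) (fun w _ i => hu w i) (fun x => ?_)
  by_cases hx : ∀ i, ¬ (p : ℤ) ∣ x i
  · have e : ∀ w ∈ range (p ^ (z j).toNat),
        integrand p A c (fun _ => eps p) Jᶜ univ z
          (fun i => (1 + (p : ℤ) ^ k * (w * kv j i)) * x i) =
        (ind p univ x * (∏ j' ∈ Jᶜ.erase j, eps p (z j') (mon A c j' x)) *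
          chi p (z j) (mon A c j x)) * chi p (z j) (w * ((p : ℤ) ^ k * (d j * mon A c j x))) := by
      intro w _
      have e1 : ∀ j', (∏ i, (1 + (p : ℤ) ^ k * (w * kv j i)) ^ A j' i) * mon A c j' x ≡
          mon A c j' x + w * ((p : ℤ) ^ k * ((if j' = j then d j else 0) * mon A c j' x))
          [ZMOD (p ^ (2 * k) : ℕ)] := by
        intro j'
        obtain ⟨r, hr⟩ := prod_one_add_modEq univ ((p : ℤ) ^ k) (fun i => w * kv j i) (A j')
        rw [hr, ← hkv j j']
        simp only [mul_assoc, ← mul_sum]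
        refine (Int.modEq_iff_dvd.2 ⟨-(r * mon A c j' x), ?_⟩)
        push_cast
        ring
      rw [integrand, ind_scale _ (hu w), ← prod_erase_mul _ _ hj, mon_scale, eps,
        gam_unit _ _ (not_dvd_prod_pow (hu w) _), chi_congr hk1 (e1 j), if_pos rfl, chi_add]
      have e2 : gam p (z j) (mon A c j x) = 0 := by
        rw [mon, mul_comm, gam_unit _ _ (not_dvd_prod_pow hx _), gam,
          DD_eq_zero (hc j) (by omega), DD_eq_zero (hc j) (by omega)]
        simp
      have e3 : ∏ j' ∈ Jᶜ.erase j, eps p (z j')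
          (mon A c j' fun i => (1 + (p : ℤ) ^ k * (w * kv j i)) * x i) =
          ∏ j' ∈ Jᶜ.erase j, eps p (z j') (mon A c j' x) := by
        refine prod_congr rfl (fun j' hj' => ?_)
        rw [mon_scale, ker_eps.per (z j') (2 * k) _ _
          (le_trans (hmax j' (mem_erase.1 hj').2) hk1) (e1 j'), if_neg (mem_erase.1 hj').1]
        simp
      rw [e2, e3]
      ring
    rw [sum_congr rfl e, ← mul_sum, geom (by omega)]
    have e4 : DD p (z j) ((p : ℤ) ^ k * (d j * mon A c j x)) = 0 := by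
      have hD : Ker p (DD p) := ⟨DD_p_mul, fun _ _ _ _ hz h => DD_congr hz h,
        fun z a => (norm_DD z a).trans (by norm_num)⟩
      have e5 : d j * mon A c j x = (∏ i, x i ^ A j i) * (c j * d j) := by
        rw [mon]
        ring
      rw [hD.shift_pow, e5, DD_unit _ _ (not_dvd_prod_pow hx _),
        DD_eq_zero (mul_ne_zero (hc j) (hd j)) hk2]
    rw [e4]
    simp
  · refine sum_eq_zero (fun w _ => ?_)
    rw [integrand, ind_scale _ (hu w), ind_univ_eq_zero hx, zero_mul]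

lemma hcl_HH (hc : ∀ j, c j ≠ 0) (kv : κ → ι → ℤ) (d : κ → ℤ) (hd : ∀ j, d j ≠ 0)
    (hkv : ∀ j j', ∑ i, kv j i * A j' i = if j' = j then d j else 0) :
    ∃ M : ℤ, ∀ J, Hcl J M (HH p A c J) := by
  have hM : ∀ j, 2 * ((c j * d j).natAbs : ℤ) + 2 ≤
      ((2 * ∑ j, (c j * d j).natAbs + 2 : ℕ) : ℤ) := by
    intro j
    have := single_le_sum (f := fun j => (c j * d j).natAbs) (fun _ _ => Nat.zero_le _)
      (mem_univ j)
    omega
  refine ⟨((2 * ∑ j, (c j * d j).natAbs + 2 : ℕ) : ℤ), fun J => ⟨fun z j hz => ?_,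
    fun z j hj hz => ?_, fun z j hj hz => ?_⟩⟩
  · by_cases hj : j ∈ J
    · have h1 := hM j
      have hcabs : (c j).natAbs ≤ (c j * d j).natAbs := by
        rw [Int.natAbs_mul]
        exact Nat.le_mul_of_pos_right _ (Int.natAbs_pos.2 (hd j))
      rw [HH, prod_eq_zero hj, zero_mul]
      rw [DD_eq_zero (hc j) (by omega), zero_div]
    · rw [HH, Psi_of_big hc kv d hd hkv hM hj hz, mul_zero]
  · have : integrand p A c (fun _ => eps p) Jᶜ univ z = fun _ => 0 := by
      ext x
      rw [integrand, prod_eq_zero (mem_compl.2 hj) (eps_of_nonpos (by omega) _), mul_zero]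
    rw [HH, Psi, EE, this, mean_const, mul_zero]
  · rw [HH, HH, Psi_congr J (z' := z)]
    · congr 1
      refine prod_congr rfl (fun j' _ => ?_)
      by_cases h : j' = j
      · subst h
        rw [DD_of_nonpos (by simp [ee]; omega), DD_of_nonpos (by omega)]
      · simp [ee, h]
    · intro j' hj'
      have : j' ≠ j := by rintro rfl; exact hj' hj
      simp [ee, this]

theorem padic_main (hc : ∀ j, c j ≠ 0) (kv : κ → ι → ℤ) (d : κ → ℤ) (hd : ∀ j, d j ≠ 0)
    (hkv : ∀ j j', ∑ i, kv j i * A j' i = if j' = j then d j else 0)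
    {b : Polynomial ℂ} (hb : Star A b) :
    ∃ R : Polynomial ℂ,
      act (Polynomial.aeval (U (z0 κ)) R) (EE p A c (fun _ => chi p) univ ∅) ∈ Ray (z0 κ) ∧
      ∀ T : ℂ, R.eval T = 0 → b.eval ((-(Real.log ‖T‖ / Real.log p) : ℝ) : ℂ) = 0 := by
  obtain ⟨M, hM⟩ := hcl_HH (p := p) hc kv d hd hkv
  rw [← sum_EE]
  refine global (p := (p : ℝ)) (by exact_mod_cast hp.out.one_lt) hb _ (HH p A c) M
    (fun J => EE_bdd (ker_gJ J) _ _) hM (fun J => ?_) (fun J => ?_)
  · rw [Complex.ofReal_natCast, EE_prod (ker_gJ J), act_HH]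
  · by_cases hJ : Closed A J
    · exact Or.inl hJ
    · right
      ext z
      rw [HH, Psi_of_not_closed hJ]
      simp

end Pool.Agent.MP_5d9b3c_ag.H22
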