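import Pool.Agent.MP_5d9b3c_ag.H22.Glob2
import Pool.Agent.MP_5d9b3c_ag.H22.Padic

/-!
The exponential sums as functions on the lattice of the vertices.
-/

namespace Pool.Agent.MP_5d9b3c_ag.H22

open Finset

section Neumann

variable {V : Type}

lemma bdd_surj {ξ : ℂ} (hξ : ‖ξ‖ < 1) (y : Lat V) {Θ : Fn V}
    (hΘ : Θ ∈ (Bdd : Submodule ℂ (Fn V))) :
    ∃ Ξ ∈ (Bdd : Submodule ℂ (Fn V)), act (uu ξ y) Ξ = Θ := by
  obtain ⟨C, hC⟩ := hΘ
  have hb : ∀ (z : Lat V) (l : ℕ), ‖ξ ^ l * Θ (z - l • y)‖ ≤ ‖ξ‖ ^ l * C := fun z l => by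
    rw [norm_mul, norm_pow]
    exact mul_le_mul_of_nonneg_left (hC _) (by positivity)
  have hg := (hasSum_geometric_of_lt_one (norm_nonneg ξ) hξ).mul_right C
  have hs : ∀ z : Lat V, Summable (fun l : ℕ => ξ ^ l * Θ (z - l • y)) := fun z =>
    Summable.of_norm_bounded hg.summable (hb z)
  refine ⟨fun z => ∑' l : ℕ, ξ ^ l * Θ (z - l • y), ⟨_, fun z => tsum_of_norm_bounded hg (hb z)⟩, ?_⟩
  ext z
  rw [act_uu, (hs z).tsum_eq_zero_add, ← tsum_mul_left]
  have : ∀ l : ℕ, ξ ^ (l + 1) * Θ (z - (l + 1) • y) = ξ * (ξ ^ l * Θ (z - y - l • y)) := by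
    intro l
    rw [succ_nsmul', ← sub_sub, pow_succ']
    ring
  simp only [this]
  simp

lemma bdd_surj_prod {ι : Type} (s : Finset ι) {ξ : ℂ} (hξ : ‖ξ‖ < 1) (y : ι → Lat V) {Θ : Fn V}
    (hΘ : Θ ∈ (Bdd : Submodule ℂ (Fn V))) :
    ∃ Ξ ∈ (Bdd : Submodule ℂ (Fn V)), act (∏ i ∈ s, uu ξ (y i)) Ξ = Θ := by
  classical
  induction s using Finset.induction_on generalizing Θ with
  | empty => exact ⟨Θ, hΘ, by simp⟩
  | insert a s ha ih =>
    obtain ⟨Ξ, h1, h2⟩ := bdd_surj hξ (y a) hΘ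
    obtain ⟨Ξ', h3, h4⟩ := ih h1
    exact ⟨Ξ', h3, by rw [prod_insert ha, act_mul, h4, h2]⟩

lemma bdd_vanish_prod {ι : Type} (s : Finset ι) {ξ : ℂ} (hξ : ‖ξ‖ < 1) (y : ι → Lat V)
    (Z : Set (Lat V)) (hZ : ∀ i, ∀ z ∈ Z, z - y i ∈ Z) {Θ : Fn V}
    (hΘ : Θ ∈ (Bdd : Submodule ℂ (Fn V))) (h : ∀ z ∈ Z, act (∏ i ∈ s, uu ξ (y i)) Θ z = 0) :
    ∀ z ∈ Z, Θ z = 0 := by
  classical
  induction s using Finset.induction_on generalizing Θ with
  | empty => simpa using h
  | insert a s ha ih =>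
    rw [prod_insert ha, mul_comm, act_mul] at h
    exact bdd_vanish hΘ hξ Z (hZ a) (ih (act_mem_Bdd _ hΘ) h)

end Neumann

variable {κ V ι : Type} [Fintype κ] [DecidableEq κ] [Fintype V] [DecidableEq V] [Fintype ι]
  [DecidableEq ι]

/-- The map between the lattices. -/
def hh (Q : κ → V → ℕ) (m : ℕ) (z : Lat V) : Lat κ := fun j => (∑ v, Q j v * z v) / m

/-- The data of the unfolding. -/
structure Unf (A : κ → ι → ℕ) (B : V → ι → ℕ) (Q : κ → V → ℕ) (m : ℕ) (e : V → κ) : Prop where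
  pos : 0 < m
  sum : ∀ j i, m * A j i = ∑ v, Q j v * B v i
  sum1 : ∀ j, ∑ v, Q j v = m
  eA : ∀ v, A (e v) = B v
  eQ : ∀ v w, Q (e v) w = if w = v then m else 0
  inj : Function.Injective A

variable {p : ℕ} [hp : Fact p.Prime] {A : κ → ι → ℕ} {B : V → ι → ℕ} {Q : κ → V → ℕ} {m : ℕ}
  {e : V → κ} {c : κ → ℤ}

variable (p A Q m c) in
/-- The integral over units of the monomials supported on `W`. -/
noncomputable def Phi (W : Finset V) : Fn V :=
  fun z => EE p A c (fun _ => chi p) (kap Q W) univ (hh Q m z)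

omit [DecidableEq κ] in
lemma Phi_congr {W : Finset V} {z z' : Lat V} (h : ∀ v ∈ W, z v = z' v) :
    Phi p A Q m c W z = Phi p A Q m c W z' := by
  rw [Phi, Phi, EE, EE]
  congr 1
  ext x
  simp only [integrand]
  congr 1
  refine prod_congr rfl (fun j hj => ?_)
  have : hh Q m z j = hh Q m z' j := by
    simp only [hh]
    congr 1
    refine sum_congr rfl (fun v _ => ?_)
    by_cases hv : v ∈ W
    · rw [h v hv]
    · simp [mem_kap.1 hj v hv]
  rw [this]

omit [DecidableEq κ] [Fintype ι] [DecidableEq ι] hp in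
lemma kap_erase (W : Finset V) (v : V) : kap Q (W.erase v) ⊆ kap Q W := fun _ hj =>
  mem_kap.2 (fun w hw => mem_kap.1 hj w (fun h => hw (mem_of_mem_erase h)))

omit [DecidableEq κ] in
lemma Phi_drop (hu : Unf A B Q m e) {W : Finset V} {z : Lat V} {M : ℕ} (h : ∀ w ∈ W, z w ≤ M)
    {v : V} (hv : z v ≤ -(m * M)) : Phi p A Q m c W z = Phi p A Q m c (W.erase v) z := by
  rw [Phi, Phi, EE, EE]
  congr 1
  ext x
  simp only [integrand]
  congr 1
  refine (prod_subset (kap_erase W v) (fun j hj hj' => ?_)).symm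
  have h1 : Q j v ≠ 0 := fun h0 => hj' (mem_kap.2 (fun w hw => by
    by_cases hwv : w = v
    · rw [hwv, h0]
    · exact mem_kap.1 hj w (fun h => hw (mem_erase.2 ⟨hwv, h⟩))))
  have h2 : ∑ w, (Q j w : ℤ) * z w ≤ ∑ w, ((Q j w : ℤ) * M - if w = v then (m * M : ℤ) else 0) := by
    refine sum_le_sum (fun w _ => ?_)
    split_ifs with hwv
    · subst hwv
      have : (1 : ℤ) ≤ Q j w := by omega
      have : (0 : ℤ) ≤ m * M := by positivity
      have : (0 : ℤ) ≤ Q j w * M := by positivity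
      nlinarith
    · by_cases hw : w ∈ W
      · have := h w hw
        have : (0 : ℤ) ≤ Q j w := by positivity
        nlinarith
      · simp [mem_kap.1 hj w hw]
  have h3 : ∑ w, (Q j w : ℤ) = m := by exact_mod_cast hu.sum1 j
  rw [sum_sub_distrib, ← sum_mul, h3, sum_ite_eq' univ v, if_pos (mem_univ _), sub_self] at h2
  have h4 : hh Q m z j ≤ 0 := Int.ediv_nonpos_of_nonpos_of_neg h2 (by exact_mod_cast hu.pos)
  have h5 : (hh Q m z j).toNat = 0 := by omega
  exact (chi_eq_one_iff _ _).2 (by simp [h5])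

omit [Fintype κ] [DecidableEq κ] [Fintype ι] [DecidableEq ι] hp in
lemma Unf.hh_e (hu : Unf A B Q m e) (z : Lat V) (v : V) : hh Q m z (e v) = z v := by
  have h0 : (m : ℤ) ≠ 0 := by exact_mod_cast hu.pos.ne'
  simp [hh, hu.eQ, Int.mul_ediv_cancel_left _ h0]

lemma Phi_factor (hu : Unf A B Q m e) {W : Finset V} {v : V} (hv : v ∈ W) {i : ι}
    (h1 : B v i = 1) (h2 : ∀ w ∈ W, w ≠ v → B w i = 0) (z : Lat V) :
    Phi p A Q m c W z = gam p (z v) (c (e v)) * Phi p A Q m c (W.erase v) z := by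
  have hs : ∀ j ∈ kap Q W, m * A j i = Q j v := fun j hj => by
    rw [hu.sum, sum_eq_single v, h1, mul_one]
    · intro w _ hw
      by_cases hwW : w ∈ W
      · rw [h2 w hwW hw, mul_zero]
      · rw [mem_kap.1 hj w hwW, zero_mul]
    · simp
  have he : e v ∉ kap Q (W.erase v) := fun h => by
    have := mem_kap.1 h v (notMem_erase _ _)
    rw [hu.eQ, if_pos rfl] at this
    exact hu.pos.ne' this
  have hk : kap Q W = insert (e v) (kap Q (W.erase v)) := by
    ext j
    rw [mem_insert]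
    refine ⟨fun hj => ?_, ?_⟩
    · by_cases h0 : Q j v = 0
      · refine Or.inr (mem_kap.2 (fun w hw => ?_))
        by_cases hwv : w = v
        · rw [hwv, h0]
        · exact mem_kap.1 hj w (fun h => hw (mem_erase.2 ⟨hwv, h⟩))
      · left
        have h3 := hs j hj
        have h4 : m ≤ Q j v := h3 ▸ Nat.le_mul_of_pos_right _ (Nat.pos_of_ne_zero (fun h => by
          rw [h, mul_zero] at h3
          exact h0 h3.symm))
        have h5 := hu.sum1 j
        rw [← add_sum_erase _ _ (mem_univ v)] at h5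
        have h6 : ∑ w ∈ univ.erase v, Q j w = 0 := by omega
        rw [sum_eq_zero_iff] at h6
        refine hu.inj (funext (fun i' => Nat.eq_of_mul_eq_mul_left hu.pos ?_))
        rw [hu.sum, hu.eA, sum_eq_single v (fun w _ hw => by
          rw [h6 w (mem_erase.2 ⟨hw, mem_univ _⟩), zero_mul]) (by simp)]
        congr 1
        have := sum_eq_zero h6
        omega
    · rintro (rfl | hj)
      · exact mem_kap.2 (fun w hw => by rw [hu.eQ, if_neg (by rintro rfl; exact hw hv)])
      · exact kap_erase W v hj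
  have hA : ∀ j ∈ kap Q (W.erase v), A j i = 0 := fun j hj => by
    have := hs j (kap_erase W v hj)
    rw [mem_kap.1 hj v (notMem_erase _ _)] at this
    exact (mul_eq_zero.1 this).resolve_left hu.pos.ne'
  obtain ⟨R, hR⟩ : ∃ R, R = integrand p A c (fun _ => chi p) (kap Q (W.erase v)) univ (hh Q m z) :=
    ⟨_, rfl⟩
  have hRp : IsPer p R := hR ▸ isPer_integrand (fun _ => ker_chi) _ _ _
  have e1 : integrand p A c (fun _ => chi p) (kap Q W) univ (hh Q m z) = fun x =>
      gam p (z v) (c (e v)) * R x + R x * eps p (z v) (mon A c (e v) x) := by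
    ext x
    rw [hR, integrand, integrand, hk, prod_insert he, hu.hh_e, eps]
    by_cases hx : ∀ i, ¬ (p : ℤ) ∣ x i
    · rw [mon, mul_comm (c (e v)), gam_unit _ _ (not_dvd_prod_pow hx _)]
      ring
    · rw [ind_univ_eq_zero hx]
      ring
  have hp1 : ¬ (p : ℤ) ∣ 1 := (Nat.prime_iff_prime_int.1 hp.out).not_dvd_one
  have e2 : mean p (fun x => R x * eps p (z v) (mon A c (e v) x)) = 0 := by
    have hw : ∀ w ∈ (range (p ^ ((z v).toNat + 1))).filter (fun w => ¬ p ∣ w), ∀ i',
        ¬ (p : ℤ) ∣ (if i' = i then (w : ℤ) else 1) := by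
      intro w hw i'
      split_ifs
      · exact_mod_cast (mem_filter.1 hw).2
      · exact hp1
    refine mean_eq_zero_of_sum (hRp.mul (isPer_ker ker_eps _ _))
      ((range (p ^ ((z v).toNat + 1))).filter (fun w => ¬ p ∣ w))
      ⟨1, mem_filter.2 ⟨mem_range.2 (Nat.one_lt_pow (by omega) hp.out.one_lt),
        hp.out.not_dvd_one⟩⟩
      (fun w i' => if i' = i then (w : ℤ) else 1) hw (fun x => ?_)
    have e3 : ∀ (w : ℕ) j', ∏ i', (if i' = i then (w : ℤ) else 1) ^ A j' i' = (w : ℤ) ^ A j' i := by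
      intro w j'
      rw [prod_eq_single i, if_pos rfl]
      · intro b _ hb
        simp [hb]
      · simp
    rw [sum_congr rfl (g := fun w : ℕ => R x * eps p (z v) (w * mon A c (e v) x)) (fun w hw' => by
      rw [mon_scale, e3, hu.eA, h1, pow_one, hR, integrand, integrand, ind_scale _ (hw w hw')]
      congr 2
      exact prod_congr rfl (fun j hj => by rw [mon_scale, e3, hA j hj, pow_zero, one_mul])),
      ← mul_sum, unit_sum_eps (by push_cast; omega), mul_zero]
  rw [Phi, Phi, EE, EE, e1, ← hR, mean_add ((IsPer.const _).mul hRp)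
    (hRp.mul (isPer_ker ker_eps _ _)), e2, add_zero, mean_const_mul hRp]

lemma Phi_factor_prod (hu : Unf A B Q m e) (T : Finset V) {W : Finset V} (hT : T ⊆ W)
    (h : ∀ v ∈ T, ∃ i, B v i = 1 ∧ ∀ w ∈ W, w ≠ v → B w i = 0) (z : Lat V) :
    Phi p A Q m c W z = (∏ v ∈ T, gam p (z v) (c (e v))) * Phi p A Q m c (W \ T) z := by
  induction T using Finset.induction_on with
  | empty => simp
  | insert v T hv ih =>
    obtain ⟨i, h1, h2⟩ := h v (mem_insert_self _ _)
    rw [ih (fun w hw => hT (mem_insert_of_mem hw)) (fun w hw => h w (mem_insert_of_mem hw)),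
      Phi_factor hu (mem_sdiff.2 ⟨hT (mem_insert_self _ _), hv⟩) h1
        (fun w hw => h2 w (mem_sdiff.1 hw).1), prod_insert hv, sdiff_insert]
    ring

/-- Alternating sums. -/
noncomputable def alt (φ : Finset V → ℂ) (W P : Finset V) : ℂ :=
  ∑ P' ∈ P.powerset, (-1) ^ #P' * φ (W \ P')

omit [Fintype V] in
lemma alt_insert (φ : Finset V → ℂ) (W : Finset V) {P : Finset V} {v : V} (hv : v ∉ P) :
    alt φ W (insert v P) = alt φ W P - alt φ (W.erase v) P := by
  rw [alt, sum_powerset_insert hv, sub_eq_add_neg, alt, alt, ← sum_neg_distrib]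
  congr 1
  refine sum_congr rfl (fun P' hP' => ?_)
  rw [card_insert_of_notMem (fun h => hv (mem_powerset.1 hP' h)), sdiff_insert, erase_sdiff_comm]
  ring

omit [Fintype V] in
lemma sum_alt (φ : Finset V → ℂ) (Z W : Finset V) :
    ∑ J ∈ Z.powerset, alt φ (W \ J) (Z \ J) = φ W := by
  induction Z using Finset.induction_on with
  | empty => simp [alt]
  | insert v Z hv ih =>
    rw [sum_powerset_insert hv, ← ih, ← sum_add_distrib]
    refine sum_congr rfl (fun J hJ => ?_)
    have hJ' : v ∉ J := fun h => hv (mem_powerset.1 hJ h)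
    have h1 : v ∉ Z \ J := fun h => hv (mem_sdiff.1 h).1
    rw [insert_sdiff_of_notMem _ hJ', alt_insert _ _ h1, sdiff_insert, insert_sdiff_insert,
      sdiff_insert, erase_eq_of_notMem h1, sub_add_cancel]

theorem model (hu : Unf A B Q m e) (hc : ∀ j, c j ≠ 0)
    (hph : ∃ M : ℕ, ∀ (θ : ℤ) (L : ι → ℕ) (j : κ), M < θ - ∑ i, (L i : ℤ) * A j i →
      EE p A c (fun _ => chi p) univ univ (fun j => θ - ∑ i, (L i : ℤ) * A j i) = 0) :
    ∃ E0 : Fn V, Dec p B E0 ∧
      ∀ θ : ℕ, E0 (θ • z0 V) = EE p A c (fun _ => chi p) univ ∅ (θ • z0 κ) := by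
  obtain ⟨M, hM1, hM2⟩ : ∃ M : ℕ, (∀ j, (c j).natAbs + 1 ≤ M) ∧
      ∀ (θ : ℤ) (L : ι → ℕ) (j : κ), M < θ - ∑ i, (L i : ℤ) * A j i →
      EE p A c (fun _ => chi p) univ univ (fun j => θ - ∑ i, (L i : ℤ) * A j i) = 0 := by
    obtain ⟨M, hM⟩ := hph
    refine ⟨M + (∑ j, (c j).natAbs + 1), fun j => ?_, fun θ L j h => hM θ L j (by omega)⟩
    have := single_le_sum (f := fun j => (c j).natAbs) (fun _ _ => Nat.zero_le _) (mem_univ j)
    omega
  have hξ : ‖(p : ℂ)⁻¹‖ < 1 := by
    rw [norm_inv, Complex.norm_natCast]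
    exact inv_lt_one_of_one_lt₀ (by exact_mod_cast hp.out.one_lt)
  obtain ⟨G, hG⟩ : ∃ G : Finset V → Finset V → Fn V, ∀ W P z, G W P z =
    if ∀ v, z v ≤ M then alt (fun W' => Phi p A Q m c W' z) W P else 0 := ⟨_, fun _ _ _ => rfl⟩
  have hGb : ∀ W P, G W P ∈ (Bdd : Submodule ℂ (Fn V)) := by
    intro W P
    have h1 : ∑ P' ∈ P.powerset, ((-1 : ℂ) ^ #P') • Phi p A Q m c (W \ P') ∈
        (Bdd : Submodule ℂ (Fn V)) := by
      refine Submodule.sum_mem _ (fun P' _ => Submodule.smul_mem _ _ ?_)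
      obtain ⟨C, hC⟩ := EE_bdd (p := p) (A := A) (c := c) (fun _ => ker_chi) (kap Q (W \ P')) univ
      exact ⟨C, fun z => hC _⟩
    obtain ⟨C, hC⟩ := h1
    refine ⟨C, fun z => ?_⟩
    have h2 := hC z
    rw [hG]
    split_ifs
    · simpa [alt, Finset.sum_apply] using h2
    · rw [norm_zero]
      exact (norm_nonneg _).trans h2
  choose E hE1 hE2 using fun W P => bdd_surj_prod univ hξ (yv B) (hGb W P)
  refine ⟨E univ ∅, fun Z => ⟨fun J => E (univ \ J) (Z \ J), ?_, fun J hJ => ⟨hE1 _ _, ?_⟩⟩, ?_⟩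
  · rw [← sub_eq_zero]
    refine bdd_zero_prod univ (fun _ => (p : ℂ)⁻¹) (yv B) (fun _ _ => hξ)
      (Submodule.sub_mem _ (hE1 _ _) (Submodule.sum_mem _ (fun _ _ => hE1 _ _))) ?_
    rw [map_sub, map_sum, sub_eq_zero]
    simp only [hE2]
    ext z
    rw [Finset.sum_apply]
    simp only [hG]
    split_ifs
    · rw [sum_alt]
      simp [alt]
    · simp
  · intro T hT
    have hee : ∀ (z : Lat V) (a b : V), (z + ee a) b = z b + if b = a then 1 else 0 := by
      intro z a b
      simp [ee, Pi.single_apply]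
    obtain ⟨Ψ, hΨ⟩ : ∃ Ψ : Fn V, ∀ z, Ψ z = if ∀ v ∉ T, z v ≤ M then
      alt (fun W' => Phi p A Q m c W' z) ((univ \ J) \ T) (Z \ J) else 0 := ⟨_, fun _ => rfl⟩
    have hdrop : ∀ z : Lat V, (∀ v ∉ T, z v ≤ M) → ∀ v, z v ≤ -(m * M) → ∀ P',
        Phi p A Q m c (((univ \ J) \ T) \ P') z =
          Phi p A Q m c ((((univ \ J) \ T) \ P').erase v) z := fun z hz v hv P' =>
      Phi_drop hu (fun w hw => hz w (mem_sdiff.1 (mem_sdiff.1 hw).1).2) hv
    refine ⟨fun z => (∏ v ∈ T, DD p (z v) (c (e v)) / (p - 1)) * Ψ z, M + m * M + 1,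
      ⟨fun z j hz => ?_, fun z j hj hz => ?_, fun z j _ hz => ?_⟩, ?_⟩
    · have h0 : (0 : ℤ) ≤ m * M := by positivity
      by_cases hj : j ∈ T
      · have := hM1 (e j)
        rw [prod_eq_zero hj, zero_mul]
        rw [DD_eq_zero (hc _) (by omega), zero_div]
      · rw [hΨ, if_neg (fun h => by have := h j hj; omega), mul_zero]
    · rw [mem_compl, not_not] at hj
      rw [hΨ]
      split_ifs with h
      · rw [← insert_erase hj, alt_insert _ _ (notMem_erase _ _), alt, alt,
          sum_congr rfl (fun P' _ => by rw [hdrop z h j (by omega) P', ← erase_sdiff_comm]),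
          sub_self, mul_zero]
      · rw [mul_zero]
    · have h0 : (0 : ℤ) ≤ m * M := by positivity
      congr 1
      · refine prod_congr rfl (fun v _ => ?_)
        rw [hee]
        split_ifs with h
        · subst h
          rw [DD_of_nonpos (by omega), DD_of_nonpos (by omega)]
        · rw [add_zero]
      · have h1 : (∀ v ∉ T, (z + ee j : Lat V) v ≤ M) ↔ ∀ v ∉ T, z v ≤ M := by
          refine forall₂_congr (fun v _ => ?_)
          rw [hee]
          split_ifs with h
          · subst h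
            omega
          · rw [add_zero]
        rw [hΨ, hΨ]
        refine if_ctx_congr h1 (fun h => sum_congr rfl (fun P' _ => ?_)) (fun _ => rfl)
        simp only
        rw [hdrop z h j (by omega), hdrop _ (h1.2 h) j (by rw [hee, if_pos rfl]; omega),
          Phi_congr (z' := z) (fun v hv => by rw [hee, if_neg (mem_erase.1 hv).1, add_zero])]
    · rw [Complex.ofReal_natCast, hE2,
        act_prod_factor (p : ℂ) (fun v t => DD p t (c (e v)) / (p - 1)) T Ψ]
      · ext z
        have e1 : ∏ v ∈ T, ((p : ℂ) * (DD p (z v) (c (e v)) / (p - 1)) -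
            DD p (z v - 1) (c (e v)) / (p - 1)) = ∏ v ∈ T, gam p (z v) (c (e v)) :=
          prod_congr rfl (fun v _ => by rw [gam]; ring)
        rw [hG, hΨ, e1]
        by_cases h1 : ∀ v, z v ≤ M
        · rw [if_pos h1, if_pos (fun v _ => h1 v), alt, alt, mul_sum]
          refine sum_congr rfl (fun P' hP' => ?_)
          rw [Phi_factor_prod hu T (fun v hv => by
            have := (hT v hv).1
            have h2 := @hJ v
            have h3 := @mem_powerset.1 hP' v
            simp only [mem_sdiff, mem_univ, true_and] at h3 ⊢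
            tauto) (fun v hv => by
            obtain ⟨_, i, h2, h3⟩ := hT v hv
            exact ⟨i, h2, fun w hw => h3 w (mem_sdiff.1 (mem_sdiff.1 hw).1).2⟩), sdiff_right_comm]
          ring
        · rw [if_neg h1]
          push Not at h1
          obtain ⟨v, hv⟩ := h1
          by_cases hvT : v ∈ T
          · have := hM1 (e v)
            rw [prod_eq_zero hvT, zero_mul]
            rw [gam, DD_eq_zero (hc _) (by omega), DD_eq_zero (hc _) (by omega)]
            simp
          · rw [if_neg (fun h => by have := h v hvT; omega), mul_zero]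
      · intro j hj z
        have h1 : ∀ v ∉ T, (z - ee j : Lat V) v = z v := fun v hv => by
          have : v ≠ j := by rintro rfl; exact hv hj
          simp [ee, this]
        rw [hΨ, hΨ]
        refine if_congr (forall₂_congr (fun v hv => by rw [h1 v hv])) ?_ rfl
        refine sum_congr rfl (fun P' _ => ?_)
        simp only
        rw [Phi_congr (fun v hv => h1 v (mem_sdiff.1 (mem_sdiff.1 hv).1).2)]
  · have hm0 : (m : ℤ) ≠ 0 := by exact_mod_cast hu.pos.ne'
    have hs : ∀ j i, ∑ v, (Q j v : ℤ) * B v i = m * A j i := fun j i => by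
      exact_mod_cast (hu.sum j i).symm
    have hs1 : ∀ j, ∑ v, (Q j v : ℤ) = m := fun j => by exact_mod_cast hu.sum1 j
    have h1 : ∀ z i, hh Q m (z - yv B i) = hh Q m z - yv A i := by
      intro z i
      ext j
      simp only [hh, yv, Pi.sub_apply, mul_sub, sum_sub_distrib, hs]
      rw [Int.sub_mul_ediv_left _ _ hm0]
    have h2 : ∀ (s : Finset ι) (Θ : Fn κ), act (∏ i ∈ s, uu (p : ℂ)⁻¹ (yv B i))
        (fun z => Θ (hh Q m z)) = fun z => act (∏ i ∈ s, uu (p : ℂ)⁻¹ (yv A i)) Θ (hh Q m z) := by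
      intro s Θ
      induction s using Finset.induction_on with
      | empty => simp
      | insert i s hi ih =>
        ext z
        rw [prod_insert hi, prod_insert hi, act_mul, act_mul, ih, act_uu, act_uu, h1]
    have h3 : ∀ (θ : ℤ) (L : ι → ℕ), hh Q m (fun v => θ - ∑ i, (L i : ℤ) * B v i) =
        fun j => θ - ∑ i, (L i : ℤ) * A j i := by
      intro θ L
      ext j
      have : ∑ v, (Q j v : ℤ) * (θ - ∑ i, (L i : ℤ) * B v i) =
          m * (θ - ∑ i, (L i : ℤ) * A j i) := by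
        simp only [mul_sub, sum_sub_distrib, ← sum_mul, hs1, mul_sum]
        rw [sum_comm]
        congr 1
        refine sum_congr rfl (fun i _ => ?_)
        rw [mul_left_comm, ← hs, mul_sum]
        exact sum_congr rfl (fun v _ => by ring)
      rw [hh, this, Int.mul_ediv_cancel_left _ hm0]
    obtain ⟨C, hC⟩ := EE_bdd (p := p) (A := A) (c := c) (fun _ => ker_chi) univ ∅
    have h4 := bdd_vanish_prod univ hξ (yv B)
      {z | ∃ (θ : ℤ) (L : ι → ℕ), z = fun v => θ - ∑ i, (L i : ℤ) * B v i} (by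
        rintro i _ ⟨θ, L, rfl⟩
        refine ⟨θ, L + Pi.single i 1, ?_⟩
        ext v
        simp [yv, add_mul, sum_add_distrib, Pi.single_apply, sub_sub])
      (Submodule.sub_mem _ (hE1 univ ∅)
        (⟨C, fun z => hC _⟩ : (fun z => EE p A c (fun _ => chi p) univ ∅ (hh Q m z)) ∈
          (Bdd : Submodule ℂ (Fn V)))) (by
        rintro _ ⟨θ, L, rfl⟩
        have hk : kap Q univ = univ := by simp [kap]
        rw [map_sub, hE2, h2, EE_prod (fun _ => ker_chi), Pi.sub_apply, hG, sub_eq_zero]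
        split_ifs with h
        · simp [alt, Phi, hk]
        · push Not at h
          obtain ⟨v, hv⟩ := h
          rw [h3, hM2 θ L (e v) (by rw [hu.eA]; exact hv)])
    intro θ
    have h5 := h4 (θ • z0 V) ⟨θ, 0, by ext v; simp [z0]⟩
    have h6 : hh Q m (θ • z0 V) = θ • z0 κ := by
      ext j
      simp [hh, z0, ← sum_mul, hs1, Int.mul_ediv_cancel_left _ hm0]
    rw [Pi.sub_apply, sub_eq_zero, h6] at h5
    exact h5

end Pool.Agent.MP_5d9b3c_ag.H22
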