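import Pool.Agent.MP_5d9b3c_ag.H22.Model

/-!
Stationary phase, uniformly over all faces.
-/

namespace Pool.Agent.MP_5d9b3c_ag.H22

open Finset

lemma seq_alt {α : Type} [Fintype α] (F : ℕ → α → ℕ) :
    ∃ (S : Finset α) (n0 : ℕ), ∀ C, ∃ n, C ≤ n ∧ (∀ a ∈ S, F n a = F n0 a) ∧
      ∀ a ∉ S, C < F n a := by
  classical
  obtain ⟨U, hU⟩ : ∃ U : Ultrafilter ℕ, (U : Filter ℕ) ≤ Filter.atTop :=
    ⟨Filter.hyperfilter ℕ, Nat.hyperfilter_le_atTop⟩
  have h1 : ∀ a, ∃ k, (∃ C, ¬ ∀ᶠ n in U, C < F n a) → ∀ᶠ n in U, F n a = k := by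
    intro a
    by_cases h : ∃ C, ¬ ∀ᶠ n in U, C < F n a
    · obtain ⟨C, hC⟩ := h
      rw [← Ultrafilter.eventually_not] at hC
      obtain ⟨k, _, hk⟩ := (Ultrafilter.eventually_exists_mem_iff (Set.finite_Iic C)).1
        (hC.mono (fun n hn => ⟨F n a, not_lt.1 hn, rfl⟩) :
          ∀ᶠ n in U, ∃ k ∈ Set.Iic C, F n a = k)
      exact ⟨k, fun _ => hk⟩
    · exact ⟨0, fun h' => absurd h' h⟩
  choose k hk using h1
  obtain ⟨S, hS⟩ : ∃ S : Finset α, ∀ a, a ∈ S ↔ ∃ C, ¬ ∀ᶠ n in U, C < F n a :=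
    ⟨univ.filter (fun a => ∃ C, ¬ ∀ᶠ n in U, C < F n a), fun a => by
      simp only [mem_filter, mem_univ, true_and]⟩
  have h2 : ∀ᶠ n in U, ∀ a ∈ S, F n a = k a :=
    (Filter.eventually_all_finset S).2 (fun a ha => hk a ((hS a).1 ha))
  obtain ⟨n0, hn0⟩ := h2.exists
  refine ⟨S, n0, fun C => ?_⟩
  have h3 : ∀ᶠ n in U, ∀ a ∈ Sᶜ, C < F n a := (Filter.eventually_all_finset Sᶜ).2 (fun a ha => by
    by_contra h
    exact mem_compl.1 ha ((hS a).2 ⟨C, h⟩))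
  obtain ⟨n, h4, h5, h6⟩ := (((Filter.eventually_ge_atTop C).filter_mono hU).and (h2.and h3)).exists
  exact ⟨n, h4, fun a ha => by rw [h5 a ha, hn0 a ha], fun a ha => h6 a (mem_compl.2 ha)⟩

variable {κ ι : Type} [Fintype κ] [DecidableEq κ] [Fintype ι] [DecidableEq ι]

omit [Fintype ι] [DecidableEq ι] in
lemma clear_poly (q : MvPolynomial ι ℚ) : ∃ N : ℤ, N ≠ 0 ∧ ∀ x : ι → ℤ, ∃ t : ℤ,
    (t : ℚ) = N * MvPolynomial.aeval (fun i => (x i : ℚ)) q := by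
  induction q using MvPolynomial.induction_on with
  | C a => exact ⟨a.den, by exact_mod_cast a.den_ne_zero, fun _ => ⟨a.num, by simp⟩⟩
  | add a b ha hb =>
    obtain ⟨N, hN, h⟩ := ha
    obtain ⟨N', hN', h'⟩ := hb
    refine ⟨N * N', mul_ne_zero hN hN', fun x => ?_⟩
    obtain ⟨t, ht⟩ := h x
    obtain ⟨t', ht'⟩ := h' x
    refine ⟨N' * t + N * t', ?_⟩
    push_cast
    rw [ht, ht', map_add]
    ring
  | mul_X a i ha =>
    obtain ⟨N, hN, h⟩ := ha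
    refine ⟨N, hN, fun x => ?_⟩
    obtain ⟨t, ht⟩ := h x
    refine ⟨t * x i, ?_⟩
    push_cast
    rw [ht, map_mul, MvPolynomial.aeval_X]
    ring

omit [Fintype κ] [DecidableEq κ] [DecidableEq ι] in
lemma null_int {A : κ → ι → ℕ} {c : κ → ℤ} {J : Finset κ} (h : ND A (fun j => (c j : ℂ)) J) :
    ∃ (N : ℤ) (e : ℕ), N ≠ 0 ∧ ∀ (x : ι → ℤ) (D : ℤ),
      (∀ i, D ∣ ∑ j ∈ J, A j i * mon A c j x) → D ∣ N * (∏ i, x i) ^ e := by
  obtain ⟨P, hP⟩ : ∃ P : ι → MvPolynomial ι ℚ, ∀ i, P i =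
    ∑ j ∈ J, MvPolynomial.C ((c j : ℚ) * A j i) * ∏ i', MvPolynomial.X i' ^ A j i' :=
    ⟨_, fun _ => rfl⟩
  have hrad : (∏ i, MvPolynomial.X i : MvPolynomial ι ℚ) ∈ (Ideal.span (Set.range P)).radical := by
    rw [← MvPolynomial.vanishingIdeal_zeroLocus_eq_radical (K := ℂ), MvPolynomial.zeroLocus_span,
      MvPolynomial.mem_vanishingIdeal_iff]
    intro x hx
    by_contra h0
    simp only [map_prod, MvPolynomial.aeval_X, prod_eq_zero_iff, mem_univ, true_and,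
      not_exists] at h0
    obtain ⟨i, hi⟩ := h x h0
    have := hx _ ⟨i, rfl⟩
    rw [hP] at this
    simpa using hi (by simpa using this)
  obtain ⟨e, he⟩ := hrad
  obtain ⟨q, hq⟩ := Ideal.mem_span_range_iff_exists_fun.1 he
  choose N hN hN' using fun i => clear_poly (q i)
  refine ⟨∏ i, N i, e, prod_ne_zero_iff.2 (fun i _ => hN i), fun x D hD => ?_⟩
  classical
  choose t ht using fun i => hN' i x
  have h1 : (∏ i, N i) * (∏ i, x i) ^ e =
      ∑ i, (∏ i' ∈ univ.erase i, N i') * t i * ∑ j ∈ J, A j i * mon A c j x := by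
    have h2 := congrArg (MvPolynomial.aeval (fun i => (x i : ℚ))) hq
    simp only [map_sum, map_mul, map_pow, map_prod, MvPolynomial.aeval_X, hP,
      MvPolynomial.aeval_C] at h2
    have h3 : (((∏ i, N i) * (∏ i, x i) ^ e : ℤ) : ℚ) =
        ((∑ i, (∏ i' ∈ univ.erase i, N i') * t i * ∑ j ∈ J, A j i * mon A c j x : ℤ) : ℚ) := by
      push_cast
      rw [← h2, mul_sum]
      refine sum_congr rfl (fun i _ => ?_)
      rw [ht, ← mul_prod_erase _ _ (mem_univ i)]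
      have : ∑ j ∈ J, (A j i : ℚ) * (mon A c j x : ℤ) =
          ∑ j ∈ J, (algebraMap ℚ ℚ) (c j) * (algebraMap ℚ ℚ) (A j i) *
            ∏ i', (x i' : ℚ) ^ A j i' := by
        refine sum_congr rfl (fun j _ => ?_)
        simp only [mon, Algebra.algebraMap_self, RingHom.id_apply]
        push_cast
        ring
      rw [this]
      ring
    exact_mod_cast h3
  rw [h1]
  exact dvd_sum (fun i _ => (hD i).mul_left _)

/-- The set of monomials minimising a weight. -/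
def IsFace (A : κ → ι → ℕ) (w : ι → ℕ) (J : Finset κ) : Prop :=
  ∃ N : ℕ, (∀ j, N ≤ ∑ i, w i * A j i) ∧ ∀ j, j ∈ J ↔ ∑ i, w i * A j i = N

variable {p : ℕ} [hp : Fact p.Prime] {A : κ → ι → ℕ} {c : κ → ℤ}

lemma uniform_grad
    (hnd : ∀ w J, J.Nonempty → IsFace A w J → ND A (fun j => (c j : ℂ)) J) :
    ∃ M : ℕ, ∀ (L : ι → ℕ) (μ : ℕ) (k : κ → ℕ), (∀ j, ∑ i, L i * A j i = μ + k j) →
      (∃ j, k j = 0) → ∀ x : ι → ℤ, (∀ i, ¬ (p : ℤ) ∣ x i) →
      ∃ i, ¬ (p : ℤ) ^ M ∣ ∑ j, A j i * ((p : ℤ) ^ k j * mon A c j x) := by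
  by_contra hne
  push Not at hne
  choose L μ k h1 h2 x h3 h4 using hne
  obtain ⟨S, n0, hS⟩ := seq_alt (fun n => Sum.elim (L n) (k n))
  obtain ⟨J, hJ⟩ : ∃ J : Finset κ, ∀ j, j ∈ J ↔ Sum.inr j ∈ S :=
    ⟨univ.filter (fun j => Sum.inr j ∈ S), by simp⟩
  obtain ⟨n1, _, h5, h6⟩ := hS (∑ a, Sum.elim (L n0) (k n0) a)
  have h7 : ∀ a ∉ S, Sum.elim (L n0) (k n0) a < Sum.elim (L n1) (k n1) a := fun a ha =>
    lt_of_le_of_lt (single_le_sum (f := Sum.elim (L n0) (k n0)) (fun _ _ => Nat.zero_le _)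
      (mem_univ a)) (h6 a ha)
  have h8 : ∀ i, L n0 i ≤ L n1 i := fun i => by
    by_cases h : Sum.inl i ∈ S
    · exact (h5 _ h).ge
    · exact (h7 _ h).le
  have h9 : ∀ j, ∑ i, (L n1 i - L n0 i) * A j i + (μ n0 + k n0 j) = μ n1 + k n1 j := fun j => by
    rw [← h1, ← h1, ← sum_add_distrib]
    exact sum_congr rfl (fun i _ => by rw [← add_mul, Nat.sub_add_cancel (h8 i)])
  have h10 : ∀ j, (j ∈ J → k n1 j = k n0 j) ∧ (j ∉ J → k n0 j < k n1 j) := fun j =>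
    ⟨fun h => h5 _ ((hJ j).1 h), fun h => h7 (Sum.inr j) (fun h' => h ((hJ j).2 h'))⟩
  obtain ⟨j1, hj1⟩ := h2 n1
  have hj1' : j1 ∈ J := by
    by_contra h
    have := (h10 j1).2 h
    omega
  have h11 : ∀ j, μ n1 - μ n0 ≤ ∑ i, (L n1 i - L n0 i) * A j i ∧
      (j ∈ J ↔ ∑ i, (L n1 i - L n0 i) * A j i = μ n1 - μ n0) := fun j => by
    have := h9 j
    have := h9 j1
    have := (h10 j1).1 hj1'
    by_cases h : j ∈ J
    · have := (h10 j).1 h
      exact ⟨by omega, fun _ => by omega, fun _ => h⟩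
    · have := (h10 j).2 h
      exact ⟨by omega, fun h' => absurd h' h, fun _ => by omega⟩
  have hface := hnd (fun i => L n1 i - L n0 i) J ⟨j1, hj1'⟩
    ⟨μ n1 - μ n0, fun j => (h11 j).1, fun j => (h11 j).2⟩
  have hface' : ND A (fun j => (((p : ℤ) ^ k n0 j * c j : ℤ) : ℂ)) J := by
    intro y hy
    obtain ⟨i, hi⟩ := hface (fun i => (p : ℂ) ^ L n0 i * y i)
      (fun i => mul_ne_zero (pow_ne_zero _ p_ne_zero) (hy i))
    refine ⟨i, fun h => hi ?_⟩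
    rw [← mul_zero ((p : ℂ) ^ μ n0), ← h, mul_sum]
    refine sum_congr rfl (fun j _ => ?_)
    simp only [mul_pow, prod_mul_distrib, ← pow_mul, prod_pow_eq_pow_sum, h1, pow_add]
    push_cast
    ring
  obtain ⟨N, e, hN, hN'⟩ := null_int hface'
  obtain ⟨n, h11, h12, h13⟩ := hS N.natAbs
  have hpr := Nat.prime_iff_prime_int.1 hp.out
  have h14 := hN' (x n) ((p : ℤ) ^ N.natAbs) (fun i => by
    have h15 := (pow_dvd_pow _ h11).trans (h4 n i)
    rw [← sum_add_sum_compl J] at h15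
    have h16 : (p : ℤ) ^ N.natAbs ∣ ∑ j ∈ Jᶜ, A j i * ((p : ℤ) ^ k n j * mon A c j (x n)) :=
      dvd_sum (fun j hj => ((pow_dvd_pow _ (h13 (Sum.inr j) (fun h =>
        mem_compl.1 hj ((hJ j).2 h))).le).mul_right _).mul_left _)
    refine (congrArg _ (sum_congr rfl (fun j hj => ?_))).mp ((dvd_add_left h16).1 h15)
    have : k n j = k n0 j := h12 _ ((hJ j).1 hj)
    simp only [mon, this, mul_assoc])
  have h15 : IsCoprime ((p : ℤ) ^ N.natAbs) ((∏ i, x n i) ^ e) := by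
    refine (hpr.coprime_iff_not_dvd.2 ?_).pow
    simpa using not_dvd_prod_pow (h3 n) (fun _ => 1)
  have h16 := Int.natAbs_le_of_dvd_ne_zero (h15.dvd_of_dvd_mul_right h14) hN
  rw [Int.natAbs_pow, Int.natAbs_natCast] at h16
  have := Nat.lt_pow_self (n := N.natAbs) hp.out.one_lt
  omega

lemma mean_eq_zero_of_sum' {α : Type} {Φ : (ι → ℤ) → ℂ} (h : IsPer p Φ) (W : Finset α)
    (hW : W.Nonempty) (u : α → ι → ℤ) (hu : ∀ w ∈ W, ∀ i, ¬ (p : ℤ) ∣ u w i)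
    (h0 : ∀ x : ι → ℤ, ∑ w ∈ W, Φ (fun i => u w i * x i) = 0) : mean p Φ = 0 := by
  have h1 := mean_sum (p := p) W (Φ := fun w x => Φ (fun i => u w i * x i)) (fun w _ =>
    h.comp (fun x i => u w i * x i) (fun N x x' hx i => (hx i).mul_left _))
  simp only [h0, mean_const] at h1
  rw [sum_congr rfl (fun w hw => mean_scale h (u w) (hu w hw)), sum_const, nsmul_eq_mul] at h1
  have : (#W : ℂ) ≠ 0 := by exact_mod_cast hW.card_pos.ne'
  exact (mul_eq_zero.1 h1.symm).resolve_left this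

theorem phase (hnd : ∀ w J, J.Nonempty → IsFace A w J → ND A (fun j => (c j : ℂ)) J) :
    ∃ M : ℕ, ∀ (θ : ℤ) (L : ι → ℕ) (j : κ), M < θ - ∑ i, (L i : ℤ) * A j i →
      EE p A c (fun _ => chi p) univ univ (fun j => θ - ∑ i, (L i : ℤ) * A j i) = 0 := by
  obtain ⟨M, hM⟩ := uniform_grad (p := p) hnd
  refine ⟨2 * M + 2, fun θ L j0 hj0 => ?_⟩
  obtain ⟨j1, _, hj1⟩ := exists_min_image univ (fun j => ∑ i, L i * A j i) ⟨j0, mem_univ _⟩
  obtain ⟨μ, hμ⟩ : ∃ μ, μ = ∑ i, L i * A j1 i := ⟨_, rfl⟩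
  obtain ⟨k, hk⟩ : ∃ k : κ → ℕ, ∀ j, ∑ i, L i * A j i = μ + k j :=
    ⟨fun j => ∑ i, L i * A j i - μ, fun j => by
      have := hj1 j (mem_univ _)
      simp only
      omega⟩
  have hk' : ∀ j, θ - ∑ i, (L i : ℤ) * A j i = θ - μ - k j := fun j => by
    have : ∑ i, (L i : ℤ) * A j i = μ + k j := by exact_mod_cast hk j
    rw [this]
    ring
  obtain ⟨t, ht⟩ : ∃ t : ℕ, θ - μ = t := ⟨(θ - μ).toNat, by have := hk' j0; omega⟩
  obtain ⟨s, hs1, hs2, hs3⟩ : ∃ s : ℕ, t ≤ 2 * s ∧ M + s ≤ t ∧ 1 ≤ s :=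
    ⟨(t + 1) / 2, by omega, by have := hk' j0; omega, by have := hk' j0; omega⟩
  have hpr := Nat.prime_iff_prime_int.1 hp.out
  have hu : ∀ w : ℕ, ¬ (p : ℤ) ∣ 1 + (p : ℤ) ^ s * w := by
    intro w h
    have h1 : (p : ℤ) ∣ (p : ℤ) ^ s * w := (dvd_pow_self _ (by omega)).mul_right _
    exact hpr.not_dvd_one ((dvd_add_left h1).1 h)
  have hint : ∀ x, integrand p A c (fun _ => chi p) univ univ
      (fun j => θ - ∑ i, (L i : ℤ) * A j i) x =
      ind p univ x * chi p t (∑ j, (p : ℤ) ^ k j * mon A c j x) := fun x => by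
    simp only [integrand, chi_sum, ker_chi.shift_pow, hk', ht]
  refine mean_eq_zero_of_sum' (isPer_integrand (fun _ => ker_chi) _ _ _)
    (Fintype.piFinset (fun _ : ι => range (p ^ t)))
    ⟨0, by simpa using fun _ => pow_pos hp.out.pos _⟩
    (fun w i => 1 + (p : ℤ) ^ s * w i) (fun w _ i => hu _) (fun x => ?_)
  simp only [hint, ind_scale _ (fun i => hu _)]
  rw [← mul_sum]
  by_cases hx : ∀ i, ¬ (p : ℤ) ∣ x i
  · obtain ⟨i, hi⟩ := hM L μ k hk ⟨j1, by have := hk j1; omega⟩ x hx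
    obtain ⟨g, hg⟩ : ∃ g : ι → ℤ, ∀ i, g i = ∑ j, A j i * ((p : ℤ) ^ k j * mon A c j x) :=
      ⟨_, fun _ => rfl⟩
    have e1 : ∀ w : ι → ℕ,
        chi p t (∑ j, (p : ℤ) ^ k j * mon A c j (fun i => (1 + (p : ℤ) ^ s * w i) * x i)) =
        chi p t (∑ j, (p : ℤ) ^ k j * mon A c j x) * ∏ i, chi p t (w i * ((p : ℤ) ^ s * g i)) := by
      intro w
      rw [← chi_sum, ← chi_add]
      refine chi_congr (k := 2 * s) (by exact_mod_cast hs1) ?_
      choose r hr using fun j => prod_one_add_modEq univ ((p : ℤ) ^ s) (fun i => (w i : ℤ)) (A j)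
      refine (Int.modEq_iff_dvd.2 ⟨-∑ j, r j * ((p : ℤ) ^ k j * mon A c j x), ?_⟩)
      simp only [mon_scale, hr, hg, mul_sum, mul_neg]
      rw [sum_comm, ← sum_add_distrib, ← sum_sub_distrib, ← sum_neg_distrib]
      refine sum_congr rfl (fun j _ => ?_)
      rw [sum_congr rfl (g := fun i => (p : ℤ) ^ s * (w i * A j i) * ((p : ℤ) ^ k j * mon A c j x))
        (fun i _ => by ring), ← sum_mul]
      push_cast
      ring
    have hD : Ker p (DD p) := ⟨DD_p_mul, fun _ _ _ _ hz h => DD_congr hz h,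
      fun z a => (norm_DD z a).trans (by norm_num)⟩
    simp only [e1]
    rw [← mul_sum, ← prod_univ_sum (fun _ => range (p ^ t))
      (fun i (w : ℕ) => chi p t (w * ((p : ℤ) ^ s * g i))), prod_eq_zero (mem_univ i), mul_zero,
      mul_zero]
    rw [geom le_rfl, hD.shift_pow, DD, if_neg, mul_zero]
    exact fun h => hi (hg i ▸ (pow_dvd_pow _ (by omega)).trans h)
  · rw [ind_univ_eq_zero hx, zero_mul]

end Pool.Agent.MP_5d9b3c_ag.H22
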