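import Mathlib

/-!
Shift operators on functions on a lattice, and three spaces of functions: bounded functions,
functions supported in a half-space, functions vanishing far out along a ray.
-/

namespace Pool.Agent.MP_5d9b3c_ag.H22

open Finset

/-- The lattice. -/
abbrev Lat (κ : Type) : Type := κ → ℤ

/-- Functions on the lattice. -/
abbrev Fn (κ : Type) : Type := Lat κ → ℂ

/-- The group algebra of the lattice. -/
abbrev RR (κ : Type) : Type := AddMonoidAlgebra ℂ (Lat κ)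

variable {κ : Type}

/-- The shift operator. -/
def shiftL (v : Lat κ) : Module.End ℂ (Fn κ) where
  toFun Φ z := Φ (z - v)
  map_add' _ _ := rfl
  map_smul' _ _ := rfl

/-- Shifts as a monoid homomorphism. -/
def shiftHom : Multiplicative (Lat κ) →* Module.End ℂ (Fn κ) where
  toFun v := shiftL v.toAdd
  map_one' := by
    ext Φ z
    simp [shiftL]
  map_mul' v w := by
    ext Φ z
    simp [shiftL, sub_sub]

/-- The action of the group algebra on functions. -/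
noncomputable def act : RR κ →ₐ[ℂ] Module.End ℂ (Fn κ) :=
  AddMonoidAlgebra.lift ℂ (Module.End ℂ (Fn κ)) (Lat κ) shiftHom

/-- The monomial. -/
noncomputable def U (v : Lat κ) : RR κ := AddMonoidAlgebra.single v 1

lemma U_add (v w : Lat κ) : U (v + w) = U v * U w := by
  simp [U, AddMonoidAlgebra.single_mul_single]

lemma U_zero : U (0 : Lat κ) = 1 := rfl

lemma U_mul_neg (v : Lat κ) : U v * U (-v) = 1 := by
  rw [← U_add, add_neg_cancel, U_zero]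

lemma isUnit_U (v : Lat κ) : IsUnit (U v) :=
  IsUnit.of_mul_eq_one _ (U_mul_neg v)

lemma U_nsmul (n : ℕ) (v : Lat κ) : U (n • v) = U v ^ n := by
  induction n with
  | zero => simp [U_zero]
  | succ n ih => rw [succ_nsmul, U_add, ih, pow_succ]

lemma U_sum {ι : Type} (s : Finset ι) (v : ι → Lat κ) : U (∑ i ∈ s, v i) = ∏ i ∈ s, U (v i) := by
  classical
  induction s using Finset.induction_on with
  | empty => simp [U_zero]
  | insert a s ha ih => rw [sum_insert ha, prod_insert ha, U_add, ih]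

lemma act_U (v : Lat κ) (Φ : Fn κ) (z : Lat κ) : act (U v) Φ z = Φ (z - v) := by
  simp [act, U, AddMonoidAlgebra.lift_single, shiftHom, shiftL]

lemma act_mul (D D' : RR κ) (Φ : Fn κ) : act (D * D') Φ = act D (act D' Φ) := by
  rw [map_mul]; rfl

lemma act_comm (D D' : RR κ) (Φ : Fn κ) : act D (act D' Φ) = act D' (act D Φ) := by
  rw [← act_mul, ← act_mul, mul_comm]

lemma act_mem (W : Submodule ℂ (Fn κ)) (hW : ∀ v : Lat κ, ∀ Φ ∈ W, (fun z => Φ (z - v)) ∈ W)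
    (D : RR κ) (Φ : Fn κ) (hΦ : Φ ∈ W) : act D Φ ∈ W := by
  induction D using AddMonoidAlgebra.induction_linear with
  | zero => simp
  | add a b ha hb => rw [map_add]; exact W.add_mem ha hb
  | single v c =>
    have : (AddMonoidAlgebra.single v c : RR κ) = c • U v := by simp [U]
    rw [this, map_smul]
    refine W.smul_mem c ?_
    have h2 : act (U v) Φ = fun z => Φ (z - v) := by ext z; exact act_U v Φ z
    rw [h2]
    exact hW v Φ hΦ

/-- The element `1 - ξ U^x`. -/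
noncomputable def uu (ξ : ℂ) (x : Lat κ) : RR κ := 1 - ξ • U x

lemma act_uu (ξ : ℂ) (x : Lat κ) (Φ : Fn κ) (z : Lat κ) :
    act (uu ξ x) Φ z = Φ z - ξ * Φ (z - x) := by
  simp [uu, act_U]

/-- Bounded functions. -/
def Bdd : Submodule ℂ (Fn κ) where
  carrier := {Φ | ∃ C : ℝ, ∀ z, ‖Φ z‖ ≤ C}
  add_mem' := by
    rintro a b ⟨C, hC⟩ ⟨D, hD⟩
    exact ⟨C + D, fun z => (norm_add_le _ _).trans (add_le_add (hC z) (hD z))⟩
  zero_mem' := ⟨0, by simp⟩
  smul_mem' := by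
    rintro c a ⟨C, hC⟩
    refine ⟨‖c‖ * C, fun z => ?_⟩
    simp only [Pi.smul_apply, smul_eq_mul, norm_mul]
    exact mul_le_mul_of_nonneg_left (hC z) (norm_nonneg _)

lemma act_mem_Bdd (D : RR κ) {Φ : Fn κ} (h : Φ ∈ (Bdd : Submodule ℂ (Fn κ))) :
    act D Φ ∈ (Bdd : Submodule ℂ (Fn κ)) :=
  act_mem _ (by rintro v Φ ⟨C, hC⟩; exact ⟨C, fun z => hC _⟩) D Φ h

/-- Functions vanishing far out along every line in direction `z0`. -/
def Ray (z0 : Lat κ) : Submodule ℂ (Fn κ) where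
  carrier := {Φ | ∀ v, ∃ θ0 : ℕ, ∀ θ : ℕ, θ0 ≤ θ → Φ (v + θ • z0) = 0}
  add_mem' := by
    intro a b ha hb v
    obtain ⟨s, hs⟩ := ha v
    obtain ⟨t, ht⟩ := hb v
    refine ⟨max s t, fun θ hθ => ?_⟩
    rw [Pi.add_apply, hs θ (le_trans (le_max_left _ _) hθ), ht θ (le_trans (le_max_right _ _) hθ),
      add_zero]
  zero_mem' := fun _ => ⟨0, by simp⟩
  smul_mem' := by
    intro c a ha v
    obtain ⟨s, hs⟩ := ha v
    exact ⟨s, fun θ hθ => by rw [Pi.smul_apply, hs θ hθ, smul_zero]⟩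

lemma act_mem_Ray (z0 : Lat κ) (D : RR κ) {Φ : Fn κ} (h : Φ ∈ Ray z0) : act D Φ ∈ Ray z0 := by
  refine act_mem _ ?_ D Φ h
  intro v Φ hΦ w
  obtain ⟨s, hs⟩ := hΦ (w - v)
  refine ⟨s, fun θ hθ => ?_⟩
  have := hs θ hθ
  simpa [add_sub_right_comm] using this

lemma bdd_vanish {Θ : Fn κ} (hΘ : Θ ∈ (Bdd : Submodule ℂ (Fn κ))) {ξ : ℂ} (hξ : ‖ξ‖ < 1)
    {y : Lat κ} (Z : Set (Lat κ)) (hZ : ∀ z ∈ Z, z - y ∈ Z)
    (h : ∀ z ∈ Z, act (uu ξ y) Θ z = 0) : ∀ z ∈ Z, Θ z = 0 := by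
  obtain ⟨C, hC⟩ := hΘ
  have key : ∀ n : ℕ, ∀ z ∈ Z, ‖Θ z‖ ≤ ‖ξ‖ ^ n * C := by
    intro n
    induction n with
    | zero => intro z _; simpa using hC z
    | succ n ih =>
      intro z hz
      have h1 := h z hz
      rw [act_uu, sub_eq_zero] at h1
      rw [h1, norm_mul, pow_succ', mul_assoc]
      exact mul_le_mul_of_nonneg_left (ih _ (hZ z hz)) (norm_nonneg _)
  intro z hz
  have hlim : Filter.Tendsto (fun n : ℕ => ‖ξ‖ ^ n * C) Filter.atTop (nhds 0) := by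
    simpa using (tendsto_pow_atTop_nhds_zero_of_lt_one (norm_nonneg ξ) hξ).mul_const C
  have : ‖Θ z‖ ≤ 0 := ge_of_tendsto' hlim (fun n => key n z hz)
  exact norm_le_zero_iff.1 this

lemma bdd_zero_prod {ι : Type} (s : Finset ι) (ξ : ι → ℂ) (y : ι → Lat κ)
    (hξ : ∀ i ∈ s, ‖ξ i‖ < 1) {Θ : Fn κ} (hΘ : Θ ∈ (Bdd : Submodule ℂ (Fn κ)))
    (h : act (∏ i ∈ s, uu (ξ i) (y i)) Θ = 0) : Θ = 0 := by
  classical
  induction s using Finset.induction_on generalizing Θ with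
  | empty => simpa using h
  | insert a s ha ih =>
    rw [prod_insert ha, mul_comm, act_mul] at h
    have h1 := ih (fun i hi => hξ i (mem_insert_of_mem hi)) (act_mem_Bdd _ hΘ) h
    ext z
    exact bdd_vanish hΘ (hξ a (mem_insert_self _ _)) Set.univ (fun _ _ => trivial)
      (fun z _ => by rw [h1]; rfl) z trivial

variable [Fintype κ]

/-- Functions supported in a half-space. -/
def Half (η : Lat κ) : Submodule ℂ (Fn κ) where
  carrier := {Φ | ∃ C : ℤ, ∀ z, η ⬝ᵥ z < C → Φ z = 0}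
  add_mem' := by
    rintro a b ⟨C, hC⟩ ⟨D, hD⟩
    refine ⟨min C D, fun z hz => ?_⟩
    simp [hC z (lt_of_lt_of_le hz (min_le_left _ _)), hD z (lt_of_lt_of_le hz (min_le_right _ _))]
  zero_mem' := ⟨0, by simp⟩
  smul_mem' := by
    rintro c a ⟨C, hC⟩
    exact ⟨C, fun z hz => by simp [hC z hz]⟩

lemma act_mem_Half (η : Lat κ) (D : RR κ) {Φ : Fn κ} (h : Φ ∈ Half η) : act D Φ ∈ Half η := by
  refine act_mem _ ?_ D Φ h
  rintro v Φ ⟨C, hC⟩
  refine ⟨C + η ⬝ᵥ v, fun z hz => hC _ ?_⟩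
  rw [dotProduct_sub]
  omega

lemma Half_le_Ray {c z0 : Lat κ} (hc : 0 < c ⬝ᵥ z0) : Half (-c) ≤ Ray z0 := by
  rintro Φ ⟨C, hC⟩ v
  refine ⟨(-C - c ⬝ᵥ v).toNat + 1, fun θ hθ => hC _ ?_⟩
  rw [neg_dotProduct, dotProduct_add, dotProduct_smul, nsmul_eq_mul]
  have h1 : (θ : ℤ) ≤ θ * (c ⬝ᵥ z0) := by nlinarith
  omega

lemma bdd_half_prod {ι : Type} (s : Finset ι) (ξ : ι → ℂ) (y : ι → Lat κ) (η : Lat κ)
    (hξ : ∀ i ∈ s, ‖ξ i‖ < 1) (hy : ∀ i ∈ s, 0 ≤ η ⬝ᵥ y i) {Θ : Fn κ}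
    (hΘ : Θ ∈ (Bdd : Submodule ℂ (Fn κ)))
    (h : act (∏ i ∈ s, uu (ξ i) (y i)) Θ ∈ Half η) : Θ ∈ Half η := by
  classical
  induction s using Finset.induction_on generalizing Θ with
  | empty => simpa using h
  | insert a s ha ih =>
    rw [prod_insert ha, mul_comm, act_mul] at h
    obtain ⟨C, hC⟩ := ih (fun i hi => hξ i (mem_insert_of_mem hi))
      (fun i hi => hy i (mem_insert_of_mem hi)) (act_mem_Bdd _ hΘ) h
    refine ⟨C, bdd_vanish hΘ (hξ a (mem_insert_self _ _)) {z | η ⬝ᵥ z < C} ?_ hC⟩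
    intro z hz
    have := hy a (mem_insert_self _ _)
    simp only [Set.mem_ofPred_eq, dotProduct_sub] at hz ⊢
    omega

lemma half_inj {η x : Lat κ} (hx : 0 < η ⬝ᵥ x) (ξ : ℂ) {Φ : Fn κ} (hΦ : Φ ∈ Half η)
    (h : act (uu ξ x) Φ = 0) : Φ = 0 := by
  obtain ⟨C, hC⟩ := hΦ
  have key : ∀ n : ℕ, ∀ z, η ⬝ᵥ z < C + n → Φ z = 0 := by
    intro n
    induction n with
    | zero => intro z hz; exact hC z (by simpa using hz)
    | succ n ih =>
      intro z hz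
      have h1 := congrFun h z
      rw [act_uu, Pi.zero_apply, sub_eq_zero] at h1
      rw [h1, ih (z - x) (by rw [dotProduct_sub]; push_cast at hz; omega), mul_zero]
  ext z
  exact key ((η ⬝ᵥ z - C).toNat + 1) z (by push_cast; omega)

lemma half_inj_prod {ι : Type} (s : Finset ι) (ξ : ι → ℂ) (x : ι → Lat κ) {η : Lat κ}
    (hx : ∀ i ∈ s, 0 < η ⬝ᵥ x i) {Φ : Fn κ} (hΦ : Φ ∈ Half η)
    (h : act (∏ i ∈ s, uu (ξ i) (x i)) Φ = 0) : Φ = 0 := by
  classical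
  induction s using Finset.induction_on generalizing Φ with
  | empty => simpa using h
  | insert a s ha ih =>
    rw [prod_insert ha, mul_comm, act_mul] at h
    exact half_inj (hx a (mem_insert_self _ _)) _ hΦ
      (ih (fun i hi => hx i (mem_insert_of_mem hi)) (act_mem_Half _ _ hΦ) h)

lemma half_surj {η c x : Lat κ} (hx : 0 < η ⬝ᵥ x) (hc : c ⬝ᵥ x ≤ 0) (ξ : ℂ) {Φ : Fn κ}
    (hΦ : Φ ∈ Half η) (hΦ' : Φ ∈ Half (-c)) :
    ∃ Ξ, Ξ ∈ Half η ∧ Ξ ∈ Half (-c) ∧ act (uu ξ x) Ξ = Φ := by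
  obtain ⟨C, hC⟩ := hΦ
  obtain ⟨C', hC'⟩ := hΦ'
  have hdot : ∀ (w z : Lat κ) (l : ℕ), w ⬝ᵥ (z - l • x) = w ⬝ᵥ z - l * (w ⬝ᵥ x) := by
    intro w z l
    rw [dotProduct_sub, dotProduct_smul, nsmul_eq_mul]
  have hsum : ∀ (z : Lat κ) (N : ℕ), (η ⬝ᵥ z - C).toNat + 1 ≤ N →
      ∑' l : ℕ, ξ ^ l * Φ (z - l • x) = ∑ l ∈ range N, ξ ^ l * Φ (z - l • x) := by
    intro z N hN
    refine tsum_eq_sum (fun l hl => ?_)
    rw [mem_range, not_lt] at hl
    rw [hC _ ?_, mul_zero]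
    rw [hdot]
    have h1 : (l : ℤ) ≤ l * (η ⬝ᵥ x) := by nlinarith
    omega
  refine ⟨fun z => ∑' l : ℕ, ξ ^ l * Φ (z - l • x), ⟨C, fun z hz => ?_⟩, ⟨C', fun z hz => ?_⟩, ?_⟩
  · have : ∀ l : ℕ, ξ ^ l * Φ (z - l • x) = 0 := by
      intro l
      rw [hC _ ?_, mul_zero]
      rw [hdot]
      have h1 : 0 ≤ (l : ℤ) * (η ⬝ᵥ x) := by positivity
      omega
    simp only [this, tsum_zero]
  · have : ∀ l : ℕ, ξ ^ l * Φ (z - l • x) = 0 := by
      intro l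
      rw [hC' _ ?_, mul_zero]
      rw [hdot, neg_dotProduct c x]
      have h1 : 0 ≤ (l : ℤ) * (-(c ⬝ᵥ x)) := by
        apply mul_nonneg (by positivity); omega
      omega
    simp only [this, tsum_zero]
  · ext z
    rw [act_uu]
    set N := (η ⬝ᵥ z - C).toNat + (η ⬝ᵥ (z - x) - C).toNat + 1
    rw [hsum z (N + 1) (by omega), hsum (z - x) N (by omega), sum_range_succ', mul_sum]
    have : ∀ l ∈ range N, ξ ^ (l + 1) * Φ (z - (l + 1) • x) =
        ξ * (ξ ^ l * Φ (z - x - l • x)) := by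
      intro l _
      rw [succ_nsmul', ← sub_sub, pow_succ']
      ring
    rw [sum_congr rfl this]
    simp

lemma half_surj_prod {ι : Type} (s : Finset ι) (ξ : ι → ℂ) (x : ι → Lat κ) {η c : Lat κ}
    (hx : ∀ i ∈ s, 0 < η ⬝ᵥ x i) (hc : ∀ i ∈ s, c ⬝ᵥ x i ≤ 0) {Φ : Fn κ}
    (hΦ : Φ ∈ Half η) (hΦ' : Φ ∈ Half (-c)) :
    ∃ Ξ, Ξ ∈ Half η ∧ Ξ ∈ Half (-c) ∧ act (∏ i ∈ s, uu (ξ i) (x i)) Ξ = Φ := by
  classical
  induction s using Finset.induction_on generalizing Φ with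
  | empty => exact ⟨Φ, hΦ, hΦ', by simp⟩
  | insert a s ha ih =>
    obtain ⟨Ξ, h1, h2, h3⟩ := half_surj (hx a (mem_insert_self _ _))
      (hc a (mem_insert_self _ _)) (ξ a) hΦ hΦ'
    obtain ⟨Ξ', h4, h5, h6⟩ := ih (fun i hi => hx i (mem_insert_of_mem hi))
      (fun i hi => hc i (mem_insert_of_mem hi)) h1 h2
    exact ⟨Ξ', h4, h5, by rw [prod_insert ha, act_mul, h6, h3]⟩

/-- The ideal generated by the products over the vectors on which `c` is positive. -/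
noncomputable def supIdeal {ι : Type} (X : Finset ι) (ξ : ι → ℂ) (x : ι → Lat κ) (z0 : Lat κ) :
    Ideal (RR κ) :=
  Ideal.span {G | ∃ c : Lat κ, 0 < c ⬝ᵥ z0 ∧
    G = ∏ i ∈ X.filter (fun i => 0 < c ⬝ᵥ x i), uu (ξ i) (x i)}

/-- The key support lemma. -/
lemma key_support {ι : Type} (X : Finset ι) (ξ : ι → ℂ) (x : ι → Lat κ) (z0 η : Lat κ)
    (hx : ∀ i ∈ X, 0 < η ⬝ᵥ x i) {F Θ : Fn κ} (hF : ∀ c, F ∈ Half c) (hΘ : Θ ∈ Half η)
    {G : RR κ} (hG : G ∈ supIdeal X ξ x z0)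
    (h : act (∏ i ∈ X, uu (ξ i) (x i)) Θ = act G F) : Θ ∈ Ray z0 := by
  classical
  have key : ∀ G ∈ supIdeal X ξ x z0, ∃ Ξ, Ξ ∈ Half η ∧ Ξ ∈ Ray z0 ∧
      act (∏ i ∈ X, uu (ξ i) (x i)) Ξ = act G F := by
    intro G hG
    induction hG using Submodule.span_induction with
    | mem G hG =>
      obtain ⟨c, hc, rfl⟩ := hG
      obtain ⟨Ξ, h1, h2, h3⟩ := half_surj_prod (X.filter (fun i => ¬ 0 < c ⬝ᵥ x i)) ξ x
        (η := η) (c := c) (fun i hi => hx i (mem_filter.1 hi).1)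
        (fun i hi => not_lt.1 (mem_filter.1 hi).2) (hF η) (hF (-c))
      refine ⟨Ξ, h1, Half_le_Ray hc h2, ?_⟩
      rw [← prod_filter_mul_prod_filter_not X (fun i => 0 < c ⬝ᵥ x i), act_mul, h3]
    | zero => exact ⟨0, Submodule.zero_mem _, Submodule.zero_mem _, by simp⟩
    | add a b _ _ ha hb =>
      obtain ⟨Ξ, h1, h2, h3⟩ := ha
      obtain ⟨Ξ', h4, h5, h6⟩ := hb
      refine ⟨Ξ + Ξ', Submodule.add_mem _ h1 h4, Submodule.add_mem _ h2 h5, ?_⟩
      rw [map_add, h3, h6, map_add]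
      rfl
    | smul r a _ ha =>
      obtain ⟨Ξ, h1, h2, h3⟩ := ha
      refine ⟨act r Ξ, act_mem_Half _ _ h1, act_mem_Ray _ _ h2, ?_⟩
      rw [act_comm, h3, smul_eq_mul, act_mul]
  obtain ⟨Ξ, h1, h2, h3⟩ := key G hG
  have h4 : Θ - Ξ = 0 := by
    refine half_inj_prod X ξ x hx (Submodule.sub_mem _ hΘ h1) ?_
    rw [map_sub, h, h3, sub_self]
  rw [sub_eq_zero] at h4
  rw [h4]
  exact h2

variable [DecidableEq κ]

/-- The unit vector. -/
def ee (j : κ) : Lat κ := Pi.single j 1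

/-- Functions supported in a box in the directions outside `J`, and constant far down in the
directions in `J`. -/
structure Hcl (J : Finset κ) (M : ℤ) (Φ : Fn κ) : Prop where
  up : ∀ z j, M < z j → Φ z = 0
  low : ∀ z j, j ∉ J → z j < -M → Φ z = 0
  const : ∀ z j, j ∈ J → z j < -M → Φ (z + ee j) = Φ z

omit [Fintype κ] in
lemma Hcl.erase {J : Finset κ} {M : ℤ} {Φ : Fn κ} (h : Hcl J M Φ) {j : κ} (hj : j ∈ J) :
    Hcl (J.erase j) M (act (uu 1 (-ee j)) Φ) := by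
  have hee : ∀ (z : Lat κ) (a b : κ), (z + ee a) b = z b + if b = a then 1 else 0 := by
    intro z a b
    simp [ee, Pi.single_apply]
  refine ⟨fun z j' hz => ?_, fun z j' hj' hz => ?_, fun z j' hj' hz => ?_⟩
  · rw [act_uu, sub_neg_eq_add, h.up z j' hz, h.up _ j' (by rw [hee]; split_ifs <;> omega)]
    simp
  · rw [act_uu, sub_neg_eq_add]
    by_cases hjj : j' = j
    · subst hjj
      rw [h.const z j' hj hz]
      simp
    · have hj'' : j' ∉ J := fun h' => hj' (mem_erase.2 ⟨hjj, h'⟩)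
      rw [h.low z j' hj'' hz, h.low _ j' hj'' (by rw [hee, if_neg hjj]; omega)]
      simp
  · rw [mem_erase] at hj'
    rw [act_uu, act_uu, sub_neg_eq_add, sub_neg_eq_add, h.const z j' hj'.2 hz, add_right_comm,
      h.const _ j' hj'.2 (by rw [hee, if_neg hj'.1]; omega)]

omit [Fintype κ] in
lemma Hcl.sdiff {J : Finset κ} {M : ℤ} {Φ : Fn κ} (h : Hcl J M Φ) (T : Finset κ) (hT : T ⊆ J) :
    Hcl (J \ T) M (act (∏ j ∈ T, uu 1 (-ee j)) Φ) := by
  induction T using Finset.induction_on with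
  | empty => simpa using h
  | insert a T ha ih =>
    rw [prod_insert ha, act_mul, sdiff_insert]
    exact (ih (fun j hj => hT (mem_insert_of_mem hj))).erase
      (mem_sdiff.2 ⟨hT (mem_insert_self _ _), ha⟩)

lemma Hcl.mem_half {J : Finset κ} {M : ℤ} {Φ : Fn κ} (h : Hcl J M Φ) {η : Lat κ}
    (hη : ∀ j ∈ J, η j ≤ 0) : Φ ∈ Half η := by
  refine ⟨∑ j, -(|η j| * |M|), fun z hz => ?_⟩
  by_contra hne
  have h1 : ∀ j, z j ≤ M := fun j => not_lt.1 (fun hlt => hne (h.up z j hlt))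
  have h2 : ∀ j, j ∉ J → -M ≤ z j := fun j hj => not_lt.1 (fun hlt => hne (h.low z j hj hlt))
  refine absurd hz (not_lt.2 (sum_le_sum (fun j _ => ?_)))
  have h3 := le_abs_self M
  have h4 := h1 j
  by_cases hj : η j ≤ 0
  · rw [abs_of_nonpos hj]
    nlinarith
  · have h5 := h2 j (fun h' => hj (hη j h'))
    rw [abs_of_pos (not_le.1 hj)]
    nlinarith

end Pool.Agent.MP_5d9b3c_ag.H22
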