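import Pool.Agent.MP_5d9b3c_ag.H22.Shift

/-!
Passing from linear forms to binomials `1 - ξ U^x` near a point of the torus.
-/

namespace Pool.Agent.MP_5d9b3c_ag.H22

open Finset

section Exp

variable {B : Type} [CommRing B] [Algebra ℚ B]

lemma exp_eq_quad {a : B} (ha : IsNilpotent a) : ∃ w, IsNilpotent.exp a = 1 + a + a ^ 2 * w := by
  obtain ⟨k, hk⟩ := ha
  have hk2 : a ^ (k + 2) = 0 := by rw [pow_add, hk, zero_mul]
  refine ⟨∑ i ∈ range k, (((i + 2).factorial : ℚ)⁻¹) • a ^ i, ?_⟩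
  rw [IsNilpotent.exp_eq_sum hk2, sum_range_succ', sum_range_succ', mul_sum]
  have : ∀ i ∈ range k, (((i + 1 + 1).factorial : ℚ)⁻¹) • a ^ (i + 1 + 1) =
      a ^ 2 * ((((i + 2).factorial : ℚ)⁻¹) • a ^ i) := by
    intro i _
    rw [mul_smul_comm]
    congr 1
    ring
  rw [sum_congr rfl this]
  simp
  ring

lemma exp_sub_one_assoc {a : B} (ha : IsNilpotent a) : Associated a (IsNilpotent.exp a - 1) := by
  obtain ⟨w, hw⟩ := exp_eq_quad ha
  have hu : IsUnit (1 + a * w) :=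
    IsNilpotent.isUnit_one_add ((Commute.all a w).isNilpotent_mul_right ha)
  refine ⟨hu.unit, ?_⟩
  rw [hw, IsUnit.unit_spec]
  ring

lemma exists_log {w : B} (hw : IsNilpotent w) :
    ∃ l, IsNilpotent l ∧ IsNilpotent.exp l = 1 + w := by
  have key : ∀ n : ℕ, ∃ l, IsNilpotent l ∧ ∃ t, IsNilpotent.exp l = 1 + w + w ^ (n + 1) * t := by
    intro n
    induction n with
    | zero => exact ⟨0, IsNilpotent.zero, -1, by simp⟩
    | succ n ih =>
      obtain ⟨l, hl, t, ht⟩ := ih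
      have hd : IsNilpotent (-(w ^ (n + 1) * t)) := by
        rw [isNilpotent_neg_iff, pow_succ', mul_assoc]
        exact (Commute.all _ _).isNilpotent_mul_right hw
      obtain ⟨s, hs⟩ := exp_eq_quad hd
      refine ⟨l + -(w ^ (n + 1) * t), (Commute.all _ _).isNilpotent_add hl hd,
        -t - w ^ n * t ^ 2 + (1 + w + w ^ (n + 1) * t) * w ^ n * t ^ 2 * s, ?_⟩
      rw [IsNilpotent.exp_add_of_commute (Commute.all _ _) hl hd, ht, hs]
      ring
  obtain ⟨k, hk⟩ := hw
  obtain ⟨l, hl, t, ht⟩ := key k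
  exact ⟨l, hl, by rw [ht, pow_succ, hk]; simp⟩

lemma exp_nsmul {a : B} (ha : IsNilpotent a) (n : ℕ) :
    IsNilpotent.exp (n • a) = IsNilpotent.exp a ^ n := by
  induction n with
  | zero => simp
  | succ n ih =>
    rw [succ_nsmul, IsNilpotent.exp_add_of_commute (Commute.all _ _) (ha.smul n) ha, ih, pow_succ]

lemma exp_sum {ι : Type} (s : Finset ι) (a : ι → B) (ha : ∀ i ∈ s, IsNilpotent (a i)) :
    IsNilpotent.exp (∑ i ∈ s, a i) = ∏ i ∈ s, IsNilpotent.exp (a i) := by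
  classical
  induction s using Finset.induction_on with
  | empty => simp
  | insert j s hj ih =>
    rw [sum_insert hj, prod_insert hj, IsNilpotent.exp_add_of_commute (Commute.all _ _)
      (ha j (mem_insert_self _ _)) (isNilpotent_sum (fun i hi => ha i (mem_insert_of_mem hi))),
      ih (fun i hi => ha i (mem_insert_of_mem hi))]

end Exp

lemma krull {R : Type} [CommRing R] [IsNoetherianRing R] (m J : Ideal R) (π : R)
    (h : ∀ k : ℕ, Ideal.Quotient.mk (m ^ k) π ∈ J.map (Ideal.Quotient.mk (m ^ k))) :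
    ∃ r ∈ m, (1 - r) * π ∈ J := by
  have h1 : Ideal.Quotient.mk J π ∈ (⨅ i : ℕ, m ^ i • ⊤ : Submodule R (R ⧸ J)) := by
    rw [Submodule.mem_iInf]
    intro k
    have h2 := Ideal.mem_quotient_iff_mem_sup.1 (h k)
    obtain ⟨a, ha, b, hb, hab⟩ := Submodule.mem_sup.1 h2
    have h3 : Ideal.Quotient.mk J π = b • (1 : R ⧸ J) := by
      rw [← hab, map_add, Ideal.Quotient.eq_zero_iff_mem.2 ha, zero_add, Algebra.smul_def, mul_one]
      rfl
    rw [h3]
    exact Submodule.smul_mem_smul hb Submodule.mem_top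
  obtain ⟨r, hr⟩ := (Ideal.mem_iInf_smul_pow_eq_bot_iff m _).1 h1
  refine ⟨r, r.2, ?_⟩
  rw [← Ideal.Quotient.eq_zero_iff_mem, map_mul, map_sub, map_one, sub_mul, one_mul, sub_eq_zero]
  rw [Algebra.smul_def] at hr
  exact hr.symm

variable {κ : Type} [Fintype κ] [DecidableEq κ]

omit [Fintype κ] [DecidableEq κ] in
lemma ev_U_ne_zero (ev : RR κ →ₐ[ℂ] ℂ) (v : Lat κ) : ev (U v) ≠ 0 :=
  ((isUnit_U v).map ev).ne_zero

lemma lat_eq_sum (v : κ → ℕ) : (fun j => (v j : ℤ)) = ∑ j, v j • (ee j : Lat κ) := by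
  ext i
  simp [ee, Finset.sum_apply, Pi.single_apply]

lemma U_nat (v : κ → ℕ) : U (fun j => (v j : ℤ)) = ∏ j, U (ee j : Lat κ) ^ v j := by
  rw [lat_eq_sum, U_sum]
  simp only [U_nsmul]

/-- A truncated logarithmic chart at the point `ev`. -/
lemma exists_chart (ev : RR κ →ₐ[ℂ] ℂ) (p0 : κ → ℂ) (k : ℕ) :
    ∃ φ : MvPolynomial κ ℂ →ₐ[ℂ] (RR κ ⧸ (RingHom.ker ev) ^ k),
      (∀ g, MvPolynomial.eval p0 g ≠ 0 → IsUnit (φ g)) ∧
      ∀ (v : κ → ℕ) (t : ℂ), ∑ j, (v j : ℂ) * p0 j + t = 0 →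
        Associated (φ (∑ j, (v j : MvPolynomial κ ℂ) * MvPolynomial.X j + MvPolynomial.C t))
          (Ideal.Quotient.mk _ (uu (ev (U fun j => (v j : ℤ)))⁻¹ (fun j => (v j : ℤ)))) := by
  set I : Ideal (RR κ) := (RingHom.ker ev) ^ k with hI
  have hnil : ∀ r ∈ RingHom.ker ev, IsNilpotent (Ideal.Quotient.mk I r) := by
    intro r hr
    refine ⟨k, ?_⟩
    rw [← map_pow, Ideal.Quotient.eq_zero_iff_mem]
    exact Ideal.pow_mem_pow hr k
  have hlog : ∀ j : κ, ∃ l : RR κ ⧸ I, IsNilpotent l ∧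
      IsNilpotent.exp l = Ideal.Quotient.mk I ((ev (U (ee j)))⁻¹ • U (ee j)) := by
    intro j
    obtain ⟨l, hl, hl'⟩ := exists_log (hnil ((ev (U (ee j)))⁻¹ • U (ee j) - 1) (by
      rw [RingHom.mem_ker, map_sub, map_smul, map_one, smul_eq_mul,
        inv_mul_cancel₀ (ev_U_ne_zero ev _), sub_self]))
    exact ⟨l, hl, by rw [hl', map_sub, map_one]; ring⟩
  choose l hl hl' using hlog
  refine ⟨MvPolynomial.aeval (fun j => algebraMap ℂ _ (p0 j) + l j), fun g hg => ?_,
    fun v t hv => ?_⟩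
  · have h1 : ∀ g : MvPolynomial κ ℂ,
        IsNilpotent (MvPolynomial.aeval (fun j => algebraMap ℂ (RR κ ⧸ I) (p0 j) + l j) g -
          algebraMap ℂ (RR κ ⧸ I) (MvPolynomial.eval p0 g)) := by
      intro g
      induction g using MvPolynomial.induction_on with
      | C a => simp
      | add a b ha hb =>
        have := (Commute.all _ _).isNilpotent_add ha hb
        rw [map_add, map_add, map_add, add_sub_add_comm]
        exact this
      | mul_X a j ha =>
        have h2 := (Commute.all _ (algebraMap ℂ (RR κ ⧸ I) (p0 j) + l j)).isNilpotent_mul_right ha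
        have h3 := (Commute.all (algebraMap ℂ (RR κ ⧸ I) (MvPolynomial.eval p0 a))
          _).isNilpotent_mul_left (hl j)
        have := (Commute.all _ _).isNilpotent_add h2 h3
        have e : ∀ x y u w : RR κ ⧸ I, x * (u + w) - y * u = (x - y) * (u + w) + y * w := by
          intro x y u w
          ring
        rw [map_mul, map_mul, map_mul, MvPolynomial.aeval_X, MvPolynomial.eval_X, e]
        exact this
    have h2 : IsUnit (algebraMap ℂ (RR κ ⧸ I) (MvPolynomial.eval p0 g)) :=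
      (IsUnit.mk0 _ hg).map _
    have := (h1 g).isUnit_add_right_of_commute h2 (Commute.all _ _)
    simpa using this
  · have h1 : MvPolynomial.aeval (fun j => algebraMap ℂ (RR κ ⧸ I) (p0 j) + l j)
        (∑ j, (v j : MvPolynomial κ ℂ) * MvPolynomial.X j + MvPolynomial.C t) =
        ∑ j, v j • l j := by
      have h2 : algebraMap ℂ (RR κ ⧸ I) (∑ j, (v j : ℂ) * p0 j + t) = 0 := by rw [hv, map_zero]
      simp only [map_add, map_sum, map_mul, map_natCast, MvPolynomial.aeval_X,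
        MvPolynomial.aeval_C, nsmul_eq_mul, mul_add, sum_add_distrib] at h2 ⊢
      linear_combination h2
    rw [h1]
    have h3 : IsNilpotent (∑ j, v j • l j) := isNilpotent_sum (fun j _ => (hl j).smul _)
    refine (exp_sub_one_assoc h3).trans ?_
    rw [exp_sum _ _ (fun j _ => (hl j).smul _)]
    simp only [exp_nsmul (hl _), hl']
    have h4 : ∏ j, (Ideal.Quotient.mk I ((ev (U (ee j)))⁻¹ • U (ee j))) ^ v j =
        Ideal.Quotient.mk I ((ev (U fun j => (v j : ℤ)))⁻¹ • U (fun j => (v j : ℤ))) := by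
      rw [U_nat, map_prod ev, ← prod_inv_distrib, ← prod_smul, map_prod]
      refine prod_congr rfl (fun j _ => ?_)
      rw [← map_pow, smul_pow, map_pow ev, inv_pow]
    rw [h4, uu, map_sub, map_one]
    exact ⟨-1, by simp⟩

omit [Fintype κ] [DecidableEq κ] in
lemma uu_neg_assoc {ξ : ℂ} (hξ : ξ ≠ 0) (v : Lat κ) : Associated (uu ξ⁻¹ v) (uu ξ (-v)) := by
  have hu : IsUnit (-(ξ • U (-v))) := by
    rw [IsUnit.neg_iff, Algebra.smul_def]
    exact ((IsUnit.mk0 _ hξ).map _).mul (isUnit_U _)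
  refine ⟨hu.unit, ?_⟩
  rw [IsUnit.unit_spec, uu, uu, sub_mul, one_mul, mul_neg, smul_mul_smul_comm, U_mul_neg,
    inv_mul_cancel₀ hξ, one_smul]
  ring

end Pool.Agent.MP_5d9b3c_ag.H22
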